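import Pool.Agent.H43.Quad.Words

/-!
# From a solution of a quadratic equation to a cancellation system and back
-/

namespace Pool.H43.Quad

open FreeGroup

section Swap

variable {A Ω : Type*} [DecidableEq A] [DecidableEq Ω]

/-- Two different occurrences of the same variable. -/
def Pt (L : List ((A ⊕ Ω) × Bool)) (c0 : (A ⊕ Ω) × Bool) (k k' : ℕ) : Prop :=
  k < L.length ∧ k' < L.length ∧ k ≠ k' ∧
    ∃ X : Ω, (L.getD k c0).1 = Sum.inr X ∧ (L.getD k' c0).1 = Sum.inr X

variable {L : List ((A ⊕ Ω) × Bool)} {c0 : (A ⊕ Ω) × Bool}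

omit [DecidableEq A] [DecidableEq Ω] in
theorem Pt.symm {k k' : ℕ} (h : Pt L c0 k k') : Pt L c0 k' k := by
  obtain ⟨h1, h2, h3, X, h4, h5⟩ := h
  exact ⟨h2, h1, fun e => h3 e.symm, X, h5, h4⟩

/-- Every variable occurs at most twice. -/
def Quadr (L : List ((A ⊕ Ω) × Bool)) : Prop :=
  ∀ X : Ω, L.countP (fun p => decide (p.1 = Sum.inr X)) ≤ 2

theorem Pt.unique (hq : Quadr L) {k k' k'' : ℕ} (h : Pt L c0 k k') (h' : Pt L c0 k k'') :
    k' = k'' := by
  by_contra hne
  obtain ⟨h1, h2, h3, X, h4, h5⟩ := h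
  obtain ⟨_, h2', h3', X', h4', h5'⟩ := h'
  have hX : X' = X := by
    rw [h4] at h4'
    exact (Sum.inr.inj h4').symm
  subst hX
  have key : ∀ i j l : ℕ, i < j → j < l → l < L.length → (L.getD i c0).1 = Sum.inr X' →
      (L.getD j c0).1 = Sum.inr X' → (L.getD l c0).1 = Sum.inr X' → False := by
    intro i j l hij hjl hl e1 e2 e3
    have := countP_three L (fun p => decide (p.1 = Sum.inr X')) c0 hij hjl hl
      (by simpa using e1) (by simpa using e2) (by simpa using e3)
    have := hq X'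
    omega
  rcases lt_trichotomy k k' with a | a | a <;> rcases lt_trichotomy k k'' with b | b | b <;>
    rcases lt_trichotomy k' k'' with c | c | c <;> first
    | omega
    | exact key _ _ _ a c (by omega) h4 h5 h5'
    | exact key _ _ _ b c (by omega) h4 h5' h5
    | exact key _ _ _ a b (by omega) h5 h4 h5'
    | exact key _ _ _ b a (by omega) h5' h4 h5
    | exact key _ _ _ c a (by omega) h5' h5 h4
    | exact key _ _ _ c b (by omega) h5 h5' h4

open Classical in
/-- The partner occurrence. -/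
noncomputable def ptn (L : List ((A ⊕ Ω) × Bool)) (c0 : (A ⊕ Ω) × Bool) (k : ℕ) : ℕ :=
  if h : ∃ k', Pt L c0 k k' then h.choose else k

theorem ptn_eq (hq : Quadr L) {k k' : ℕ} (h : Pt L c0 k k') : ptn L c0 k = k' := by
  have hex : ∃ k', Pt L c0 k k' := ⟨k', h⟩
  rw [ptn, dif_pos hex]
  exact Pt.unique hq hex.choose_spec h

open Classical in
/-- The swap on factor indices. -/
noncomputable def phi (L : List ((A ⊕ Ω) × Bool)) (c0 : (A ⊕ Ω) × Bool) (k : ℕ) : ℕ :=
  if k < L.length then (if ∃ k', Pt L c0 k k' then ptn L c0 k else L.length + k)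
  else (if ∃ k', Pt L c0 (k - L.length) k' then L.length + ptn L c0 (k - L.length)
    else k - L.length)

open Classical in
/-- The sign of the swap. -/
noncomputable def eps (L : List ((A ⊕ Ω) × Bool)) (c0 : (A ⊕ Ω) × Bool) (k : ℕ) : ℤ :=
  if (L.getD (if k < L.length then k else k - L.length) c0).2 =
    (L.getD (ptn L c0 (if k < L.length then k else k - L.length)) c0).2 then 1 else -1

omit [DecidableEq A] [DecidableEq Ω] in
theorem ptn_none {k : ℕ} (h : ¬ ∃ k', Pt L c0 k k') : ptn L c0 k = k := by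
  rw [ptn, dif_neg h]

/-- Index in the single list. -/
def red' (n k : ℕ) : ℕ := if k < n then k else k - n

theorem phi_cases (hq : Quadr L) {k : ℕ} (hk : k < L.length + L.length) :
    (∃ k0 k', Pt L c0 k0 k' ∧ ((k = k0 ∧ phi L c0 k = k') ∨
      (k = L.length + k0 ∧ phi L c0 k = L.length + k'))) ∨
    (∃ k0, k0 < L.length ∧ (¬ ∃ k', Pt L c0 k0 k') ∧ ((k = k0 ∧ phi L c0 k = L.length + k0) ∨
      (k = L.length + k0 ∧ phi L c0 k = k0))) := by
  by_cases h1 : k < L.length
  · by_cases h2 : ∃ k', Pt L c0 k k'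
    · left
      obtain ⟨k', hk'⟩ := h2
      refine ⟨k, k', hk', Or.inl ⟨rfl, ?_⟩⟩
      rw [phi, if_pos h1, if_pos ⟨k', hk'⟩, ptn_eq hq hk']
    · right
      refine ⟨k, h1, h2, Or.inl ⟨rfl, ?_⟩⟩
      rw [phi, if_pos h1, if_neg h2]
  · by_cases h2 : ∃ k', Pt L c0 (k - L.length) k'
    · left
      obtain ⟨k', hk'⟩ := h2
      refine ⟨k - L.length, k', hk', Or.inr ⟨by omega, ?_⟩⟩
      rw [phi, if_neg h1, if_pos ⟨k', hk'⟩, ptn_eq hq hk']
    · right
      refine ⟨k - L.length, by omega, h2, Or.inr ⟨by omega, ?_⟩⟩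
      rw [phi, if_neg h1, if_neg h2]

open Classical in
omit [DecidableEq A] [DecidableEq Ω] in
theorem phi_lt {k0 : ℕ} (h1 : k0 < L.length) :
    phi L c0 k0 = (if ∃ k', Pt L c0 k0 k' then ptn L c0 k0 else L.length + k0) := by
  rw [phi, if_pos h1]

open Classical in
omit [DecidableEq A] [DecidableEq Ω] in
theorem phi_ge {k0 : ℕ} :
    phi L c0 (L.length + k0) =
      (if ∃ k', Pt L c0 k0 k' then L.length + ptn L c0 k0 else k0) := by
  rw [phi, if_neg (by omega), Nat.add_sub_cancel_left]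

theorem phi_props (hq : Quadr L) {k : ℕ} (hk : k < L.length + L.length) :
    phi L c0 k < L.length + L.length ∧ phi L c0 (phi L c0 k) = k ∧ phi L c0 k ≠ k := by
  rcases phi_cases (c0 := c0) hq hk with ⟨k0, k', hP, (⟨e1, e2⟩ | ⟨e1, e2⟩)⟩ |
    ⟨k0, hk0, hn, (⟨e1, e2⟩ | ⟨e1, e2⟩)⟩
  · have hP' := hP.symm
    obtain ⟨p1, p2, p3, _⟩ := hP
    refine ⟨by omega, ?_, by omega⟩
    rw [e2, phi_lt p2, if_pos ⟨k0, hP'⟩, ptn_eq hq hP', e1]
  · have hP' := hP.symm
    obtain ⟨p1, p2, p3, _⟩ := hP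
    refine ⟨by omega, ?_, by omega⟩
    rw [e2, phi_ge, if_pos ⟨k0, hP'⟩, ptn_eq hq hP', e1]
  · refine ⟨by omega, ?_, by omega⟩
    rw [e2, phi_ge, if_neg hn, e1]
  · refine ⟨by omega, ?_, by omega⟩
    rw [e2, phi_lt hk0, if_neg hn, e1]

/-- Letters at swapped indices. -/
theorem phi_letter (hq : Quadr L) {k : ℕ} (hk : k < L.length + L.length) :
    (eps L c0 k = 1 ∧ L.getD (red' L.length (phi L c0 k)) c0 = L.getD (red' L.length k) c0) ∨
    (eps L c0 k = -1 ∧ ∃ X b, L.getD (red' L.length k) c0 = (Sum.inr X, b) ∧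
      L.getD (red' L.length (phi L c0 k)) c0 = (Sum.inr X, !b)) := by
  have hP : ∀ k0 k', Pt L c0 k0 k' → eps L c0 k = (if (L.getD k0 c0).2 = (L.getD k' c0).2
      then 1 else -1) → red' L.length k = k0 → red' L.length (phi L c0 k) = k' →
      (eps L c0 k = 1 ∧ L.getD (red' L.length (phi L c0 k)) c0 = L.getD (red' L.length k) c0) ∨
      (eps L c0 k = -1 ∧ ∃ X b, L.getD (red' L.length k) c0 = (Sum.inr X, b) ∧
        L.getD (red' L.length (phi L c0 k)) c0 = (Sum.inr X, !b)) := by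
    rintro k0 k' ⟨_, _, _, X, x1, x2⟩ he r1 r2
    rw [r1, r2]
    by_cases hb : (L.getD k0 c0).2 = (L.getD k' c0).2
    · left
      rw [if_pos hb] at he
      exact ⟨he, Prod.ext (by rw [x1, x2]) hb.symm⟩
    · right
      rw [if_neg hb] at he
      refine ⟨he, X, (L.getD k0 c0).2, Prod.ext x1 rfl, Prod.ext x2 ?_⟩
      simp only
      cases h1 : (L.getD k0 c0).2 <;> cases h2 : (L.getD k' c0).2 <;> simp_all
  rcases phi_cases (c0 := c0) hq hk with ⟨k0, k', hPt, (⟨e1, e2⟩ | ⟨e1, e2⟩)⟩ |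
    ⟨k0, hk0, hn, (⟨e1, e2⟩ | ⟨e1, e2⟩)⟩
  · have p1 := hPt.1
    have p2 := hPt.2.1
    refine hP k0 k' hPt ?_ ?_ ?_
    · rw [eps, if_pos (show k < L.length by omega), e1, ptn_eq hq hPt]
    · rw [red', if_pos (by omega), e1]
    · rw [e2, red', if_pos p2]
  · have p1 := hPt.1
    have p2 := hPt.2.1
    refine hP k0 k' hPt ?_ ?_ ?_
    · rw [eps, if_neg (show ¬ k < L.length by omega), e1, Nat.add_sub_cancel_left, ptn_eq hq hPt]
    · rw [red', if_neg (by omega), e1, Nat.add_sub_cancel_left]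
    · rw [e2, red', if_neg (by omega), Nat.add_sub_cancel_left]
  · left
    constructor
    · rw [eps, if_pos (show k < L.length by omega), e1, ptn_none hn, if_pos rfl]
    · rw [e2, e1, red', if_neg (by omega), Nat.add_sub_cancel_left, red', if_pos hk0]
  · left
    constructor
    · rw [eps, if_neg (show ¬ k < L.length by omega), e1, Nat.add_sub_cancel_left, ptn_none hn,
        if_pos rfl]
    · rw [e2, e1, red', if_pos hk0, red', if_neg (by omega), Nat.add_sub_cancel_left]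

theorem eps_phi (hq : Quadr L) {k : ℕ} (hk : k < L.length + L.length) :
    eps L c0 (phi L c0 k) = eps L c0 k := by
  obtain ⟨h1, h2, _⟩ := phi_props (c0 := c0) hq hk
  have a := phi_letter (c0 := c0) hq hk
  have b := phi_letter (c0 := c0) hq h1
  rw [h2] at b
  rcases a with ⟨a1, a2⟩ | ⟨a1, X, c, a2, a3⟩ <;> rcases b with ⟨b1, b2⟩ | ⟨b1, Y, d, b2, b3⟩
  · rw [a1, b1]
  · exfalso
    rw [b2, b3] at a2
    have := congrArg Prod.snd a2
    simp at this
  · exfalso
    rw [a2, a3] at b2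
    have := congrArg Prod.snd b2
    simp at this
  · rw [a1, b1]

end Swap

end Pool.H43.Quad
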