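import Pool.Agent.H43.Quad.Region

/-!
# Good insertions from the absorption lemma
-/

namespace Pool.H43.Quad

open FreeGroup

section Gd

variable {A : Type*} [DecidableEq A] {N : Type*} [Monoid N] (L : Lab A N)

/-- The element `g` is absorbed by the right context `c`. -/
def Gd (c : List (A × Bool)) (g : FreeGroup A) : Prop :=
  IsReduced (g.toWord ++ c) ∧ L.μ (g.toWord ++ c) = L.μ c ∧ (g.toWord ++ c).head? = c.head?

theorem toWord_mk_of_isReduced {w : List (A × Bool)} (h : IsReduced w) : (mk w).toWord = w := by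
  rw [toWord_mk]
  exact (isReduced_iff_reduce_eq).mp h

omit [DecidableEq A] in
theorem head?_of_prefix {c w : List (A × Bool)} (hc : c ≠ []) (h : c <+: w) :
    w.head? = c.head? := by
  obtain ⟨s, rfl⟩ := h
  cases c with
  | nil => exact absurd rfl hc
  | cons a c => simp

theorem absorbG [Finite N] {X Y β γ : List (A × Bool)} (hβ : β ≠ []) (hγ : γ ≠ [])
    (hX : IsReduced (X ++ γ)) (hY : IsReduced (Y ++ β)) (pX : β <+: X ++ γ) (pY : γ <+: Y ++ β)
    (rX : rk (L.μ (X ++ γ)) = rk (L.μ β)) (rY : rk (L.μ (Y ++ β)) = rk (L.μ γ)) :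
    ∃ n0 : ℕ, 1 ≤ n0 ∧ ∀ n, Gd L β (mk (rep (n0 * n) (X ++ Y))) ∧
      IsReduced (rep (n0 * n) (X ++ Y)) := by
  obtain ⟨h1, h2, n0, h3, h4⟩ := absorb L hβ hγ hX hY pX pY rX rY
  refine ⟨n0, h3, ?_⟩
  intro n
  have hr : IsReduced (rep (n0 * n) (X ++ Y)) := isRed_sub (h1 (n0 * n)) ⟨[], β, by simp⟩
  refine ⟨⟨?_, ?_, ?_⟩, hr⟩
  · rw [toWord_mk_of_isReduced hr]; exact h1 _
  · rw [toWord_mk_of_isReduced hr]; exact h4 n
  · rw [toWord_mk_of_isReduced hr]; exact head?_of_prefix hβ (h2 _)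

/-- Absorption extends to longer contexts. -/
theorem Gd.extend {c c' : List (A × Bool)} {g : FreeGroup A} (h : Gd L c g) (hc : c ≠ [])
    (hr : IsReduced (c ++ c')) : Gd L (c ++ c') g := by
  obtain ⟨h1, h2, h3⟩ := h
  have h4 : IsReduced (g.toWord ++ (c ++ c')) := by
    rw [← List.append_assoc]; exact IsReduced.append_overlap h1 hr hc
  refine ⟨h4, ?_, ?_⟩
  · rw [← List.append_assoc] at h4 ⊢
    rw [L.μ_append _ _ h4, h2, ← L.μ_append _ _ hr]
  · rw [← List.append_assoc, List.head?_append, h3, ← List.head?_append]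

end Gd

namespace Sys

variable {A : Type*} {S : Sys A}

/-- Right context of the gap `t`. -/
def cR (S : Sys A) (t : ℤ) (m0 : ℕ) : List (A × Bool) := pl S t m0

/-- Left context of the gap `t`, read backwards. -/
def cL (S : Sys A) (t : ℤ) (m0 : ℕ) : List (A × Bool) := invRev (pl S (t - m0) m0)

theorem cR_ne {t : ℤ} {m0 : ℕ} (h : 1 ≤ m0) : cR S t m0 ≠ [] := by
  intro e
  have := congrArg List.length e
  rw [cR, pl_length] at this
  simp at this; omega

theorem cL_length (t : ℤ) (m0 : ℕ) : (cL S t m0).length = m0 := by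
  rw [cL, invRev_length, pl_length]

theorem cL_ne {t : ℤ} {m0 : ℕ} (h : 1 ≤ m0) : cL S t m0 ≠ [] := by
  intro e
  have := congrArg List.length e
  rw [cL_length] at this
  simp at this; omega

theorem cR_head {t : ℤ} {m0 : ℕ} (h : 1 ≤ m0) : (cR S t m0).head? = some (S.a t) := by
  obtain ⟨m0, rfl⟩ : ∃ k, m0 = k + 1 := ⟨m0 - 1, by omega⟩
  rw [cR, pl_succ]; rfl

theorem cL_head {t : ℤ} {m0 : ℕ} (h : 1 ≤ m0) :
    (cL S t m0).head? = some (inv (S.a (t - 1))) := by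
  obtain ⟨m0, rfl⟩ : ∃ k, m0 = k + 1 := ⟨m0 - 1, by omega⟩
  rw [cL, invRev_pl, List.range_succ_eq_map]
  simp

section

variable [DecidableEq A] {N : Type*} [Monoid N] {L : Lab A N}

theorem goodIns_iff {x : ℤ} {m0 : ℕ} (h : 1 ≤ m0) {g : FreeGroup A} :
    GoodIns S L x m0 g ↔ Gd L (cR S x m0) g ∧ Gd L (cL S x m0) g⁻¹ := by
  rw [GoodIns, Gd, Gd, cR_head h, cL_head h]
  rfl

variable {x : ℤ} {m n : ℕ}

omit [DecidableEq A] in
theorem Orb.ctx_gp (h : Orb S x m n) {k : ℕ} (hk : k ≤ n) (v : Bool) {m0 : ℕ} (hm0 : m0 ≤ m) :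
    (S.oo x k v = 1 → cR S (S.gp x k v) m0 = cR S x m0 ∧ cL S (S.gp x k v) m0 = cL S x m0) ∧
    (S.oo x k v = -1 → cR S (S.gp x k v) m0 = cL S x m0 ∧ cL S (S.gp x k v) m0 = cR S x m0) := by
  constructor
  · intro ho
    have hg : S.gp x k v = S.yy x k v := by simp [gp, ho]
    constructor
    · apply List.map_congr_left
      intro j hj
      rw [List.mem_range] at hj
      have := h.yy_letter hk v j (by omega) (by omega)
      rw [ho] at this
      rw [hg]; simpa using this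
    · simp only [cL]
      congr 1
      apply List.map_congr_left
      intro j hj
      rw [List.mem_range] at hj
      have := h.yy_letter hk v (j - m0) (by omega) (by omega)
      rw [ho] at this
      rw [hg, show S.yy x k v - m0 + (j : ℤ) = S.yy x k v + 1 * (j - m0) by ring, this, lp_one]
      congr 1; ring
  · intro ho
    have hg : S.gp x k v = S.yy x k v + 1 := by simp [gp, ho]
    constructor
    · rw [cL, invRev_pl]
      apply List.map_congr_left
      intro j hj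
      rw [List.mem_range] at hj
      have := h.yy_letter hk v (-1 - j) (by omega) (by omega)
      rw [ho] at this
      rw [hg, show S.yy x k v + 1 + (j : ℤ) = S.yy x k v + -1 * (-1 - j) by ring, this, lp_neg_one]
      congr 2; ring
    · rw [cL, invRev_pl]
      apply List.map_congr_left
      intro j hj
      rw [List.mem_range] at hj
      have := h.yy_letter hk v j (by omega) (by omega)
      rw [ho] at this
      rw [hg, show S.yy x k v + 1 - (m0 : ℤ) + m0 - 1 - (j : ℤ) = S.yy x k v + -1 * j by ring, this,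
        lp_neg_one, inv_inv']

/-- Transport of good insertions from the gap of a hit to the base. -/
theorem Orb.good_of_gp (h : Orb S x m n) {k : ℕ} (hk : k ≤ n) (v : Bool) {m0 : ℕ}
    (hm1 : 1 ≤ m0) (hm0 : m0 ≤ m) {g : FreeGroup A} (hg : GoodIns S L (S.gp x k v) m0 g) :
    GoodIns S L x m0 (gpow (S.oo x k v) g) := by
  rw [goodIns_iff hm1] at hg ⊢
  obtain ⟨c1, c2⟩ := h.ctx_gp hk v hm0
  rcases S.oo_pm x k v with ho | ho
  · obtain ⟨d1, d2⟩ := c1 ho
    rw [d1, d2] at hg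
    rw [ho]; simpa [gpow] using hg
  · obtain ⟨d1, d2⟩ := c2 ho
    rw [d1, d2] at hg
    rw [ho]
    simp only [gpow]
    norm_num
    exact ⟨hg.2, hg.1⟩

end

/-! ### Regions of constant rank -/

/-- A region inside one factor where long words have constant rank. -/
structure Reg (S : Sys A) {N : Type*} [Monoid N] (L : Lab A N) (z0 z1 : ℤ) (m0 ρ : ℕ) : Prop where
  m1 : 1 ≤ m0
  nonneg : 0 ≤ z0
  le_M : z1 ≤ S.M
  inn : ∀ t, z0 ≤ t → t + 1 < z1 → S.inner t
  rank : ∀ (i : ℤ) (n : ℕ), z0 ≤ i → i + n ≤ z1 → m0 ≤ n → rk (L.μ (pl S i n)) = ρ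

section

variable {N : Type*} [Monoid N] {L : Lab A N} {z0 z1 : ℤ} {m0 ρ : ℕ}

theorem Reg.red (hR : Reg S L z0 z1 m0 ρ) {i : ℤ} {n : ℕ} (h1 : z0 ≤ i) (h2 : i + n ≤ z1) :
    IsReduced (pl S i n) :=
  pl_isReduced i n (fun t h3 h4 => hR.inn t (by omega) (by omega))

theorem pl_prefix (i : ℤ) {n k : ℕ} (h : k ≤ n) : pl S i k <+: pl S i n := by
  obtain ⟨d, rfl⟩ := Nat.exists_eq_add_of_le h
  rw [pl_append]
  exact List.prefix_append _ _

theorem pl_add_eq (i j : ℤ) (n k l : ℕ) (h : j = i + n) (hl : l = n + k) :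
    pl S i n ++ pl S j k = pl S i l := by
  subst h; subst hl; rw [pl_append]

theorem invRev_prefix {i j : ℤ} {n k : ℕ} (h : i ≤ j) (h' : j + k = i + n) :
    invRev (pl S j k) <+: invRev (pl S i n) := by
  obtain ⟨d, rfl⟩ : ∃ d : ℕ, j = i + d := ⟨(j - i).toNat, by omega⟩
  rw [← pl_add_eq i (i + d) d k n rfl (by omega), invRev_append]
  exact List.prefix_append _ _

theorem Reg.rank' (hR : Reg S L z0 z1 m0 ρ) {i : ℤ} {n : ℕ} (h1 : z0 ≤ i) (h2 : i + n ≤ z1)
    (h3 : m0 ≤ n) : rk (L.μ (invRev (pl S i n))) = ρ := by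
  rw [L.μ_inv, L.rk_st, hR.rank i n h1 h2 h3]

variable [Finite N] [DecidableEq A]

/-- Good insertions for two equally oriented gaps. -/
theorem Reg.good2 (hR : Reg S L z0 z1 m0 ρ) {t1 t2 : ℤ} (h12 : t1 < t2) (h1 : z0 + m0 ≤ t1)
    (h2 : t2 + m0 ≤ z1) (hc : cR S t1 m0 = cR S t2 m0) (hd : cL S t1 m0 = cL S t2 m0) :
    ∃ n0 : ℕ, 1 ≤ n0 ∧ ∀ n,
      GoodIns S L t1 m0 (FreeGroup.mk (rep (n0 * n) (pl S t1 (t2 - t1).toNat))) ∧
      GoodIns S L t2 m0 (FreeGroup.mk (rep (n0 * n) (pl S t1 (t2 - t1).toNat))) ∧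
      IsReduced (rep (n0 * n) (pl S t1 (t2 - t1).toNat)) := by
  have hm1 := hR.m1
  obtain ⟨d, rfl⟩ : ∃ d : ℕ, t2 = t1 + d := ⟨(t2 - t1).toNat, by omega⟩
  rw [show (t1 + (d : ℤ) - t1).toNat = d by omega]
  have e1 : pl S t1 d ++ cR S t1 m0 = pl S t1 (d + m0) := by
    rw [hc]; exact pl_add_eq _ _ _ _ _ rfl rfl
  have e2 : invRev (pl S t1 d) ++ cL S t1 m0 = invRev (pl S (t1 - m0) (m0 + d)) := by
    rw [cL, ← invRev_append]
    congr 1
    exact pl_add_eq _ _ _ _ _ (by ring) rfl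
  obtain ⟨a0, a1, a2⟩ := absorbG L (X := pl S t1 d) (Y := []) (β := cR S t1 m0)
    (γ := cR S t1 m0) (cR_ne hm1) (cR_ne hm1)
    (by rw [e1]; exact hR.red (by omega) (by push_cast; omega))
    (by rw [List.nil_append]; exact hR.red (by omega) (by omega))
    (by rw [e1]; exact pl_prefix _ (by omega)) (by simp)
    (by rw [e1, hR.rank _ _ (by omega) (by push_cast; omega) (by omega), cR,
      hR.rank _ _ (by omega) (by omega) (by omega)])
    (by simp)
  obtain ⟨b0, b1, b2⟩ := absorbG L (X := invRev (pl S t1 d)) (Y := []) (β := cL S t1 m0)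
    (γ := cL S t1 m0) (cL_ne hm1) (cL_ne hm1)
    (by rw [e2]; exact isReduced_invRev (hR.red (by omega) (by push_cast; omega)))
    (by rw [List.nil_append]; exact isReduced_invRev (hR.red (by omega) (by omega)))
    (by rw [e2, hd, cL]; exact invRev_prefix (by omega) (by push_cast; ring)) (by simp)
    (by rw [e2, hR.rank' (by omega) (by push_cast; omega) (by omega), cL,
      hR.rank' (by omega) (by omega) (by omega)])
    (by simp)
  refine ⟨a0 * b0, Nat.mul_pos a1 b1, ?_⟩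
  intro n
  have ga := a2 (b0 * n)
  have gb := b2 (a0 * n)
  rw [List.append_nil, ← mul_assoc] at ga
  rw [List.append_nil, ← mul_assoc, mul_comm b0 a0] at gb
  have hinv : (FreeGroup.mk (rep (a0 * b0 * n) (pl S t1 d)))⁻¹ =
      FreeGroup.mk (rep (a0 * b0 * n) (invRev (pl S t1 d))) := by
    rw [mk_rep, mk_rep, ← inv_pow, inv_mk]
  have hg1 : GoodIns S L t1 m0 (FreeGroup.mk (rep (a0 * b0 * n) (pl S t1 d))) := by
    rw [goodIns_iff hm1]
    exact ⟨ga.1, by rw [hinv]; exact gb.1⟩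
  refine ⟨hg1, ?_, ga.2⟩
  rw [goodIns_iff hm1] at hg1 ⊢
  rw [← hc, ← hd]
  exact hg1

/-- Good insertions for two reversing strands. -/
theorem Reg.good4 (hR : Reg S L z0 z1 m0 ρ) {l p w r : ℤ} (hlp : l < p) (hlw : l < w)
    (hpr : p < r) (hwr : w < r) (h1 : z0 + m0 ≤ l) (h2 : r + m0 ≤ z1)
    (c1 : cR S l m0 = cL S p m0) (c2 : cL S l m0 = cR S p m0)
    (c3 : cR S w m0 = cL S r m0) (c4 : cL S w m0 = cR S r m0) :
    ∃ n0 : ℕ, 1 ≤ n0 ∧ ∀ n,
      GoodIns S L p m0 (FreeGroup.mk (rep (n0 * n)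
        (pl S p (r - p).toNat ++ invRev (pl S l (w - l).toNat)))) ∧
      GoodIns S L w m0 (FreeGroup.mk (rep (n0 * n)
        (invRev (pl S p (r - p).toNat) ++ pl S l (w - l).toNat))) ∧
      IsReduced (rep (n0 * n) (pl S p (r - p).toNat ++ invRev (pl S l (w - l).toNat))) ∧
      IsReduced (rep (n0 * n) (invRev (pl S p (r - p).toNat) ++ pl S l (w - l).toNat)) := by
  have hm1 := hR.m1
  obtain ⟨dp, hdp⟩ : ∃ d : ℕ, w = l + d := ⟨(w - l).toNat, by omega⟩
  obtain ⟨ds, hds⟩ : ∃ d : ℕ, r = p + d := ⟨(r - p).toNat, by omega⟩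
  rw [show (w - l).toNat = dp by omega, show (r - p).toNat = ds by omega]
  set P := pl S l dp with hP
  set Sw := pl S p ds with hSw
  -- the four basic facts
  have e1 : P ++ cR S w m0 = pl S l (dp + m0) := pl_add_eq _ _ _ _ _ hdp rfl
  have e2 : invRev Sw ++ cR S l m0 = invRev (pl S (p - m0) (m0 + ds)) := by
    rw [c1, cL, ← invRev_append]
    congr 1
    exact pl_add_eq _ _ _ _ _ (by ring) rfl
  have e3 : Sw ++ cR S r m0 = pl S p (ds + m0) := pl_add_eq _ _ _ _ _ hds rfl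
  have e4 : invRev P ++ cR S p m0 = invRev (pl S (l - m0) (m0 + dp)) := by
    rw [← c2, cL, ← invRev_append]
    congr 1
    exact pl_add_eq _ _ _ _ _ (by ring) rfl
  have F1 : IsReduced (P ++ cR S w m0) ∧ cR S l m0 <+: P ++ cR S w m0 ∧
      rk (L.μ (P ++ cR S w m0)) = rk (L.μ (cR S l m0)) := by
    rw [e1]
    refine ⟨hR.red (by omega) (by push_cast; omega), pl_prefix _ (by omega), ?_⟩
    rw [hR.rank _ _ (by omega) (by push_cast; omega) (by omega), cR,
      hR.rank _ _ (by omega) (by omega) (by omega)]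
  have F2 : IsReduced (invRev Sw ++ cR S l m0) ∧ cR S w m0 <+: invRev Sw ++ cR S l m0 ∧
      rk (L.μ (invRev Sw ++ cR S l m0)) = rk (L.μ (cR S w m0)) := by
    rw [e2]
    refine ⟨isReduced_invRev (hR.red (by omega) (by push_cast; omega)), ?_, ?_⟩
    · rw [c3, cL]; exact invRev_prefix (by omega) (by push_cast; omega)
    · rw [hR.rank' (by omega) (by push_cast; omega) (by omega), cR,
        hR.rank _ _ (by omega) (by omega) (by omega)]
  have F3 : IsReduced (Sw ++ cR S r m0) ∧ cR S p m0 <+: Sw ++ cR S r m0 ∧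
      rk (L.μ (Sw ++ cR S r m0)) = rk (L.μ (cR S p m0)) := by
    rw [e3]
    refine ⟨hR.red (by omega) (by push_cast; omega), pl_prefix _ (by omega), ?_⟩
    rw [hR.rank _ _ (by omega) (by push_cast; omega) (by omega), cR,
      hR.rank _ _ (by omega) (by omega) (by omega)]
  have F4 : IsReduced (invRev P ++ cR S p m0) ∧ cR S r m0 <+: invRev P ++ cR S p m0 ∧
      rk (L.μ (invRev P ++ cR S p m0)) = rk (L.μ (cR S r m0)) := by
    rw [e4]
    refine ⟨isReduced_invRev (hR.red (by omega) (by push_cast; omega)), ?_, ?_⟩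
    · rw [← c4, cL]; exact invRev_prefix (by omega) (by push_cast; omega)
    · rw [hR.rank' (by omega) (by push_cast; omega) (by omega), cR,
        hR.rank _ _ (by omega) (by omega) (by omega)]
  obtain ⟨n1, n1p, g1⟩ := absorbG L (X := P) (Y := invRev Sw) (cR_ne (S := S) (t := l) hm1)
    (cR_ne (S := S) (t := w) hm1) F1.1 F2.1 F1.2.1 F2.2.1 F1.2.2 F2.2.2
  obtain ⟨n2, n2p, g2⟩ := absorbG L (X := Sw) (Y := invRev P) (cR_ne (S := S) (t := p) hm1)
    (cR_ne (S := S) (t := r) hm1) F3.1 F4.1 F3.2.1 F4.2.1 F3.2.2 F4.2.2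
  obtain ⟨n3, n3p, g3⟩ := absorbG L (X := invRev Sw) (Y := P) (cR_ne (S := S) (t := w) hm1)
    (cR_ne (S := S) (t := l) hm1) F2.1 F1.1 F2.2.1 F1.2.1 F2.2.2 F1.2.2
  obtain ⟨n4, n4p, g4⟩ := absorbG L (X := invRev P) (Y := Sw) (cR_ne (S := S) (t := r) hm1)
    (cR_ne (S := S) (t := p) hm1) F4.1 F3.1 F4.2.1 F3.2.1 F4.2.2 F3.2.2
  refine ⟨n1 * n2 * n3 * n4,
    Nat.mul_pos (Nat.mul_pos (Nat.mul_pos n1p n2p) n3p) n4p, ?_⟩
  intro n
  have h1' := g1 (n2 * n3 * n4 * n)
  have h2' := g2 (n1 * n3 * n4 * n)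
  have h3' := g3 (n1 * n2 * n4 * n)
  have h4' := g4 (n1 * n2 * n3 * n)
  rw [show n1 * (n2 * n3 * n4 * n) = n1 * n2 * n3 * n4 * n by ring] at h1'
  rw [show n2 * (n1 * n3 * n4 * n) = n1 * n2 * n3 * n4 * n by ring] at h2'
  rw [show n3 * (n1 * n2 * n4 * n) = n1 * n2 * n3 * n4 * n by ring] at h3'
  rw [show n4 * (n1 * n2 * n3 * n) = n1 * n2 * n3 * n4 * n by ring] at h4'
  have i1 : (FreeGroup.mk (rep (n1 * n2 * n3 * n4 * n) (Sw ++ invRev P)))⁻¹ =
      FreeGroup.mk (rep (n1 * n2 * n3 * n4 * n) (P ++ invRev Sw)) := by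
    rw [mk_rep, mk_rep, ← inv_pow, inv_mk, invRev_append, invRev_invRev]
  have i2 : (FreeGroup.mk (rep (n1 * n2 * n3 * n4 * n) (invRev Sw ++ P)))⁻¹ =
      FreeGroup.mk (rep (n1 * n2 * n3 * n4 * n) (invRev P ++ Sw)) := by
    rw [mk_rep, mk_rep, ← inv_pow, inv_mk, invRev_append, invRev_invRev]
  refine ⟨?_, ?_, h2'.2, h3'.2⟩
  · rw [goodIns_iff hm1, i1, ← c1]
    exact ⟨h2'.1, h1'.1⟩
  · rw [goodIns_iff hm1, i2, c4]
    exact ⟨h3'.1, h4'.1⟩

end

end Sys

end Pool.H43.Quad
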