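import Pool.Agent.H43.Quad.FacExists
import Pool.Agent.H43.Quad.Good

/-!
# Reassembling a pumped solution
-/

namespace Pool.H43.Quad

open FreeGroup

section

variable {A Ω : Type*} [DecidableEq A] [DecidableEq Ω]

omit [DecidableEq A] in
theorem invRev_rep (n : ℕ) (p : List (A × Bool)) : invRev (rep n p) = rep n (invRev p) := by
  induction n with
  | zero => rfl
  | succ n ih => rw [rep_succ, invRev_append, ih, rep_succ']

omit [DecidableEq A] in
theorem invRev_infix {u v : List (A × Bool)} (h : u <:+: v) : invRev u <:+: invRev v := by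
  obtain ⟨s, t, rfl⟩ := h
  refine ⟨invRev t, invRev s, ?_⟩
  rw [invRev_append, invRev_append, List.append_assoc]

omit [DecidableEq A] in
theorem map_range_getD {C D : Type*} (l : List C) (c0 : C) (v : C → D) :
    (List.range l.length).map (fun k => v (l.getD k c0)) = l.map v := by
  apply List.ext_getElem
  · simp
  · intro i h1 h2
    simp only [List.getElem_map, List.getElem_range]
    rw [List.getD_eq_getElem _ _ (by simpa using h2)]

theorem build_assemble {N : Type*} [Monoid N] (L : Lab A N) (W : FreeGroup (A ⊕ Ω))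
    (hq : Quadr W.toWord) (σ : FreeGroup (A ⊕ Ω) →* FreeGroup A)
    (hc : ∀ a, σ (of (Sum.inl a)) = of a) (h1 : σ W = 1)
    (X : Ω) (hX : ∃ b, (Sum.inr X, b) ∈ W.toWord) (hne : σ (of (Sum.inr X)) ≠ 1)
    (hmax : ∀ Y, (∃ b, (Sum.inr Y, b) ∈ W.toWord) →
      (σ (of (Sum.inr Y))).toWord.length ≤ (σ (of (Sum.inr X))).toWord.length) :
    ∃ S : Sys A, S.Bd.card ≤ 2 * W.toWord.length ∧
      S.M ≤ ((2 * W.toWord.length : ℕ) : ℤ) * (σ (of (Sum.inr X))).toWord.length ∧
      ∃ (i : ℤ) (len : ℕ), Sys.MF S i len ∧ len + 1 = (σ (of (Sum.inr X))).toWord.length ∧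
        ∀ x0, i ≤ x0 → x0 ≤ i + len → ∀ e, Sys.PumpResult S L x0 e →
          ∃ σ' : FreeGroup (A ⊕ Ω) →* FreeGroup A, (∀ a, σ' (of (Sum.inl a)) = of a) ∧
            σ' W = 1 ∧
            (∀ Y, L.μ (σ' (of (Sum.inr Y))).toWord = L.μ (σ (of (Sum.inr Y))).toWord) ∧
            ∃ p, p ≠ [] ∧ rep e p <:+: (σ' (of (Sum.inr X))).toWord := by
  classical
  set c0 : (A ⊕ Ω) × Bool := (Sum.inr X, true) with hc0
  set D := (σ (of (Sum.inr X))).toWord.length with hD
  have hD1 : 1 ≤ D := by
    rw [Nat.one_le_iff_ne_zero]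
    intro h
    exact hne (toWord_eq_nil_iff.mp (List.length_eq_zero_iff.mp h))
  obtain ⟨a0, -⟩ : ∃ a0 : A × Bool, a0 ∈ (σ (of (Sum.inr X))).toWord := by
    apply List.exists_mem_of_ne_nil
    intro h
    rw [h] at hD
    simp at hD; omega
  set Lw := ltr σ W with hLw
  have hqL : Quadr Lw := by
    intro Y
    exact le_trans (List.Sublist.countP_le List.filter_sublist) (hq Y)
  obtain ⟨F, hn, hφ, hε, hV, hℓ, hread, hcl⟩ := fac_exists σ W hq h1 c0 a0
  rw [← hLw] at hn hφ hε hℓ hread hcl
  have hLle : Lw.length ≤ W.toWord.length := List.length_filter_le _ _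
  set S := F.toSys hV with hS
  -- values of single letters
  have hofs : ∀ s : A ⊕ Ω, (mk [(s, true)] : FreeGroup (A ⊕ Ω)) = of s := fun s => rfl
  have hofs' : ∀ s : A ⊕ Ω, (mk [(s, false)] : FreeGroup (A ⊕ Ω)) = (of s)⁻¹ := fun s => by
    rw [← hofs, ← mk_single_not]; rfl
  have hred'lt : ∀ k < F.n, red' Lw.length k < Lw.length := by
    intro k hk
    rw [red']; split_ifs <;> omega
  have hmemL : ∀ k < Lw.length, Lw.getD k c0 ∈ W.toWord ∧ σ (mk [Lw.getD k c0]) ≠ 1 := by
    intro k hk
    have h2 : Lw.getD k c0 ∈ Lw := by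
      rw [List.getD_eq_getElem _ _ hk]; exact List.getElem_mem _
    rw [hLw, ltr, List.mem_filter] at h2
    exact ⟨h2.1, of_decide_eq_true h2.2⟩
  have hfwlen : ∀ k < F.n, F.ℓ k ≤ D := by
    intro k hk
    rw [hℓ k hk]
    obtain ⟨m1, m2⟩ := hmemL _ (hred'lt k hk)
    generalize Lw.getD (red' Lw.length k) c0 = cc at m1 m2 ⊢
    obtain ⟨s, b⟩ := cc
    rcases s with a | Y
    · have : (fw σ (Sum.inl a, b)).length = 1 := by
        cases b
        · rw [fw, hofs', _root_.map_inv, hc, toWord_inv, invRev_length, toWord_of]; rfl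
        · rw [fw, hofs, hc, toWord_of]; rfl
      rw [this]; exact hD1
    · have h2 := hmax Y ⟨b, m1⟩
      have : (fw σ (Sum.inr Y, b)).length = (σ (of (Sum.inr Y))).toWord.length := by
        cases b
        · rw [fw, hofs', _root_.map_inv, toWord_inv, invRev_length]
        · rw [fw, hofs]
      rw [this]; exact h2
  have hM : S.M ≤ ((2 * W.toWord.length : ℕ) : ℤ) * D := by
    change F.off F.n ≤ _
    have h2 : F.off F.n ≤ ∑ j ∈ Finset.range F.n, (D : ℤ) := by
      apply Finset.sum_le_sum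
      intro j hj
      exact_mod_cast hfwlen j (Finset.mem_range.mp hj)
    rw [Finset.sum_const, Finset.card_range, nsmul_eq_mul] at h2
    refine h2.trans ?_
    apply mul_le_mul_of_nonneg_right _ (by positivity)
    exact_mod_cast (by omega : F.n ≤ 2 * W.toWord.length)
  have hBd : S.Bd.card ≤ 2 * W.toWord.length := by
    change ((Finset.range F.n).image F.off).card ≤ _
    refine Finset.card_image_le.trans ?_
    rw [Finset.card_range]; omega
  -- occurrences
  let occ : Ω → Prop := fun Y => ∃ k, k < Lw.length ∧ (Lw.getD k c0).1 = Sum.inr Y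
  have hoccX : occ X := by
    obtain ⟨b, hb⟩ := hX
    have h2 : (Sum.inr X, b) ∈ Lw := by
      rw [hLw, ltr, List.mem_filter]
      refine ⟨hb, ?_⟩
      apply decide_eq_true
      cases b
      · rw [hofs', _root_.map_inv]
        exact inv_ne_one.mpr hne
      · exact hne
    obtain ⟨k, hk, hk2⟩ := List.mem_iff_getElem.mp h2
    exact ⟨k, hk, by rw [List.getD_eq_getElem _ _ hk, hk2]⟩
  let kk : Ω → ℕ := fun Y => if h : occ Y then h.choose else 0
  have hkk : ∀ Y, occ Y → kk Y < Lw.length ∧ (Lw.getD (kk Y) c0).1 = Sum.inr Y := by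
    intro Y hY
    simp only [kk]
    rw [dif_pos hY]
    exact hY.choose_spec
  obtain ⟨hkX1, hkX2⟩ := hkk X hoccX
  have hfwX : ∀ k < Lw.length, ∀ Y, (Lw.getD k c0).1 = Sum.inr Y →
      F.ℓ k = (σ (of (Sum.inr Y))).toWord.length := by
    intro k hk Y hY
    rw [hℓ k (by omega), red', if_pos hk]
    have : Lw.getD k c0 = (Sum.inr Y, (Lw.getD k c0).2) := Prod.ext hY rfl
    rw [this]
    cases (Lw.getD k c0).2
    · rw [fw, hofs', _root_.map_inv, toWord_inv, invRev_length]
    · rw [fw, hofs]
  refine ⟨S, hBd, hM, F.off (kk X), F.ℓ (kk X) - 1, hV.mf (by omega), ?_, ?_⟩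
  · have := hfwX (kk X) hkX1 X hkX2
    omega
  intro x0 hx1 hx2 e hP
  obtain ⟨E, hE, hinv, hlab, hpow⟩ := hP
  have hlX := hV.hℓ (kk X) (by omega)
  have hinX : F.In (kk X) x0 := by
    refine ⟨by omega, hx1, ?_⟩
    push_cast [Nat.cast_sub hlX] at hx2
    omega
  let G : ℕ → FreeGroup A := fun k => Sys.W S E (F.off k) (F.ℓ k - 1)
  have hG : ∀ k < F.n, G (F.φ k) = if F.ε k = 1 then G k else (G k)⁻¹ := by
    intro k hk
    have hfac : ∀ k < F.n, ∀ y : ℤ, (F.off k ≤ y ∧ y ≤ F.off k + (F.ℓ k - 1 : ℕ)) → F.In k y := by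
      intro k hk y hy
      have hl := hV.hℓ k hk
      push_cast [Nat.cast_sub hl] at hy
      exact ⟨hk, hy.1, by omega⟩
    by_cases hf : F.off k ≤ S.f x0 ∧ S.f x0 ≤ F.off k + (F.ℓ k - 1 : ℕ)
    · have hin := hfac k hk _ hf
      have hin2 := hV.In_f hin
      have hff : F.f (S.f x0) = x0 := S.f_inv x0
      rw [hff] at hin2
      obtain ⟨p1, p2, p3⟩ := hV.hφ k hk
      have hnf : ¬ (F.off (F.φ k) ≤ S.f x0 ∧ S.f x0 ≤ F.off (F.φ k) + (F.ℓ (F.φ k) - 1 : ℕ)) := by
        intro h
        exact p3 (Fac.In.unique F (hfac _ p1 _ h) hin)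
      have := hV.swap hE p1 (hinv _ _ (hV.mf p1) hnf)
      rw [p2, (hV.hεφ k hk).1] at this
      change G k = if F.ε k = 1 then G (F.φ k) else (G (F.φ k))⁻¹ at this
      split_ifs at this ⊢ with h
      · exact this.symm
      · rw [this, inv_inv]
    · exact hV.swap hE hk (hinv _ _ (hV.mf hk) hf)
  -- the new solution
  let vY : Ω → FreeGroup A := fun Y =>
    if occ Y then (if (Lw.getD (kk Y) c0).2 = true then G (kk Y) else (G (kk Y))⁻¹)
    else σ (of (Sum.inr Y))
  let σ' : FreeGroup (A ⊕ Ω) →* FreeGroup A := FreeGroup.lift (Sum.elim (fun a => of a) vY)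
  have hσ'l : ∀ a, σ' (of (Sum.inl a)) = of a := by
    intro a; simp only [σ', lift_apply_of, Sum.elim_inl]
  have hσ'r : ∀ Y, σ' (of (Sum.inr Y)) = vY Y := by
    intro Y; simp only [σ', lift_apply_of, Sum.elim_inr]
  have hvocc : ∀ Y, occ Y → vY Y =
      if (Lw.getD (kk Y) c0).2 = true then G (kk Y) else (G (kk Y))⁻¹ := by
    intro Y hY; simp only [vY]; rw [if_pos hY]
  have hvnocc : ∀ Y, ¬ occ Y → vY Y = σ (of (Sum.inr Y)) := by
    intro Y hY; simp only [vY]; rw [if_neg hY]
  have hval : ∀ k < Lw.length, σ' (mk [Lw.getD k c0]) = G k := by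
    intro k hk
    have hkn : k < F.n := by omega
    rcases hcase : (Lw.getD k c0).1 with a | Y
    · have hcc : Lw.getD k c0 = (Sum.inl a, (Lw.getD k c0).2) := Prod.ext hcase rfl
      have hr := hread k hkn
      have hl := hℓ k hkn
      rw [red', if_pos hk, hcc] at hr hl
      rw [hcc]
      generalize (Lw.getD k c0).2 = b at *
      have hfw : fw σ (Sum.inl a, b) = [(a, b)] := by
        cases b
        · rw [fw, hofs', _root_.map_inv, hc, toWord_inv, toWord_of]; rfl
        · rw [fw, hofs, hc, toWord_of]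
      rw [hfw] at hr hl
      have hl1 : F.ℓ k = 1 := hl
      rw [hl1] at hr
      have ha : F.a (F.off k) = (a, b) := by
        rw [rd_succ] at hr
        injection hr
      have hGk : G k = mk [(a, b)] := by
        change Sys.W S E (F.off k) (F.ℓ k - 1) = _
        rw [hl1]
        simp only [Nat.sub_self, Sys.W, Sys.Q, mul_one]
        change mk [F.a (F.off k)] = _
        rw [ha]
      rw [hGk]
      cases b
      · rw [hofs', _root_.map_inv, hσ'l]; rfl
      · rw [hofs, hσ'l]; rfl
    · have hcc : Lw.getD k c0 = (Sum.inr Y, (Lw.getD k c0).2) := Prod.ext hcase rfl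
      have hoccY : occ Y := ⟨k, hk, hcase⟩
      obtain ⟨g1, g2⟩ := hkk Y hoccY
      have hv := hvocc Y hoccY
      -- the value with sign
      have hGG : G k = if (Lw.getD (kk Y) c0).2 = (Lw.getD k c0).2 then G (kk Y)
          else (G (kk Y))⁻¹ := by
        by_cases hkeq : kk Y = k
        · rw [hkeq, if_pos rfl]
        · have hPt : Pt Lw c0 (kk Y) k := ⟨g1, hk, hkeq, Y, g2, hcase⟩
          have hphi : F.φ (kk Y) = k := by
            rw [hφ, phi_lt g1, if_pos ⟨k, hPt⟩, ptn_eq hqL hPt]
          have heps : F.ε (kk Y) = if (Lw.getD (kk Y) c0).2 = (Lw.getD k c0).2 then 1 else -1 := by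
            rw [hε, eps, if_pos g1, ptn_eq hqL hPt]
          have h2 := hG (kk Y) (by omega)
          rw [hphi, heps] at h2
          rw [h2]
          split_ifs with h3 h4 h5
          · rfl
          · exact absurd rfl h4
          · exact absurd h5 (by norm_num)
          · rfl
      rw [hcc, hGG]
      generalize (Lw.getD k c0).2 = b at *
      generalize (Lw.getD (kk Y) c0).2 = b' at *
      cases b
      · rw [hofs', _root_.map_inv, hσ'r, hv]
        cases b'
        · rw [if_neg (by simp), if_pos rfl, inv_inv]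
        · rw [if_pos rfl, if_neg (by simp)]
      · rw [hofs, hσ'r, hv]
  have hprod : σ' W = 1 := by
    have e1 : σ' W = (Lw.map (fun c => σ' (mk [c]))).prod := by
      conv_lhs => rw [← mk_toWord (x := W)]
      rw [hom_mk, hLw, ltr, prod_filter]
      intro c _ hcc
      have h2 : σ (mk [c]) = 1 := by simpa using hcc
      obtain ⟨s, b⟩ := c
      rcases s with a | Y
      · exfalso
        cases b
        · rw [hofs', _root_.map_inv, hc, inv_eq_one] at h2
          exact of_ne_one a h2
        · rw [hofs, hc] at h2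
          exact of_ne_one a h2
      · have h3 : σ (of (Sum.inr Y)) = 1 := by
          cases b
          · rw [hofs', _root_.map_inv, inv_eq_one] at h2; exact h2
          · exact h2
        have h4 : ¬ occ Y := by
          rintro ⟨k, hk, hkY⟩
          apply (hmemL k hk).2
          have : Lw.getD k c0 = (Sum.inr Y, (Lw.getD k c0).2) := Prod.ext hkY rfl
          rw [this]
          cases (Lw.getD k c0).2
          · rw [hofs', _root_.map_inv, h3, inv_one]
          · rw [hofs, h3]
        have h5 : σ' (of (Sum.inr Y)) = 1 := by rw [hσ'r, hvnocc Y h4, h3]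
        cases b
        · rw [hofs', _root_.map_inv, h5, inv_one]
        · rw [hofs, h5]
    have e2 : (Lw.map (fun c => σ' (mk [c]))).prod = ((List.range Lw.length).map G).prod := by
      rw [← map_range_getD Lw c0 (fun c => σ' (mk [c]))]
      congr 1
      apply List.map_congr_left
      intro k hk
      exact hval k (List.mem_range.mp hk)
    rw [e1, e2]
    have e3 := hV.prod hE Lw.length (by omega)
    rw [← hS] at e3
    rw [show ((List.range Lw.length).map G).prod = Sys.Q S E 0 (F.off Lw.length).toNat from e3.symm]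
    have hpos : 0 < (F.off Lw.length).toNat := by
      have h2 := F.off_mono (show 1 ≤ Lw.length by omega)
      have h3 := F.off_succ 0
      rw [F.off_zero] at h3
      have h4 := hV.hℓ 0 (by omega)
      simp only [zero_add] at h3
      omega
    rw [Sys.Q_closed hE _ 0 hpos le_rfl]
    · by_contra hcon
      have := hE.supp (0 - 1) (by rwa [show (0 : ℤ) - 1 + 1 = 0 by ring])
      have h2 := this.1.1
      omega
    · change _ ≤ F.off F.n
      have := F.off_mono (show Lw.length ≤ F.n by omega)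
      omega
    · intro x hx1 hx2
      have := hcl x hx1 (by omega)
      change 0 ≤ F.π x ∧ F.π x < _
      omega
  have hword : ∀ k < F.n, (G k).toWord = Sys.lw S E (F.off k) (F.ℓ k - 1) ∧
      L.μ (G k).toWord = L.μ (fw σ (Lw.getD (red' Lw.length k) c0)) := by
    intro k hk
    obtain ⟨l1, l2⟩ := hlab _ _ (hV.mf hk)
    have h2 : (G k).toWord = Sys.lw S E (F.off k) (F.ℓ k - 1) := by
      change (Sys.W S E (F.off k) (F.ℓ k - 1)).toWord = _
      rw [← Sys.mk_lw]
      exact toWord_mk_of_isReduced l1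
    refine ⟨h2, ?_⟩
    rw [h2, l2]
    have h3 := hread k hk
    have h4 : F.ℓ k - 1 + 1 = F.ℓ k := by have := hV.hℓ k hk; omega
    rw [h4, ← h3]
    rfl
  refine ⟨σ', hσ'l, hprod, ?_, ?_⟩
  · intro Y
    rw [hσ'r]
    by_cases hY : occ Y
    · obtain ⟨g1, g2⟩ := hkk Y hY
      rw [hvocc Y hY]
      have h2 := (hword (kk Y) (by omega)).2
      rw [red', if_pos g1] at h2
      have hcc : Lw.getD (kk Y) c0 = (Sum.inr Y, (Lw.getD (kk Y) c0).2) := Prod.ext g2 rfl
      rw [hcc] at h2
      generalize (Lw.getD (kk Y) c0).2 = b at *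
      cases b
      · rw [if_neg (by simp), toWord_inv, L.μ_inv, h2, fw, hofs', _root_.map_inv, toWord_inv,
          L.μ_inv, L.st_st]
      · rw [if_pos rfl, h2, fw, hofs]
    · rw [hvnocc Y hY]
  · obtain ⟨p, hp1, hp2⟩ := hpow _ _ (hV.mf (k := kk X) (by omega)) hx1 hx2
    rw [← (hword (kk X) (by omega)).1] at hp2
    rw [hσ'r, hvocc X hoccX]
    split_ifs
    · exact ⟨p, hp1, hp2⟩
    · refine ⟨invRev p, ?_, ?_⟩
      · intro h
        apply hp1
        rw [← invRev_invRev (L₁ := p), h]; rfl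
      · rw [toWord_inv, ← invRev_rep]
        exact invRev_infix hp2

end

end Pool.H43.Quad
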