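import Pool.Agent.H43.Quad.Events

/-!
# Contexts of events and the effect of the occurrence swap
-/

namespace Pool.H43.Quad

open FreeGroup

namespace Sys

variable {A : Type*} {S : Sys A}

theorem pl_succ' (i : ℤ) (n : ℕ) : pl S i (n + 1) = pl S i n ++ [S.a (i + n)] := by
  rw [pl_append]
  simp [pl]

theorem invRev_pl (i : ℤ) (n : ℕ) :
    invRev (pl S i n) = (List.range n).map fun k : ℕ => inv (S.a (i + n - 1 - (k : ℤ))) := by
  induction n with
  | zero => simp [pl]
  | succ n ih =>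
    rw [pl_succ', invRev_append, ih, List.range_succ_eq_map]
    simp only [List.map_cons, List.map_map]
    rw [show invRev [S.a (i + (n : ℤ))] = [inv (S.a (i + n))] by simp [invRev, inv]]
    rw [List.singleton_append]
    congr 1
    · congr 2; push_cast; ring
    · apply List.map_congr_left
      intro k _
      simp only [Function.comp]
      congr 2; push_cast; ring

variable {x : ℤ} {m n : ℕ}

theorem Orb.mem_window (h : Orb S x m n) (j : ℤ) (h1 : -m ≤ j) (h2 : j ≤ m) :
    0 ≤ x + j ∧ x + j < S.M := by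
  have hm := h.m_pos
  have hiw := h.strip.iw h.n_pos (Nat.zero_le n)
  simp only [Function.iterate_zero, id_eq] at hiw
  rcases lt_or_ge j m with hlt | hge
  · obtain ⟨a1, a2, _⟩ := hiw j h1 hlt
    exact ⟨a1, by omega⟩
  · obtain ⟨a1, a2, _⟩ := hiw (j - 1) (by omega) (by omega)
    exact ⟨by omega, by omega⟩

theorem Orb.ctx_pos (h : Orb S x m n) {k : ℕ} (hk : k < n) {s : Bool} {m0 : ℕ} (hm0 : m0 ≤ m)
    (ho : S.eo x k s = 1) : pl S (S.er x k s) m0 = pl S x m0 := by
  apply List.map_congr_left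
  intro j hj
  rw [List.mem_range] at hj
  obtain ⟨b1, b2⟩ := h.mem_window j (by omega) (by omega)
  have := h.er_letter hk s j (by omega) (by omega) b1 b2
  rw [ho] at this
  simpa using this

theorem Orb.ctx_neg (h : Orb S x m n) {k : ℕ} (hk : k < n) {s : Bool} {m0 : ℕ} (hm0 : m0 ≤ m)
    (ho : S.eo x k s = -1) : pl S (S.er x k s + 1) m0 = invRev (pl S (x - m0) m0) := by
  rw [invRev_pl]
  apply List.map_congr_left
  intro j hj
  rw [List.mem_range] at hj
  obtain ⟨b1, b2⟩ := h.mem_window (-1 - j) (by omega) (by omega)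
  have := h.er_letter hk s (-1 - j) (by omega) (by omega) b1 b2
  rw [ho, lp_neg_one] at this
  rw [show S.er x k s + 1 + (j : ℤ) = S.er x k s + -1 * (-1 - j) by ring, this]
  congr 2; ring

variable [DecidableEq A]

/-- The element `g` can be inserted at `x` (and its inverse from the other side) without changing
labels or reducedness. -/
def GoodIns (S : Sys A) {N : Type*} [Monoid N] (L : Lab A N) (x : ℤ) (m0 : ℕ)
    (g : FreeGroup A) : Prop :=
  (IsReduced (g.toWord ++ pl S x m0) ∧ L.μ (g.toWord ++ pl S x m0) = L.μ (pl S x m0) ∧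
    (g.toWord ++ pl S x m0).head? = some (S.a x)) ∧
  (IsReduced (g⁻¹.toWord ++ invRev (pl S (x - m0) m0)) ∧
    L.μ (g⁻¹.toWord ++ invRev (pl S (x - m0) m0)) = L.μ (invRev (pl S (x - m0) m0)) ∧
    (g⁻¹.toWord ++ invRev (pl S (x - m0) m0)).head? = some (inv (S.a (x - 1))))

/-- `(i, len)` is a maximal factor: letters `i, …, i + len`. -/
structure MF (S : Sys A) (i : ℤ) (len : ℕ) : Prop where
  i0 : 0 ≤ i
  i1 : i + len < S.M
  inn : ∀ t, i ≤ t → t < i + len → S.inner t
  lo : ¬ S.inner (i - 1)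
  hi : ¬ S.inner (i + len)

theorem MF.factor_good {N : Type*} [Monoid N] {L : Lab A N} {u : ℕ → FreeGroup A}
    (h : Orb S x m n) {m0 : ℕ} (hm0 : 1 ≤ m0) (hm : m0 + 1 ≤ m)
    (hgood : ∀ k < n, u k = 1 ∨ GoodIns S L x m0 (u k)) {i : ℤ} {len : ℕ} (hF : MF S i len) :
    IsReduced (lw S (EE S x n u) i len) ∧
      L.μ (lw S (EE S x n u) i len) = L.μ (pl S i (len + 1)) := by
  refine lw_good L _ m0 hm0 len i hF.inn ?_
  intro t ht1 ht2 hne
  obtain ⟨k, hk, s, hcase⟩ := h.ev_gap hne
  have hgw := (h.er_gw hk s).iw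
  have hgapsep : ∀ s', t < s' → s' < t + m0 → EE S x n u (s' - 1) s' = 1 := by
    intro s' h1 h2
    by_contra hne'
    obtain ⟨k', hk', s2, hcase'⟩ := h.ev_gap hne'
    rcases hcase with ⟨⟨a1, a2⟩, a3, _⟩ | ⟨⟨a1, a2⟩, a3, _⟩ <;>
    rcases hcase' with ⟨⟨b1, b2⟩, b3, _⟩ | ⟨⟨b1, b2⟩, b3, _⟩
    all_goals
      have hle : |S.er x k s - S.er x k' s2| ≤ m := by
        rw [← a2, ← b2, abs_le]; constructor <;> omega
      obtain ⟨rfl, rfl⟩ := h.er_unique hk hk' hle
      omega
  have hfit : t + m0 ≤ i + len + 1 := by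
    by_contra hc
    push Not at hc
    apply hF.hi
    rcases hcase with ⟨⟨a1, a2⟩, a3, _⟩ | ⟨⟨a1, a2⟩, a3, _⟩
    · have := hgw (i + len - t) (by omega) (by omega)
      rw [← a2] at this
      rwa [show t + (i + len - t) = i + len by ring] at this
    · have := hgw (i + len - (t - 1)) (by omega) (by omega)
      rw [← a2] at this
      rwa [show t - 1 + (i + len - (t - 1)) = i + len by ring] at this
  refine ⟨hfit, hgapsep, ?_⟩
  rcases hcase with ⟨⟨a1, a2⟩, a3, a4⟩ | ⟨⟨a1, a2⟩, a3, a4⟩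
  · rcases hgood k hk with hg | hg
    · exact absurd (a4.trans hg) hne
    · have hctx := h.ctx_pos hk (show m0 ≤ m by omega) a3
      rw [← a2] at hctx
      rw [hctx, a4]
      have hax : S.a t = S.a x := by
        have := h.er_letter hk s 0 (by omega) (by omega) (by simpa using h.x0)
          (by simpa using h.x1)
        rw [a3] at this
        simpa [← a2] using this
      rw [hax]
      exact hg.1
  · rcases hgood k hk with hg | hg
    · exact absurd (by rw [a4, hg, inv_one]) hne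
    · have hctx := h.ctx_neg hk (show m0 ≤ m by omega) a3
      rw [← a2, show t - 1 + 1 = t by ring] at hctx
      rw [hctx, a4]
      have hax : S.a t = inv (S.a (x - 1)) := by
        obtain ⟨b1, b2⟩ := h.mem_window (-1) (by omega) (by omega)
        have := h.er_letter hk s (-1) (by omega) (by omega) b1 b2
        rw [a3, ← a2, lp_neg_one] at this
        rw [show t - 1 + -1 * -1 = t by ring, show x + -1 = x - 1 by ring] at this
        exact this
      rw [hax]
      exact hg.2

section f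

variable {u : ℕ → FreeGroup A}

omit [DecidableEq A] in
theorem f_iter (k : ℕ) (hk : 1 ≤ k) (y : ℤ) : S.f (S.T^[k] y) = S.π (S.T^[k - 1] y) := by
  obtain ⟨k, rfl⟩ : ∃ k', k = k' + 1 := ⟨k - 1, by omega⟩
  rw [Function.iterate_succ_apply', f_T]
  simp

/-- Value of the insertion on the leaving side. -/
def Uv (n : ℕ) (u : ℕ → FreeGroup A) (k : ℕ) : FreeGroup A := if k < n then u k else 1

/-- Value of the insertion on the arrival side. -/
def Vv (u : ℕ → FreeGroup A) (k : ℕ) : FreeGroup A := if k = 0 then 1 else u (k - 1)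

omit [DecidableEq A] in
theorem Orb.EE_fP (h : Orb S x m n) {k : ℕ} (hk0 : 1 ≤ k) (hk : k ≤ n) :
    EE S x n u (S.f (S.T^[k] (x - 1))) (S.f (S.T^[k] x)) = u (k - 1) := by
  apply h.EE_ev (k := k - 1) (by omega) (s := true)
  constructor
  · rw [f_iter k hk0]; rfl
  · rw [f_iter k hk0]; rfl

omit [DecidableEq A] in
theorem Orb.not_ev_n (h : Orb S x m n) (hne : S.T^[n] x ≠ x) :
    (¬ ∃ k, k < n ∧ ∃ s, S.IsEv x k s (S.T^[n] (x - 1)) (S.T^[n] x)) ∧
    (¬ ∃ k, k < n ∧ ∃ s, S.IsEv x k s (S.T^[n] x) (S.T^[n] (x - 1))) := by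
  have hm := h.m_pos
  have hn := h.n_pos
  obtain ⟨e1, _⟩ := h.strip.T_add le_rfl (-1) (by omega) (by omega)
  rw [show x + -1 = x - 1 by ring] at e1
  have hpos : ∀ k < n, k ≠ 0 → (m : ℤ) < |S.T^[n - k] x - x| := by
    intro k hk hk0
    have := h.sepL 0 (n - k) (by omega) (by omega)
    rw [abs_sub_comm]; simpa using this
  constructor
  · rintro ⟨k, hk, s, _, h2⟩
    cases s
    · simp only [er, cond_false] at h2
      by_cases hk0 : k = 0
      · subst hk0; exact hne (by simpa using h2)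
      · have h3 : S.T^[n - k] x = x := by
          apply S.T_injective.iterate k
          rw [← Function.iterate_add_apply, show k + (n - k) = n by omega]; exact h2
        have := hpos k hk hk0
        rw [h3] at this; simp at this; omega
    · simp only [er, cond_true] at h2
      refine h.strip.sep hn h.x0 h.x1 0 (by omega) n (k + 1) le_rfl (by omega) ?_
      rw [add_zero, h2, Function.iterate_succ_apply', f_T]
  · rintro ⟨k, hk, s, h1, h2⟩
    cases s
    · simp only [er, cond_false] at h1 h2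
      by_cases hk0 : k = 0
      · subst hk0
        simp only [Function.iterate_zero, id_eq] at h1 h2
        have hc := h.strip.close hn h.x0 h.x1 (-1) (by omega) (by rw [h1]; ring)
        rw [hc] at e1
        rw [h2, h1] at e1
        omega
      · have hx1 : S.T^[k] x = S.T^[n] x + S.sgn n x * (-1) := by rw [← h2, e1]
        have hsg := S.sgn_pm n x
        have hsk := S.sgn_pm k x
        -- T^n x = T^k x + sgn n = T^k (x + sgn k * sgn n)
        have hb : -(m : ℤ) ≤ S.sgn k x * S.sgn n x ∧ S.sgn k x * S.sgn n x ≤ m := by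
          rcases hsg with hs | hs <;> rcases hsk with hs' | hs' <;> rw [hs, hs'] <;>
            constructor <;> omega
        obtain ⟨e2, _⟩ := h.strip.T_add hk.le (S.sgn k x * S.sgn n x) hb.1 hb.2
        have e3 : S.T^[k] (x + S.sgn k x * S.sgn n x) = S.T^[k] (S.T^[n - k] x) := by
          rw [← Function.iterate_add_apply, show k + (n - k) = n by omega, e2, hx1]
          rcases hsg with hs | hs <;> rcases hsk with hs' | hs' <;> rw [hs, hs'] <;> ring
        have e4 := S.T_injective.iterate k e3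
        have := hpos k hk hk0
        rw [← e4] at this
        rw [show x + S.sgn k x * S.sgn n x - x = S.sgn k x * S.sgn n x by ring] at this
        have h5 := abs_le.mpr hb
        omega
    · simp only [er, cond_true] at h2
      refine h.strip.sep hn h.x0 h.x1 (-1) (by omega) n (k + 1) le_rfl (by omega) ?_
      rw [show x + -1 = x - 1 by ring, h2, Function.iterate_succ_apply', f_T]

omit [DecidableEq A] in
theorem Orb.not_ev_f0 (h : Orb S x m n) (hne : S.T^[n] x ≠ x) :
    (¬ ∃ k, k < n ∧ ∃ s, S.IsEv x k s (S.f (x - 1)) (S.f x)) ∧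
    (¬ ∃ k, k < n ∧ ∃ s, S.IsEv x k s (S.f x) (S.f (x - 1))) := by
  have hm := h.m_pos
  have hn := h.n_pos
  have hpos : ∀ k < n, k ≠ 0 → (m : ℤ) < |S.T^[k] x - x| := by
    intro k hk hk0
    have := h.sepL 0 k (by omega) (by omega)
    rw [abs_sub_comm]; simpa using this
  constructor
  · rintro ⟨k, hk, s, _, h2⟩
    cases s
    · simp only [er, cond_false] at h2
      refine h.strip.sep hn h.x0 h.x1 0 (by omega) k 0 hk.le (by omega) ?_
      rw [add_zero, ← h2]; rfl
    · simp only [er, cond_true] at h2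
      have h3 : S.f x = S.f (S.T^[k + 1] x) := by
        rw [h2, Function.iterate_succ_apply', f_T]
      have h4 := f_injective h3
      by_cases hkn : k + 1 = n
      · rw [hkn] at h4; exact hne h4.symm
      · have := hpos (k + 1) (by omega) (by omega)
        rw [← h4] at this; simp at this; omega
  · rintro ⟨k, hk, s, h1, h2⟩
    cases s
    · simp only [er, cond_false] at h1
      refine h.strip.sep hn h.x0 h.x1 (-1) (by omega) k 0 hk.le (by omega) ?_
      rw [show x + -1 = x - 1 by ring, ← h1]; rfl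
    · simp only [er, cond_true] at h1 h2
      have h3 : S.f x = S.f (S.T^[k + 1] (x - 1)) := by
        rw [h1, Function.iterate_succ_apply', f_T]
      have h4 := f_injective h3
      have h5 : S.f (x - 1) = S.f (S.T^[k + 1] x) := by
        rw [h2, Function.iterate_succ_apply', f_T]
      have h6 := f_injective h5
      have hc := (h.strip.mono le_rfl (show k + 1 ≤ n by omega)).close (by omega) h.x0 h.x1 (-1)
        (by omega) (by rw [← h6]; ring)
      obtain ⟨e1, _⟩ := h.strip.T_add (show k + 1 ≤ n by omega) (-1) (by omega) (by omega)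
      rw [hc, show x + -1 = x - 1 by ring, ← h4, ← h6] at e1
      omega

omit [DecidableEq A] in
theorem Orb.EE_spec (h : Orb S x m n) (hne : S.T^[n] x ≠ x) {k : ℕ} (hk : k ≤ n) :
    EE S x n u (S.T^[k] (x - 1)) (S.T^[k] x) = Uv n u k ∧
      EE S x n u (S.f (S.T^[k] (x - 1))) (S.f (S.T^[k] x)) = Vv u k := by
  constructor
  · rw [Uv]
    split_ifs with h1
    · exact h.EE_ev h1 (s := false) ⟨rfl, rfl⟩
    · obtain rfl : k = n := by omega
      obtain ⟨a1, a2⟩ := h.not_ev_n hne
      exact EE_not a1 a2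
  · rw [Vv]
    split_ifs with h1
    · subst h1
      obtain ⟨a1, a2⟩ := h.not_ev_f0 hne
      exact EE_not a1 a2
    · exact h.EE_fP (by omega) hk

omit [DecidableEq A] in
/-- Where the insertion function fails to be invariant under `f`. -/
theorem Orb.EE_nonspec (h : Orb S x m n) (hne : S.T^[n] x ≠ x) {l r : ℤ}
    (hlr : EE S x n u (S.f l) (S.f r) ≠ EE S x n u l r) :
    ∃ k ≤ n, Uv n u k ≠ Vv u k ∧
      ((l = S.T^[k] (x - 1) ∧ r = S.T^[k] x) ∨ (r = S.T^[k] (x - 1) ∧ l = S.T^[k] x) ∨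
       (S.f l = S.T^[k] (x - 1) ∧ S.f r = S.T^[k] x) ∨
       (S.f r = S.T^[k] (x - 1) ∧ S.f l = S.T^[k] x)) := by
  -- any event pair is of the form `P_k` or `f P_k`
  have hform : ∀ l r : ℤ, (∃ k, k < n ∧ ∃ s, S.IsEv x k s l r) →
      ∃ k ≤ n, (l = S.T^[k] (x - 1) ∧ r = S.T^[k] x) ∨
        (S.f l = S.T^[k] (x - 1) ∧ S.f r = S.T^[k] x) := by
    rintro l r ⟨k, hk, s, h1, h2⟩
    cases s
    · exact ⟨k, hk.le, Or.inl ⟨h1, h2⟩⟩
    · refine ⟨k + 1, hk, Or.inr ⟨?_, ?_⟩⟩
      · rw [h1, Function.iterate_succ_apply']; rfl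
      · rw [h2, Function.iterate_succ_apply']; rfl
  have hdone : ∀ l r : ℤ, EE S x n u (S.f l) (S.f r) ≠ EE S x n u l r →
      (∃ k ≤ n, (l = S.T^[k] (x - 1) ∧ r = S.T^[k] x) ∨
        (S.f l = S.T^[k] (x - 1) ∧ S.f r = S.T^[k] x)) →
      ∃ k ≤ n, Uv n u k ≠ Vv u k ∧
      ((l = S.T^[k] (x - 1) ∧ r = S.T^[k] x) ∨
       (S.f l = S.T^[k] (x - 1) ∧ S.f r = S.T^[k] x)) := by
    rintro l r hlr ⟨k, hk, hc⟩
    refine ⟨k, hk, ?_, hc⟩
    intro he
    obtain ⟨s1, s2⟩ := h.EE_spec (u := u) hne hk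
    apply hlr
    rcases hc with ⟨c1, c2⟩ | ⟨c1, c2⟩
    · rw [c1, c2, s1, s2, he]
    · rw [c1, c2, s1]
      rw [← c1, ← c2, S.f_inv, S.f_inv] at s2
      rw [s2, he]
  have hrev : ∀ l r : ℤ, EE S x n u (S.f l) (S.f r) ≠ EE S x n u l r →
      EE S x n u (S.f r) (S.f l) ≠ EE S x n u r l := by
    intro l r hlr he
    apply hlr
    rw [h.EE_rev (S.f r) (S.f l), h.EE_rev r l, he]
  have hcases : (∃ k, k < n ∧ ∃ s, S.IsEv x k s l r) ∨ (∃ k, k < n ∧ ∃ s, S.IsEv x k s r l) ∨
      (∃ k, k < n ∧ ∃ s, S.IsEv x k s (S.f l) (S.f r)) ∨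
      (∃ k, k < n ∧ ∃ s, S.IsEv x k s (S.f r) (S.f l)) := by
    by_contra hc
    push Not at hc
    obtain ⟨c1, c2, c3, c4⟩ := hc
    apply hlr
    rw [EE_not (by push Not; exact c3) (by push Not; exact c4),
      EE_not (by push Not; exact c1) (by push Not; exact c2)]
  rcases hcases with hc | hc | hc | hc
  · obtain ⟨k, hk, h1, h2⟩ := hdone l r hlr (hform l r hc)
    exact ⟨k, hk, h1, by tauto⟩
  · obtain ⟨k, hk, h1, h2⟩ := hdone r l (hrev l r hlr) (hform r l hc)
    exact ⟨k, hk, h1, by tauto⟩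
  · have := hform _ _ hc
    rw [S.f_inv, S.f_inv] at this
    obtain ⟨k, hk, h1, h2⟩ := hdone l r hlr (by
      obtain ⟨k, hk, h3⟩ := this
      exact ⟨k, hk, h3.symm⟩)
    exact ⟨k, hk, h1, by tauto⟩
  · have := hform _ _ hc
    rw [S.f_inv, S.f_inv] at this
    obtain ⟨k, hk, h1, h2⟩ := hdone r l (hrev l r hlr) (by
      obtain ⟨k, hk, h3⟩ := this
      exact ⟨k, hk, h3.symm⟩)
    exact ⟨k, hk, h1, by tauto⟩

end f

end Sys

end Pool.H43.Quad
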