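import Pool.Agent.H43.Quad.Dyck
import Pool.Agent.H43.Quad.Spec

/-!
# Building a cancellation system from factor data
-/

namespace Pool.H43.Quad

open FreeGroup

/-- Factor data. -/
structure Fac (A : Type*) where
  n : ℕ
  ℓ : ℕ → ℕ
  a : ℤ → A × Bool
  φ : ℕ → ℕ
  ε : ℕ → ℤ
  π : ℤ → ℤ

namespace Fac

variable {A : Type*} (F : Fac A)

/-- Offsets of the factors. -/
def off (k : ℕ) : ℤ := ∑ j ∈ Finset.range k, (F.ℓ j : ℤ)

theorem off_zero : F.off 0 = 0 := by simp [off]

theorem off_succ (k : ℕ) : F.off (k + 1) = F.off k + F.ℓ k := by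
  simp [off, Finset.sum_range_succ]

theorem off_mono {k k' : ℕ} (h : k ≤ k') : F.off k ≤ F.off k' := by
  obtain ⟨d, rfl⟩ := Nat.exists_eq_add_of_le h
  clear h
  induction d with
  | zero => simp
  | succ d ih =>
    rw [← add_assoc, off_succ]
    omega

theorem off_nonneg (k : ℕ) : 0 ≤ F.off k := by
  rw [← F.off_zero]; exact F.off_mono (Nat.zero_le k)

/-- `x` lies in factor `k`. -/
def In (k : ℕ) (x : ℤ) : Prop := k < F.n ∧ F.off k ≤ x ∧ x < F.off k + F.ℓ k

theorem exists_in {x : ℤ} (h0 : 0 ≤ x) (h1 : x < F.off F.n) : ∃ k, F.In k x := by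
  have key : ∀ m ≤ F.n, x < F.off m → ∃ k, F.In k x := by
    intro m
    induction m with
    | zero => intro _ h; rw [off_zero] at h; omega
    | succ m ih =>
      intro hm hx
      by_cases hc : x < F.off m
      · exact ih (by omega) hc
      · rw [off_succ] at hx
        exact ⟨m, by omega, by omega, hx⟩
  exact key F.n le_rfl h1

theorem In.unique {k k' : ℕ} {x : ℤ} (h : F.In k x) (h' : F.In k' x) : k = k' := by
  rcases lt_trichotomy k k' with hlt | heq | hgt
  · have := F.off_mono (show k + 1 ≤ k' by omega)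
    rw [off_succ] at this
    have := h.2.2
    have := h'.2.1
    omega
  · exact heq
  · have := F.off_mono (show k' + 1 ≤ k by omega)
    rw [off_succ] at this
    have := h'.2.2
    have := h.2.1
    omega

/-- Position inside the swapped factor. -/
def rj (k : ℕ) (j : ℤ) : ℤ := if F.ε k = 1 then j else F.ℓ k - 1 - j

open Classical in
/-- The occurrence swap. -/
noncomputable def f (x : ℤ) : ℤ :=
  if h : ∃ k, F.In k x then F.off (F.φ h.choose) + F.rj h.choose (x - F.off h.choose) else x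

open Classical in
/-- The sign. -/
noncomputable def δ (x : ℤ) : ℤ := if h : ∃ k, F.In k x then F.ε h.choose else 1

theorem f_eq {k : ℕ} {x : ℤ} (h : F.In k x) :
    F.f x = F.off (F.φ k) + F.rj k (x - F.off k) := by
  have hex : ∃ k, F.In k x := ⟨k, h⟩
  rw [f, dif_pos hex, In.unique F hex.choose_spec h]

theorem δ_eq {k : ℕ} {x : ℤ} (h : F.In k x) : F.δ x = F.ε k := by
  have hex : ∃ k, F.In k x := ⟨k, h⟩
  rw [δ, dif_pos hex, In.unique F hex.choose_spec h]

/-- Validity of factor data. -/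
structure Valid : Prop where
  hℓ : ∀ k < F.n, 1 ≤ F.ℓ k
  hφ : ∀ k < F.n, F.φ k < F.n ∧ F.φ (F.φ k) = k ∧ F.φ k ≠ k
  hε : ∀ k, F.ε k = 1 ∨ F.ε k = -1
  hεφ : ∀ k < F.n, F.ε (F.φ k) = F.ε k ∧ F.ℓ (F.φ k) = F.ℓ k
  hπ : Matching F.a F.π 0 (F.off F.n)
  hred : ∀ k < F.n, ∀ j : ℤ, 0 ≤ j → j + 1 < F.ℓ k →
    F.a (F.off k + j + 1) ≠ inv (F.a (F.off k + j))
  hlet : ∀ k < F.n, ∀ j : ℤ, 0 ≤ j → j < F.ℓ k →
    F.a (F.off (F.φ k) + F.rj k j) = lp (F.ε k) (F.a (F.off k + j))

variable {F}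

theorem Valid.rj_mem (h : F.Valid) {k : ℕ} (_hk : k < F.n) {j : ℤ} (h0 : 0 ≤ j)
    (h1 : j < F.ℓ k) : 0 ≤ F.rj k j ∧ F.rj k j < F.ℓ k := by
  rcases h.hε k with e | e
  · simp only [rj, e, if_true]; exact ⟨h0, h1⟩
  · simp only [rj, e]
    rw [if_neg (by norm_num)]
    constructor <;> omega

theorem Valid.In_f (h : F.Valid) {k : ℕ} {x : ℤ} (hx : F.In k x) : F.In (F.φ k) (F.f x) := by
  obtain ⟨h1, h2, h3⟩ := hx
  obtain ⟨a1, a2⟩ := h.rj_mem h1 (j := x - F.off k) (by omega) (by omega)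
  rw [F.f_eq ⟨h1, h2, h3⟩]
  refine ⟨(h.hφ k h1).1, by omega, ?_⟩
  rw [(h.hεφ k h1).2]; omega

theorem Valid.f_f (h : F.Valid) {k : ℕ} {x : ℤ} (hx : F.In k x) : F.f (F.f x) = x := by
  have h1 := h.In_f hx
  rw [F.f_eq h1, (h.hφ k hx.1).2.1, F.f_eq hx]
  obtain ⟨e1, e2⟩ := h.hεφ k hx.1
  rcases h.hε k with e | e
  · simp only [rj, e1, e2, e, if_true]; ring
  · simp only [rj, e1, e2, e]
    rw [if_neg (by norm_num), if_neg (by norm_num)]; ring

theorem Valid.Bd_mem (h : F.Valid) {k : ℕ} {x : ℤ} (hx : F.In k x) :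
    x ∈ (Finset.range F.n).image F.off ↔ x = F.off k := by
  rw [Finset.mem_image]
  constructor
  · rintro ⟨k', hk', rfl⟩
    rw [Finset.mem_range] at hk'
    have h1 : F.In k' (F.off k') := ⟨hk', le_rfl, by have := h.hℓ k' hk'; omega⟩
    rw [In.unique F h1 hx]
  · rintro rfl
    exact ⟨k, Finset.mem_range.mpr hx.1, rfl⟩

theorem Valid.in_succ (h : F.Valid) {k : ℕ} {x : ℤ} (hx : F.In k x) (hM : x + 1 < F.off F.n)
    (hb : x + 1 ∉ (Finset.range F.n).image F.off) : F.In k (x + 1) := by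
  refine ⟨hx.1, by have := hx.2.1; omega, ?_⟩
  by_contra hc
  apply hb
  have h1 : x + 1 = F.off (k + 1) := by
    rw [off_succ]
    have := hx.2.2
    omega
  rw [h1, Finset.mem_image]
  refine ⟨k + 1, ?_, rfl⟩
  rw [Finset.mem_range]
  by_contra hc2
  have := F.off_mono (show F.n ≤ k + 1 by omega)
  omega

/-- The system. -/
noncomputable def toSys (F : Fac A) (h : F.Valid) : Sys A where
  M := F.off F.n
  a := F.a
  π := F.π
  f := F.f
  δ := F.δ
  Bd := (Finset.range F.n).image F.off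
  π_inv := h.hπ.inv'
  f_inv := by
    intro x
    by_cases hx : ∃ k, F.In k x
    · obtain ⟨k, hk⟩ := hx
      exact h.f_f hk
    · have e : F.f x = x := by rw [f, dif_neg hx]
      rw [e, e]
  π_mem := h.hπ.mem
  f_mem := by
    intro x h0 h1
    obtain ⟨k, hk⟩ := F.exists_in h0 h1
    obtain ⟨b1, b2, b3⟩ := h.In_f hk
    have := F.off_nonneg (F.φ k)
    have h2 := F.off_mono (show F.φ k + 1 ≤ F.n by omega)
    rw [off_succ] at h2
    constructor <;> omega
  π_ne := h.hπ.ne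
  nc := h.hπ.nc
  a_π := h.hπ.let'
  δ_pm := by
    intro x
    by_cases hx : ∃ k, F.In k x
    · obtain ⟨k, hk⟩ := hx
      rw [F.δ_eq hk]; exact h.hε k
    · left; rw [δ, dif_neg hx]
  δ_f := by
    intro x h0 h1
    obtain ⟨k, hk⟩ := F.exists_in h0 h1
    rw [F.δ_eq (h.In_f hk), F.δ_eq hk, (h.hεφ k hk.1).1]
  a_f := by
    intro x h0 h1
    obtain ⟨k, hk⟩ := F.exists_in h0 h1
    obtain ⟨b1, b2, b3⟩ := hk
    rw [F.f_eq ⟨b1, b2, b3⟩, F.δ_eq ⟨b1, b2, b3⟩, h.hlet k b1 (x - F.off k) (by omega) (by omega)]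
    congr 2; ring
  f_inner := by
    intro x h0 h1 h2
    obtain ⟨k, hk⟩ := F.exists_in h0 (by omega)
    have hk' := h.in_succ hk h1 h2
    have hfx := h.In_f hk
    have hfx' := h.In_f hk'
    have e1 : F.f (x + 1) = F.f x + F.δ x := by
      rw [F.f_eq hk, F.f_eq hk', F.δ_eq hk]
      rcases h.hε k with e | e
      · simp only [rj, e, if_true]; ring
      · simp only [rj, e]
        rw [if_neg (by norm_num), if_neg (by norm_num)]; ring
    refine ⟨e1, by rw [F.δ_eq hk', F.δ_eq hk], ?_⟩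
    have hmin : F.In (F.φ k) (min (F.f x) (F.f (x + 1))) := by
      rcases min_choice (F.f x) (F.f (x + 1)) with e | e <;> rw [e] <;> assumption
    have hmin' : F.In (F.φ k) (min (F.f x) (F.f (x + 1)) + 1) := by
      have : min (F.f x) (F.f (x + 1)) + 1 = max (F.f x) (F.f (x + 1)) := by
        rw [e1, F.δ_eq hk]
        rcases h.hε k with e | e <;> rw [e] <;> omega
      rw [this]
      rcases max_choice (F.f x) (F.f (x + 1)) with e | e <;> rw [e] <;> assumption
    refine ⟨?_, ?_, ?_⟩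
    · have := F.off_nonneg (F.φ k)
      have := hmin.2.1
      omega
    · have h3 := F.off_mono (show F.φ k + 1 ≤ F.n from hmin.1)
      rw [off_succ] at h3
      have := hmin'.2.2
      omega
    · rw [h.Bd_mem hmin']
      have := hmin.2.1
      omega
  red := by
    intro x h0 h1 h2
    obtain ⟨k, hk⟩ := F.exists_in h0 (by omega)
    have hk' := h.in_succ hk h1 h2
    have := h.hred k hk.1 (x - F.off k) (by have := hk.2.1; omega) (by have := hk'.2.2; omega)
    rwa [show F.off k + (x - F.off k) + 1 = x + 1 by ring,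
      show F.off k + (x - F.off k) = x by ring] at this
  f_sep := by
    intro x h0 h1 hcon
    obtain ⟨k, hk⟩ := F.exists_in h0 h1
    have hf := h.In_f hk
    obtain ⟨c1, c2, c3⟩ := h.hφ k hk.1
    rcases lt_or_gt_of_ne c3 with hlt | hgt
    · have h3 := F.off_mono (show F.φ k + 1 ≤ k by omega)
      rw [off_succ] at h3
      have h4 := hf.2.2
      have h5 := hk.2.1
      apply hcon (F.off k) (by omega) (by omega)
      exact Finset.mem_image.mpr ⟨k, Finset.mem_range.mpr hk.1, rfl⟩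
    · have h3 := F.off_mono (show k + 1 ≤ F.φ k by omega)
      rw [off_succ] at h3
      have h4 := hf.2.1
      have h5 := hk.2.2
      apply hcon (F.off (F.φ k)) (by omega) (by omega)
      exact Finset.mem_image.mpr ⟨F.φ k, Finset.mem_range.mpr c1, rfl⟩

variable (h : F.Valid)

theorem Valid.mf {k : ℕ} (hk : k < F.n) :
    Sys.MF (F.toSys h) (F.off k) (F.ℓ k - 1) := by
  have hl := h.hℓ k hk
  have hM := F.off_mono (show k + 1 ≤ F.n by omega)
  rw [off_succ] at hM
  have hcast : ((F.ℓ k - 1 : ℕ) : ℤ) = F.ℓ k - 1 := by push_cast [Nat.cast_sub hl]; ring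
  refine ⟨F.off_nonneg k, ?_, ?_, ?_, ?_⟩
  · rw [hcast]; change _ < F.off F.n; omega
  · intro t h1 h2
    rw [hcast] at h2
    refine ⟨?_, ?_, ?_⟩
    · have := F.off_nonneg k; omega
    · change _ < F.off F.n; omega
    · change t + 1 ∉ (Finset.range F.n).image F.off
      have hin : F.In k (t + 1) := ⟨hk, by omega, by omega⟩
      rw [h.Bd_mem hin]; omega
  · rintro ⟨_, _, h3⟩
    apply h3
    rw [show F.off k - 1 + 1 = F.off k by ring]
    exact Finset.mem_image.mpr ⟨k, Finset.mem_range.mpr hk, rfl⟩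
  · rintro ⟨_, h2, h3⟩
    rw [hcast] at h2 h3
    have e : F.off k + (F.ℓ k - 1) + 1 = F.off (k + 1) := by rw [off_succ]; ring
    rw [e] at h2 h3
    apply h3
    change F.off (k + 1) < F.off F.n at h2
    refine Finset.mem_image.mpr ⟨k + 1, Finset.mem_range.mpr ?_, rfl⟩
    by_contra hc
    have := F.off_mono (show F.n ≤ k + 1 by omega)
    omega

/-- Swap identity for the value of a factor. -/
theorem Valid.swap {E : ℤ → ℤ → FreeGroup A} (hE : Sys.InsFn (F.toSys h) E) {k : ℕ}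
    (hk : k < F.n)
    (hinv : Sys.W (F.toSys h) (fun l r => E ((F.toSys h).f l) ((F.toSys h).f r)) (F.off k)
      (F.ℓ k - 1) = Sys.W (F.toSys h) E (F.off k) (F.ℓ k - 1)) :
    Sys.W (F.toSys h) E (F.off (F.φ k)) (F.ℓ (F.φ k) - 1) =
      if F.ε k = 1 then Sys.W (F.toSys h) E (F.off k) (F.ℓ k - 1)
      else (Sys.W (F.toSys h) E (F.off k) (F.ℓ k - 1))⁻¹ := by
  have hl := h.hℓ k hk
  have hcast : ((F.ℓ k - 1 : ℕ) : ℤ) = F.ℓ k - 1 := by push_cast [Nat.cast_sub hl]; ring
  rw [(h.hεφ k hk).2]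
  have hin : ∀ j : ℤ, 0 ≤ j → j ≤ (F.ℓ k - 1 : ℕ) → F.In k (F.off k + j) := by
    intro j h1 h2
    rw [hcast] at h2
    exact ⟨hk, by omega, by omega⟩
  have hff : ∀ j : ℤ, 0 ≤ j → j ≤ (F.ℓ k - 1 : ℕ) →
      (F.toSys h).f (F.off k + j) = F.off (F.φ k) + F.rj k j := by
    intro j h1 h2
    change F.f (F.off k + j) = _
    rw [F.f_eq (hin j h1 h2)]
    congr 2; ring
  have haa : ∀ j : ℤ, 0 ≤ j → j ≤ (F.ℓ k - 1 : ℕ) →
      (F.toSys h).a ((F.toSys h).f (F.off k + j)) = lp (F.ε k) ((F.toSys h).a (F.off k + j)) := by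
    intro j h1 h2
    rw [hff j h1 h2]
    exact h.hlet k hk j h1 (by rw [hcast] at h2; omega)
  have hf0 := hff 0 le_rfl (by omega)
  rw [add_zero] at hf0
  rcases h.hε k with e | e
  · rw [if_pos e, ← hinv]
    have hrj : ∀ j : ℤ, F.rj k j = j := by intro j; simp [rj, e]
    rw [hrj, add_zero] at hf0
    rw [← hf0]
    apply Sys.W_f_pos
    · intro j h1 h2
      rw [hff j h1 h2, hf0, hrj]
    · intro j h1 h2
      rw [haa j h1 h2, e, lp_one]
  · rw [if_neg (by rw [e]; norm_num), ← hinv]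
    have hrj : ∀ j : ℤ, F.rj k j = F.ℓ k - 1 - j := by
      intro j; simp only [rj, e]; rw [if_neg (by norm_num)]
    rw [hrj] at hf0
    have e1 : F.off (F.φ k) = (F.toSys h).f (F.off k) - ((F.ℓ k - 1 : ℕ) : ℤ) := by
      rw [hf0, hcast]; ring
    rw [e1]
    apply Sys.W_f_neg hE.rev
    · intro j h1 h2
      rw [hff j h1 h2, hf0, hrj]; ring
    · intro j h1 h2
      rw [haa j h1 h2, e, lp_neg_one]

/-- The product of the values of the first factors. -/
theorem Valid.prod {E : ℤ → ℤ → FreeGroup A} (hE : Sys.InsFn (F.toSys h) E) (k : ℕ)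
    (hk : k ≤ F.n) :
    Sys.Q (F.toSys h) E 0 (F.off k).toNat =
      ((List.range k).map fun j => Sys.W (F.toSys h) E (F.off j) (F.ℓ j - 1)).prod := by
  induction k with
  | zero => simp [off_zero, Sys.Q]
  | succ k ih =>
    have hl := h.hℓ k (by omega)
    have h0 := F.off_nonneg k
    rw [List.range_succ, List.map_append, List.prod_append, ← ih (by omega)]
    simp only [List.map_cons, List.map_nil, List.prod_cons, List.prod_nil, mul_one]
    have e1 : (F.off (k + 1)).toNat = (F.off k).toNat + ((F.ℓ k - 1) + 1) := by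
      rw [off_succ]; omega
    rw [e1, Sys.Q_add]
    congr 1
    have e2 : (0 : ℤ) + ((F.off k).toNat : ℤ) = F.off k := by omega
    rw [e2, Sys.Q_eq_W]
    have e3 : E (F.off k - 1) (F.off k) = 1 := by
      by_contra hne
      have := hE.supp (F.off k - 1) (by rwa [show F.off k - 1 + 1 = F.off k by ring])
      apply this.1.2.2
      rw [show F.off k - 1 + 1 = F.off k by ring]
      exact Finset.mem_image.mpr ⟨k, Finset.mem_range.mpr (by omega), rfl⟩
    rw [e3, one_mul]

end Fac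

end Pool.H43.Quad
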