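import Mathlib

/-!
# The chain of neighbour replacements
-/

namespace Pool.H43.Quad

/-- `i`, `j` are the nearest hits on the two sides up to time `t`. -/
structure Nbr (q : ℕ → Bool → ℤ) (σ : ℤ) (i : ℕ) (vi : Bool) (j : ℕ) (vj : Bool) (t : ℕ) :
    Prop where
  i1 : 1 ≤ i
  ij : i < j
  jt : j ≤ t
  hi : σ * q i vi < 0
  hj : 0 < σ * q j vj
  no : ∀ k v, 1 ≤ k → k ≤ t → ¬ (σ * q i vi < σ * q k v ∧ σ * q k v < σ * q j vj)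

/-- The hit `k` replaces the older neighbour `i`. -/
structure Evt (q : ℕ → Bool → ℤ) (σ : ℤ) (i : ℕ) (vi : Bool) (j : ℕ) (vj : Bool) (k : ℕ)
    (vk : Bool) : Prop where
  i1 : 1 ≤ i
  ij : i < j
  jk : j < k
  h1 : σ * q i vi < σ * q k vk
  h2 : σ * q k vk < 0
  h3 : 0 < σ * q j vj
  no : ∀ k' v, 1 ≤ k' → k' < k → ¬ (σ * q i vi < σ * q k' v ∧ σ * q k' v < σ * q j vj)

variable {q : ℕ → Bool → ℤ}

theorem abs_sigma {σ : ℤ} (hσ : σ = 1 ∨ σ = -1) (a : ℤ) : |σ * a| = |a| := by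
  rcases hσ with rfl | rfl <;> simp

/-- Choice of a minimiser among finitely many hits. -/
theorem exists_min_hit (f : ℕ → Bool → ℤ) (p : ℕ → Bool → Prop) (T : ℕ)
    (hne : ∃ k v, k < T ∧ p k v) :
    ∃ k v, k < T ∧ p k v ∧ ∀ k' v', k' < T → p k' v' → f k v ≤ f k' v' := by
  classical
  let X : Finset (ℕ × Bool) := ((Finset.range T) ×ˢ Finset.univ).filter (fun a => p a.1 a.2)
  have hX : X.Nonempty := by
    obtain ⟨k, v, h1, h2⟩ := hne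
    exact ⟨(k, v), by simp [X, h1, h2]⟩
  obtain ⟨⟨k, v⟩, hmem, hmin⟩ := Finset.exists_min_image X (fun a => f a.1 a.2) hX
  simp only [X, Finset.mem_filter, Finset.mem_product, Finset.mem_range, Finset.mem_univ,
    and_true] at hmem
  refine ⟨k, v, hmem.1, hmem.2, ?_⟩
  intro k' v' h1 h2
  exact hmin (k', v') (by simp [X, h1, h2])

theorem nbr_init {T : ℕ} {ω : ℤ}
    (F0 : ∀ k, 1 ≤ k → k ≤ T → ¬ (|q k false| ≤ ω ∧ |q k true| ≤ ω))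
    (F1 : ∀ k v, 1 ≤ k → k ≤ T → q k v ≠ 0)
    (hL : ∃ k v, 1 ≤ k ∧ k ≤ T ∧ -ω ≤ q k v ∧ q k v < 0)
    (hR : ∃ k v, 1 ≤ k ∧ k ≤ T ∧ 0 < q k v ∧ q k v ≤ ω) :
    ∃ σ : ℤ, (σ = 1 ∨ σ = -1) ∧ ∃ i vi j vj, Nbr q σ i vi j vj T ∧ |q i vi| ≤ ω ∧
      |q j vj| ≤ ω := by
  obtain ⟨a, va, ha1, ⟨ha2, ha3⟩, ha4⟩ := exists_min_hit (fun k v => -q k v)
    (fun k v => 1 ≤ k ∧ q k v < 0) (T + 1) (by
      obtain ⟨k, v, h1, h2, h3, h4⟩ := hL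
      exact ⟨k, v, by omega, h1, h4⟩)
  obtain ⟨b, vb, hb1, ⟨hb2, hb3⟩, hb4⟩ := exists_min_hit (fun k v => q k v)
    (fun k v => 1 ≤ k ∧ 0 < q k v) (T + 1) (by
      obtain ⟨k, v, h1, h2, h3, h4⟩ := hR
      exact ⟨k, v, by omega, h1, h3⟩)
  have hwa : |q a va| ≤ ω := by
    obtain ⟨k, v, h1, h2, h3, h4⟩ := hL
    have := ha4 k v (by omega) ⟨h1, h4⟩
    rw [abs_of_neg ha3]; linarith
  have hwb : |q b vb| ≤ ω := by
    obtain ⟨k, v, h1, h2, h3, h4⟩ := hR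
    have := hb4 k v (by omega) ⟨h1, h3⟩
    rw [abs_of_pos hb3]; linarith
  have hno : ∀ k v, 1 ≤ k → k ≤ T → ¬ (q a va < q k v ∧ q k v < q b vb) := by
    rintro k v h1 h2 ⟨h3, h4⟩
    rcases lt_trichotomy (q k v) 0 with h5 | h5 | h5
    · have := ha4 k v (by omega) ⟨h1, h5⟩
      linarith
    · exact F1 k v h1 h2 h5
    · have := hb4 k v (by omega) ⟨h1, h5⟩
      linarith
  rcases lt_trichotomy a b with hab | hab | hab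
  · refine ⟨1, Or.inl rfl, a, va, b, vb, ⟨ha2, hab, by omega, by linarith, by linarith, ?_⟩,
      hwa, hwb⟩
    intro k v h1 h2
    simpa using hno k v h1 h2
  · exfalso
    subst hab
    apply F0 a ha2 (by omega)
    cases va <;> cases vb
    · linarith
    · exact ⟨hwa, hwb⟩
    · exact ⟨hwb, hwa⟩
    · linarith
  · refine ⟨-1, Or.inr rfl, b, vb, a, va, ⟨hb2, hab, by omega, by linarith, by linarith, ?_⟩,
      hwb, hwa⟩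
    rintro k v h1 h2 ⟨h3, h4⟩
    exact hno k v h1 h2 ⟨by linarith, by linarith⟩

theorem nbr_step {σ : ℤ} (hσ : σ = 1 ∨ σ = -1) {i : ℕ} {vi : Bool} {j : ℕ} {vj : Bool} {t T : ℕ}
    {ω : ℤ} (_htT : t ≤ T) (hN : Nbr q σ i vi j vj t) (wi : |q i vi| ≤ ω) (wj : |q j vj| ≤ ω)
    (F0 : ∀ k, 1 ≤ k → k ≤ T → ¬ (|q k false| ≤ ω ∧ |q k true| ≤ ω))
    (F1 : ∀ k v, 1 ≤ k → k ≤ T → q k v ≠ 0)
    (hex : ∃ k v, 1 ≤ k ∧ k ≤ T ∧ σ * q i vi < σ * q k v ∧ σ * q k v < 0) :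
    ∃ j' vj' k vk, k ≤ T ∧ Evt q σ i vi j' vj' k vk ∧ Nbr q (-σ) j' vj' k vk k ∧
      |q j' vj'| ≤ ω ∧ |q k vk| ≤ ω := by
  classical
  have hP : ∃ k, 1 ≤ k ∧ ∃ v, σ * q i vi < σ * q k v ∧ σ * q k v < 0 := by
    obtain ⟨k, v, h1, _, h3⟩ := hex
    exact ⟨k, h1, v, h3⟩
  set k := Nat.find hP with hk
  obtain ⟨hk1, vk, hk2, hk3⟩ := Nat.find_spec hP
  rw [← hk] at hk1 hk2 hk3
  have hkmin : ∀ k', 1 ≤ k' → k' < k → ∀ v, ¬ (σ * q i vi < σ * q k' v ∧ σ * q k' v < 0) := by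
    intro k' h1 h2 v h3
    exact Nat.find_min hP h2 ⟨h1, v, h3⟩
  have hkT : k ≤ T := by
    obtain ⟨k0, v0, h1, h2, h3⟩ := hex
    by_contra hc
    exact hkmin k0 h1 (by omega) v0 h3
  have hkt : t < k := by
    by_contra hc
    exact hN.no k vk hk1 (by omega) ⟨hk2, by linarith [hN.hj]⟩
  have hσ0 : ∀ k' v, 1 ≤ k' → k' ≤ T → σ * q k' v ≠ 0 := by
    intro k' v h1 h2 h3
    rcases hσ with rfl | rfl
    · exact F1 k' v h1 h2 (by linarith)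
    · exact F1 k' v h1 h2 (by linarith)
  -- the newest neighbour on the other side
  obtain ⟨j', vj', hj1, hj2, hj3, hj4, hj5⟩ : ∃ j' vj', i < j' ∧ j' < k ∧ 0 < σ * q j' vj' ∧
      σ * q j' vj' ≤ σ * q j vj ∧
      ∀ k' v, 1 ≤ k' → k' < k → ¬ (0 < σ * q k' v ∧ σ * q k' v < σ * q j' vj') := by
    by_cases hA : ∃ k' v, k' < k ∧ (1 ≤ k' ∧ 0 < σ * q k' v ∧ σ * q k' v < σ * q j vj)
    · obtain ⟨j', vj', h1, ⟨h2, h3, h4⟩, h5⟩ := exists_min_hit (fun k' v => σ * q k' v)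
        (fun k' v => 1 ≤ k' ∧ 0 < σ * q k' v ∧ σ * q k' v < σ * q j vj) k hA
      have h6 : t < j' := by
        by_contra hc
        exact hN.no j' vj' h2 (by omega) ⟨by linarith [hN.hi], h4⟩
      refine ⟨j', vj', ?_, h1, h3, h4.le, ?_⟩
      · have := hN.ij
        have := hN.jt
        omega
      · rintro k' v k1 k2 ⟨k3, k4⟩
        have := h5 k' v k2 ⟨k1, k3, by linarith⟩
        linarith
    · refine ⟨j, vj, hN.ij, ?_, hN.hj, le_rfl, ?_⟩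
      · have := hN.jt
        omega
      · rintro k' v k1 k2 ⟨k3, k4⟩
        exact hA ⟨k', v, k2, k1, k3, k4⟩
  have hi1 := hN.i1
  have hno : ∀ k' v, 1 ≤ k' → k' < k →
      ¬ (σ * q i vi < σ * q k' v ∧ σ * q k' v < σ * q j' vj') := by
    rintro k' v k1 k2 ⟨k3, k4⟩
    rcases lt_trichotomy (σ * q k' v) 0 with h5 | h5 | h5
    · exact hkmin k' k1 k2 v ⟨k3, h5⟩
    · exact hσ0 k' v k1 (by omega) h5
    · exact hj5 k' v k1 k2 ⟨h5, k4⟩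
  have hwj' : |q j' vj'| ≤ ω := by
    rw [← abs_sigma hσ, abs_of_pos hj3]
    rw [← abs_sigma hσ, abs_of_pos hN.hj] at wj
    linarith
  have hwk : |q k vk| ≤ ω := by
    rw [← abs_sigma hσ, abs_of_neg hk3]
    rw [← abs_sigma hσ, abs_of_neg hN.hi] at wi
    linarith
  refine ⟨j', vj', k, vk, hkT, ⟨hi1, hj1, hj2, hk2, hk3, hj3, hno⟩,
    ⟨by omega, hj2, le_rfl, by linarith, by linarith, ?_⟩, hwj', hwk⟩
  rintro k' v k1 k2 ⟨k3, k4⟩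
  have k5 : σ * q k vk < σ * q k' v := by linarith
  have k6 : σ * q k' v < σ * q j' vj' := by linarith
  rcases Nat.lt_or_ge k' k with h | h
  · exact hno k' v k1 h ⟨by linarith, k6⟩
  · have hkk : k' = k := by omega
    rw [hkk] at k5 k6
    have hw : |q k v| ≤ ω := by
      rw [← abs_sigma hσ, abs_le]
      rw [← abs_sigma hσ, abs_le] at hwj' hwk
      constructor <;> linarith
    apply F0 k hk1 hkT
    cases v <;> cases vk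
    · linarith
    · exact ⟨hw, hwk⟩
    · exact ⟨hwk, hw⟩
    · linarith

/-- Three successive replacement events. -/
theorem chain3 {T0 T1 T2 T3 : ℕ} (h01 : T0 ≤ T1) (h12 : T1 ≤ T2) (h23 : T2 ≤ T3) {ω : ℤ}
    (F0 : ∀ k, 1 ≤ k → k ≤ T3 → ¬ (|q k false| ≤ ω ∧ |q k true| ≤ ω))
    (F1 : ∀ k v, 1 ≤ k → k ≤ T3 → q k v ≠ 0)
    (hL : ∃ k v, 1 ≤ k ∧ k ≤ T0 ∧ -ω ≤ q k v ∧ q k v < 0)
    (hR : ∃ k v, 1 ≤ k ∧ k ≤ T0 ∧ 0 < q k v ∧ q k v ≤ ω)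
    (hclose : ∀ T T' : ℕ, (T = T0 ∧ T' = T1) ∨ (T = T1 ∧ T' = T2) ∨ (T = T2 ∧ T' = T3) →
      (∃ k v, 1 ≤ k ∧ k ≤ T' ∧ q k v < 0 ∧
        ∀ k' v', 1 ≤ k' → k' ≤ T → q k' v' < 0 → q k' v' < q k v) ∧
      (∃ k v, 1 ≤ k ∧ k ≤ T' ∧ 0 < q k v ∧
        ∀ k' v', 1 ≤ k' → k' ≤ T → 0 < q k' v' → q k v < q k' v')) :
    ∃ σ : ℤ, (σ = 1 ∨ σ = -1) ∧ ∃ i1 v1 i2 v2 k1 w1 i3 v3 k2 w2 i4 v4 k3 w3,
      Evt q σ i1 v1 i2 v2 k1 w1 ∧ Evt q (-σ) i2 v2 i3 v3 k2 w2 ∧ Evt q σ i3 v3 i4 v4 k3 w3 ∧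
      k1 ≤ T3 ∧ k2 ≤ T3 ∧ k3 ≤ T3 ∧ |q i1 v1| ≤ ω ∧ |q i2 v2| ≤ ω ∧ |q i3 v3| ≤ ω ∧
      |q i4 v4| ≤ ω := by
  have hgen : ∀ {σ : ℤ}, (σ = 1 ∨ σ = -1) → ∀ {i : ℕ} {vi : Bool} {j : ℕ} {vj : Bool}
      {t T T' : ℕ}, (T = T0 ∧ T' = T1) ∨ (T = T1 ∧ T' = T2) ∨ (T = T2 ∧ T' = T3) → t ≤ T →
      Nbr q σ i vi j vj t → ∃ k v, 1 ≤ k ∧ k ≤ T' ∧ σ * q i vi < σ * q k v ∧ σ * q k v < 0 := by
    intro σ hσ i vi j vj t T T' hTT ht hN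
    obtain ⟨⟨k, v, c1, c2, c3, c4⟩, ⟨k', v', d1, d2, d3, d4⟩⟩ := hclose T T' hTT
    have hi := hN.hi
    have hi1 := hN.i1
    have hij := hN.ij
    have hjt := hN.jt
    rcases hσ with rfl | rfl
    · refine ⟨k, v, c1, c2, ?_, by linarith⟩
      have := c4 i vi hi1 (by omega) (by linarith)
      linarith
    · refine ⟨k', v', d1, d2, ?_, by linarith⟩
      have := d4 i vi hi1 (by omega) (by linarith)
      linarith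
  obtain ⟨σ, hσ, i1, v1, j1, u1, hN0, wi1, wj1⟩ := nbr_init
    (fun k h1 h2 => F0 k h1 (by omega)) (fun k v h1 h2 => F1 k v h1 (by omega)) hL hR
  have hσ' : -σ = 1 ∨ -σ = -1 := by rcases hσ with rfl | rfl <;> simp
  obtain ⟨i2, v2, k1, w1, hk1, E1, N1, wi2, wk1⟩ := nbr_step hσ h01 hN0 wi1 wj1
    (fun k h1 h2 => F0 k h1 (by omega)) (fun k v h1 h2 => F1 k v h1 (by omega))
    (hgen hσ (Or.inl ⟨rfl, rfl⟩) le_rfl hN0)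
  obtain ⟨i3, v3, k2, w2, hk2, E2, N2, wi3, wk2⟩ := nbr_step hσ' (show k1 ≤ T2 by omega) N1 wi2 wk1
    (fun k h1 h2 => F0 k h1 (by omega)) (fun k v h1 h2 => F1 k v h1 (by omega))
    (hgen hσ' (Or.inr (Or.inl ⟨rfl, rfl⟩)) hk1 N1)
  rw [neg_neg] at N2
  obtain ⟨i4, v4, k3, w3, hk3, E3, N3, wi4, wk3⟩ := nbr_step hσ (show k2 ≤ T3 by omega) N2 wi3 wk2
    F0 F1 (hgen hσ (Or.inr (Or.inr ⟨rfl, rfl⟩)) hk2 N2)
  exact ⟨σ, hσ, i1, v1, i2, v2, k1, w1, i3, v3, k2, w2, i4, v4, k3, w3, E1, E2, E3, by omega,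
    by omega, hk3, wi1, wi2, wi3, wi4⟩

end Pool.H43.Quad
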