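import Pool.Agent.H43.Quad.Sys

/-!
# Counting singular adjacencies and bad strips
-/

namespace Pool.H43.Quad

namespace Sys

variable {A : Type*} (S : Sys A)

open Classical in
/-- Non-inner adjacencies. -/
theorem notInner_card :
    ((Finset.Ico (-1) S.M).filter (fun y => ¬ S.inner y)).card ≤ S.Bd.card + 2 := by
  have hsub : (Finset.Ico (-1) S.M).filter (fun y => ¬ S.inner y) ⊆
      S.Bd.image (fun t => t - 1) ∪ {-1, S.M - 1} := by
    intro y hy
    rw [Finset.mem_filter, Finset.mem_Ico] at hy
    obtain ⟨⟨h1, h2⟩, h3⟩ := hy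
    simp only [Finset.mem_union, Finset.mem_image, Finset.mem_insert, Finset.mem_singleton]
    by_cases h4 : y = -1
    · right; left; exact h4
    by_cases h5 : y = S.M - 1
    · right; right; exact h5
    left
    by_contra h6
    apply h3
    refine ⟨by omega, by omega, ?_⟩
    intro h7
    exact h6 ⟨y + 1, h7, by ring⟩
  calc _ ≤ _ := Finset.card_le_card hsub
    _ ≤ (S.Bd.image (fun t => t - 1)).card + ({-1, S.M - 1} : Finset ℤ).card :=
      Finset.card_union_le _ _
    _ ≤ S.Bd.card + 2 := Nat.add_le_add Finset.card_image_le Finset.card_le_two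

theorem sum_tele (g : ℤ → ℤ) (n : ℕ) :
    ∑ z ∈ Finset.Ico (0 : ℤ) n, (g (z + 1) - g z) = g n - g 0 := by
  induction n with
  | zero => simp
  | succ n ih =>
    have : Finset.Ico (0 : ℤ) ((n + 1 : ℕ) : ℤ) = insert (n : ℤ) (Finset.Ico (0 : ℤ) n) := by
      ext z
      simp only [Finset.mem_Ico, Finset.mem_insert]
      push_cast
      omega
    rw [this, Finset.sum_insert (by simp), ih]
    push_cast
    ring

open Classical in
/-- Valleys: a closing letter followed by an opening letter. -/
theorem valley_card :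
    ((Finset.Ico 0 (S.M - 1)).filter
      (fun z => S.π z < z ∧ z + 1 < S.π (z + 1))).card ≤ S.Bd.card := by
  rcases le_or_gt S.M 0 with hM | hM
  · have : Finset.Ico 0 (S.M - 1) = ∅ := Finset.Ico_eq_empty (by omega)
    rw [this]; simp
  set op : ℤ → ℤ := fun z => if z < S.π z then 1 else 0 with hop
  obtain ⟨n, hn⟩ : ∃ n : ℕ, (n : ℤ) = S.M - 1 := ⟨(S.M - 1).toNat, by omega⟩
  have htel := sum_tele op n
  have h0 : op 0 = 1 := by
    simp only [hop]
    rw [if_pos]
    obtain ⟨h1, _⟩ := S.π_mem 0 le_rfl hM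
    have := S.π_ne 0 le_rfl hM
    omega
  have hn0 : op n = 0 := by
    simp only [hop]
    rw [if_neg]
    obtain ⟨_, h1⟩ := S.π_mem n (by omega) (by omega)
    omega
  rw [h0, hn0, hn] at htel
  have hterm : ∀ z ∈ Finset.Ico 0 (S.M - 1), op (z + 1) - op z =
      (if S.π z < z ∧ z + 1 < S.π (z + 1) then 1 else 0) -
      (if z < S.π z ∧ S.π (z + 1) < z + 1 then 1 else 0) := by
    intro z hz
    rw [Finset.mem_Ico] at hz
    have h1 := S.π_ne z (by omega) (by omega)
    have h2 := S.π_ne (z + 1) (by omega) (by omega)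
    simp only [hop]
    split_ifs <;> omega
  rw [Finset.sum_congr rfl hterm, Finset.sum_sub_distrib, Finset.sum_boole, Finset.sum_boole] at htel
  have hpk : ((Finset.Ico 0 (S.M - 1)).filter
      (fun z => z < S.π z ∧ S.π (z + 1) < z + 1)).card ≤ S.Bd.card := by
    have hsub : (Finset.Ico 0 (S.M - 1)).filter
      (fun z => z < S.π z ∧ S.π (z + 1) < z + 1) ⊆ S.Bd.image (fun t => t - 1) := by
      intro z hz
      rw [Finset.mem_filter, Finset.mem_Ico] at hz
      obtain ⟨⟨h1, h2⟩, h3, h4⟩ := hz
      rw [Finset.mem_image]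
      refine ⟨z + 1, ?_, by ring⟩
      by_contra hbd
      have hπz : S.π z = z + 1 := by
        by_contra hne
        have := S.nc z (z + 1) h1 (by omega) (by omega) (S.π_mem z h1 (by omega)).2
        omega
      apply S.red z h1 (by omega) hbd
      rw [← hπz]
      exact S.a_π z h1 (by omega)
    exact (Finset.card_le_card hsub).trans Finset.card_image_le
  push_cast at htel
  have h5 : (((Finset.Ico 0 (S.M - 1)).filter
      (fun z => S.π z < z ∧ z + 1 < S.π (z + 1))).card : ℤ) ≤
      (((Finset.Ico 0 (S.M - 1)).filter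
      (fun z => z < S.π z ∧ S.π (z + 1) < z + 1)).card : ℤ) := by linarith
  have h6 : ((Finset.Ico 0 (S.M - 1)).filter
      (fun z => S.π z < z ∧ z + 1 < S.π (z + 1))).card ≤
      ((Finset.Ico 0 (S.M - 1)).filter
      (fun z => z < S.π z ∧ S.π (z + 1) < z + 1)).card := by exact_mod_cast h5
  exact h6.trans hpk

open Classical in
theorem ns_count :
    ((Finset.Ico (-1) S.M).filter (fun y => ¬ S.NS y)).card ≤ 5 * S.Bd.card + 4 := by
  set V := (Finset.Ico 0 (S.M - 1)).filter (fun z => S.π z < z ∧ z + 1 < S.π (z + 1)) with hV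
  set NI := (Finset.Ico (-1) S.M).filter (fun y => ¬ S.inner y) with hNI
  set X1 := (Finset.Ico (-1) S.M).filter
    (fun y => S.inner y ∧ S.π (y + 1) = S.π y - 1 ∧ ¬ S.inner (S.π y - 1)) with hX1
  set X2 := (Finset.Ico (-1) S.M).filter
    (fun y => S.inner y ∧ S.π (y + 1) ≠ S.π y - 1 ∧ y < S.π y ∧ y + 1 < S.π (y + 1)) with hX2
  set X3 := (Finset.Ico (-1) S.M).filter
    (fun y => S.inner y ∧ S.π (y + 1) ≠ S.π y - 1 ∧ S.π y < y ∧ S.π (y + 1) < y + 1) with hX3
  have hsub : (Finset.Ico (-1) S.M).filter (fun y => ¬ S.NS y) ⊆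
      NI ∪ (X1 ∪ (X2 ∪ (X3 ∪ V))) := by
    intro y hy
    rw [Finset.mem_filter] at hy
    obtain ⟨hy1, hy2⟩ := hy
    simp only [Finset.mem_union]
    by_cases hin : S.inner y
    · right
      by_cases hπ : S.π (y + 1) = S.π y - 1
      · left
        rw [hX1, Finset.mem_filter]
        exact ⟨hy1, hin, hπ, fun h => hy2 ⟨hin, hπ, h⟩⟩
      · right
        obtain ⟨i1, i2, i3⟩ := hin
        have h1 := S.π_ne y i1 (by omega)
        have h2 := S.π_ne (y + 1) (by omega) i2
        rcases lt_or_gt_of_ne h1 with h3 | h3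
        · rcases lt_or_gt_of_ne h2 with h4 | h4
          · right; left
            rw [hX3, Finset.mem_filter]
            exact ⟨hy1, ⟨i1, i2, i3⟩, hπ, h3, h4⟩
          · right; right
            rw [hV, Finset.mem_filter, Finset.mem_Ico]
            exact ⟨⟨i1, by omega⟩, h3, h4⟩
        · rcases lt_or_gt_of_ne h2 with h4 | h4
          · exfalso
            have hπz : S.π y = y + 1 := by
              by_contra hne
              have := S.nc y (y + 1) i1 (by omega) (by omega) (S.π_mem y i1 (by omega)).2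
              omega
            apply S.red y i1 i2 i3
            rw [← hπz]
            exact S.a_π y i1 (by omega)
          · left
            rw [hX2, Finset.mem_filter]
            exact ⟨hy1, ⟨i1, i2, i3⟩, hπ, h3, h4⟩
    · left
      rw [hNI, Finset.mem_filter]
      exact ⟨hy1, hin⟩
  have hNIc : NI.card ≤ S.Bd.card + 2 := S.notInner_card
  have hVc : V.card ≤ S.Bd.card := S.valley_card
  have hX1c : X1.card ≤ S.Bd.card + 2 := by
    refine le_trans ?_ hNIc
    refine Finset.card_le_card_of_injOn (fun y => S.π y - 1) ?_ ?_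
    · intro y hy
      rw [Finset.mem_coe, hX1, Finset.mem_filter] at hy
      obtain ⟨_, ⟨i1, i2, _⟩, h2, h3⟩ := hy
      rw [Finset.mem_coe, hNI, Finset.mem_filter, Finset.mem_Ico]
      dsimp only
      obtain ⟨b1, b2⟩ := S.π_mem y i1 (by omega)
      exact ⟨⟨by omega, by omega⟩, h3⟩
    · intro y _ y' _ he
      have : S.π y = S.π y' := by simpa using he
      exact π_injective this
  have hX2c : X2.card ≤ S.Bd.card := by
    refine le_trans ?_ hVc
    refine Finset.card_le_card_of_injOn (fun y => S.π (y + 1)) ?_ ?_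
    · intro y hy
      rw [Finset.mem_coe, hX2, Finset.mem_filter] at hy
      obtain ⟨_, ⟨i1, i2, i3⟩, h2, h3, h4⟩ := hy
      rw [Finset.mem_coe, hV, Finset.mem_filter, Finset.mem_Ico]
      dsimp only
      obtain ⟨b1, b2⟩ := S.π_mem y i1 (by omega)
      obtain ⟨b3, b4⟩ := S.π_mem (y + 1) (by omega) i2
      have hne : S.π y ≠ y + 1 := by
        intro h
        apply S.red y i1 i2 i3
        rw [← h]; exact S.a_π y i1 (by omega)
      obtain ⟨c1, c2⟩ := S.nc y (y + 1) i1 (by omega) (by omega) b2
      have hz1 : S.π (y + 1) + 1 < S.π y := by omega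
      have hzn : S.π (S.π (y + 1) + 1) ≠ S.π (y + 1) + 1 := S.π_ne _ (by omega) (by omega)
      obtain ⟨d1, d2⟩ := S.nc y (S.π (y + 1) + 1) i1 (by omega) hz1 b2
      refine ⟨⟨by omega, by omega⟩, by rw [S.π_inv]; omega, ?_⟩
      by_contra hcon
      -- the partner lies before: between y and π (y+1)
      have hlt : S.π (S.π (y + 1) + 1) < S.π (y + 1) + 1 := by omega
      have hne1 : S.π (S.π (y + 1) + 1) ≠ y + 1 := by
        intro h
        have := congrArg S.π h
        rw [S.π_inv] at this
        omega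
      have hne2 : S.π (S.π (y + 1) + 1) ≠ S.π (y + 1) := by
        intro h
        have := π_injective h
        omega
      obtain ⟨g1, g2⟩ := S.nc (y + 1) (S.π (S.π (y + 1) + 1)) (by omega) (by omega) (by omega) b4
      rw [S.π_inv] at g2
      omega
    · intro y _ y' _ he
      have := π_injective he
      omega
  have hX3c : X3.card ≤ S.Bd.card := by
    refine le_trans ?_ hVc
    refine Finset.card_le_card_of_injOn (fun y => S.π y - 1) ?_ ?_
    · intro y hy
      rw [Finset.mem_coe, hX3, Finset.mem_filter] at hy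
      obtain ⟨_, ⟨i1, i2, i3⟩, h2, h3, h4⟩ := hy
      rw [Finset.mem_coe, hV, Finset.mem_filter, Finset.mem_Ico]
      dsimp only
      obtain ⟨b1, b2⟩ := S.π_mem y i1 (by omega)
      obtain ⟨b3, b4⟩ := S.π_mem (y + 1) (by omega) i2
      have hne : S.π (y + 1) ≠ y := by
        intro h
        apply S.red y i1 i2 i3
        have := S.a_π (y + 1) (by omega) i2
        rw [h] at this
        rw [this]; simp
      -- π (y+1) < π y < y
      obtain ⟨c1, c2⟩ := S.nc (S.π (y + 1)) y b3 (by omega) (by rw [S.π_inv]; omega)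
        (by rw [S.π_inv]; exact i2)
      rw [S.π_inv] at c2
      have hz1 : S.π (y + 1) < S.π y - 1 := by omega
      obtain ⟨d1, d2⟩ := S.nc (S.π (y + 1)) (S.π y - 1) b3 hz1 (by rw [S.π_inv]; omega)
        (by rw [S.π_inv]; exact i2)
      rw [S.π_inv] at d2
      have hzn := S.π_ne (S.π y - 1) (by omega) (by omega)
      refine ⟨⟨by omega, by omega⟩, ?_, by
        rw [show S.π y - 1 + 1 = S.π y by ring, S.π_inv]; exact h3⟩
      by_contra hcon
      have hgt : S.π y - 1 < S.π (S.π y - 1) := by omega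
      have hne1 : S.π (S.π y - 1) ≠ y := by
        intro h
        have := congrArg S.π h
        rw [S.π_inv] at this
        omega
      have hne2 : S.π (S.π y - 1) ≠ S.π y := by
        intro h
        have := π_injective h
        omega
      obtain ⟨g1, g2⟩ := S.nc (S.π y) (S.π (S.π y - 1)) b1 (by omega)
        (by rw [S.π_inv]; omega) (by rw [S.π_inv]; omega)
      rw [S.π_inv] at g1
      omega
    · intro y _ y' _ he
      have : S.π y = S.π y' := by simpa using he
      exact π_injective this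
  calc _ ≤ _ := Finset.card_le_card hsub
    _ ≤ NI.card + (X1.card + (X2.card + (X3.card + V.card))) := by
      refine (Finset.card_union_le _ _).trans (Nat.add_le_add_left ?_ _)
      refine (Finset.card_union_le _ _).trans (Nat.add_le_add_left ?_ _)
      refine (Finset.card_union_le _ _).trans (Nat.add_le_add_left ?_ _)
      exact Finset.card_union_le _ _
    _ ≤ 5 * S.Bd.card + 4 := by omega

open Classical in
/-- The number of bases with a bad strip. -/
theorem badstrip_card (m n C : ℕ)
    (hC : ((Finset.Ico (-1) S.M).filter (fun y => ¬ S.NS y)).card ≤ C) :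
    ((Finset.Ico 0 S.M).filter (fun x => ¬ S.Strip x m n)).card ≤ n * (2 * m) * C := by
  set Sg := (Finset.Ico (-1) S.M).filter (fun y => ¬ S.NS y) with hSg
  -- image of triples
  set Tr := (Finset.range n) ×ˢ ((Finset.Ico (-(m : ℤ)) m) ×ˢ Sg) with hTr
  have hcard : Tr.card = n * ((2 * m) * Sg.card) := by
    rw [hTr, Finset.card_product, Finset.card_product, Finset.card_range, Int.card_Ico]
    congr 2
    omega
  have hex : ∀ x ∈ (Finset.Ico 0 S.M).filter (fun x => ¬ S.Strip x m n),
      ∃ p ∈ Tr, S.T^[p.1] x + p.2.1 = p.2.2 := by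
    intro x hx
    rw [Finset.mem_filter, Finset.mem_Ico] at hx
    obtain ⟨⟨h0, h1⟩, h2⟩ := hx
    simp only [Strip, GW, not_forall] at h2
    obtain ⟨k, hk, j, hj1, hj2, h3⟩ := h2
    obtain ⟨b1, b2⟩ := S.iter_T_mem k h0 h1
    have hfin : ∀ j : ℤ, -(m : ℤ) ≤ j → j < m → -1 ≤ S.T^[k] x + j → S.T^[k] x + j < S.M →
        ¬ S.NS (S.T^[k] x + j) → ∃ p ∈ Tr, S.T^[p.1] x + p.2.1 = p.2.2 := by
      intro j hj1 hj2 hj3 hj4 hj5
      refine ⟨(k, j, S.T^[k] x + j), ?_, rfl⟩
      rw [hTr, Finset.mem_product, Finset.mem_product, Finset.mem_range, Finset.mem_Ico, hSg,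
        Finset.mem_filter, Finset.mem_Ico]
      exact ⟨hk, ⟨hj1, hj2⟩, ⟨hj3, hj4⟩, hj5⟩
    by_cases c1 : S.T^[k] x + j < -1
    · refine hfin (-1 - S.T^[k] x) (by omega) (by omega) (by omega) (by omega) ?_
      rw [show S.T^[k] x + (-1 - S.T^[k] x) = -1 by ring]
      intro h
      have := h.1.1
      omega
    · by_cases c2 : S.M ≤ S.T^[k] x + j
      · refine hfin (S.M - 1 - S.T^[k] x) (by omega) (by omega) (by omega) (by omega) ?_
        rw [show S.T^[k] x + (S.M - 1 - S.T^[k] x) = S.M - 1 by ring]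
        intro h
        have := h.1.2.1
        omega
      · exact hfin j hj1 hj2 (by omega) (by omega) h3
  choose! g hg1 hg2 using hex
  have hinj : Set.InjOn g
      ((Finset.Ico 0 S.M).filter (fun x => ¬ S.Strip x m n) : Finset ℤ) := by
    intro x hx y hy hxy
    have h1 := hg2 x hx
    have h2 := hg2 y hy
    rw [hxy] at h1
    have h3 : S.T^[(g y).1] x = S.T^[(g y).1] y := by linarith
    exact (S.T_injective.iterate _) h3
  calc _ ≤ Tr.card := Finset.card_le_card_of_injOn g hg1 hinj
    _ = n * ((2 * m) * Sg.card) := hcard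
    _ = n * (2 * m) * Sg.card := by ring
    _ ≤ n * (2 * m) * C := Nat.mul_le_mul_left _ hC

end Sys

end Pool.H43.Quad
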