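import Pool.Agent.H43.Quad.Sys

/-!
# The cancellation matching of a word representing the identity
-/

namespace Pool.H43.Quad

open FreeGroup

/-- Words cancelling to the empty word. -/
inductive Dyck {A : Type*} : List (A × Bool) → Prop
  | nil : Dyck []
  | cons (p : A × Bool) (w1 w2 : List (A × Bool)) : Dyck w1 → Dyck w2 →
      Dyck (p :: (w1 ++ inv p :: w2))

variable {A : Type*}

theorem Dyck.insert (p : A × Bool) {w : List (A × Bool)} (h : Dyck w) :
    ∀ L1 L2, w = L1 ++ L2 → Dyck (L1 ++ p :: inv p :: L2) := by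
  induction h with
  | nil =>
    intro L1 L2 h
    obtain ⟨rfl, rfl⟩ := List.append_eq_nil_iff.mp h.symm
    exact Dyck.cons p [] [] Dyck.nil Dyck.nil
  | cons q w1 w2 h1 h2 ih1 ih2 =>
    intro L1 L2 h
    cases L1 with
    | nil =>
      rw [List.nil_append] at h ⊢
      rw [← h]
      exact Dyck.cons p [] _ Dyck.nil (Dyck.cons q w1 w2 h1 h2)
    | cons a L1 =>
      rw [List.cons_append] at h
      injection h with ha h
      subst ha
      rcases List.append_eq_append_iff.mp h with ⟨R, e1, e2⟩ | ⟨R, e1, e2⟩
      · -- L1 = w1 ++ R, inv q :: w2 = R ++ L2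
        cases R with
        | nil =>
          rw [List.append_nil] at e1
          rw [List.nil_append] at e2
          subst e1
          subst e2
          have := Dyck.cons q _ w2 (ih1 L1 [] (by simp)) h2
          simpa using this
        | cons b R =>
          rw [List.cons_append] at e2
          injection e2 with hb e2
          subst hb
          have := Dyck.cons q w1 _ h1 (ih2 R L2 e2)
          rw [e1]
          simpa using this
      · -- w1 = L1 ++ R, L2 = R ++ inv q :: w2
        have := Dyck.cons q _ w2 (ih1 L1 R e1) h2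
        rw [e2]
        simpa using this

theorem dyck_of_red {w : List (A × Bool)} (h : Red w []) : Dyck w := by
  induction h using Relation.ReflTransGen.head_induction_on with
  | refl => exact Dyck.nil
  | head hstep _ ih =>
    cases hstep with
    | @not L1 L2 x b =>
      have := ih.insert (x, b) L1 L2 rfl
      simpa [inv] using this

theorem dyck_of_mk [DecidableEq A] {w : List (A × Bool)} (h : mk w = 1) : Dyck w := by
  apply dyck_of_red
  have h1 := reduce.red (L := w)
  have h2 : reduce w = [] := by
    rw [← toWord_mk, h, toWord_one]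
  rwa [h2] at h1

/-- Reading of `n` letters from position `i`. -/
def rd (a : ℤ → A × Bool) (i : ℤ) (n : ℕ) : List (A × Bool) :=
  (List.range n).map fun k : ℕ => a (i + (k : ℤ))

theorem rd_length (a : ℤ → A × Bool) (i : ℤ) (n : ℕ) : (rd a i n).length = n := by simp [rd]

theorem rd_succ (a : ℤ → A × Bool) (i : ℤ) (n : ℕ) :
    rd a i (n + 1) = a i :: rd a (i + 1) n := by
  simp only [rd, List.range_succ_eq_map, List.map_cons, List.map_map]
  congr 1
  · simp
  · apply List.map_congr_left
    intro k _
    simp only [Function.comp]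
    congr 1; push_cast; ring

theorem rd_append (a : ℤ → A × Bool) (i : ℤ) (n m : ℕ) :
    rd a i (n + m) = rd a i n ++ rd a (i + n) m := by
  induction n generalizing i with
  | zero => simp [rd]
  | succ n ih =>
    rw [show n + 1 + m = (n + m) + 1 by ring, rd_succ, ih, rd_succ]
    simp only [List.cons_append]
    congr 3
    push_cast; ring

theorem rd_eq_append {a : ℤ → A × Bool} {i : ℤ} {n : ℕ} {u v : List (A × Bool)}
    (h : rd a i n = u ++ v) : rd a i u.length = u ∧ rd a (i + u.length) v.length = v ∧
      n = u.length + v.length := by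
  have hl : n = u.length + v.length := by
    have := congrArg List.length h
    rwa [rd_length, List.length_append] at this
  rw [hl, rd_append] at h
  obtain ⟨h1, h2⟩ := List.append_inj h (by rw [rd_length])
  exact ⟨h1, h2, hl⟩

/-- The matching of a Dyck word read from position `i`. -/
structure Matching (a : ℤ → A × Bool) (π : ℤ → ℤ) (i j : ℤ) : Prop where
  inv' : ∀ x, π (π x) = x
  out : ∀ x, ¬ (i ≤ x ∧ x < j) → π x = x
  mem : ∀ x, i ≤ x → x < j → i ≤ π x ∧ π x < j
  ne : ∀ x, i ≤ x → x < j → π x ≠ x
  nc : ∀ x y, i ≤ x → x < y → y < π x → π x < j → x < π y ∧ π y < π x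
  let' : ∀ x, i ≤ x → x < j → a (π x) = inv (a x)

theorem matching_exists (a : ℤ → A × Bool) {w : List (A × Bool)} (h : Dyck w) :
    ∀ (i : ℤ) (n : ℕ), rd a i n = w → ∃ π : ℤ → ℤ, Matching a π i (i + n) := by
  induction h with
  | nil =>
    intro i n hr
    have : n = 0 := by
      have := congrArg List.length hr
      simpa [rd] using this
    subst this
    refine ⟨fun x => x, ⟨fun x => rfl, fun x _ => rfl, ?_, ?_, ?_, ?_⟩⟩ <;> intros <;> omega
  | cons p w1 w2 h1 h2 ih1 ih2 =>
    intro i n hr
    obtain ⟨n, rfl⟩ : ∃ n', n = n' + 1 := by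
      have := congrArg List.length hr
      rw [rd_length] at this
      exact ⟨n - 1, by simp at this; omega⟩
    rw [rd_succ] at hr
    injection hr with ha hr
    obtain ⟨r1, r2, hn⟩ := rd_eq_append hr
    set n1 := w1.length with hn1
    rw [List.length_cons, rd_succ] at r2
    injection r2 with hb r2
    set n2 := w2.length with hn2
    obtain ⟨π1, m1⟩ := ih1 _ _ r1
    obtain ⟨π2, m2⟩ := ih2 _ _ r2
    have hn' : n = n1 + 1 + n2 := by rw [hn, List.length_cons]; omega
    have lo1 : ∀ x, i + 1 ≤ x → x < i + 1 + n1 → i + 1 ≤ π1 x ∧ π1 x < i + 1 + n1 := m1.mem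
    have lo2 : ∀ x, i + 1 + n1 + 1 ≤ x → x < i + 1 + n1 + 1 + n2 →
        i + 1 + n1 + 1 ≤ π2 x ∧ π2 x < i + 1 + n1 + 1 + n2 := m2.mem
    let π : ℤ → ℤ := fun x =>
      if x = i then i + 1 + n1 else if x = i + 1 + n1 then i
      else if x < i + 1 + n1 then π1 x else π2 x
    have p0 : π i = i + 1 + n1 := by simp [π]
    have p1 : π (i + 1 + n1) = i := by
      simp only [π]; rw [if_neg (by omega)]; simp
    have p2 : ∀ x, x ≠ i → x < i + 1 + n1 → π x = π1 x := by
      intro x hx1 hx2
      simp only [π]; rw [if_neg hx1, if_neg (by omega), if_pos hx2]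
    have p3 : ∀ x, i + 1 + n1 < x → π x = π2 x := by
      intro x hx2
      simp only [π]; rw [if_neg (by omega), if_neg (by omega), if_neg (by omega)]
    have cases4 : ∀ x, x < i ∨ x = i ∨ (i + 1 ≤ x ∧ x < i + 1 + n1) ∨ x = i + 1 + n1 ∨
        (i + 1 + n1 + 1 ≤ x ∧ x < i + 1 + n1 + 1 + n2) ∨ i + 1 + n1 + 1 + n2 ≤ x := by
      intro x; omega
    have q1 : ∀ x, i + 1 ≤ x → x < i + 1 + n1 → π x = π1 x := fun x a b => p2 x (by omega) b
    have q2 : ∀ x, i + 1 + n1 + 1 ≤ x → π x = π2 x := fun x a => p3 x (by omega)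
    have qo : ∀ x, ¬ (i ≤ x ∧ x < i + (n + 1 : ℕ)) → π x = x := by
      intro x hx
      rcases cases4 x with c | c | c | c | c | c
      · rw [p2 x (by omega) (by omega)]; exact m1.out x (by omega)
      · omega
      · omega
      · push_cast at hx; omega
      · push_cast at hx; omega
      · rw [p3 x (by omega)]; exact m2.out x (by omega)
    refine ⟨π, ⟨?_, qo, ?_, ?_, ?_, ?_⟩⟩
    · intro x
      by_cases hx : i ≤ x ∧ x < i + (n + 1 : ℕ)
      · push_cast at hx
        rcases cases4 x with c | c | c | c | c | c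
        · omega
        · rw [c, p0, p1]
        · obtain ⟨d1, d2⟩ := lo1 x c.1 c.2
          rw [q1 x c.1 c.2, q1 _ d1 d2, m1.inv']
        · rw [c, p1, p0]
        · obtain ⟨d1, d2⟩ := lo2 x c.1 c.2
          rw [q2 x c.1, q2 _ d1, m2.inv']
        · omega
      · rw [qo x hx, qo x hx]
    · intro x hx1 hx2
      push_cast at hx2 ⊢
      rcases cases4 x with c | c | c | c | c | c
      · omega
      · rw [c, p0]; omega
      · obtain ⟨d1, d2⟩ := lo1 x c.1 c.2
        rw [q1 x c.1 c.2]; omega
      · rw [c, p1]; omega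
      · obtain ⟨d1, d2⟩ := lo2 x c.1 c.2
        rw [q2 x c.1]; omega
      · omega
    · intro x hx1 hx2
      push_cast at hx2
      rcases cases4 x with c | c | c | c | c | c
      · omega
      · rw [c, p0]; omega
      · rw [q1 x c.1 c.2]; exact m1.ne x c.1 c.2
      · rw [c, p1]; omega
      · rw [q2 x c.1]; exact m2.ne x c.1 c.2
      · omega
    · intro x y hx1 hxy hy hπ
      push_cast at hπ
      rcases cases4 x with c | c | c | c | c | c
      · omega
      · rw [c, p0] at hy ⊢
        obtain ⟨d1, d2⟩ := lo1 y (by omega) (by omega)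
        rw [q1 y (by omega) (by omega)]; omega
      · rw [q1 x c.1 c.2] at hy hπ ⊢
        obtain ⟨d1, d2⟩ := lo1 x c.1 c.2
        rw [q1 y (by omega) (by omega)]
        exact m1.nc x y c.1 hxy hy (by omega)
      · rw [c, p1] at hy; omega
      · rw [q2 x c.1] at hy hπ ⊢
        rw [q2 y (by omega)]
        exact m2.nc x y c.1 hxy hy (by omega)
      · rw [qo x (by push_cast; omega)] at hy; omega
    · intro x hx1 hx2
      push_cast at hx2
      rcases cases4 x with c | c | c | c | c | c
      · omega
      · rw [c, p0, ha, ← hb]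
      · rw [q1 x c.1 c.2]; exact m1.let' x c.1 c.2
      · rw [c, p1, ha, hb]; simp
      · rw [q2 x c.1]; exact m2.let' x c.1 c.2
      · omega

end Pool.H43.Quad
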