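import Pool.Agent.H43.Quad.Read

/-!
# Insertions along the orbit of a strip
-/

namespace Pool.H43.Quad

open FreeGroup

namespace Sys

variable {A : Type*} {S : Sys A}

theorem NS.pi {y : ℤ} (h : S.NS y) : S.NS (S.π y - 1) := by
  obtain ⟨h1, h2, h3⟩ := h
  have e1 : S.π (S.π y - 1) = y + 1 := by rw [← h2, S.π_inv]
  refine ⟨h3, ?_, ?_⟩
  · rw [show S.π y - 1 + 1 = S.π y by ring, S.π_inv, e1]; ring
  · rw [e1, show y + 1 - 1 = y by ring]; exact h1

theorem GW.π_add {y : ℤ} {m : ℕ} (h : S.GW y m) (j : ℤ) (h1 : -m ≤ j) (h2 : j ≤ m) :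
    S.π (y + j) = S.π y - j := by
  obtain ⟨n, hn⟩ := Int.eq_nat_or_neg j
  rcases hn with rfl | rfl
  · induction n with
    | zero => simp
    | succ n ih =>
      have e1 := ih (by omega) (by omega)
      have e3 := (h n (by omega) (by omega)).2.1
      push_cast
      rw [← add_assoc, e3, e1]; ring
  · induction n with
    | zero => simp
    | succ n ih =>
      have e1 := ih (by omega) (by omega)
      have e3 := (h (-((n + 1 : ℕ) : ℤ)) (by omega) (by omega)).2.1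
      have : y + -((n + 1 : ℕ) : ℤ) + 1 = y + -(n : ℤ) := by push_cast; ring
      rw [this, e1] at e3
      push_cast at e3 ⊢
      linarith

theorem GW.π {y : ℤ} {m : ℕ} (h : S.GW y m) : S.GW (S.π y) m := by
  intro j h1 h2
  have e1 := h.π_add (-j) (by omega) (by omega)
  have := (h (-j - 1) (by omega) (by omega)).pi
  have e2 := h.π_add (-j - 1) (by omega) (by omega)
  rw [e2] at this
  convert this using 1
  ring

/-- Right element of the event pair. -/
def er (S : Sys A) (x : ℤ) (k : ℕ) (s : Bool) : ℤ := cond s (S.π (S.T^[k] x)) (S.T^[k] x)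

/-- Orientation of the event pair. -/
def eo (S : Sys A) (x : ℤ) (k : ℕ) (s : Bool) : ℤ := cond s (-(S.sgn k x)) (S.sgn k x)

theorem eo_pm (x : ℤ) (k : ℕ) (s : Bool) : S.eo x k s = 1 ∨ S.eo x k s = -1 := by
  rcases S.sgn_pm k x with h | h <;> cases s <;> simp [eo, h]

/-- The hypotheses under which insertions along the orbit are well separated. -/
structure Orb (S : Sys A) (x : ℤ) (m n : ℕ) : Prop where
  m_pos : 1 ≤ m
  n_pos : 1 ≤ n
  x0 : 0 ≤ x
  x1 : x < S.M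
  strip : S.Strip x m n
  sepL : ∀ i j, i < j → j < n → (m : ℤ) < |S.T^[i] x - S.T^[j] x|

variable {x : ℤ} {m n : ℕ}

theorem Orb.er_gw (h : Orb S x m n) {k : ℕ} (hk : k < n) (s : Bool) : S.GW (S.er x k s) m := by
  cases s
  · exact h.strip k hk
  · exact (h.strip k hk).π

/-- Image of the letters near `x` at the event. -/
theorem Orb.er_add (h : Orb S x m n) {k : ℕ} (hk : k < n) (s : Bool) (j : ℤ) (h1 : -m ≤ j)
    (h2 : j ≤ m) : S.er (x + j) k s = S.er x k s + S.eo x k s * j := by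
  obtain ⟨e1, e2⟩ := h.strip.T_add hk.le j h1 h2
  cases s
  · simpa [er, eo] using e1
  · simp only [er, eo, cond_true]
    rw [e1]
    have hb : -(m : ℤ) ≤ S.sgn k x * j ∧ S.sgn k x * j ≤ m := by
      rcases S.sgn_pm k x with hs | hs <;> rw [hs] <;> constructor <;> linarith
    rw [(h.strip k hk).π_add _ hb.1 hb.2]
    ring

theorem Orb.er_letter (h : Orb S x m n) {k : ℕ} (hk : k < n) (s : Bool) (j : ℤ) (h1 : -m ≤ j)
    (h2 : j ≤ m) (h3 : 0 ≤ x + j) (h4 : x + j < S.M) :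
    S.a (S.er x k s + S.eo x k s * j) = lp (S.eo x k s) (S.a (x + j)) := by
  rw [← h.er_add hk s j h1 h2]
  obtain ⟨_, e2⟩ := h.strip.T_add hk.le j h1 h2
  obtain ⟨b1, b2⟩ := iter_T_mem (S := S) k h3 h4
  have e3 := a_iter k h3 h4
  rw [e2] at e3
  cases s
  · simpa [er, eo] using e3
  · simp only [er, eo, cond_true]
    rw [S.a_π _ b1 b2, e3]
    rcases S.sgn_pm k x with hs | hs <;> rw [hs] <;> simp

theorem Orb.usep (h : Orb S x m n) {k k' : ℕ} (hk : k < n) (hk' : k' < n) {s s' : Bool}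
    (hne : ¬ (k = k' ∧ s = s')) : (m : ℤ) < |S.er x k s - S.er x k' s'| := by
  have hff : ∀ i j, i < n → j < n → i ≠ j → (m : ℤ) < |S.T^[i] x - S.T^[j] x| := by
    intro i j hi hj hij
    rcases lt_or_gt_of_ne hij with hlt | hlt
    · exact h.sepL i j hlt hj
    · rw [abs_sub_comm]; exact h.sepL j i hlt hi
  have hft : ∀ i j, i < n → j < n → (m : ℤ) < |S.T^[i] x - S.π (S.T^[j] x)| := by
    intro i j hi hj
    by_contra hc
    push Not at hc
    rw [abs_le] at hc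
    set d := S.π (S.T^[j] x) - S.T^[i] x with hd
    have hb : -(m : ℤ) ≤ S.sgn i x * d ∧ S.sgn i x * d ≤ m := by
      rcases S.sgn_pm i x with hs | hs <;> rw [hs] <;> constructor <;> linarith [hc.1, hc.2]
    obtain ⟨e1, _⟩ := h.strip.T_add hi.le (S.sgn i x * d) hb.1 hb.2
    refine h.strip.sep h.n_pos h.x0 h.x1 (S.sgn i x * d) hb i (j + 1) hi.le (by omega) ?_
    rw [e1, Function.iterate_succ_apply', f_T]
    have : S.sgn i x * (S.sgn i x * d) = d := by
      rcases S.sgn_pm i x with hs | hs <;> rw [hs] <;> ring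
    rw [this, hd]; ring
  have htt : ∀ i j, i < n → j < n → i ≠ j →
      (m : ℤ) < |S.π (S.T^[i] x) - S.π (S.T^[j] x)| := by
    intro i j hi hj hij
    by_contra hc
    push Not at hc
    rw [abs_le] at hc
    set d := S.π (S.T^[i] x) - S.π (S.T^[j] x) with hd
    have e1 := (h.strip i hi).π_add d hc.1 hc.2
    have e2 : S.π (S.T^[i] x + d) = S.π (S.T^[j] x) := by rw [e1, hd]; ring
    have e3 := S.π_injective e2
    have := hff i j hi hj hij
    rw [← e3] at this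
    have h5 : |S.T^[i] x - (S.T^[i] x + d)| = |d| := by
      rw [show S.T^[i] x - (S.T^[i] x + d) = -d by ring, abs_neg]
    rw [h5] at this
    have := abs_le.mpr hc
    omega
  cases s <;> cases s'
  · exact hff k k' hk hk' (fun e => hne ⟨e, rfl⟩)
  · exact hft k k' hk hk'
  · simp only [er, cond_true, cond_false]
    rw [abs_sub_comm]; exact hft k' k hk' hk
  · exact htt k k' hk hk' (fun e => hne ⟨e, rfl⟩)

theorem Orb.er_unique (h : Orb S x m n) {k k' : ℕ} (hk : k < n) (hk' : k' < n) {s s' : Bool}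
    (hc : |S.er x k s - S.er x k' s'| ≤ m) : k = k' ∧ s = s' := by
  by_contra hne
  have := h.usep hk hk' hne
  omega

/-- The pair `(l, r)` is the event pair `(k, s)`. -/
def IsEv (S : Sys A) (x : ℤ) (k : ℕ) (s : Bool) (l r : ℤ) : Prop :=
  l = S.er (x - 1) k s ∧ r = S.er x k s

theorem Orb.el_eq (h : Orb S x m n) {k : ℕ} (hk : k < n) (s : Bool) :
    S.er (x - 1) k s = S.er x k s - S.eo x k s := by
  have hm := h.m_pos
  have := h.er_add hk s (-1) (by omega) (by omega)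
  rw [show x + -1 = x - 1 by ring] at this
  rw [this]; ring

open Classical in
/-- The insertion function along the orbit with insertion `u k` at time `k`. -/
noncomputable def EE (S : Sys A) (x : ℤ) (n : ℕ) (u : ℕ → FreeGroup A) (l r : ℤ) :
    FreeGroup A :=
  if h : ∃ k, k < n ∧ ∃ s, S.IsEv x k s l r then u h.choose
  else if h : ∃ k, k < n ∧ ∃ s, S.IsEv x k s r l then (u h.choose)⁻¹ else 1

variable {u : ℕ → FreeGroup A}

theorem Orb.EE_ev (h : Orb S x m n) {k : ℕ} (hk : k < n) {s : Bool} {l r : ℤ}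
    (hev : S.IsEv x k s l r) : EE S x n u l r = u k := by
  have hex : ∃ k, k < n ∧ ∃ s, S.IsEv x k s l r := ⟨k, hk, s, hev⟩
  rw [EE, dif_pos hex]
  obtain ⟨h1, s', h2⟩ := hex.choose_spec
  have := h.er_unique hk h1 (s := s) (s' := s') (by rw [← hev.2, ← h2.2]; simp)
  rw [← this.1]

theorem Orb.not_both (h : Orb S x m n) {k k' : ℕ} (hk : k < n) (hk' : k' < n) {s s' : Bool}
    {l r : ℤ} (hev : S.IsEv x k s l r) (hev' : S.IsEv x k' s' r l) : False := by
  have hm := h.m_pos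
  obtain ⟨a1, a2⟩ := hev
  obtain ⟨b1, b2⟩ := hev'
  have e1 := h.el_eq hk s
  have hlr : |S.er x k s - S.er x k' s'| ≤ m := by
    rw [← a2, ← b2, a1, e1, a2]
    rcases S.eo_pm x k s with ho | ho <;> rw [ho]
    · rw [show S.er x k s - (S.er x k s - 1) = 1 by ring]; simpa using hm
    · rw [show S.er x k s - (S.er x k s - -1) = -1 by ring]; simpa using hm
  obtain ⟨rfl, rfl⟩ := h.er_unique hk hk' hlr
  have : S.er x k s = S.er x k s - S.eo x k s := by rw [← e1, ← a1, b2]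
  rcases S.eo_pm x k s with ho | ho <;> rw [ho] at this <;> omega

theorem Orb.EE_ev' (h : Orb S x m n) {k : ℕ} (hk : k < n) {s : Bool} {l r : ℤ}
    (hev : S.IsEv x k s r l) : EE S x n u l r = (u k)⁻¹ := by
  have hnex : ¬ ∃ k, k < n ∧ ∃ s, S.IsEv x k s l r := by
    rintro ⟨k', hk', s', hev'⟩
    exact h.not_both hk hk' hev hev'
  have hex : ∃ k, k < n ∧ ∃ s, S.IsEv x k s r l := ⟨k, hk, s, hev⟩
  rw [EE, dif_neg hnex, dif_pos hex]
  obtain ⟨h1, s', h2⟩ := hex.choose_spec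
  have := h.er_unique hk h1 (s := s) (s' := s') (by rw [← hev.2, ← h2.2]; simp)
  rw [← this.1]

theorem EE_not {l r : ℤ} (h1 : ¬ ∃ k, k < n ∧ ∃ s, S.IsEv x k s l r)
    (h2 : ¬ ∃ k, k < n ∧ ∃ s, S.IsEv x k s r l) : EE S x n u l r = 1 := by
  rw [EE, dif_neg h1, dif_neg h2]

/-- Trichotomy for the value of the insertion function. -/
theorem Orb.EE_cases (h : Orb S x m n) (l r : ℤ) :
    (∃ k, k < n ∧ ∃ s, S.IsEv x k s l r ∧ EE S x n u l r = u k) ∨
    (∃ k, k < n ∧ ∃ s, S.IsEv x k s r l ∧ EE S x n u l r = (u k)⁻¹) ∨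
    ((¬ ∃ k, k < n ∧ ∃ s, S.IsEv x k s l r) ∧ (¬ ∃ k, k < n ∧ ∃ s, S.IsEv x k s r l) ∧
      EE S x n u l r = 1) := by
  by_cases h1 : ∃ k, k < n ∧ ∃ s, S.IsEv x k s l r
  · obtain ⟨k, hk, s, hev⟩ := h1
    exact Or.inl ⟨k, hk, s, hev, h.EE_ev hk hev⟩
  · by_cases h2 : ∃ k, k < n ∧ ∃ s, S.IsEv x k s r l
    · obtain ⟨k, hk, s, hev⟩ := h2
      exact Or.inr (Or.inl ⟨k, hk, s, hev, h.EE_ev' hk hev⟩)
    · exact Or.inr (Or.inr ⟨h1, h2, EE_not h1 h2⟩)

theorem Orb.EE_rev (h : Orb S x m n) (l r : ℤ) : EE S x n u r l = (EE S x n u l r)⁻¹ := by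
  rcases h.EE_cases (u := u) l r with ⟨k, hk, s, hev, he⟩ | ⟨k, hk, s, hev, he⟩ | ⟨h1, h2, he⟩
  · rw [he, h.EE_ev' hk hev]
  · rw [he, h.EE_ev hk hev, inv_inv]
  · rw [he, EE_not h2 h1, inv_one]

theorem er_not (k : ℕ) (s : Bool) : S.er x k (!s) = S.π (S.er x k s) := by
  cases s
  · rfl
  · simp [er, S.π_inv]

theorem IsEv.π {k : ℕ} {s : Bool} {l r : ℤ} (h : S.IsEv x k s l r) :
    S.IsEv x k (!s) (S.π l) (S.π r) := by
  obtain ⟨h1, h2⟩ := h
  exact ⟨by rw [h1, er_not], by rw [h2, er_not]⟩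

theorem isEv_π_iff {k : ℕ} {s : Bool} {l r : ℤ} :
    S.IsEv x k (!s) (S.π l) (S.π r) ↔ S.IsEv x k s l r := by
  constructor
  · intro h
    have := h.π
    rwa [S.π_inv, S.π_inv, Bool.not_not] at this
  · exact IsEv.π

theorem Orb.EE_π (h : Orb S x m n) (l r : ℤ) :
    EE S x n u (S.π l) (S.π r) = EE S x n u l r := by
  rcases h.EE_cases (u := u) l r with ⟨k, hk, s, hev, he⟩ | ⟨k, hk, s, hev, he⟩ | ⟨h1, h2, he⟩
  · rw [he, h.EE_ev hk hev.π]
  · rw [he, h.EE_ev' hk hev.π]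
  · rw [he]
    apply EE_not
    · rintro ⟨k, hk, s, hev⟩
      refine h1 ⟨k, hk, !s, ?_⟩
      rw [← isEv_π_iff, Bool.not_not]; exact hev
    · rintro ⟨k, hk, s, hev⟩
      refine h2 ⟨k, hk, !s, ?_⟩
      rw [← isEv_π_iff, Bool.not_not]; exact hev

theorem Orb.ev_NS (h : Orb S x m n) {k : ℕ} (hk : k < n) {s : Bool} {l : ℤ}
    (hev : S.IsEv x k s l (l + 1) ∨ S.IsEv x k s (l + 1) l) : S.NS l := by
  have hm := h.m_pos
  have e1 := h.el_eq hk s
  have hg := h.er_gw hk s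
  rcases hev with ⟨a1, a2⟩ | ⟨a1, a2⟩
  · have := hg (-1) (by omega) (by omega)
    rw [← a2] at this
    rwa [show l + 1 + -1 = l by ring] at this
  · have := hg 0 (by omega) (by omega)
    rw [← a2] at this
    rwa [add_zero] at this

theorem Orb.insFn (h : Orb S x m n) : InsFn S (EE S x n u) where
  rev := h.EE_rev
  supp := by
    intro l hne
    rcases h.EE_cases (u := u) l (l + 1) with ⟨k, hk, s, hev, he⟩ | ⟨k, hk, s, hev, he⟩ |
      ⟨h1, h2, he⟩
    · exact h.ev_NS hk (Or.inl hev)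
    · exact h.ev_NS hk (Or.inr hev)
    · exact absurd he hne
  pi := fun l _ => h.EE_π l (l + 1)

/-- Position of an event gap: if `E (t-1) t ≠ 1` then there is an event with right context given
by the word at `x`. -/
theorem Orb.ev_gap (h : Orb S x m n) {t : ℤ} (hne : EE S x n u (t - 1) t ≠ 1) :
    ∃ k, k < n ∧ ∃ s, (S.IsEv x k s (t - 1) t ∧ S.eo x k s = 1 ∧ EE S x n u (t - 1) t = u k) ∨
      (S.IsEv x k s t (t - 1) ∧ S.eo x k s = -1 ∧ EE S x n u (t - 1) t = (u k)⁻¹) := by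
  rcases h.EE_cases (u := u) (t - 1) t with ⟨k, hk, s, hev, he⟩ | ⟨k, hk, s, hev, he⟩ |
      ⟨h1, h2, he⟩
  · refine ⟨k, hk, s, Or.inl ⟨hev, ?_, he⟩⟩
    have := h.el_eq hk s
    rw [← hev.1, ← hev.2] at this
    omega
  · refine ⟨k, hk, s, Or.inr ⟨hev, ?_, he⟩⟩
    have := h.el_eq hk s
    rw [← hev.1, ← hev.2] at this
    omega
  · exact absurd he hne

end Sys

end Pool.H43.Quad
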