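import Pool.Agent.H43.Quad.Assemble

/-!
# The factor data of a solution
-/

namespace Pool.H43.Quad

open FreeGroup

section

variable {A Ω : Type*} [DecidableEq A] [DecidableEq Ω]

omit [DecidableEq A] [DecidableEq Ω] in
theorem hom_mk {G : Type*} [Group G] (σ : FreeGroup (A ⊕ Ω) →* G) (l : List ((A ⊕ Ω) × Bool)) :
    σ (mk l) = (l.map (fun c => σ (mk [c]))).prod := by
  induction l with
  | nil => simp only [List.map_nil, List.prod_nil]; exact map_one σ
  | cons c l ih =>
    rw [List.map_cons, List.prod_cons, ← ih, ← _root_.map_mul, mul_mk, List.singleton_append]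

omit [DecidableEq A] in
theorem mk_flatten {C : Type*} (l : List C) (g : C → List (A × Bool)) :
    mk ((l.map g).flatten) = (l.map (fun c => mk (g c))).prod := by
  induction l with
  | nil => rfl
  | cons c l ih =>
    rw [List.map_cons, List.flatten_cons, List.map_cons, List.prod_cons, ← ih, mul_mk]

theorem prod_filter {C G : Type*} [Group G] [DecidableEq G] (l : List C) (v : C → G)
    (p : C → Bool) (h : ∀ c ∈ l, p c = false → v c = 1) :
    ((l.filter p).map v).prod = (l.map v).prod := by
  induction l with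
  | nil => rfl
  | cons c l ih =>
    have ih' := ih (fun c hc => h c (List.mem_cons_of_mem _ hc))
    by_cases hp : p c = true
    · rw [List.filter_cons_of_pos hp, List.map_cons, List.prod_cons, ih', List.map_cons,
        List.prod_cons]
    · have hp' : p c = false := by simpa using hp
      rw [List.filter_cons_of_neg hp, ih', List.map_cons, List.prod_cons,
        h c (List.mem_cons_self) hp', one_mul]

/-- The word of a letter. -/
def fw (σ : FreeGroup (A ⊕ Ω) →* FreeGroup A) (c : (A ⊕ Ω) × Bool) : List (A × Bool) :=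
  (σ (mk [c])).toWord

omit [DecidableEq A] [DecidableEq Ω] in
theorem mk_single_not (s : A ⊕ Ω) (b : Bool) :
    (mk [(s, !b)] : FreeGroup (A ⊕ Ω)) = (mk [(s, b)])⁻¹ := by
  rw [inv_mk]; rfl

omit [DecidableEq Ω] in
theorem fw_not (σ : FreeGroup (A ⊕ Ω) →* FreeGroup A) (s : A ⊕ Ω) (b : Bool) :
    fw σ (s, !b) = invRev (fw σ (s, b)) := by
  rw [fw, fw, mk_single_not, _root_.map_inv, toWord_inv]

/-- The letters of the equation with nontrivial value. -/
def ltr (σ : FreeGroup (A ⊕ Ω) →* FreeGroup A) (W : FreeGroup (A ⊕ Ω)) :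
    List ((A ⊕ Ω) × Bool) :=
  W.toWord.filter (fun c => decide (σ (mk [c]) ≠ 1))

theorem getD_double {C : Type*} (l : List C) (c0 : C) {k : ℕ} (_hk : k < l.length + l.length) :
    (l ++ l).getD k c0 = l.getD (red' l.length k) c0 := by
  rw [red']
  split_ifs with h
  · exact List.getD_append _ _ _ _ h
  · exact List.getD_append_right _ _ _ _ (by omega)

theorem fac_exists (σ : FreeGroup (A ⊕ Ω) →* FreeGroup A) (W : FreeGroup (A ⊕ Ω))
    (hq : Quadr W.toWord) (h1 : σ W = 1) (c0 : (A ⊕ Ω) × Bool) (a0 : A × Bool) :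
    ∃ F : Fac A, F.n = (ltr σ W).length + (ltr σ W).length ∧ F.φ = phi (ltr σ W) c0 ∧
      F.ε = eps (ltr σ W) c0 ∧ F.Valid ∧
      (∀ k < F.n, F.ℓ k = (fw σ ((ltr σ W).getD (red' (ltr σ W).length k) c0)).length) ∧
      (∀ k < F.n, rd F.a (F.off k) (F.ℓ k) =
        fw σ ((ltr σ W).getD (red' (ltr σ W).length k) c0)) ∧
      (∀ x, 0 ≤ x → x < F.off (ltr σ W).length →
        0 ≤ F.π x ∧ F.π x < F.off (ltr σ W).length) := by
  set Lw := ltr σ W with hLw
  have hqL : Quadr Lw := by
    intro X
    refine le_trans ?_ (hq X)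
    exact List.Sublist.countP_le (List.filter_sublist)
  set g := fw σ with hg
  set w1 := (Lw.map g).flatten with hw1
  have hmk : mk w1 = 1 := by
    rw [hw1, mk_flatten]
    have e1 : (fun c => mk (g c)) = fun c => σ (mk [c]) := by
      funext c
      rw [hg, fw, mk_toWord]
    rw [e1, hLw, ltr, prod_filter, ← hom_mk, mk_toWord, h1]
    intro c _ hc
    simpa using hc
  have hD := dyck_of_mk hmk
  set a : ℤ → A × Bool := fun x => (((Lw ++ Lw).map g).flatten).getD x.toNat a0 with ha
  have hww : ((Lw ++ Lw).map g).flatten = w1 ++ w1 := by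
    rw [List.map_append, List.flatten_append]
  set ℓ : ℕ → ℕ := fun k => (g ((Lw ++ Lw).getD k c0)).length with hℓ
  have hn : (Lw ++ Lw).length = Lw.length + Lw.length := List.length_append
  have hread : ∀ k < Lw.length + Lw.length, rd a (∑ j ∈ Finset.range k, (ℓ j : ℤ)) (ℓ k) =
      g (Lw.getD (red' Lw.length k) c0) := by
    intro k hk
    have := read_flat g (Lw ++ Lw) c0 a0 k (by rw [hn]; exact hk)
    rw [← getD_double Lw c0 hk]
    exact this
  have hoffK : ∑ j ∈ Finset.range Lw.length, (ℓ j : ℤ) = w1.length := by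
    have := off_len g (Lw ++ Lw) c0 Lw.length (by rw [hn]; omega)
    rw [List.take_left] at this
    exact this
  have hoffn : ∑ j ∈ Finset.range (Lw.length + Lw.length), (ℓ j : ℤ) = w1.length + w1.length := by
    have := off_len g (Lw ++ Lw) c0 (Lw ++ Lw).length le_rfl
    have e2 : (w1 ++ w1).length = w1.length + w1.length := List.length_append
    rw [List.take_length, hww, e2] at this
    rw [← hn]
    push_cast at this
    exact this
  have hr1 : rd a 0 w1.length = w1 := by
    have := rd_getD_mid [] w1 w1 a0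
    simp only [List.nil_append, List.length_nil, Nat.cast_zero] at this
    rw [ha, hww]; exact this
  have hr2 : rd a w1.length w1.length = w1 := by
    have := rd_getD_mid w1 w1 [] a0
    simp only [List.append_nil] at this
    rw [ha, hww]; exact this
  obtain ⟨π1, m1⟩ := matching_exists a hD 0 w1.length hr1
  obtain ⟨π2, m2⟩ := matching_exists a hD w1.length w1.length hr2
  rw [zero_add] at m1
  obtain ⟨π, hm, hcl⟩ := m1.join m2 (by positivity) (by linarith [Int.natCast_nonneg w1.length])
  let F : Fac A := ⟨Lw.length + Lw.length, ℓ, a, phi Lw c0, eps Lw c0, π⟩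
  have hFoff : ∀ k, F.off k = ∑ j ∈ Finset.range k, (ℓ j : ℤ) := fun k => rfl
  have hlen : ∀ k < Lw.length + Lw.length, ℓ k = (g (Lw.getD (red' Lw.length k) c0)).length := by
    intro k hk
    rw [← getD_double Lw c0 hk]
  have hmem : ∀ k < Lw.length + Lw.length, Lw.getD (red' Lw.length k) c0 ∈ Lw := by
    intro k hk
    have : red' Lw.length k < Lw.length := by
      rw [red']; split_ifs <;> omega
    rw [List.getD_eq_getElem _ _ this]
    exact List.getElem_mem _
  have hlphi : ∀ k < Lw.length + Lw.length,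
      (eps Lw c0 k = 1 ∧ g (Lw.getD (red' Lw.length (phi Lw c0 k)) c0) =
        g (Lw.getD (red' Lw.length k) c0)) ∨
      (eps Lw c0 k = -1 ∧ g (Lw.getD (red' Lw.length (phi Lw c0 k)) c0) =
        invRev (g (Lw.getD (red' Lw.length k) c0))) := by
    intro k hk
    rcases phi_letter (c0 := c0) hqL hk with ⟨e1, e2⟩ | ⟨e1, X, b, e2, e3⟩
    · left; exact ⟨e1, by rw [e2]⟩
    · right; refine ⟨e1, ?_⟩
      rw [e2, e3, hg, fw_not]
  have hεpm : ∀ k, eps Lw c0 k = 1 ∨ eps Lw c0 k = -1 := by
    intro k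
    rw [eps]
    split_ifs <;> simp
  have hℓφ : ∀ k < Lw.length + Lw.length, ℓ (phi Lw c0 k) = ℓ k := by
    intro k hk
    have hp := (phi_props (c0 := c0) hqL hk).1
    rw [hlen _ hp, hlen _ hk]
    rcases hlphi k hk with ⟨_, e⟩ | ⟨_, e⟩
    · rw [e]
    · rw [e, invRev_length]
  refine ⟨F, rfl, rfl, rfl, ⟨?_, ?_, hεpm, ?_, ?_, ?_, ?_⟩, hlen, hread, ?_⟩
  · intro k hk
    change 1 ≤ ℓ k
    rw [hlen k hk]
    have h2 := hmem k hk
    rw [hLw, ltr, List.mem_filter] at h2
    have h3 : σ (mk [Lw.getD (red' Lw.length k) c0]) ≠ 1 := of_decide_eq_true h2.2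
    rw [Nat.one_le_iff_ne_zero]
    intro h4
    apply h3
    have h5 := List.length_eq_zero_iff.mp h4
    exact toWord_eq_nil_iff.mp h5
  · intro k hk
    exact phi_props hqL hk
  · intro k hk
    exact ⟨eps_phi hqL hk, hℓφ k hk⟩
  · change Matching a π 0 (F.off (Lw.length + Lw.length))
    rw [hFoff, hoffn]
    exact hm
  · intro k hk j h0 hj
    apply rd_red (n := ℓ k) _ h0 hj
    change IsReduced (rd a (∑ j ∈ Finset.range k, (ℓ j : ℤ)) (ℓ k))
    rw [hread k hk]
    exact isReduced_toWord
  · intro k hk j h0 hj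
    have hp := (phi_props (c0 := c0) hqL hk).1
    change a (F.off (phi Lw c0 k) + F.rj k j) = lp (eps Lw c0 k) (a (F.off k + j))
    have hj' : j < (ℓ k : ℤ) := hj
    have e1 := rd_get (hread k hk) a0 h0 hj'
    change a (F.off k + j) = _ at e1
    rcases hlphi k hk with ⟨e, e2⟩ | ⟨e, e2⟩
    · have hrj : F.rj k j = j := by
        simp only [Fac.rj]; rw [if_pos]; exact e
      rw [hrj, e, lp_one, e1]
      have e3 := rd_get (hread _ hp) a0 h0 (by rw [hℓφ k hk]; exact hj')
      change a (F.off (phi Lw c0 k) + j) = _ at e3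
      rw [e3, e2]
    · have hrj : F.rj k j = ℓ k - 1 - j := by
        simp only [Fac.rj]
        rw [if_neg]
        change ¬ eps Lw c0 k = 1
        rw [e]; norm_num
      rw [hrj, e, lp_neg_one, e1]
      have e3 := rd_get (hread _ hp) a0 (j := (ℓ k : ℤ) - 1 - j) (by omega)
        (by rw [hℓφ k hk]; omega)
      change a (F.off (phi Lw c0 k) + (ℓ k - 1 - j)) = _ at e3
      rw [e3, e2]
      have hju : j.toNat < (g (Lw.getD (red' Lw.length k) c0)).length := by
        rw [← hlen k hk]; omega
      rw [← invRev_getD _ a0 hju, ← hlen k hk]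
      congr 1
      omega
  · intro x h0 hx
    change x < F.off Lw.length at hx
    change 0 ≤ π x ∧ π x < F.off Lw.length
    rw [hFoff, hoffK] at hx ⊢
    exact hcl x h0 hx

end

end Pool.H43.Quad
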