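import Mathlib

/-!
# Finite monoids: ideal rank, stability, and an absorption lemma for labels of reduced words
-/

namespace Pool.H43.Quad

open FreeGroup

/-- A factor of a reduced word is reduced. -/
theorem isRed_sub {A : Type*} {u v : List (A × Bool)} (h : IsReduced v) (hs : u <:+: v) :
    IsReduced u := by
  obtain ⟨s, t, rfl⟩ := hs
  exact List.IsChain.right_of_append (List.IsChain.left_of_append h)

section Rank

variable {N : Type*} [Monoid N]

/-- The two-sided ideal generated by `a`. -/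
def ideal (a : N) : Set N := {x | ∃ s t, x = s * a * t}

/-- The size of the two-sided ideal generated by `a`. -/
noncomputable def rk (a : N) : ℕ := (ideal a).ncard

theorem mem_ideal_self (a : N) : a ∈ ideal a := ⟨1, 1, by simp⟩

theorem ideal_subset {a b s t : N} (h : b = s * a * t) : ideal b ⊆ ideal a := by
  rintro x ⟨u, v, rfl⟩
  exact ⟨u * s, t * v, by rw [h]; simp only [mul_assoc]⟩

variable [Finite N]

theorem rk_le {a b s t : N} (h : b = s * a * t) : rk b ≤ rk a :=
  Set.ncard_le_ncard (ideal_subset h) (Set.toFinite _)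

theorem rk_pos (a : N) : 0 < rk a := by
  rw [rk, Set.ncard_pos (Set.toFinite _)]
  exact ⟨a, mem_ideal_self a⟩

theorem rk_le_card (a : N) : rk a ≤ Nat.card N := by
  rw [rk, ← Set.ncard_univ]
  exact Set.ncard_le_ncard (Set.subset_univ _) (Set.toFinite _)

theorem exists_pow_eq (y : N) : ∃ i j : ℕ, i < j ∧ y ^ i = y ^ j := by
  have : ¬ Function.Injective (fun n : ℕ => y ^ n) := not_injective_infinite_finite _
  simp only [Function.Injective, not_forall] at this
  obtain ⟨i, j, h, hij⟩ := this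
  rcases lt_or_gt_of_ne hij with h1 | h1
  · exact ⟨i, j, h1, h⟩
  · exact ⟨j, i, h1, h.symm⟩

/-- Stability of finite monoids: if `a * b` generates the same two-sided ideal as `a`, then
`a` lies in `a * b * N`. -/
theorem stab {a b : N} (h : rk (a * b) = rk a) : ∃ c, a * b * c = a := by
  have hsub : ideal (a * b) ⊆ ideal a := ideal_subset (s := 1) (t := b) (by simp)
  have heq : ideal (a * b) = ideal a :=
    Set.eq_of_subset_of_ncard_le hsub (by unfold rk at h; omega) (Set.toFinite _)
  have hm : a ∈ ideal (a * b) := heq ▸ mem_ideal_self a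
  obtain ⟨s, t, hst⟩ := hm
  have hst' : a = s * a * (b * t) := by
    calc a = s * (a * b) * t := hst
      _ = s * a * (b * t) := by simp only [mul_assoc]
  have hpow : ∀ k : ℕ, a = s ^ k * a * (b * t) ^ k := by
    intro k
    induction k with
    | zero => simp
    | succ k ih =>
      calc a = s ^ k * a * (b * t) ^ k := ih
        _ = s ^ k * (s * a * (b * t)) * (b * t) ^ k := by rw [← hst']
        _ = s ^ (k + 1) * a * (b * t) ^ (k + 1) := by
            rw [pow_succ s, pow_succ' (b * t)]; simp only [mul_assoc]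
  obtain ⟨i, j, hij, he⟩ := exists_pow_eq (b * t)
  have h1 : a * (b * t) ^ (j - i) = a := by
    calc a * (b * t) ^ (j - i) = s ^ i * a * (b * t) ^ i * (b * t) ^ (j - i) := by rw [← hpow i]
      _ = s ^ i * a * ((b * t) ^ i * (b * t) ^ (j - i)) := by simp only [mul_assoc]
      _ = s ^ i * a * (b * t) ^ j := by rw [← pow_add]; congr 2; omega
      _ = s ^ i * a * (b * t) ^ i := by rw [he]
      _ = a := (hpow i).symm
  have h2 : j - i = (j - i - 1) + 1 := by omega
  refine ⟨t * (b * t) ^ (j - i - 1), ?_⟩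
  calc a * b * (t * (b * t) ^ (j - i - 1)) = a * ((b * t) * (b * t) ^ (j - i - 1)) := by
        simp only [mul_assoc]
    _ = a * (b * t) ^ (j - i) := by rw [← pow_succ', ← h2]
    _ = a := h1

theorem perm_aux {g β : N} (h1 : ∃ c, g * β * c = β) (h2 : ∃ d, g * β = β * d) :
    ∃ n : ℕ, 1 ≤ n ∧ g ^ n * β = β := by
  obtain ⟨c, hc⟩ := h1
  obtain ⟨d, hd⟩ := h2
  let S : Set N := {y | ∃ s, y = β * s}
  have hmap : ∀ y ∈ S, g * y ∈ S := by
    rintro y ⟨s, rfl⟩
    exact ⟨d * s, by rw [← mul_assoc, hd, mul_assoc]⟩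
  let f : S → S := fun y => ⟨g * y.1, hmap y.1 y.2⟩
  have hsurj : Function.Surjective f := by
    rintro ⟨y, s, rfl⟩
    refine ⟨⟨β * (c * s), ⟨c * s, rfl⟩⟩, ?_⟩
    apply Subtype.ext
    change g * (β * (c * s)) = β * s
    calc g * (β * (c * s)) = g * β * c * s := by simp only [mul_assoc]
      _ = β * s := by rw [hc]
  have hinj : Function.Injective f := Finite.injective_iff_surjective.mpr hsurj
  let x : S := ⟨β, ⟨1, by simp⟩⟩
  have hit : ∀ n : ℕ, ((f^[n] x : S) : N) = g ^ n * β := by
    intro n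
    induction n with
    | zero => simp [x]
    | succ n ih =>
      rw [Function.iterate_succ_apply']
      change g * ((f^[n] x : S) : N) = _
      rw [ih, pow_succ', mul_assoc]
  have : ¬ Function.Injective (fun n : ℕ => f^[n] x) := not_injective_infinite_finite _
  simp only [Function.Injective, not_forall] at this
  obtain ⟨i, j, hij, hne⟩ := this
  wlog hlt : i < j generalizing i j
  · exact this j i hij.symm (fun h => hne h.symm) (by omega)
  refine ⟨j - i, by omega, ?_⟩
  have h3 : f^[i] (f^[j - i] x) = f^[i] x := by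
    rw [← Function.iterate_add_apply, show i + (j - i) = j by omega]; exact hij.symm
  have h4 := (hinj.iterate i) h3
  have h5 := congrArg Subtype.val h4
  rw [hit] at h5
  exact h5

end Rank

section Label

/-- A labelling of words by a monoid with involution, multiplicative on reduced products. -/
structure Lab (A : Type*) (N : Type*) [Monoid N] where
  μ : List (A × Bool) → N
  st : N → N
  μ_append : ∀ u v, IsReduced (u ++ v) → μ (u ++ v) = μ u * μ v
  μ_inv : ∀ u, μ (invRev u) = st (μ u)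
  st_mul : ∀ x y, st (x * y) = st y * st x
  st_st : ∀ x, st (st x) = x

variable {A N : Type*} [Monoid N]

theorem Lab.ideal_st (L : Lab A N) (a : N) : ideal (L.st a) = L.st '' ideal a := by
  ext x
  constructor
  · rintro ⟨s, t, rfl⟩
    exact ⟨L.st t * a * L.st s, ⟨_, _, rfl⟩, by simp only [L.st_mul, L.st_st, mul_assoc]⟩
  · rintro ⟨y, ⟨s, t, rfl⟩, rfl⟩
    exact ⟨L.st t, L.st s, by simp only [L.st_mul, mul_assoc]⟩

theorem Lab.rk_st (L : Lab A N) (a : N) : rk (L.st a) = rk a := by
  rw [rk, rk, L.ideal_st]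
  refine Set.ncard_image_of_injective _ ?_
  intro x y h
  have := congrArg L.st h
  rwa [L.st_st, L.st_st] at this

/-- `n`-fold repetition of a word. -/
def rep (n : ℕ) (u : List (A × Bool)) : List (A × Bool) := (List.replicate n u).flatten

@[simp] theorem rep_zero (u : List (A × Bool)) : rep 0 u = [] := by simp [rep]

theorem rep_succ (n : ℕ) (u : List (A × Bool)) : rep (n + 1) u = u ++ rep n u := by
  simp [rep, List.replicate_succ]

theorem rep_succ' (n : ℕ) (u : List (A × Bool)) : rep (n + 1) u = rep n u ++ u := by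
  simp [rep, List.replicate_succ']

theorem mk_rep (n : ℕ) (u : List (A × Bool)) : mk (rep n u) = mk u ^ n := by
  rw [pow_mk]; rfl

/-- The absorption lemma. -/
theorem absorb [Finite N] (L : Lab A N) {X Y β γ : List (A × Bool)} (hβ : β ≠ []) (hγ : γ ≠ [])
    (hX : IsReduced (X ++ γ)) (hY : IsReduced (Y ++ β)) (pX : β <+: X ++ γ) (pY : γ <+: Y ++ β)
    (rX : rk (L.μ (X ++ γ)) = rk (L.μ β)) (rY : rk (L.μ (Y ++ β)) = rk (L.μ γ)) :
    (∀ n, IsReduced (rep n (X ++ Y) ++ β)) ∧ (∀ n, β <+: rep n (X ++ Y) ++ β) ∧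
    ∃ n0 : ℕ, 1 ≤ n0 ∧ ∀ n, L.μ (rep (n0 * n) (X ++ Y) ++ β) = L.μ β := by
  obtain ⟨s', hs'⟩ := pX
  obtain ⟨s, hs⟩ := pY
  have hγs : IsReduced (γ ++ s) := hs ▸ hY
  have hβs' : IsReduced (β ++ s') := hs' ▸ hX
  have hXγs : IsReduced (X ++ γ ++ s) := IsReduced.append_overlap hX hγs hγ
  have hXYβ : IsReduced (X ++ (Y ++ β)) := by rw [← hs, ← List.append_assoc]; exact hXγs
  have hβss : X ++ (Y ++ β) = β ++ (s' ++ s) := by
    rw [← hs, ← List.append_assoc, ← hs', List.append_assoc]
  have hXYβ' : IsReduced (X ++ Y ++ β) := by rwa [List.append_assoc]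
  -- structure of rep n (X ++ Y) ++ β
  have hpre : ∀ n, β <+: rep n (X ++ Y) ++ β := by
    intro n
    induction n with
    | zero => simp
    | succ n ih =>
      obtain ⟨r, hr⟩ := ih
      refine ⟨s' ++ s ++ r, ?_⟩
      rw [rep_succ, List.append_assoc (X ++ Y), ← hr, ← List.append_assoc (X ++ Y),
        List.append_assoc X, hβss]
      simp only [List.append_assoc]
  have hred : ∀ n, IsReduced (rep n (X ++ Y) ++ β) := by
    intro n
    induction n with
    | zero => simpa using isRed_sub hY ⟨Y, [], by simp⟩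
    | succ n ih =>
      obtain ⟨r, hr⟩ := hpre n
      rw [rep_succ, List.append_assoc (X ++ Y), ← hr, ← List.append_assoc]
      exact IsReduced.append_overlap hXYβ' (by rw [hr]; exact ih) hβ
  refine ⟨hred, hpre, ?_⟩
  have hXYred : IsReduced (X ++ Y) := isRed_sub hXYβ' ⟨[], β, by simp⟩
  have hXred : IsReduced (X ++ γ) := hX
  have hμ1 : L.μ (X ++ Y ++ β) = L.μ (X ++ Y) * L.μ β := L.μ_append _ _ hXYβ'
  have hμn : ∀ n, L.μ (rep n (X ++ Y) ++ β) = L.μ (X ++ Y) ^ n * L.μ β := by
    intro n
    induction n with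
    | zero => simp
    | succ n ih =>
      have := hred (n + 1)
      rw [rep_succ, List.append_assoc (X ++ Y)] at this ⊢
      rw [L.μ_append _ _ this, ih, pow_succ', mul_assoc]
  have hd : ∃ d, L.μ (X ++ Y) * L.μ β = L.μ β * d := by
    refine ⟨L.μ (s' ++ s), ?_⟩
    rw [← hμ1, List.append_assoc, hβss]
    exact L.μ_append _ _ (hβss ▸ hXYβ)
  have hc : ∃ c, L.μ (X ++ Y) * L.μ β * c = L.μ β := by
    rw [← hs, L.μ_append _ _ hγs] at rY
    rw [← hs', L.μ_append _ _ hβs'] at rX
    obtain ⟨c1, hc1⟩ := stab rY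
    obtain ⟨c2, hc2⟩ := stab rX
    refine ⟨c1 * c2, ?_⟩
    have e1 : X ++ Y ++ β = X ++ (γ ++ s) := by rw [hs, List.append_assoc]
    rw [← hμ1, e1, L.μ_append _ _ (by rw [← List.append_assoc]; exact hXγs),
      L.μ_append _ _ hγs]
    calc L.μ X * (L.μ γ * L.μ s) * (c1 * c2) = L.μ X * (L.μ γ * L.μ s * c1) * c2 := by
          simp only [mul_assoc]
      _ = L.μ X * L.μ γ * c2 := by rw [hc1]
      _ = L.μ (X ++ γ) * c2 := by rw [L.μ_append _ _ hX]
      _ = L.μ β * L.μ s' * c2 := by rw [← hs', L.μ_append _ _ hβs']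
      _ = L.μ β := hc2
  obtain ⟨n0, h0, hn0⟩ := perm_aux hc hd
  refine ⟨n0, h0, ?_⟩
  intro n
  rw [hμn, pow_mul]
  induction n with
  | zero => simp
  | succ n ih =>
    rw [pow_succ, mul_assoc, hn0, ih]

end Label

end Pool.H43.Quad
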