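import Pool.Agent.H43.Quad.Good

/-!
# Pumping patterns
-/

namespace Pool.H43.Quad

open FreeGroup

/-! ### Group identities -/

section Identities

variable {G : Type*} [Group G]

theorem comm_pow_left (P S : G) (n : ℕ) : (P * S⁻¹) ^ n * P = P * (S⁻¹ * P) ^ n := by
  induction n with
  | zero => simp
  | succ n ih =>
    rw [pow_succ, pow_succ']
    calc (P * S⁻¹) ^ n * (P * S⁻¹) * P = (P * S⁻¹) ^ n * P * (S⁻¹ * P) := by group
      _ = P * (S⁻¹ * P) ^ n * (S⁻¹ * P) := by rw [ih]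
      _ = P * ((S⁻¹ * P) ^ n * (S⁻¹ * P)) := by group
      _ = P * ((S⁻¹ * P) * (S⁻¹ * P) ^ n) := by rw [← pow_succ, ← pow_succ']

theorem comm_pow_right (P S : G) (n : ℕ) : (S * P⁻¹) ^ n * S = S * (P⁻¹ * S) ^ n :=
  comm_pow_left S P n

end Identities

theorem bnot_of_ne {a b : Bool} (h : ¬ a = b) : a = !b := by
  cases a <;> cases b <;> simp_all

namespace Sys

variable {A : Type*} {S : Sys A}

theorem mid_cross {E G : ℤ → ℤ → FreeGroup A} {l p w r : ℤ} (hlp : l < p) (hlw : l < w)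
    (hpr : p < r) (hwr : w < r) (N : ℕ)
    (hE : ∀ t, l < t → t < r → t ≠ p → E (t - 1) t = 1)
    (hG : ∀ t, l < t → t < r → t ≠ w → G (t - 1) t = 1)
    (El : E (l - 1) l = (Zw S l w * (Zw S p r)⁻¹) ^ N)
    (Ep : E (p - 1) p = (Zw S p r * (Zw S l w)⁻¹) ^ N)
    (Er : E (r - 1) r = 1) (Gl : G (l - 1) l = 1)
    (Gw : G (w - 1) w = ((Zw S p r)⁻¹ * Zw S l w) ^ N)
    (Gr : G (r - 1) r = ((Zw S l w)⁻¹ * Zw S p r) ^ N) :
    Qz S E l (r + 1) = Qz S G l (r + 1) := by
  rw [← Qz_mul E (show l ≤ r by omega) (show r ≤ r + 1 by omega),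
    ← Qz_mul E (show l ≤ p by omega) (show p ≤ r by omega),
    ← Qz_mul G (show l ≤ r by omega) (show r ≤ r + 1 by omega),
    ← Qz_mul G (show l ≤ w by omega) (show w ≤ r by omega)]
  rw [Qz_plain hlp (fun t h1 h2 => hE t h1 (by omega) (by omega)),
    Qz_plain hpr (fun t h1 h2 => hE t (by omega) h2 (by omega)),
    Qz_plain (show r < r + 1 by omega) (fun t h1 h2 => by omega),
    Qz_plain hlw (fun t h1 h2 => hG t h1 (by omega) (by omega)),
    Qz_plain hwr (fun t h1 h2 => hG t (by omega) h2 (by omega)),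
    Qz_plain (show r < r + 1 by omega) (fun t h1 h2 => by omega)]
  rw [El, Ep, Er, Gl, Gw, Gr]
  have k1 : Zw S l p * Zw S p r = Zw S l w * Zw S w r := by
    rw [Zw_mul hlp.le hpr.le, Zw_mul hlw.le hwr.le]
  have k2 := comm_pow_left (Zw S l w) (Zw S p r) N
  have k3 := comm_pow_right (Zw S l w) (Zw S p r) N
  generalize Zw S l w = P at *
  generalize Zw S p r = V at *
  generalize Zw S l p = X at *
  generalize Zw S w r = Y at *
  generalize Zw S r (r + 1) = Z at *
  calc (P * V⁻¹) ^ N * X * ((V * P⁻¹) ^ N * V) * (1 * Z)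
      = (P * V⁻¹) ^ N * X * (V * (P⁻¹ * V) ^ N) * Z := by rw [k3, one_mul]
    _ = (P * V⁻¹) ^ N * (X * V) * (P⁻¹ * V) ^ N * Z := by simp only [mul_assoc]
    _ = (P * V⁻¹) ^ N * (P * Y) * (P⁻¹ * V) ^ N * Z := by rw [k1]
    _ = ((P * V⁻¹) ^ N * P) * Y * (P⁻¹ * V) ^ N * Z := by simp only [mul_assoc]
    _ = (P * (V⁻¹ * P) ^ N) * Y * (P⁻¹ * V) ^ N * Z := by rw [k2]
    _ = 1 * P * ((V⁻¹ * P) ^ N * Y) * ((P⁻¹ * V) ^ N * Z) := by
      rw [one_mul]; simp only [mul_assoc]

theorem mid_rev {E G : ℤ → ℤ → FreeGroup A} {l p w r : ℤ} (hlw : l < w) (hwp : w < p)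
    (hpr : p < r) (N : ℕ)
    (hE : ∀ t, l < t → t < r → t ≠ p → t ≠ w → E (t - 1) t = 1)
    (hG : ∀ t, l < t → t < r → G (t - 1) t = 1)
    (El : E (l - 1) l = 1)
    (Ep : E (p - 1) p = (Zw S p r * (Zw S l w)⁻¹) ^ N)
    (Ew : E (w - 1) w = ((Zw S p r)⁻¹ * Zw S l w) ^ N)
    (Er : E (r - 1) r = 1) (Gl : G (l - 1) l = (Zw S l w * (Zw S p r)⁻¹) ^ N)
    (Gr : G (r - 1) r = ((Zw S l w)⁻¹ * Zw S p r) ^ N) :
    Qz S E l (r + 1) = Qz S G l (r + 1) := by
  rw [← Qz_mul E (show l ≤ r by omega) (show r ≤ r + 1 by omega),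
    ← Qz_mul E (show l ≤ p by omega) (show p ≤ r by omega),
    ← Qz_mul E (show l ≤ w by omega) (show w ≤ p by omega),
    ← Qz_mul G (show l ≤ r by omega) (show r ≤ r + 1 by omega)]
  rw [Qz_plain hlw (fun t h1 h2 => hE t h1 (by omega) (by omega) (by omega)),
    Qz_plain hwp (fun t h1 h2 => hE t (by omega) (by omega) (by omega) (by omega)),
    Qz_plain hpr (fun t h1 h2 => hE t (by omega) h2 (by omega) (by omega)),
    Qz_plain (show r < r + 1 by omega) (fun t h1 h2 => by omega),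
    Qz_plain (show l < r by omega) (fun t h1 h2 => hG t h1 h2),
    Qz_plain (show r < r + 1 by omega) (fun t h1 h2 => by omega)]
  rw [El, Ep, Ew, Er, Gl, Gr]
  have k1 : Zw S l r = Zw S l w * Zw S w p * Zw S p r := by
    rw [Zw_mul hlw.le hwp.le, Zw_mul (by omega) hpr.le]
  rw [k1]
  have k2 := comm_pow_left (Zw S l w) (Zw S p r) N
  have k3 := comm_pow_right (Zw S l w) (Zw S p r) N
  generalize Zw S l w = P at *
  generalize Zw S p r = V at *
  generalize Zw S w p = X at *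
  generalize Zw S r (r + 1) = Z at *
  calc 1 * P * ((V⁻¹ * P) ^ N * X) * ((V * P⁻¹) ^ N * V) * (1 * Z)
      = P * (V⁻¹ * P) ^ N * X * ((V * P⁻¹) ^ N * V) * Z := by
        rw [one_mul, one_mul]; simp only [mul_assoc]
    _ = ((P * V⁻¹) ^ N * P) * X * (V * (P⁻¹ * V) ^ N) * Z := by rw [k2, k3]
    _ = (P * V⁻¹) ^ N * (P * X * V) * ((P⁻¹ * V) ^ N * Z) := by simp only [mul_assoc]

theorem mid_two {E G : ℤ → ℤ → FreeGroup A} {t1 t2 : ℤ} (h12 : t1 < t2) (g : FreeGroup A)
    (hg : g * Zw S t1 t2 = Zw S t1 t2 * g)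
    (hE : ∀ t, t1 < t → t < t2 → E (t - 1) t = 1)
    (hG : ∀ t, t1 < t → t < t2 → G (t - 1) t = 1)
    (hval : (E (t1 - 1) t1 = g ∧ E (t2 - 1) t2 = 1 ∧ G (t1 - 1) t1 = 1 ∧ G (t2 - 1) t2 = g) ∨
      (E (t1 - 1) t1 = 1 ∧ E (t2 - 1) t2 = g ∧ G (t1 - 1) t1 = g ∧ G (t2 - 1) t2 = 1)) :
    Qz S E t1 (t2 + 1) = Qz S G t1 (t2 + 1) := by
  rw [← Qz_mul E h12.le (show t2 ≤ t2 + 1 by omega), ← Qz_mul G h12.le (show t2 ≤ t2 + 1 by omega),
    Qz_plain h12 hE, Qz_plain h12 hG, Qz_plain (show t2 < t2 + 1 by omega) (fun t h1 h2 => by omega),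
    Qz_plain (show t2 < t2 + 1 by omega) (fun t h1 h2 => by omega)]
  rcases hval with ⟨e1, e2, e3, e4⟩ | ⟨e1, e2, e3, e4⟩
  · rw [e1, e2, e3, e4, hg]; simp only [one_mul, mul_assoc]
  · rw [e1, e2, e3, e4, hg]; simp only [one_mul, mul_assoc]

variable {x : ℤ} {m n : ℕ} {u : ℕ → FreeGroup A}

theorem Orb.nonspec_gap (h : Orb S x m n) (hne : S.T^[n] x ≠ x) {t : ℤ}
    (hlr : EE S x n u (S.f (t - 1)) (S.f t) ≠ EE S x n u (t - 1) t) :
    ∃ k ≤ n, Uv n u k ≠ Vv u k ∧ ∃ v, S.gp x k v = t := by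
  obtain ⟨k, hk, h1, h2⟩ := h.EE_nonspec hne hlr
  refine ⟨k, hk, h1, ?_⟩
  have hfin : ∀ v : Bool, (t - 1 = S.yy (x - 1) k v ∧ t = S.yy x k v) ∨
      (t = S.yy (x - 1) k v ∧ t - 1 = S.yy x k v) → ∃ v, S.gp x k v = t := by
    intro v hv
    refine ⟨v, ?_⟩
    rw [h.yl_eq hk v] at hv
    rcases S.oo_pm x k v with ho | ho <;> rw [ho] at hv <;> simp only [gp, ho]
    · simp; omega
    · norm_num; omega
  have hf : ∀ a y : ℤ, S.f a = S.T^[k] y → a = S.yy y k true := by
    intro a y e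
    simp only [yy, cond_true]
    rw [← e, S.f_inv]
  rcases h2 with ⟨a1, a2⟩ | ⟨a1, a2⟩ | ⟨a1, a2⟩ | ⟨a1, a2⟩
  · exact hfin false (Or.inl ⟨a1, a2⟩)
  · exact hfin false (Or.inr ⟨a1, a2⟩)
  · exact hfin true (Or.inl ⟨hf _ _ a1, hf _ _ a2⟩)
  · exact hfin true (Or.inr ⟨hf _ _ a1, hf _ _ a2⟩)

theorem yy_mem (h0 : 0 ≤ x) (h1 : x < S.M) (k : ℕ) (v : Bool) :
    0 ≤ S.yy x k v ∧ S.yy x k v < S.M := by
  obtain ⟨a1, a2⟩ := S.iter_T_mem k h0 h1
  cases v
  · exact ⟨a1, a2⟩
  · exact S.f_mem _ a1 a2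

theorem not_same_both (h0 : 0 ≤ x) (h1 : x < S.M) (k : ℕ) (v : Bool)
    (h : S.same (S.yy x k v) (S.yy x k (!v))) : False := by
  obtain ⟨a1, a2⟩ := yy_mem (S := S) h0 h1 k v
  apply S.f_sep _ a1 a2
  rw [f_yy]
  exact h

/-- The swap invariance on factors away from the region. -/
theorem Orb.factor_id (h : Orb S x m n) (hne : S.T^[n] x ≠ x) {i : ℤ} {len : ℕ}
    (hF : MF S i len) (hfx : ¬ (i ≤ S.f x ∧ S.f x ≤ i + len))
    (hspec : ∀ k ≤ n, Uv n u k ≠ Vv u k → ∃ v, S.same x (S.yy x k v))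
    (hid : i ≤ x → x ≤ i + len →
      W S (fun l r => EE S x n u (S.f l) (S.f r)) i len = W S (EE S x n u) i len) :
    W S (fun l r => EE S x n u (S.f l) (S.f r)) i len = W S (EE S x n u) i len := by
  by_cases hx : i ≤ x ∧ x ≤ i + len
  · exact hid hx.1 hx.2
  apply W_congr
  intro t ht1 ht2
  by_contra hcon
  obtain ⟨k, hk, h1, v, hv⟩ := h.nonspec_gap hne hcon
  obtain ⟨v', hv'⟩ := hspec k hk h1
  have h0 := h.x0
  have h1' := h.x1
  obtain ⟨b1, b2⟩ := yy_mem (S := S) h0 h1' k v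
  have hy : i ≤ S.yy x k v ∧ S.yy x k v ≤ i + len := by
    simp only [gp] at hv
    split_ifs at hv <;> omega
  obtain ⟨c1, c2⟩ := S.f_mem x h0 h1'
  have hboth : S.same (S.yy x k v') x ∧ S.same (S.yy x k (!v')) (S.f x) := by
    obtain ⟨b3, b4⟩ := yy_mem (S := S) h0 h1' k v'
    refine ⟨hv'.symm, ?_⟩
    obtain ⟨_, _, e⟩ := hv'.f_eq h0 h1' b3 b4
    rw [f_yy] at e
    exact e.symm
  by_cases hvv : v' = v
  · subst hvv
    exact hx (hF.mem_of_same hboth.1 hy h0 h1')
  · have : (!v') = v := (bnot_of_ne fun e => hvv e.symm).symm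
    rw [this] at hboth
    exact hfx (hF.mem_of_same hboth.2 hy c1 c2)

theorem gpow_gpow {o : ℤ} (ho : o = 1 ∨ o = -1) (g : FreeGroup A) : gpow o (gpow o g) = g := by
  rcases ho with rfl | rfl <;> simp [gpow]

theorem gpow_one {o : ℤ} : gpow o (1 : FreeGroup A) = 1 := by
  simp [gpow]

theorem rep_prefix {e N : ℕ} (h : e ≤ N) (p : List (A × Bool)) : rep e p <+: rep N p := by
  obtain ⟨d, rfl⟩ := Nat.exists_eq_add_of_le h
  clear h
  induction d with
  | zero => simp
  | succ d ih =>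
    rw [← add_assoc, rep_succ']
    exact ih.trans (List.prefix_append _ _)

section

variable {N : Type*} [Monoid N] {L : Lab A N} {z0 z1 : ℤ} {m0 ρ : ℕ}

theorem Reg.same (hR : Reg S L z0 z1 m0 ρ) {y z : ℤ} (hy : z0 ≤ y ∧ y < z1)
    (hz : z0 ≤ z ∧ z < z1) : S.same y z := by
  intro t h1 h2
  have := (hR.inn (t - 1) (by omega) (by omega)).2.2
  rwa [show t - 1 + 1 = t by ring] at this

theorem Reg.mem (hR : Reg S L z0 z1 m0 ρ) {y z : ℤ} (hy : z0 ≤ y ∧ y < z1)
    (hz : z0 ≤ z ∧ z < z1) {i : ℤ} {len : ℕ} (hF : MF S i len) (h : i ≤ y ∧ y ≤ i + len) :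
    i ≤ z ∧ z ≤ i + len :=
  hF.mem_of_same (hR.same hy hz) h (by have := hR.nonneg; omega) (by have := hR.le_M; omega)

theorem yy_of_gp {k : ℕ} {v : Bool} {z0 z1 : ℤ} (h : z0 < S.gp x k v ∧ S.gp x k v < z1) :
    z0 ≤ S.yy x k v ∧ S.yy x k v < z1 := by
  simp only [gp] at h
  split_ifs at h <;> omega

/-- If the gap of the hit `(k, v)` is in the region then that of `(k, !v)` is not. -/
theorem Reg.other (hR : Reg S L z0 z1 m0 ρ) (h0 : 0 ≤ x) (h1 : x < S.M) {k : ℕ} {v : Bool}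
    (h : z0 < S.gp x k v ∧ S.gp x k v < z1) (h' : z0 < S.gp x k (!v) ∧ S.gp x k (!v) < z1) :
    False :=
  not_same_both h0 h1 k v (hR.same (yy_of_gp h) (yy_of_gp h'))

variable [Finite N] [DecidableEq A]

/-- Pattern TB+: two hits on the same side with the same orientation. -/
theorem pump_TB (hR : Reg S L z0 z1 m0 ρ) (h : Orb S x m n) (hm : m0 + 1 ≤ m)
    (hne : S.T^[n] x ≠ x) (hx : z0 ≤ x ∧ x < z1) {s : ℕ} (hs : s < n) (v : Bool)
    (ho : S.oo x s v = S.oo x n v) (g1 : z0 + m0 ≤ S.gp x s v ∧ S.gp x s v + m0 ≤ z1)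
    (g2 : z0 + m0 ≤ S.gp x n v ∧ S.gp x n v + m0 ≤ z1) (hne2 : S.gp x s v ≠ S.gp x n v)
    (hno : ∀ k, s < k → k < n → ∀ v', ¬ (min (S.gp x s v) (S.gp x n v) < S.gp x k v' ∧
      S.gp x k v' < max (S.gp x s v) (S.gp x n v))) (e : ℕ) :
    PumpResult S L x e := by
  have hm1 := hR.m1
  set t1 := min (S.gp x s v) (S.gp x n v) with ht1
  set t2 := max (S.gp x s v) (S.gp x n v) with ht2
  have h12 : t1 < t2 := by omega
  have hctx : cR S (S.gp x s v) m0 = cR S (S.gp x n v) m0 ∧
      cL S (S.gp x s v) m0 = cL S (S.gp x n v) m0 := by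
    obtain ⟨a1, a2⟩ := h.ctx_gp hs.le v (show m0 ≤ m by omega)
    obtain ⟨b1, b2⟩ := h.ctx_gp le_rfl v (show m0 ≤ m by omega)
    rcases S.oo_pm x s v with hs' | hs'
    · obtain ⟨a3, a4⟩ := a1 hs'
      obtain ⟨b3, b4⟩ := b1 (by rw [← ho]; exact hs')
      exact ⟨by rw [a3, b3], by rw [a4, b4]⟩
    · obtain ⟨a3, a4⟩ := a2 hs'
      obtain ⟨b3, b4⟩ := b2 (by rw [← ho]; exact hs')
      exact ⟨by rw [a3, b3], by rw [a4, b4]⟩
  have hctx' : cR S t1 m0 = cR S t2 m0 ∧ cL S t1 m0 = cL S t2 m0 := by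
    rcases le_total (S.gp x s v) (S.gp x n v) with hle | hle
    · rw [ht1, ht2, min_eq_left hle, max_eq_right hle]; exact hctx
    · rw [ht1, ht2, min_eq_right hle, max_eq_left hle]; exact ⟨hctx.1.symm, hctx.2.symm⟩
  obtain ⟨n0, hn0, hgood⟩ := hR.good2 h12 (by omega) (by omega) hctx'.1 hctx'.2
  set w0 := pl S t1 (t2 - t1).toNat with hw0
  set NN := n0 * (e + 1) with hNN
  have heN : e ≤ NN := by nlinarith
  obtain ⟨gd1, gd2, gdr⟩ := hgood (e + 1)
  rw [← hNN] at gd1 gd2 gdr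
  set g0 := FreeGroup.mk (rep NN w0) with hg0
  set o := S.oo x s v with hoo
  have hopm : o = 1 ∨ o = -1 := S.oo_pm x s v
  set u : ℕ → FreeGroup A := fun k => if s ≤ k then gpow o g0 else 1 with hu
  have hgoodx : GoodIns S L x m0 (gpow o g0) := by
    have : GoodIns S L (S.gp x s v) m0 g0 := by
      rcases le_total (S.gp x s v) (S.gp x n v) with hle | hle
      · rw [ht1, min_eq_left hle] at gd1; exact gd1
      · rw [ht2, max_eq_left hle] at gd2; exact gd2
    exact h.good_of_gp hs.le v hm1 (by omega) this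
  have hUV : ∀ k ≤ n, k < s → Uv n u k = 1 ∧ Vv u k = 1 := by
    intro k hk hks
    constructor
    · simp only [Uv, hu]
      rw [if_pos (by omega), if_neg (by omega)]
    · simp only [Vv, hu]
      split_ifs <;> first | rfl | omega
  have hUVm : ∀ k, s < k → k < n → Uv n u k = Vv u k := by
    intro k h1 h2
    simp only [Uv, Vv, hu]
    rw [if_pos h2, if_pos (by omega), if_neg (by omega), if_pos (by omega)]
  have hUs : Uv n u s = gpow o g0 ∧ Vv u s = 1 := by
    constructor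
    · simp only [Uv, hu]; rw [if_pos hs, if_pos le_rfl]
    · simp only [Vv, hu]
      split_ifs <;> first | rfl | omega
  have hUn : Uv n u n = 1 ∧ Vv u n = gpow o g0 := by
    constructor
    · simp [Uv]
    · simp only [Vv, hu]
      rw [if_neg (by omega), if_pos (by omega)]
  have hin1 : z0 < S.gp x s v ∧ S.gp x s v < z1 := by omega
  have hin2 : z0 < S.gp x n v ∧ S.gp x n v < z1 := by omega
  -- nontrivial insertions strictly inside
  have hins : ∀ t, t1 < t → t < t2 → EE S x n u (t - 1) t = 1 ∧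
      EE S x n u (S.f (t - 1)) (S.f t) = 1 := by
    intro t h1 h2
    by_contra hcon
    have hcon' : EE S x n u (t - 1) t ≠ 1 ∨ EE S x n u (S.f (t - 1)) (S.f t) ≠ 1 := by tauto
    obtain ⟨k, hk, v', hv'⟩ := h.hit_of_ne hcon'
    obtain ⟨e1, e2⟩ := h.EE_hit (u := u) hne hk v'
    rw [hv'] at e1 e2
    rcases lt_trichotomy k s with hks | hks | hks
    · obtain ⟨c1, c2⟩ := hUV k hk hks
      apply hcon
      rw [e1, e2]
      cases v' <;> simp [eV, c1, c2, gpow_one]
    · subst hks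
      by_cases hvv : v' = v
      · subst hvv; omega
      · have hvv' : v' = !v := bnot_of_ne hvv
        rw [hvv'] at hv'
        exact hR.other h.x0 h.x1 hin1 (by rw [hv']; omega)
    · rcases Nat.lt_or_ge k n with hkn | hkn
      · exact hno k hks hkn v' (by rw [hv']; exact ⟨h1, h2⟩)
      · obtain rfl : k = n := by omega
        by_cases hvv : v' = v
        · subst hvv; omega
        · have hvv' : v' = !v := bnot_of_ne hvv
          rw [hvv'] at hv'
          exact hR.other h.x0 h.x1 hin2 (by rw [hv']; omega)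
  obtain ⟨Es1, Es2⟩ := h.EE_hit (u := u) hne hs.le v
  obtain ⟨En1, En2⟩ := h.EE_hit (u := u) hne le_rfl v
  rw [← hoo] at Es1 Es2
  rw [← ho] at En1 En2
  clear_value o
  refine ⟨EE S x n u, h.insFn, ?_, ?_, ?_⟩
  · intro i len hF hfx
    refine h.factor_id hne hF hfx ?_ ?_
    · intro k hk hkne
      refine ⟨v, ?_⟩
      have : k = s ∨ k = n := by
        by_contra hc
        push Not at hc
        rcases lt_or_gt_of_ne hc.1 with hks | hks
        · obtain ⟨c1, c2⟩ := hUV k hk hks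
          exact hkne (by rw [c1, c2])
        · exact hkne (hUVm k hks (by omega))
      rcases this with rfl | rfl
      · exact hR.same hx (yy_of_gp hin1)
      · exact hR.same hx (yy_of_gp hin2)
    · intro hx1 hx2
      have ha : i ≤ t1 - 1 ∧ t1 - 1 ≤ i + len := hR.mem hx (by omega) hF ⟨hx1, hx2⟩
      have hb : i ≤ t2 ∧ t2 ≤ i + len := hR.mem hx (by omega) hF ⟨hx1, hx2⟩
      symm
      refine W_mid (L := t1) (R := t2 + 1) (by omega) (by omega) (by omega) ?_ ?_
      · intro t ht1' ht2' ht3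
        by_contra hcon
        obtain ⟨k, hk, hk1, v', hv'⟩ := h.nonspec_gap (u := u) hne (fun e => hcon e.symm)
        have : k = s ∨ k = n := by
          by_contra hc
          push Not at hc
          rcases lt_or_gt_of_ne hc.1 with hks | hks
          · obtain ⟨c1, c2⟩ := hUV k hk hks
            exact hk1 (by rw [c1, c2])
          · exact hk1 (hUVm k hks (by omega))
        have hyF : i ≤ S.yy x k v' ∧ S.yy x k v' ≤ i + len := by
          simp only [gp] at hv'
          split_ifs at hv' <;> omega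
        by_cases hvv : v' = v
        · subst hvv
          rcases this with rfl | rfl <;> omega
        · have hvv' : v' = !v := bnot_of_ne hvv
          rw [hvv'] at hyF
          have hyR : z0 ≤ S.yy x k v ∧ S.yy x k v < z1 := by
            rcases this with rfl | rfl
            · exact yy_of_gp hin1
            · exact yy_of_gp hin2
          exact not_same_both h.x0 h.x1 k v
            (hF.same_of_mem (hR.mem hx hyR hF ⟨hx1, hx2⟩) hyF)
      · refine mid_two h12 g0 ?_ (fun t a b => (hins t a b).1) (fun t a b => (hins t a b).2) ?_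
        · have : Zw S t1 t2 = FreeGroup.mk w0 := rfl
          rw [this, hg0, mk_rep, ← pow_succ, ← pow_succ']
        · rcases le_total (S.gp x s v) (S.gp x n v) with hle | hle
          · rw [ht1, ht2, min_eq_left hle, max_eq_right hle, Es1, Es2, En1, En2]
            cases v
            · left
              simp only [eV, cond_false, Bool.not_false, cond_true, hUs.1, hUs.2, hUn.1, hUn.2,
                gpow_gpow hopm, gpow_one, and_self]
            · right
              simp only [eV, cond_false, Bool.not_true, cond_true, hUs.1, hUs.2, hUn.1, hUn.2,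
                gpow_gpow hopm, gpow_one, and_self]
          · rw [ht1, ht2, min_eq_right hle, max_eq_left hle, Es1, Es2, En1, En2]
            cases v
            · right
              simp only [eV, cond_false, Bool.not_false, cond_true, hUs.1, hUs.2, hUn.1, hUn.2,
                gpow_gpow hopm, gpow_one, and_self]
            · left
              simp only [eV, cond_false, Bool.not_true, cond_true, hUs.1, hUs.2, hUn.1, hUn.2,
                gpow_gpow hopm, gpow_one, and_self]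
  · intro i len hF
    refine MF.factor_good h hm1 hm ?_ hF
    intro k hk
    simp only [hu]
    split_ifs
    · right; exact hgoodx
    · left; rfl
  · intro i len hF hx1 hx2
    refine ⟨w0, ?_, ?_⟩
    · intro e
      have := congrArg List.length e
      rw [hw0, pl_length] at this
      simp at this; omega
    · have hword : g0.toWord = rep NN w0 := toWord_mk_of_isReduced gdr
      obtain ⟨ts, hts, htE⟩ : ∃ ts, (z0 < ts ∧ ts < z1) ∧ EE S x n u (ts - 1) ts = g0 := by
        cases v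
        · refine ⟨S.gp x s false, hin1, ?_⟩
          rw [Es1]
          simp only [eV, cond_false, hUs.1, gpow_gpow hopm]
        · refine ⟨S.gp x n true, hin2, ?_⟩
          rw [En1]
          simp only [eV, cond_true, hUn.2, gpow_gpow hopm]
      have ha : i ≤ ts - 1 ∧ ts - 1 ≤ i + len := hR.mem hx (by omega) hF ⟨hx1, hx2⟩
      have hb : i ≤ ts ∧ ts ≤ i + len := hR.mem hx (by omega) hF ⟨hx1, hx2⟩
      have := lw_infix (S := S) (EE S x n u) len i ts (by omega) hb.2
      rw [htE, hword] at this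
      exact (rep_prefix heN w0).isInfix.trans this

omit [Finite N] [DecidableEq A] in
/-- A hit on the wrong side is not in the factor of the region. -/
theorem Reg.side (hR : Reg S L z0 z1 m0 ρ) (h0 : 0 ≤ x) (h1 : x < S.M) (hx : z0 ≤ x ∧ x < z1)
    {i : ℤ} {len : ℕ} (hF : MF S i len) (hxF : i ≤ x ∧ x ≤ i + len) {k : ℕ} {v v' : Bool} {t : ℤ}
    (hv : z0 < S.gp x k v ∧ S.gp x k v < z1) (hv' : S.gp x k v' = t) (ht1 : i < t)
    (ht2 : t ≤ i + len) : v' = v := by
  by_contra hvv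
  have hvv' : v' = !v := bnot_of_ne hvv
  have hyF : i ≤ S.yy x k v' ∧ S.yy x k v' ≤ i + len := by
    simp only [gp] at hv'
    split_ifs at hv' <;> omega
  rw [hvv'] at hyF
  exact not_same_both h0 h1 k v (hF.same_of_mem (hR.mem hx (yy_of_gp hv) hF hxF) hyF)

/-- Pattern with two reversing strands. -/
theorem pump_P2 (hR : Reg S L z0 z1 m0 ρ) (h : Orb S x m n) (hm : m0 + 1 ≤ m)
    (hne : S.T^[n] x ≠ x) {b c : ℕ} (hb : 0 < b) (hbc : b < c) (hcn : c < n) (vb : Bool)
    (ob : S.oo x b vb = -1) (oc : S.oo x c true = -S.oo x n (!vb))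
    {l w p r : ℤ} (hlw : l < w) (hwp : w < p) (hpr : p < r) (h1 : z0 + m0 ≤ l)
    (h2 : r + m0 ≤ z1)
    (hcfg : (l = S.gp x b vb ∧ w = S.gp x n (!vb) ∧ p = x ∧ r = S.gp x c true) ∨
      (l = S.gp x c true ∧ w = x ∧ p = S.gp x n (!vb) ∧ r = S.gp x b vb))
    (hno : ∀ k, 0 < k → k < n → ∀ v', ¬ (l < S.gp x k v' ∧ S.gp x k v' < r)) (e : ℕ) :
    PumpResult S L x e := by
  have hm1 := hR.m1
  have hm0m : m0 ≤ m := by omega
  -- contexts
  have hctx : cR S l m0 = cL S p m0 ∧ cL S l m0 = cR S p m0 ∧ cR S w m0 = cL S r m0 ∧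
      cL S w m0 = cR S r m0 := by
    obtain ⟨b3, b4⟩ := (h.ctx_gp (show b ≤ n by omega) vb hm0m).2 ob
    obtain ⟨c1, c2⟩ := h.ctx_gp (show c ≤ n by omega) true hm0m
    obtain ⟨d1, d2⟩ := h.ctx_gp (le_refl n) (!vb) hm0m
    have hcn' : cR S (S.gp x n (!vb)) m0 = cL S (S.gp x c true) m0 ∧
        cL S (S.gp x n (!vb)) m0 = cR S (S.gp x c true) m0 := by
      rcases S.oo_pm x n (!vb) with ho | ho
      · obtain ⟨d3, d4⟩ := d1 ho
        obtain ⟨c3, c4⟩ := c2 (by rw [oc, ho])
        exact ⟨by rw [d3, c4], by rw [d4, c3]⟩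
      · obtain ⟨d3, d4⟩ := d2 ho
        obtain ⟨c3, c4⟩ := c1 (by rw [oc, ho]; norm_num)
        exact ⟨by rw [d3, c4], by rw [d4, c3]⟩
    rcases hcfg with ⟨e1, e2, e3, e4⟩ | ⟨e1, e2, e3, e4⟩
    · rw [e1, e2, e3, e4]
      exact ⟨b3, b4, hcn'.1, hcn'.2⟩
    · rw [e1, e2, e3, e4]
      exact ⟨hcn'.2.symm, hcn'.1.symm, b4.symm, b3.symm⟩
  obtain ⟨n0, hn0, hgood⟩ := hR.good4 (show l < p by omega) hlw hpr (show w < r by omega) h1 h2
    hctx.1 hctx.2.1 hctx.2.2.1 hctx.2.2.2
  set NN := n0 * (e + 1) with hNN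
  have heN : e ≤ NN := by nlinarith
  obtain ⟨gd1, gd2, gr1, gr2⟩ := hgood (e + 1)
  rw [← hNN] at gd1 gd2 gr1 gr2
  have hgp : FreeGroup.mk (rep NN (pl S p (r - p).toNat ++ invRev (pl S l (w - l).toNat))) =
      (Zw S p r * (Zw S l w)⁻¹) ^ NN := by
    rw [mk_rep, ← mul_mk, Zw, Zw, inv_mk]
  have hgw : FreeGroup.mk (rep NN (invRev (pl S p (r - p).toNat) ++ pl S l (w - l).toNat)) =
      ((Zw S p r)⁻¹ * Zw S l w) ^ NN := by
    rw [mk_rep, ← mul_mk, Zw, Zw, inv_mk]
  have hnp : ∀ X Y : List (A × Bool), X = pl S p (r - p).toNat → X ++ Y ≠ [] := by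
    intro X Y hX e
    have := congrArg List.length e
    rw [hX, List.length_append, pl_length] at this
    simp at this; omega
  have hnw : ∀ X Y : List (A × Bool), Y = pl S l (w - l).toNat → X ++ Y ≠ [] := by
    intro X Y hX e
    have := congrArg List.length e
    rw [hX, List.length_append, pl_length] at this
    simp at this; omega
  -- the two elements
  obtain ⟨gx, gn, W0, hW0, hW0r, hgxW, hgdx, hgdn, hgxn⟩ : ∃ (gx gn : FreeGroup A)
      (W0 : List (A × Bool)), W0 ≠ [] ∧ IsReduced (rep NN W0) ∧ gx = FreeGroup.mk (rep NN W0) ∧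
      GoodIns S L x m0 gx ∧ GoodIns S L (S.gp x n (!vb)) m0 gn ∧
      ((l = S.gp x b vb ∧ w = S.gp x n (!vb) ∧ p = x ∧ r = S.gp x c true ∧
        gx = (Zw S p r * (Zw S l w)⁻¹) ^ NN ∧ gn = ((Zw S p r)⁻¹ * Zw S l w) ^ NN) ∨
      (l = S.gp x c true ∧ w = x ∧ p = S.gp x n (!vb) ∧ r = S.gp x b vb ∧
        gx = ((Zw S p r)⁻¹ * Zw S l w) ^ NN ∧ gn = (Zw S p r * (Zw S l w)⁻¹) ^ NN)) := by
    rcases hcfg with ⟨e1, e2, e3, e4⟩ | ⟨e1, e2, e3, e4⟩
    · refine ⟨_, _, _, hnp _ _ rfl, gr1, rfl, ?_, ?_, Or.inl ⟨e1, e2, e3, e4, hgp, hgw⟩⟩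
      · rw [e3] at gd1 ⊢; exact gd1
      · rw [← e2]; exact gd2
    · refine ⟨_, _, _, hnw _ _ rfl, gr2, rfl, ?_, ?_, Or.inr ⟨e1, e2, e3, e4, hgw, hgp⟩⟩
      · rw [e2] at gd2 ⊢; exact gd2
      · rw [← e3]; exact gd1
  set on := S.oo x n (!vb) with hon
  have honpm : on = 1 ∨ on = -1 := S.oo_pm x n (!vb)
  have hgdn' : GoodIns S L x m0 (gpow on gn) := h.good_of_gp le_rfl _ hm1 hm0m hgdn
  set u : ℕ → FreeGroup A := fun k => if k < b then gx else if k < c then 1 else gpow on gn with hu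
  have hin : ∀ t, t = l ∨ t = w ∨ t = p ∨ t = r → z0 < t ∧ t < z1 := by
    intro t ht; omega
  have hx : z0 < x ∧ x < z1 := by
    rcases hcfg with ⟨e1, e2, e3, e4⟩ | ⟨e1, e2, e3, e4⟩ <;> exact hin x (by omega)
  have hib : z0 < S.gp x b vb ∧ S.gp x b vb < z1 := by
    rcases hcfg with ⟨e1, e2, e3, e4⟩ | ⟨e1, e2, e3, e4⟩ <;> exact hin _ (by omega)
  have hic : z0 < S.gp x c true ∧ S.gp x c true < z1 := by
    rcases hcfg with ⟨e1, e2, e3, e4⟩ | ⟨e1, e2, e3, e4⟩ <;> exact hin _ (by omega)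
  have hi_n : z0 < S.gp x n (!vb) ∧ S.gp x n (!vb) < z1 := by
    rcases hcfg with ⟨e1, e2, e3, e4⟩ | ⟨e1, e2, e3, e4⟩ <;> exact hin _ (by omega)
  have hgp0 : S.gp x 0 false = x ∧ S.oo x 0 false = 1 := by
    simp [gp, yy, oo, sgn]
  have hi0 : z0 < S.gp x 0 false ∧ S.gp x 0 false < z1 := by rw [hgp0.1]; exact hx
  -- values
  have hU0 : Uv n u 0 = gx ∧ Vv u 0 = 1 := by
    constructor
    · simp only [Uv, hu]; rw [if_pos (by omega), if_pos hb]
    · simp [Vv]
  have hUb : Uv n u b = 1 ∧ Vv u b = gx := by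
    constructor
    · simp only [Uv, hu]; rw [if_pos (by omega), if_neg (by omega), if_pos hbc]
    · simp only [Vv, hu]; rw [if_neg (by omega), if_pos (by omega)]
  have hUc : Uv n u c = gpow on gn ∧ Vv u c = 1 := by
    constructor
    · simp only [Uv, hu]; rw [if_pos hcn, if_neg (by omega), if_neg (by omega)]
    · simp only [Vv, hu]; rw [if_neg (by omega), if_neg (by omega), if_pos (by omega)]
  have hUn : Uv n u n = 1 ∧ Vv u n = gpow on gn := by
    constructor
    · simp [Uv]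
    · simp only [Vv, hu]; rw [if_neg (by omega), if_neg (by omega), if_neg (by omega)]
  have hspt : ∀ k ≤ n, Uv n u k ≠ Vv u k → (k = 0 ∨ k = b ∨ k = c ∨ k = n) := by
    intro k hk hkne
    by_contra hcc
    push Not at hcc
    obtain ⟨q1, q2, q3, q4⟩ := hcc
    apply hkne
    simp only [Uv, Vv, hu]
    rw [if_pos (show k < n by omega), if_neg q1]
    by_cases p1 : k < b
    · rw [if_pos p1, if_pos (by omega)]
    · rw [if_neg p1, if_neg (show ¬ k - 1 < b by omega)]
      by_cases p2 : k < c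
      · rw [if_pos p2, if_pos (by omega)]
      · rw [if_neg p2, if_neg (by omega)]
  have hside : ∀ k, (k = 0 ∨ k = b ∨ k = c ∨ k = n) → ∃ v, (z0 < S.gp x k v ∧ S.gp x k v < z1) ∧
      (S.gp x k v = l ∨ S.gp x k v = w ∨ S.gp x k v = p ∨ S.gp x k v = r) := by
    rintro k (rfl | rfl | rfl | rfl)
    · refine ⟨false, hi0, ?_⟩
      rw [hgp0.1]
      rcases hcfg with ⟨e1, e2, e3, e4⟩ | ⟨e1, e2, e3, e4⟩ <;> omega
    · refine ⟨vb, hib, ?_⟩
      rcases hcfg with ⟨e1, e2, e3, e4⟩ | ⟨e1, e2, e3, e4⟩ <;> omega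
    · refine ⟨true, hic, ?_⟩
      rcases hcfg with ⟨e1, e2, e3, e4⟩ | ⟨e1, e2, e3, e4⟩ <;> omega
    · refine ⟨!vb, hi_n, ?_⟩
      rcases hcfg with ⟨e1, e2, e3, e4⟩ | ⟨e1, e2, e3, e4⟩ <;> omega
  have hins : ∀ t, l < t → t < r → t ≠ p → t ≠ w → EE S x n u (t - 1) t = 1 ∧
      EE S x n u (S.f (t - 1)) (S.f t) = 1 := by
    intro t a1 a2 a3 a4
    by_contra hcon
    have hcon' : EE S x n u (t - 1) t ≠ 1 ∨ EE S x n u (S.f (t - 1)) (S.f t) ≠ 1 := by tauto
    obtain ⟨k, hk, v', hv'⟩ := h.hit_of_ne hcon'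
    have hk0n : k = 0 ∨ k = n := by
      by_contra hc
      push Not at hc
      exact hno k (by omega) (by omega) v' (by rw [hv']; exact ⟨a1, a2⟩)
    obtain ⟨v, hv1, hv2⟩ := hside k (by omega)
    by_cases hvv : v' = v
    · subst hvv; omega
    · have hvv' : v' = !v := bnot_of_ne hvv
      rw [hvv'] at hv'
      exact hR.other h.x0 h.x1 hv1 (by rw [hv']; omega)
  obtain ⟨E01, E02⟩ := h.EE_hit (u := u) hne (Nat.zero_le n) false
  obtain ⟨Eb1, Eb2⟩ := h.EE_hit (u := u) hne (show b ≤ n by omega) vb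
  obtain ⟨Ec1, Ec2⟩ := h.EE_hit (u := u) hne (show c ≤ n by omega) true
  obtain ⟨En1, En2⟩ := h.EE_hit (u := u) hne (le_refl n) (!vb)
  rw [hgp0.1, hgp0.2] at E01 E02
  rw [ob] at Eb1 Eb2
  rw [oc] at Ec1 Ec2
  rw [← hon] at En1 En2
  have v01 : EE S x n u (x - 1) x = gx := by
    rw [E01]; simp [eV, hU0.1, gpow]
  have v02 : EE S x n u (S.f (x - 1)) (S.f x) = 1 := by
    rw [E02]; simp [eV, hU0.2, gpow]
  have vc1 : EE S x n u (S.gp x c true - 1) (S.gp x c true) = 1 := by
    rw [Ec1]; simp [eV, hUc.2, gpow]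
  have vc2 : EE S x n u (S.f (S.gp x c true - 1)) (S.f (S.gp x c true)) = gn⁻¹ := by
    rw [Ec2]
    simp only [eV, Bool.not_true, cond_false, hUc.1]
    rcases honpm with ho | ho <;> rw [ho] <;> simp [gpow]
  refine ⟨EE S x n u, h.insFn, ?_, ?_, ?_⟩
  · intro i len hF hfx
    refine h.factor_id hne hF hfx ?_ ?_
    · intro k hk hkne
      obtain ⟨v, hv1, _⟩ := hside k (hspt k hk hkne)
      exact ⟨v, hR.same (by omega) (yy_of_gp hv1)⟩
    · intro hx1 hx2
      have ha : i ≤ l - 1 ∧ l - 1 ≤ i + len :=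
        hR.mem (y := x) (by omega) (by omega) hF ⟨hx1, hx2⟩
      have hb' : i ≤ r ∧ r ≤ i + len := hR.mem (y := x) (by omega) (by omega) hF ⟨hx1, hx2⟩
      symm
      refine W_mid (L := l) (R := r + 1) (by omega) (by omega) (by omega) ?_ ?_
      · intro t ht1' ht2' ht3
        by_contra hcon
        obtain ⟨k, hk, hk1, v', hv'⟩ := h.nonspec_gap (u := u) hne (fun e => hcon e.symm)
        obtain ⟨v, hv1, hv2⟩ := hside k (hspt k hk hk1)
        have := hR.side h.x0 h.x1 (by omega) hF ⟨hx1, hx2⟩ hv1 hv' ht1' ht2'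
        subst this
        omega
      · clear hside hin hnp hnw hspt hgood
        cases vb
        · -- reversing case
          simp only [Bool.not_false] at *
          have vb1 : EE S x n u (S.gp x b false - 1) (S.gp x b false) = 1 := by
            rw [Eb1]; simp [eV, hUb.1, gpow]
          have vb2 : EE S x n u (S.f (S.gp x b false - 1)) (S.f (S.gp x b false)) = gx⁻¹ := by
            rw [Eb2]; simp only [eV, Bool.not_false, cond_true, hUb.2]; simp [gpow]
          have vn1 : EE S x n u (S.gp x n true - 1) (S.gp x n true) = gn := by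
            rw [En1]; simp only [eV, cond_true, hUn.2, gpow_gpow honpm]
          have vn2 : EE S x n u (S.f (S.gp x n true - 1)) (S.f (S.gp x n true)) = 1 := by
            rw [En2]; simp only [eV, Bool.not_true, cond_false, hUn.1, gpow_one]
          rcases hgxn with ⟨e1, e2, e3, e4, e5, e6⟩ | ⟨e1, e2, e3, e4, e5, e6⟩
          · refine mid_rev hlw hwp hpr NN (fun t a1 a2 a3 a4 => (hins t a1 a2 a3 a4).1) ?_
              ?_ ?_ ?_ ?_ ?_ ?_
            · intro t a1 a2
              by_cases hp : t = p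
              · rw [hp, e3]; exact v02
              · by_cases hw : t = w
                · rw [hw, e2]; exact vn2
                · exact (hins t a1 a2 hp hw).2
            · rw [e1]; exact vb1
            · rw [← e5, e3]; exact v01
            · rw [← e6, e2]; exact vn1
            · rw [e4]; exact vc1
            · rw [e1, vb2, ← e1, e5, ← inv_pow]; simp
            · rw [e4, vc2, ← e4, e6, ← inv_pow]; simp
          · refine mid_rev hlw hwp hpr NN (fun t a1 a2 a3 a4 => (hins t a1 a2 a3 a4).1) ?_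
              ?_ ?_ ?_ ?_ ?_ ?_
            · intro t a1 a2
              by_cases hp : t = p
              · rw [hp, e3]; exact vn2
              · by_cases hw : t = w
                · rw [hw, e2]; exact v02
                · exact (hins t a1 a2 hp hw).2
            · rw [e1]; exact vc1
            · rw [← e6, e3]; exact vn1
            · rw [← e5, e2]; exact v01
            · rw [e4]; exact vb1
            · rw [e1, vc2, ← e1, e6, ← inv_pow]; simp
            · rw [e4, vb2, ← e4, e5, ← inv_pow]; simp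
        · -- crossing case
          simp only [Bool.not_true] at *
          have vb1 : EE S x n u (S.gp x b true - 1) (S.gp x b true) = gx⁻¹ := by
            rw [Eb1]; simp only [eV, cond_true, hUb.2]; simp [gpow]
          have vb2 : EE S x n u (S.f (S.gp x b true - 1)) (S.f (S.gp x b true)) = 1 := by
            rw [Eb2]; simp only [eV, Bool.not_true, cond_false, hUb.1, gpow_one]
          have vn1 : EE S x n u (S.gp x n false - 1) (S.gp x n false) = 1 := by
            rw [En1]; simp only [eV, cond_false, hUn.1, gpow_one]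
          have vn2 : EE S x n u (S.f (S.gp x n false - 1)) (S.f (S.gp x n false)) = gn := by
            rw [En2]; simp only [eV, Bool.not_false, cond_true, hUn.2, gpow_gpow honpm]
          rcases hgxn with ⟨e1, e2, e3, e4, e5, e6⟩ | ⟨e1, e2, e3, e4, e5, e6⟩
          · refine mid_cross (show l < p by omega) hlw hpr (show w < r by omega) NN ?_ ?_
              ?_ ?_ ?_ ?_ ?_ ?_
            · intro t a1 a2 hp
              by_cases hw : t = w
              · rw [hw, e2]; exact vn1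
              · exact (hins t a1 a2 hp hw).1
            · intro t a1 a2 hw
              by_cases hp : t = p
              · rw [hp, e3]; exact v02
              · exact (hins t a1 a2 hp hw).2
            · rw [e1, vb1, ← e1, e5, ← inv_pow]; simp
            · rw [← e5, e3]; exact v01
            · rw [e4]; exact vc1
            · rw [e1]; exact vb2
            · rw [← e6, e2]; exact vn2
            · rw [e4, vc2, ← e4, e6, ← inv_pow]; simp
          · refine (mid_cross (show l < p by omega) hlw hpr (show w < r by omega) NN ?_ ?_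
              ?_ ?_ ?_ ?_ ?_ ?_).symm
            · intro t a1 a2 hp
              by_cases hw : t = w
              · rw [hw, e2]; exact v02
              · exact (hins t a1 a2 hp hw).2
            · intro t a1 a2 hw
              by_cases hp : t = p
              · rw [hp, e3]; exact vn1
              · exact (hins t a1 a2 hp hw).1
            · rw [e1, vc2, ← e1, e6, ← inv_pow]; simp
            · rw [← e6, e3]; exact vn2
            · rw [e4]; exact vb2
            · rw [e1]; exact vc1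
            · rw [← e5, e2]; exact v01
            · rw [e4, vb1, ← e4, e5, ← inv_pow]; simp
  · intro i len hF
    refine MF.factor_good h hm1 hm ?_ hF
    intro k hk
    simp only [hu]
    split_ifs
    · right; exact hgdx
    · left; rfl
    · right; exact hgdn'
  · intro i len hF hx1 hx2
    refine ⟨W0, hW0, ?_⟩
    have hword : gx.toWord = rep NN W0 := by rw [hgxW]; exact toWord_mk_of_isReduced hW0r
    have ha : i ≤ x - 1 ∧ x - 1 ≤ i + len :=
      hR.mem (y := x) (by omega) (by omega) hF ⟨hx1, hx2⟩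
    have := lw_infix (S := S) (EE S x n u) len i x (by omega) hx2
    rw [v01, hword] at this
    exact (rep_prefix heN W0).isInfix.trans this

end

end Sys

end Pool.H43.Quad
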