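import Pool.Agent.H43.Quad.Pattern

/-!
# The periodic pattern
-/

namespace Pool.H43.Quad

open FreeGroup

section

variable {A : Type*} [DecidableEq A] {N : Type*} [Monoid N] (L : Lab A N)

theorem per_gd {r c : List (A × Bool)} (hr : r ≠ []) (hrr : IsReduced (r ++ r))
    (hrc : IsReduced (r ++ c)) (hμ : L.μ (r ++ c) = L.μ c) (hh : r.head? = c.head?) (n : ℕ) :
    Gd L c (mk (rep n r)) ∧ IsReduced (rep n r) := by
  have hred : ∀ n, IsReduced (rep n r ++ c) := by
    intro n
    induction n with
    | zero => exact isRed_sub hrc ⟨r, [], by simp⟩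
    | succ n ih =>
      rw [rep_succ, List.append_assoc]
      cases n with
      | zero => simpa using hrc
      | succ n =>
        rw [rep_succ, List.append_assoc] at ih ⊢
        rw [← List.append_assoc]
        exact IsReduced.append_overlap hrr ih hr
  have hr' : IsReduced (rep n r) := isRed_sub (hred n) ⟨[], c, by simp⟩
  refine ⟨⟨?_, ?_, ?_⟩, hr'⟩
  · rw [toWord_mk_of_isReduced hr']; exact hred n
  · rw [toWord_mk_of_isReduced hr']
    clear hr'
    induction n with
    | zero => simp
    | succ n ih =>
      have := hred (n + 1)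
      rw [rep_succ, List.append_assoc] at this ⊢
      rw [L.μ_append _ _ this, ih, ← L.μ_append _ _ hrc, hμ]
  · rw [toWord_mk_of_isReduced hr']
    cases n with
    | zero => simp
    | succ n =>
      rw [rep_succ, List.append_assoc, List.head?_append, hh]
      cases hc : c.head? with
      | none =>
        rw [hc] at hh
        cases r with
        | nil => exact absurd rfl hr
        | cons a r => simp at hh
      | some a => rfl

end

namespace Sys

variable {A : Type*} {S : Sys A} {x : ℤ} {m n : ℕ}

theorem sep_of_min (hs : S.Strip x m n) (hmin : ∀ k, 1 ≤ k → k < n → (m : ℤ) < |S.T^[k] x - x|) :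
    ∀ i j, i < j → j < n → (m : ℤ) < |S.T^[i] x - S.T^[j] x| := by
  intro i j hij hj
  by_contra hc
  push Not at hc
  set d := S.T^[j] x - S.T^[i] x with hd
  rw [abs_sub_comm, ← hd, abs_le] at hc
  have hb : -(m : ℤ) ≤ S.sgn i x * d ∧ S.sgn i x * d ≤ m := by
    rcases S.sgn_pm i x with h | h <;> rw [h] <;> constructor <;> linarith [hc.1, hc.2]
  obtain ⟨e1, _⟩ := hs.T_add (show i ≤ n by omega) (S.sgn i x * d) hb.1 hb.2
  have e2 : S.sgn i x * (S.sgn i x * d) = d := by
    rcases S.sgn_pm i x with h | h <;> rw [h] <;> ring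
  have e3 : S.T^[i] (x + S.sgn i x * d) = S.T^[i] (S.T^[j - i] x) := by
    rw [← Function.iterate_add_apply, show i + (j - i) = j by omega, e1, e2, hd]; ring
  have e4 := S.T_injective.iterate i e3
  have := hmin (j - i) (by omega) (by omega)
  rw [← e4, show x + S.sgn i x * d - x = S.sgn i x * d by ring] at this
  have h5 := abs_le.mpr hb
  omega

theorem Orb.per_ev (h : Orb S x m n) (hper : S.T^[n] x = x) {l r : ℤ}
    (hev : ∃ k, k < n ∧ ∃ s, S.IsEv x k s l r) :
    ∃ k, k < n ∧ ∃ s, S.IsEv x k s (S.f l) (S.f r) := by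
  have hn := h.n_pos
  have hm := h.m_pos
  have hc := h.strip.close hn h.x0 h.x1 0 (by omega) (by rw [hper]; ring)
  have hper' : S.T^[n] (x - 1) = x - 1 := by
    obtain ⟨e1, _⟩ := h.strip.T_add le_rfl (-1) (by omega) (by omega)
    rw [hc, hper] at e1
    rw [show x - 1 = x + -1 by ring, e1]; ring
  obtain ⟨k, hk, s, h1, h2⟩ := hev
  cases s
  · simp only [er, cond_false] at h1 h2
    rcases Nat.eq_zero_or_pos k with rfl | hk0
    · refine ⟨n - 1, by omega, true, ?_, ?_⟩
      · simp only [Function.iterate_zero, id_eq] at h1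
        rw [h1, ← hper', f_iter n hn, hper']; rfl
      · simp only [Function.iterate_zero, id_eq] at h2
        rw [h2]
        conv_lhs => rw [← hper]
        rw [f_iter n hn]; rfl
    · refine ⟨k - 1, by omega, true, ?_, ?_⟩
      · rw [h1, f_iter k hk0]; rfl
      · rw [h2, f_iter k hk0]; rfl
  · simp only [er, cond_true] at h1 h2
    have f1 : ∀ y, S.f (S.π (S.T^[k] y)) = S.T^[k + 1] y := by
      intro y; rw [Function.iterate_succ_apply']; rfl
    by_cases hkn : k + 1 = n
    · refine ⟨0, by omega, false, ?_, ?_⟩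
      · rw [h1, f1, hkn, hper']; rfl
      · rw [h2, f1, hkn, hper]; rfl
    · refine ⟨k + 1, by omega, false, ?_, ?_⟩
      · rw [h1, f1]; rfl
      · rw [h2, f1]; rfl

theorem Orb.EE_per (h : Orb S x m n) (hper : S.T^[n] x = x) (g : FreeGroup A) (l r : ℤ) :
    EE S x n (fun _ => g) (S.f l) (S.f r) = EE S x n (fun _ => g) l r := by
  rcases h.EE_cases (u := fun _ => g) l r with ⟨k, hk, s, hev, he⟩ | ⟨k, hk, s, hev, he⟩ |
    ⟨h1, h2, he⟩
  · obtain ⟨k', hk', s', hev'⟩ := h.per_ev hper ⟨k, hk, s, hev⟩
    rw [he, h.EE_ev hk' hev']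
  · obtain ⟨k', hk', s', hev'⟩ := h.per_ev hper ⟨k, hk, s, hev⟩
    rw [he, h.EE_ev' hk' hev']
  · rw [he]
    apply EE_not
    · intro hex
      have := h.per_ev hper hex
      rw [S.f_inv, S.f_inv] at this
      exact h1 this
    · intro hex
      have := h.per_ev hper hex
      rw [S.f_inv, S.f_inv] at this
      exact h2 this

variable [DecidableEq A] {N : Type*} [Monoid N] {L : Lab A N}

theorem pump_per (h : Orb S x m n) {m0 : ℕ} (hm1 : 1 ≤ m0) (hm : m0 + 1 ≤ m)
    (hper : S.T^[n] x = x) {g : FreeGroup A} (hg : GoodIns S L x m0 g) {p : List (A × Bool)}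
    {e : ℕ} (hp : p ≠ []) (hgp : rep e p <:+: g.toWord) : PumpResult S L x e := by
  have hmp := h.m_pos
  refine ⟨EE S x n (fun _ => g), h.insFn, ?_, ?_, ?_⟩
  · intro i len hF _
    apply W_congr
    intro t _ _
    exact h.EE_per hper g (t - 1) t
  · intro i len hF
    exact MF.factor_good h hm1 hm (fun k _ => Or.inr hg) hF
  · intro i len hF hx1 hx2
    refine ⟨p, hp, hgp.trans ?_⟩
    have hiw := h.strip.iw h.n_pos (Nat.zero_le n)
    simp only [Function.iterate_zero, id_eq] at hiw
    have hlt : i < x := by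
      by_contra hc
      apply hF.lo
      have := hiw (-1) (by omega) (by omega)
      rwa [show x + -1 = i - 1 by omega] at this
    have := lw_infix (S := S) (EE S x n (fun _ => g)) len i x hlt hx2
    have hE : EE S x n (fun _ => g) (x - 1) x = g :=
      h.EE_ev (k := 0) (by have := h.n_pos; omega) (s := false) ⟨rfl, rfl⟩
    rwa [hE] at this

theorem pump_periodic [Finite N] [Finite A] (K : ℕ)
    (hK : Nat.card (N × N × (A × Bool) × (A × Bool)) ≤ K) (h : Orb S x m n)
    (hm : 10 * K + 20 ≤ m) (hper : S.T^[n] x = x) :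
    ∃ i : ℕ, i ≤ K ∧ ∀ e, PumpResult S L (x + i) e := by
  have hmp := h.m_pos
  set D := K + 1 with hD
  let cls : Fin (K + 1) → N × N × (A × Bool) × (A × Bool) := fun i =>
    (L.μ (pl S (x + (i : ℕ)) (D - i)), L.μ (pl S (x - D) (D + i)), S.a (x + (i : ℕ)),
      S.a (x + (i : ℕ) - 1))
  have hni : ¬ Function.Injective cls := by
    intro hinj
    have := Nat.card_le_card_of_injective cls hinj
    rw [Nat.card_fin] at this
    omega
  obtain ⟨i, j, hij, hcls⟩ : ∃ i j : Fin (K + 1), i < j ∧ cls i = cls j := by
    simp only [Function.Injective, not_forall] at hni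
    obtain ⟨i, j, h1, h2⟩ := hni
    rcases lt_or_gt_of_ne h2 with h3 | h3
    · exact ⟨i, j, h3, h1⟩
    · exact ⟨j, i, h3, h1.symm⟩
  obtain ⟨i, hi⟩ := i
  obtain ⟨j, hj⟩ := j
  simp only [Fin.mk_lt_mk] at hij
  simp only [cls, Prod.mk.injEq] at hcls
  obtain ⟨q1, q2, q3, q4⟩ := hcls
  refine ⟨i, by omega, ?_⟩
  intro e
  -- window
  have hiw := h.strip.iw h.n_pos (Nat.zero_le n)
  simp only [Function.iterate_zero, id_eq] at hiw
  have hinner : ∀ t, x - m ≤ t → t < x + m → S.inner t := by
    intro t h1 h2
    have := hiw (t - x) (by omega) (by omega)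
    rwa [show x + (t - x) = t by ring] at this
  have hredw : ∀ (s : ℤ) (k : ℕ), x - m ≤ s → s + k ≤ x + m → IsReduced (pl S s k) := by
    intro s k h1 h2
    exact pl_isReduced s k (fun t h3 h4 => hinner t (by omega) (by omega))
  set r := pl S (x + i) (j - i) with hr
  have hrne : r ≠ [] := by
    intro e
    have := congrArg List.length e
    rw [hr, pl_length] at this
    simp at this; omega
  have hrr : IsReduced (r ++ r) := by
    have h1 : IsReduced (r ++ [S.a (x + i)]) := by
      have h2 : IsReduced (pl S (x + i) (j - i) ++ [S.a (x + j)]) := by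
        have := hredw (x + i) (j - i + 1) (by omega) (by push_cast; omega)
        rw [pl_succ'] at this
        convert this using 4
        push_cast; omega
      rwa [← q3] at h2
    have h2 : IsReduced ([S.a (x + i)] ++ pl S (x + i + 1) (j - i - 1)) := by
      have := hredw (x + i) (j - i) (by omega) (by push_cast; omega)
      rw [show j - i = (j - i - 1) + 1 by omega, pl_succ] at this
      exact this
    have h3 := IsReduced.append_overlap h1 h2 (by simp)
    rw [List.append_assoc] at h3
    have h4 : [S.a (x + i)] ++ pl S (x + i + 1) (j - i - 1) = r := by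
      rw [hr, show j - i = (j - i - 1) + 1 by omega, pl_succ]
      simp
    rwa [h4] at h3
  have hc1 : pl S (x + i) (D - i) = r ++ pl S (x + j) (D - j) :=
    (pl_add_eq _ _ _ _ _ (by push_cast; omega) (by omega)).symm
  set c := pl S (x + i) (D - i) with hc
  have hcne : c ≠ [] := by
    intro e
    have := congrArg List.length e
    rw [hc, pl_length] at this
    simp at this; omega
  set c' := pl S (x + j) (D - j) with hc'
  have hc'ne : c' ≠ [] := by
    intro e
    have := congrArg List.length e
    rw [hc', pl_length] at this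
    simp at this; omega
  have hcred : IsReduced c := hredw _ _ (by omega) (by push_cast; omega)
  have hrc : IsReduced (r ++ c) := by
    rw [hc1, ← List.append_assoc]
    exact IsReduced.append_overlap hrr (by rw [← hc1]; exact hcred) hrne
  have hhead : r.head? = some (S.a (x + i)) := by
    rw [hr, show j - i = (j - i - 1) + 1 by omega, pl_succ]; rfl
  have hheadc : c.head? = some (S.a (x + i)) := by
    rw [hc, show D - i = (D - i - 1) + 1 by omega, pl_succ]; rfl
  have hμ : L.μ (r ++ c) = L.μ c := by
    rw [L.μ_append _ _ hrc, q1]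
    have h1 : L.μ c = L.μ r * L.μ c' := by
      rw [hc1]; exact L.μ_append _ _ (by rw [← hc1]; exact hcred)
    rw [← h1, q1]
  obtain ⟨G1, G2⟩ := per_gd L hrne hrr hrc hμ (by rw [hhead, hheadc]) e
  -- left side
  set d := invRev (pl S (x - D) (D + i)) with hd
  have hdj : invRev r ++ d = invRev (pl S (x - D) (D + j)) := by
    rw [hd, ← invRev_append]
    congr 1
    exact pl_add_eq _ _ _ _ _ (by push_cast; ring) (by omega)
  have hdjred : IsReduced (invRev r ++ d) := by
    rw [hdj]
    exact isReduced_invRev (hredw _ _ (by omega) (by push_cast; omega))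
  have hrr' : IsReduced (invRev r ++ invRev r) := by
    rw [← invRev_append]; exact isReduced_invRev hrr
  have hrne' : invRev r ≠ [] := by
    intro e
    apply hrne
    rw [← invRev_invRev (L₁ := r), e]; rfl
  have hμ' : L.μ (invRev r ++ d) = L.μ d := by
    rw [hdj, hd, L.μ_inv, L.μ_inv, q2]
  have hhd : ∀ k : ℕ, 1 ≤ k → ∀ s : ℤ, (invRev (pl S s k)).head? = some (inv (S.a (s + k - 1))) := by
    intro k hk s
    obtain ⟨k, rfl⟩ : ∃ k', k = k' + 1 := ⟨k - 1, by omega⟩
    rw [invRev_pl, List.range_succ_eq_map]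
    simp
  have hhead' : (invRev r).head? = d.head? := by
    rw [hr, hd, hhd _ (by omega), hhd _ (by omega)]
    congr 2
    have e1 : x + (i : ℤ) + ((j - i : ℕ) : ℤ) - 1 = x + j - 1 := by
      push_cast [Nat.cast_sub hij.le]; ring
    have e2 : x - (D : ℤ) + ((D + i : ℕ) : ℤ) - 1 = x + i - 1 := by push_cast; ring
    rw [e1, e2, q4]
  obtain ⟨G3, G4⟩ := per_gd L hrne' hrr' hdjred hμ' hhead' e
  have hinv : (FreeGroup.mk (rep e r))⁻¹ = FreeGroup.mk (rep e (invRev r)) := by
    rw [mk_rep, mk_rep, ← inv_pow, inv_mk]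
  set m0 := 2 * D with hm0
  have hgood : GoodIns S L (x + i) m0 (FreeGroup.mk (rep e r)) := by
    rw [goodIns_iff (by omega)]
    constructor
    · have : cR S (x + i) m0 = c ++ pl S (x + D) (m0 - (D - i)) := by
        rw [cR, hc]
        exact (pl_add_eq _ _ _ _ _ (by push_cast; omega) (by omega)).symm
      rw [this]
      refine G1.extend L hcne ?_
      rw [← this, cR]
      exact hredw _ _ (by omega) (by push_cast; omega)
    · have : cL S (x + i) m0 = d ++ invRev (pl S (x + i - m0) (m0 - (D + i))) := by
        rw [cL, hd, ← invRev_append]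
        congr 1
        exact (pl_add_eq _ _ _ _ _ (by push_cast; omega) (by omega)).symm
      rw [this, hinv]
      refine G3.extend L ?_ ?_
      · rw [hd]
        intro e
        have := congrArg List.length e
        rw [invRev_length, pl_length] at this
        simp [hD] at this
      · rw [← this, cL]
        exact isReduced_invRev (hredw _ _ (by omega) (by push_cast; omega))
  -- shifted orbit
  have hwin : 0 ≤ x + i ∧ x + i < S.M := h.mem_window i (by omega) (by omega)
  have hTi : ∀ k ≤ n, S.T^[k] (x + i) = S.T^[k] x + S.sgn k x * i :=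
    fun k hk => (h.strip.T_add hk i (by omega) (by omega)).1
  have hOrb : Orb S (x + i) (m0 + 1) n := by
    refine ⟨by omega, h.n_pos, hwin.1, hwin.2, ?_, ?_⟩
    · intro k hk j' h1 h2
      rw [hTi k hk.le]
      have hb : -(m : ℤ) ≤ S.sgn k x * i + j' ∧ S.sgn k x * i + j' < m := by
        rcases S.sgn_pm k x with hs | hs <;> rw [hs] <;> constructor <;> push_cast at * <;> omega
      have := h.strip k hk _ hb.1 hb.2
      rwa [← add_assoc] at this
    · intro a b hab hb
      rw [hTi a (by omega), hTi b (by omega)]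
      have h1 := h.sepL a b hab hb
      rw [lt_abs] at h1 ⊢
      rcases S.sgn_pm a x with hs | hs <;> rcases S.sgn_pm b x with hs' | hs' <;>
        rw [hs, hs'] <;> push_cast at * <;> omega
  have hper' : S.T^[n] (x + i) = x + i := by
    have hcl := h.strip.close h.n_pos h.x0 h.x1 0 (by omega) (by rw [hper]; ring)
    rw [hTi n le_rfl, hper, hcl]; ring
  exact pump_per hOrb (by omega) le_rfl hper' hgood hrne
    (by rw [toWord_mk_of_isReduced G2])

end Sys

end Pool.H43.Quad
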