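import Pool.Agent.H43.Quad.Sys

/-!
# Products of letters with insertions
-/

namespace Pool.H43.Quad

open FreeGroup

namespace Sys

variable {A : Type*} {S : Sys A}

/-- An insertion function on ordered adjacent pairs, compatible with the matching. -/
structure InsFn (S : Sys A) (E : ℤ → ℤ → FreeGroup A) : Prop where
  rev : ∀ l r, E r l = (E l r)⁻¹
  supp : ∀ l, E l (l + 1) ≠ 1 → S.NS l
  pi : ∀ l, S.NS l → E (S.π l) (S.π (l + 1)) = E l (l + 1)

/-- The letter at `t` preceded by the insertion. -/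
def bl (S : Sys A) (E : ℤ → ℤ → FreeGroup A) (t : ℤ) : FreeGroup A := E (t - 1) t * FreeGroup.mk [S.a t]

/-- Product of `n` letters starting at `i`, each preceded by its insertion. -/
def Q (S : Sys A) (E : ℤ → ℤ → FreeGroup A) (i : ℤ) : ℕ → FreeGroup A
  | 0 => 1
  | n + 1 => Q S E i n * bl S E (i + n)

theorem Q_add (E : ℤ → ℤ → FreeGroup A) (i : ℤ) (n m : ℕ) :
    Q S E i (n + m) = Q S E i n * Q S E (i + n) m := by
  induction m with
  | zero => simp [Q]
  | succ m ih =>
    rw [← add_assoc]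
    change Q S E i (n + m) * _ = Q S E i n * (Q S E (i + n) m * _)
    rw [ih, mul_assoc]
    congr 3
    push_cast; ring

theorem Q_one (E : ℤ → ℤ → FreeGroup A) (i : ℤ) : Q S E i 1 = bl S E i := by
  simp [Q]

theorem mk_inv_letter (p : A × Bool) : FreeGroup.mk [p] * FreeGroup.mk [inv p] = 1 := by
  have : FreeGroup.mk [inv p] = (FreeGroup.mk [p])⁻¹ := by
    rw [inv_mk]; simp [invRev, inv]
  rw [this, mul_inv_cancel]

theorem Q_closed {E : ℤ → ℤ → FreeGroup A} (hE : InsFn S E) :
    ∀ (n : ℕ) (i : ℤ), 0 < n → 0 ≤ i → i + n ≤ S.M →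
      (∀ x, i ≤ x → x < i + n → i ≤ S.π x ∧ S.π x < i + n) → Q S E i n = E (i - 1) i := by
  intro n
  induction n using Nat.strong_induction_on with
  | _ n ih =>
  intro i hn hi hM hcl
  obtain ⟨hq1, hq2⟩ := hcl i le_rfl (by omega)
  have hqne := S.π_ne i hi (by omega)
  set q := S.π i with hq
  have hπq : S.π q = i := by rw [hq, S.π_inv]
  obtain ⟨n1, hn1⟩ : ∃ n1 : ℕ, (n1 : ℤ) = q - i - 1 := ⟨(q - i - 1).toNat, by omega⟩
  obtain ⟨n2, hn2⟩ : ∃ n2 : ℕ, (n2 : ℤ) = i + n - q - 1 := ⟨(i + n - q - 1).toNat, by omega⟩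
  have hdecomp : n = 1 + n1 + 1 + n2 := by omega
  have haq : S.a q = inv (S.a i) := S.a_π i hi (by omega)
  -- the inner part
  have hin : Q S E (i + 1) n1 * E (q - 1) q = 1 := by
    rcases Nat.eq_zero_or_pos n1 with h0 | h0
    · subst h0
      have hqi : q = i + 1 := by push_cast at hn1; omega
      have : E (q - 1) q = 1 := by
        by_contra hne
        rw [hqi, show i + 1 - 1 = i by ring] at hne
        obtain ⟨⟨a1, a2, a3⟩, _⟩ := hE.supp i hne
        apply S.red i a1 a2 a3
        rw [← hqi, haq]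
      rw [this]; simp [Q]
    · have hE1 : Q S E (i + 1) n1 = E i (i + 1) := by
        have := ih n1 (by omega) (i + 1) h0 (by omega) (by omega) (by
          intro x hx1 hx2
          obtain ⟨c1, c2⟩ := S.nc i x hi (by omega) (by omega) (by omega)
          constructor <;> omega)
        rwa [show i + 1 - 1 = i by ring] at this
      rw [hE1]
      by_cases hNS : S.NS i
      · have h1 := hE.pi i hNS
        rw [hNS.2.1, ← hq] at h1
        rw [← h1, hE.rev (q - 1) q, inv_mul_cancel]
      · have h1 : E i (i + 1) = 1 := by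
          by_contra hne
          exact hNS (hE.supp i hne)
        have h2 : E (q - 1) q = 1 := by
          by_contra hne
          have := hE.supp (q - 1) (by rwa [show q - 1 + 1 = q by ring])
          obtain ⟨b1, b2, b3⟩ := this
          rw [show q - 1 + 1 = q by ring, hπq] at b2
          have b4 : S.π (q - 1) = i + 1 := by omega
          have b5 : S.π (i + 1) = q - 1 := by rw [← b4, S.π_inv]
          apply hNS
          refine ⟨?_, ?_, ?_⟩
          · rw [b4, show i + 1 - 1 = i by ring] at b3; exact b3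
          · rw [b5, ← hq]
          · rw [← hq]; exact b1
        rw [h1, h2, one_mul]
  -- the outer part
  have hout : Q S E (q + 1) n2 = 1 := by
    rcases Nat.eq_zero_or_pos n2 with h0 | h0
    · subst h0; simp [Q]
    · have hcl2 : ∀ x, q + 1 ≤ x → x < q + 1 + n2 → q + 1 ≤ S.π x ∧ S.π x < q + 1 + n2 := by
        intro x hx1 hx2
        obtain ⟨c1, c2⟩ := hcl x (by omega) (by omega)
        have d1 : S.π x ≠ q := by
          intro h
          have : x = i := by rw [← hπq, ← h, S.π_inv]
          omega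
        have d2 : S.π x ≠ i := by
          intro h
          have : x = q := by rw [hq, ← h, S.π_inv]
          omega
        have d3 : ¬ (i < S.π x ∧ S.π x < q) := by
          rintro ⟨g1, g2⟩
          obtain ⟨g3, g4⟩ := S.nc i (S.π x) hi g1 g2 (by omega)
          rw [S.π_inv, ← hq] at g4
          omega
        constructor <;> omega
      have hE1 := ih n2 (by omega) (q + 1) h0 (by omega) (by omega) hcl2
      rw [show q + 1 - 1 = q by ring] at hE1
      rw [hE1]
      by_contra hne
      obtain ⟨_, b2, _⟩ := hE.supp q hne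
      rw [hπq] at b2
      obtain ⟨c1, c2⟩ := hcl2 (q + 1) le_rfl (by omega)
      omega
  rw [hdecomp, Q_add, Q_add, Q_add, Q_one]
  have e1 : i + ((1 : ℕ) : ℤ) = i + 1 := by push_cast; ring
  have e2 : i + ((1 + n1 : ℕ) : ℤ) = q := by push_cast; omega
  have e3 : i + ((1 + n1 + 1 : ℕ) : ℤ) = q + 1 := by push_cast; omega
  rw [e1, e2, e3, Q_one, hout, mul_one]
  simp only [bl]
  rw [haq]
  calc E (i - 1) i * FreeGroup.mk [S.a i] * Q S E (i + 1) n1 * (E (q - 1) q * FreeGroup.mk [inv (S.a i)])
      = E (i - 1) i * FreeGroup.mk [S.a i] * (Q S E (i + 1) n1 * E (q - 1) q) * FreeGroup.mk [inv (S.a i)] := by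
        simp only [mul_assoc]
    _ = E (i - 1) i * (FreeGroup.mk [S.a i] * FreeGroup.mk [inv (S.a i)]) := by
        rw [hin, mul_one, mul_assoc]
    _ = E (i - 1) i := by rw [mk_inv_letter, mul_one]

/-- Product of `n + 1` letters starting at `i`, with insertions between them. -/
def W (S : Sys A) (E : ℤ → ℤ → FreeGroup A) (i : ℤ) (n : ℕ) : FreeGroup A :=
  FreeGroup.mk [S.a i] * Q S E (i + 1) n

theorem Q_eq_W (E : ℤ → ℤ → FreeGroup A) (i : ℤ) (n : ℕ) :
    Q S E i (n + 1) = E (i - 1) i * W S E i n := by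
  rw [add_comm n 1, Q_add, Q_one, bl, W, mul_assoc]
  congr 3

theorem W_succ (E : ℤ → ℤ → FreeGroup A) (i : ℤ) (n : ℕ) :
    W S E i (n + 1) = W S E i n * E (i + n) (i + n + 1) * FreeGroup.mk [S.a (i + n + 1)] := by
  simp only [W, Q, bl]
  rw [show i + 1 + (n : ℤ) = i + n + 1 by ring, show i + n + 1 - 1 = i + (n : ℤ) by ring]
  simp only [mul_assoc]

theorem W_succ' (E : ℤ → ℤ → FreeGroup A) (i : ℤ) (n : ℕ) :
    W S E i (n + 1) = FreeGroup.mk [S.a i] * E i (i + 1) * W S E (i + 1) n := by
  simp only [W]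
  rw [add_comm n 1, Q_add, Q_one, bl]
  rw [show i + 1 - 1 = i by ring]
  push_cast
  simp only [mul_assoc]

/-- The image of a factor under `f`: orientation-preserving case. -/
theorem W_f_pos {E : ℤ → ℤ → FreeGroup A} (i : ℤ) (n : ℕ)
    (h : ∀ j : ℤ, 0 ≤ j → j ≤ n → S.f (i + j) = S.f i + j)
    (ha : ∀ j : ℤ, 0 ≤ j → j ≤ n → S.a (S.f (i + j)) = S.a (i + j)) :
    W S E (S.f i) n = W S (fun l r => E (S.f l) (S.f r)) i n := by
  induction n with
  | zero =>
    have := ha 0 le_rfl (by simp)
    simp only [add_zero] at this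
    simp [W, Q, this]
  | succ n ih =>
    rw [W_succ, W_succ, ih (fun j h1 h2 => h j h1 (by push_cast; omega))
      (fun j h1 h2 => ha j h1 (by push_cast; omega))]
    have e1 := h n (by omega) (by push_cast; omega)
    have e2 := h (n + 1) (by omega) (by push_cast; omega)
    have e3 := ha (n + 1) (by omega) (by push_cast; omega)
    rw [show i + (n : ℤ) + 1 = i + (n + 1) by ring, e1, e2]
    rw [e2] at e3
    rw [show S.f i + (n : ℤ) + 1 = S.f i + (n + 1) by ring, e3]

/-- The image of a factor under `f`: orientation-reversing case. -/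
theorem W_f_neg {E : ℤ → ℤ → FreeGroup A} (hrev : ∀ l r, E r l = (E l r)⁻¹) (i : ℤ) (n : ℕ)
    (h : ∀ j : ℤ, 0 ≤ j → j ≤ n → S.f (i + j) = S.f i - j)
    (ha : ∀ j : ℤ, 0 ≤ j → j ≤ n → S.a (S.f (i + j)) = inv (S.a (i + j))) :
    W S E (S.f i - n) n = (W S (fun l r => E (S.f l) (S.f r)) i n)⁻¹ := by
  have hinv : ∀ p : A × Bool, FreeGroup.mk [inv p] = (FreeGroup.mk [p])⁻¹ := by
    intro p; rw [inv_mk]; simp [invRev, inv]
  induction n with
  | zero =>
    have := ha 0 le_rfl (by simp)
    simp only [add_zero] at this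
    simp [W, Q, this, hinv]
  | succ n ih =>
    have e1 := h n (by omega) (by push_cast; omega)
    have e2 := h (n + 1) (by omega) (by push_cast; omega)
    have e3 := ha (n + 1) (by omega) (by push_cast; omega)
    rw [e2] at e3
    rw [W_succ', W_succ]
    simp only [mul_inv_rev]
    rw [← ih (fun j h1 h2 => h j h1 (by push_cast; omega))
      (fun j h1 h2 => ha j h1 (by push_cast; omega))]
    push_cast
    rw [show i + (n : ℤ) + 1 = i + (n + 1) by ring, e1, e2, e3,
      show S.f i - ((n : ℤ) + 1) + 1 = S.f i - n by ring, hinv,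
      hrev (S.f i - n) (S.f i - (n + 1))]
    simp only [mul_assoc]

end Sys

end Pool.H43.Quad
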