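import Pool.Agent.H43.Quad.Mon

/-!
# Rational subsets of free groups and their labels
-/

namespace Pool.H43.Quad

open FreeGroup

/-- Binary relations on `Q` as a monoid under composition. -/
def RelM (Q : Type*) := Q → Q → Prop

instance (Q : Type*) : Monoid (RelM Q) where
  mul r s := fun a c => ∃ b, r a b ∧ s b c
  one := fun a b => a = b
  mul_assoc r s t := by
    funext a d
    apply propext
    constructor
    · rintro ⟨c, ⟨b, h1, h2⟩, h3⟩
      exact ⟨b, h1, c, h2, h3⟩
    · rintro ⟨b, h1, c, h2, h3⟩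
      exact ⟨c, ⟨b, h1, h2⟩, h3⟩
  one_mul r := by
    funext a b
    apply propext
    constructor
    · rintro ⟨c, h1, h2⟩
      cases h1
      exact h2
    · intro h
      exact ⟨a, rfl, h⟩
  mul_one r := by
    funext a b
    apply propext
    constructor
    · rintro ⟨c, h1, h2⟩
      cases h2
      exact h1
    · intro h
      exact ⟨b, h, rfl⟩

instance (Q : Type*) [Finite Q] : Finite (RelM Q) := inferInstanceAs (Finite (Q → Q → Prop))

theorem RelM.mul_def {Q : Type*} (r s : RelM Q) : r * s = fun a c => ∃ b, r a b ∧ s b c := rfl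

variable {A : Type*}

/-- The relation on the states of `D` induced by all words representing the group element `g`. -/
def rel {Q : Type*} (D : DFA (A × Bool) Q) (g : FreeGroup A) : RelM Q :=
  fun p q => ∃ w, mk w = g ∧ D.evalFrom p w = q

theorem red_of_isReduced {w u : List (A × Bool)} (h : mk w = mk u) (hu : IsReduced u) :
    Red w u := by
  obtain ⟨v, h1, h2⟩ := Red.exact.mp h
  rwa [(IsReduced.red_iff_eq hu).mp h2] at h1

theorem rel_mul {Q : Type*} (D : DFA (A × Bool) Q) {u v : List (A × Bool)}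
    (h : IsReduced (u ++ v)) : rel D (mk (u ++ v)) = rel D (mk u) * rel D (mk v) := by
  rw [RelM.mul_def]
  funext p q
  apply propext
  constructor
  · rintro ⟨w, hw, he⟩
    obtain ⟨w1, w2, rfl, h1, h2⟩ := Red.to_append_iff.mp (red_of_isReduced hw h)
    refine ⟨D.evalFrom p w1, ⟨w1, Red.exact.mpr ⟨u, h1, Red.refl⟩, rfl⟩,
      ⟨w2, Red.exact.mpr ⟨v, h2, Red.refl⟩, ?_⟩⟩
    rw [← DFA.evalFrom_of_append, he]
  · rintro ⟨r, ⟨w1, h1, e1⟩, ⟨w2, h2, e2⟩⟩
    refine ⟨w1 ++ w2, ?_, ?_⟩
    · rw [← mul_mk, h1, h2, mul_mk]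
    · rw [DFA.evalFrom_of_append, e1, e2]

theorem isReduced_invRev {u : List (A × Bool)} (h : IsReduced u) : IsReduced (invRev u) := by
  rw [isReduced_iff_not_step] at h ⊢
  intro v hv
  have := hv.invRev
  rw [invRev_invRev] at this
  exact h _ this

/-- The label of a word with respect to a family of automata. -/
def labM (Ω : Type*) (Q : Ω → Type*) := (∀ X, RelM (Q X)) × (∀ X, RelM (Q X))ᵐᵒᵖ

instance (Ω : Type*) (Q : Ω → Type*) : Monoid (labM Ω Q) :=
  inferInstanceAs (Monoid ((∀ X, RelM (Q X)) × (∀ X, RelM (Q X))ᵐᵒᵖ))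

instance (Ω : Type*) (Q : Ω → Type*) [Finite Ω] [∀ X, Finite (Q X)] : Finite (labM Ω Q) := by
  have : Finite (∀ X, RelM (Q X))ᵐᵒᵖ := Finite.of_equiv _ MulOpposite.opEquiv
  exact inferInstanceAs (Finite ((∀ X, RelM (Q X)) × (∀ X, RelM (Q X))ᵐᵒᵖ))

/-- The labelling associated with a family of automata. -/
def autLab {Ω : Type*} {Q : Ω → Type*} (D : ∀ X, DFA (A × Bool) (Q X)) :
    Lab A (labM Ω Q) where
  μ u := (fun X => rel (D X) (mk u), MulOpposite.op fun X => rel (D X) (mk u)⁻¹)
  st x := (x.2.unop, MulOpposite.op x.1)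
  μ_append u v h := by
    refine Prod.ext ?_ ?_
    · funext X
      exact rel_mul (D X) h
    · apply MulOpposite.unop_injective
      funext X
      have h2 : IsReduced (invRev v ++ invRev u) := by
        rw [← invRev_append]; exact isReduced_invRev h
      have h3 := rel_mul (D X) h2
      rw [← invRev_append, ← inv_mk, ← inv_mk, ← inv_mk] at h3
      exact h3
  μ_inv u := by
    refine Prod.ext ?_ ?_
    · funext X
      change rel (D X) (mk (invRev u)) = rel (D X) (mk u)⁻¹
      rw [inv_mk]
    · apply MulOpposite.unop_injective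
      funext X
      change rel (D X) (mk (invRev u))⁻¹ = rel (D X) (mk u)
      rw [← inv_mk, inv_inv]
  st_mul x y := rfl
  st_st x := rfl

end Pool.H43.Quad
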