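import Pool.Agent.H43.Quad.Spec
import Pool.Agent.H43.Quad.Rat

/-!
# The outcome of pumping a cancellation system
-/

namespace Pool.H43.Quad

open FreeGroup

namespace Sys

variable {A : Type*} [DecidableEq A]

/-- Insertions that keep the cancellation structure, commute with the occurrence swap `f` on
factors (one factor of the pair of `x0` is exempt), keep labels and reducedness, and create an
`e`-th power in the factor containing `x0`. -/
def PumpResult (S : Sys A) {N : Type*} [Monoid N] (L : Lab A N) (x0 : ℤ) (e : ℕ) : Prop :=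
  ∃ E : ℤ → ℤ → FreeGroup A, InsFn S E ∧
    (∀ i len, MF S i len → ¬ (i ≤ S.f x0 ∧ S.f x0 ≤ i + len) →
      W S (fun l r => E (S.f l) (S.f r)) i len = W S E i len) ∧
    (∀ i len, MF S i len → IsReduced (lw S E i len) ∧
      L.μ (lw S E i len) = L.μ (pl S i (len + 1))) ∧
    (∀ i len, MF S i len → i ≤ x0 → x0 ≤ i + len → ∃ p, p ≠ [] ∧ rep e p <:+: lw S E i len)

end Sys

end Pool.H43.Quad
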