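import Pool.Agent.H43.Quad.RegionPump

/-!
# Every large region of constant rank can be pumped: main theorem
-/

namespace Pool.H43.Quad

open FreeGroup

namespace Sys

theorem sn_mono (C K : ℕ) {P P' : ℕ} (h : P ≤ P') : sn C K P ≤ sn C K P' := by
  have h0 : sn0 K P ≤ sn0 K P' := by
    unfold sn0
    exact Nat.mul_le_mul_left _ (Nat.mul_le_mul_right _ (Nat.mul_le_mul_left _ h))
  have h1 : sd C K P ≤ sd C K P' := by
    unfold sd
    exact Nat.mul_le_mul_right _ (Nat.mul_le_mul_right _ (Nat.mul_le_mul_left _ h0))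
  unfold sn
  exact Nat.mul_le_mul h0 (by omega)

theorem le_sP (C K P : ℕ) (hC : 1 ≤ C) (hK : 1 ≤ K) : P ≤ sP C K P := by
  have h0 : P ≤ sn0 K P := by unfold sn0; nlinarith
  have h1 : sn0 K P ≤ sn C K P := by unfold sn; nlinarith
  have h2 : sn C K P ≤ sP C K P := by unfold sP; nlinarith
  omega

/-- The scale constants of the successive stages. -/
def sc (C K : ℕ) : ℕ → ℕ
  | 0 => 16
  | s + 1 => 2 * sP C K (sc C K s)

theorem region_pump {A : Type*} [DecidableEq A] [Finite A] {N : Type*} [Monoid N] [Finite N]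
    (L : Lab A N) (B K : ℕ) :
    ∃ c : ℕ, 1 ≤ c ∧ ∀ (S : Sys A) (z0 z1 : ℤ) (m0 ρ : ℕ), Reg S L z0 z1 m0 ρ → S.Bd.card ≤ B →
      (c * (m0 + 1) : ℤ) ≤ z1 - z0 → S.M ≤ K * (z1 - z0) →
      ∃ x0, z0 ≤ x0 ∧ x0 < z1 ∧ ∀ e, PumpResult S L x0 e := by
  classical
  set C := 5 * B + 4 with hCdef
  set K0 := Nat.card (N × N × (A × Bool) × (A × Bool)) with hK0
  set P : ℕ → ℕ := sc C K with hPdef
  set U := ∑ s ∈ Finset.range 4, (sd C K (P s) + sP C K (P s)) with hU
  refine ⟨U * (10 * K0 + 38) + 300, by omega, ?_⟩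
  intro S z0 z1 m0 ρ hR hBd hlen0 hM
  set μ0 := m0 + 10 * K0 + 30 with hμ0
  set N0 := (∑ s ∈ Finset.range 4, (sd C K (P s) * (μ0 + 8) + sP C K (P s) * (μ0 + 8))) +
    16 * (m0 + 10) + 100 with hN0
  have hlen : (N0 : ℤ) ≤ z1 - z0 := by
    refine le_trans ?_ hlen0
    have h1 : N0 = U * (μ0 + 8) + 16 * (m0 + 10) + 100 := by
      rw [hN0, hU, Finset.sum_mul]
      congr 2
      apply Finset.sum_congr rfl
      intro s _
      ring
    have h2 : U * (μ0 + 8) ≤ U * ((10 * K0 + 38) * (m0 + 1)) := by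
      apply Nat.mul_le_mul_left
      nlinarith
    have h3 : N0 ≤ (U * (10 * K0 + 38) + 300) * (m0 + 1) := by
      rw [h1, add_mul, mul_assoc]
      omega
    exact_mod_cast h3
  by_contra hcon
  push Not at hcon
  have hcon' : ∀ x0, z0 ≤ x0 → x0 < z1 → ¬ ∀ e, PumpResult S L x0 e := by
    intro x0 h1 h2 h3
    obtain ⟨e, he⟩ := hcon x0 h1 h2
    exact he (h3 e)
  obtain ⟨NN, hNN⟩ : ∃ NN : ℕ, (NN : ℤ) = z1 - z0 := ⟨(z1 - z0).toNat, by omega⟩
  have hz0 := hR.nonneg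
  have hz1 := hR.le_M
  have hN0N : N0 ≤ NN := by omega
  have hK : 1 ≤ K := by
    by_contra hc
    have : K = 0 := by omega
    rw [this] at hM
    push_cast at hM
    omega
  have hC1 : 1 ≤ C := by omega
  have hns : ((Finset.Ico (-1) S.M).filter (fun y => ¬ S.NS y)).card ≤ C :=
    (S.ns_count).trans (by omega)
  have hPpos : ∀ s, 1 ≤ P s := by
    intro s
    induction s with
    | zero => simp [hPdef, sc]
    | succ s ih =>
      have := le_sP C K (P s) hC1 hK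
      simp only [hPdef, sc] at this ih ⊢
      omega
  have hPmono : ∀ s, P s ≤ P (s + 1) := by
    intro s
    have := le_sP C K (P s) hC1 hK
    simp only [hPdef, sc] at this ⊢
    omega
  have hbound : ∀ s < 4, sd C K (P s) * (μ0 + 8) + sP C K (P s) * (μ0 + 8) ≤ NN := by
    intro s hs
    have h1 := Finset.single_le_sum (f := fun s => sd C K (P s) * (μ0 + 8) +
      sP C K (P s) * (μ0 + 8)) (fun i _ => Nat.zero_le _) (Finset.mem_range.mpr hs)
    omega
  -- scales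
  obtain ⟨Δ, hΔ0, hΔs⟩ : ∃ Δ : ℕ → ℕ, Δ 0 = NN / 8 ∧ ∀ s, Δ (s + 1) = NN / sP C K (P s) :=
    ⟨fun s => match s with
      | 0 => NN / 8
      | s + 1 => NN / sP C K (P s), rfl, fun _ => rfl⟩
  have hsPpos : ∀ s, 1 ≤ sP C K (P s) := fun s =>
    (hPpos s).trans (le_sP C K (P s) hC1 hK)
  have hΔP : ∀ s ≤ 4, NN ≤ P s * Δ s := by
    intro s hs
    cases s with
    | zero => rw [hΔ0]; simp only [hPdef, sc]; omega
    | succ s =>
      have h1 := hbound s (by omega)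
      have h2 : sP C K (P s) * 1 ≤ sP C K (P s) * (μ0 + 8) := Nat.mul_le_mul_left _ (by omega)
      have h3 := Nat.lt_div_mul_add (a := NN) (b := sP C K (P s)) (hsPpos s)
      have h4 : 1 ≤ NN / sP C K (P s) := by
        rw [Nat.le_div_iff_mul_le (hsPpos s)]; omega
      rw [hΔs]
      change NN ≤ 2 * sP C K (P s) * (NN / sP C K (P s))
      nlinarith
  have hΔN : ∀ s, Δ s ≤ NN := by
    intro s
    cases s with
    | zero => rw [hΔ0]; omega
    | succ s => rw [hΔs]; exact Nat.div_le_self _ _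
  have hΔμ : ∀ s < 4, μ0 ≤ Δ (s + 1) := by
    intro s hs
    rw [hΔs, Nat.le_div_iff_mul_le (hsPpos s)]
    have h1 := hbound s hs
    nlinarith
  have hΔ8 : ∀ s, Δ (s + 1) ≤ NN / 8 := by
    intro s
    rw [hΔs]
    refine Nat.div_le_div_left ?_ (by omega)
    have h1 := le_sP C K (P s) hC1 hK
    have h2 : 16 ≤ P s := by
      clear h1
      induction s with
      | zero => simp [hPdef, sc]
      | succ s ih => exact ih.trans (hPmono s)
    omega
  -- the middle half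
  set a := z0 + (NN / 4 : ℕ) with ha
  set b := z1 - (NN / 4 : ℕ) with hb
  have hcr : S.NoCR a b μ0 (NN / 8) := by
    intro x hx1 hx2 k hk mu hmu1 hmu2 hs
    by_contra hc
    push Not at hc
    obtain ⟨x0, h1, h2, h3⟩ := close_return (L := L) hR (x := x) (K0 := K0) le_rfl
      (show m0 + 1 ≤ mu by omega) (by omega) (by omega) (by omega) hk hs hc
    exact hcon' x0 h1 h2 h3
  set T : ℕ → ℕ := fun s => sn C K (P s) with hT
  set bad : ℕ → Finset ℤ := fun s => (Finset.Ico a b).filter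
    (fun x => ¬ S.StageGood x (T s) (Δ s) (Δ (s + 1))) with hbad
  have hbadc : ∀ s < 4, 16 * (bad s).card ≤ NN := by
    intro s hs
    have h1 := hbound s hs
    have h2 : sP C K (P s) * 1 ≤ sP C K (P s) * (μ0 + 8) := Nat.mul_le_mul_left _ (by omega)
    have := stage S C K (P s) hC1 hK (hPpos s) hns NN (by rw [hNN]; exact hM) a b (by omega)
      (by omega) (by omega) μ0 (by omega) (by omega) (by omega) hcr (Δ s) (hΔP s (by omega))
      (hΔN s)
    simp only [hbad]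
    rw [hΔs]
    exact this
  obtain ⟨x, hxm, hxg⟩ : ∃ x ∈ Finset.Ico a b, ∀ s < 4, S.StageGood x (T s) (Δ s) (Δ (s + 1)) := by
    by_contra hno
    push Not at hno
    have hcov : Finset.Ico a b ⊆ (Finset.range 4).biUnion bad := by
      intro x hx
      obtain ⟨s, hs, hbd⟩ := hno x hx
      rw [Finset.mem_biUnion]
      exact ⟨s, Finset.mem_range.mpr hs, Finset.mem_filter.mpr ⟨hx, hbd⟩⟩
    have h1 := (Finset.card_le_card hcov).trans Finset.card_biUnion_le
    rw [Int.card_Ico] at h1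
    have h2 : ∑ s ∈ Finset.range 4, (bad s).card ≤ ∑ s ∈ Finset.range 4, NN / 16 := by
      apply Finset.sum_le_sum
      intro s hs
      have := hbadc s (Finset.mem_range.mp hs)
      omega
    rw [Finset.sum_const, Finset.card_range, smul_eq_mul] at h2
    omega
  rw [Finset.mem_Ico] at hxm
  obtain ⟨hxa, hxb⟩ := hxm
  have hx0 : 0 ≤ x := by omega
  have hxM : x < S.M := by omega
  have hxz : z0 ≤ x ∧ x < z1 := by omega
  have hTmono : ∀ s, T s ≤ T (s + 1) := fun s => sn_mono C K (hPmono s)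
  -- farness
  have hfar : ∀ s < 4, ∀ k, 1 ≤ k → k ≤ T s → ∀ v, (Δ (s + 1) : ℤ) < |S.yy x k v - x| := by
    intro s hs k hk1 hk2 v
    exact far_of_noCR hcr ⟨hxa, hxb⟩ hx0 hxM (hΔμ s hs) (hΔ8 s) (hxg s hs).1 k hk1 hk2 v
  have hgy : ∀ k v, S.gp x k v = S.yy x k v ∨ S.gp x k v = S.yy x k v + 1 := by
    intro k v
    simp only [gp]
    split_ifs <;> simp
  have hμ3 := hΔμ 3 (by omega)
  have hB : Base S L z0 z1 m0 ρ x (T 3) (NN / 8) := by
    refine ⟨hR, by omega, by omega, (hxg 3 (by omega)).1.mono (by omega) le_rfl, ?_,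
      hcon' x hxz.1 hxz.2⟩
    intro k hk1 hk2 v
    have := hfar 3 (by omega) k hk1 hk2 v
    push_cast
    omega
  have F1 : ∀ k v, 1 ≤ k → k ≤ T 3 → S.gp x k v - x ≠ 0 := by
    intro k v hk1 hk2
    have h1 := hfar 3 (by omega) k hk1 hk2 v
    rw [lt_abs] at h1
    rcases hgy k v with h | h <;> rw [h] <;> omega
  have F0 : ∀ k, 1 ≤ k → k ≤ T 3 →
      ¬ (|S.gp x k false - x| ≤ (NN / 8 : ℕ) ∧ |S.gp x k true - x| ≤ (NN / 8 : ℕ)) := by
    rintro k hk1 hk2 ⟨h1, h2⟩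
    rw [abs_le] at h1 h2
    exact hR.other hx0 hxM (k := k) (v := false) (by omega) (by simp only [Bool.not_false]; omega)
  have T01 := hTmono 0
  have T12 := hTmono 1
  have T23 := hTmono 2
  simp only [Nat.reduceAdd] at T01 T12 T23
  have hstage : ∀ s < 4, (∃ k, 1 ≤ k ∧ k ≤ T s ∧ -(Δ s : ℤ) < S.gp x k false - x ∧
      S.gp x k false - x < 0) ∧ (∃ k, 1 ≤ k ∧ k ≤ T s ∧ 0 < S.gp x k false - x ∧
      S.gp x k false - x ≤ (Δ s : ℤ)) := by
    intro s hs
    obtain ⟨_, ⟨k, c1, c2, c3, c4⟩, ⟨k', d1, d2, d3, d4⟩⟩ := hxg s hs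
    have hTs : T s ≤ T 3 := by
      have : s = 0 ∨ s = 1 ∨ s = 2 ∨ s = 3 := by omega
      rcases this with rfl | rfl | rfl | rfl <;> omega
    constructor
    · refine ⟨k, c1, by omega, ?_, ?_⟩
      · rcases hgy k false with h | h <;> rw [h] <;> simp only [yy, cond_false] <;> omega
      · have h1 := F1 k false c1 (by omega)
        rcases hgy k false with h | h <;> rw [h] at h1 ⊢ <;>
          simp only [yy, cond_false] at h1 ⊢ <;> omega
    · refine ⟨k', d1, by omega, ?_, ?_⟩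
      · rcases hgy k' false with h | h <;> rw [h] <;> simp only [yy, cond_false] <;> omega
      · rcases hgy k' false with h | h <;> rw [h] <;> simp only [yy, cond_false] <;> omega
  have hfq : ∀ s < 4, ∀ k v, 1 ≤ k → k ≤ T s →
      (S.gp x k v - x < 0 → S.gp x k v - x ≤ -(Δ (s + 1) : ℤ)) ∧
      (0 < S.gp x k v - x → (Δ (s + 1) : ℤ) < S.gp x k v - x) := by
    intro s hs k v hk1 hk2
    have h1 := hfar s hs k hk1 hk2 v
    rw [lt_abs] at h1
    have h2 := hΔμ s hs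
    constructor
    · intro h3
      rcases hgy k v with h | h <;> rw [h] at h3 ⊢ <;> omega
    · intro h3
      rcases hgy k v with h | h <;> rw [h] at h3 ⊢ <;> omega
  have hcl : ∀ s < 3, (∃ k v, 1 ≤ k ∧ k ≤ T (s + 1) ∧ S.gp x k v - x < 0 ∧
        ∀ k' v', 1 ≤ k' → k' ≤ T s → S.gp x k' v' - x < 0 →
          S.gp x k' v' - x < S.gp x k v - x) ∧
      (∃ k v, 1 ≤ k ∧ k ≤ T (s + 1) ∧ 0 < S.gp x k v - x ∧
        ∀ k' v', 1 ≤ k' → k' ≤ T s → 0 < S.gp x k' v' - x →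
          S.gp x k v - x < S.gp x k' v' - x) := by
    intro s hs
    obtain ⟨⟨k, c1, c2, c3, c4⟩, ⟨k', d1, d2, d3, d4⟩⟩ := hstage (s + 1) (by omega)
    constructor
    · refine ⟨k, false, c1, c2, c4, ?_⟩
      intro k'' v'' e1 e2 e3
      have := (hfq s (by omega) k'' v'' e1 e2).1 e3
      omega
    · refine ⟨k', false, d1, d2, d3, ?_⟩
      intro k'' v'' e1 e2 e3
      have := (hfq s (by omega) k'' v'' e1 e2).2 e3
      omega
  obtain ⟨σ, hσ, i1, v1, i2, v2, k1, w1, i3, v3, k2, w2, i4, v4, k3, w3, E1, E2, E3, hk1, hk2,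
    hk3, wi1, wi2, wi3, wi4⟩ := chain3 (q := fun k v => S.gp x k v - x) T01 T12 T23
      (ω := ((NN / 8 : ℕ) : ℤ)) F0 F1
      (by
        obtain ⟨⟨k, c1, c2, c3, c4⟩, _⟩ := hstage 0 (by omega)
        exact ⟨k, false, c1, c2, by rw [← hΔ0]; exact c3.le, c4⟩)
      (by
        obtain ⟨_, ⟨k, c1, c2, c3, c4⟩⟩ := hstage 0 (by omega)
        exact ⟨k, false, c1, c2, c3, by rw [← hΔ0]; exact c4⟩)
      (by
        rintro T' T'' (⟨h1, h2⟩ | ⟨h1, h2⟩ | ⟨h1, h2⟩)
        · rw [h1, h2]; exact hcl 0 (by omega)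
        · rw [h1, h2]; exact hcl 1 (by omega)
        · rw [h1, h2]; exact hcl 2 (by omega))
  have hσ' : -σ = 1 ∨ -σ = -1 := by rcases hσ with rfl | rfl <;> simp
  obtain ⟨a1, a2, a3⟩ := hB.types hσ E1 hk1 wi1 wi2
  obtain ⟨b1, b2, b3⟩ := hB.types hσ' E2 hk2 wi2 wi3
  obtain ⟨c1, c2, c3⟩ := hB.types hσ E3 hk3 wi3 wi4
  have o1 := S.oo_pm x i1 v1
  have o2 := S.oo_pm x i2 v2
  have o3 := S.oo_pm x i3 v3
  subst a1; subst b1; subst c1
  rcases o1 with o1 | o1 <;> rcases o2 with o2 | o2 <;> rcases o3 with o3 | o3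
  · exact a2 ⟨rfl, by rw [o1, o2]⟩
  · exact a2 ⟨rfl, by rw [o1, o2]⟩
  · exact b3 ⟨o2, rfl, o3⟩
  · exact b2 ⟨rfl, by rw [o2, o3]⟩
  · exact a3 ⟨o1, rfl, o2⟩
  · exact a3 ⟨o1, rfl, o2⟩
  · exact a2 ⟨rfl, by rw [o1, o2]⟩
  · exact a2 ⟨rfl, by rw [o1, o2]⟩

theorem rk_sub {A : Type*} {N : Type*} [Monoid N] [Finite N] (L : Lab A N) (S : Sys A)
    {i j : ℤ} {n k : ℕ} (hred : IsReduced (pl S i n)) (h1 : i ≤ j) (h2 : j + k ≤ i + n) :
    rk (L.μ (pl S i n)) ≤ rk (L.μ (pl S j k)) := by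
  obtain ⟨d, rfl⟩ : ∃ d : ℕ, j = i + d := ⟨(j - i).toNat, by omega⟩
  obtain ⟨d', hd'⟩ : ∃ d' : ℕ, n = d + (k + d') := ⟨n - d - k, by omega⟩
  have e : pl S i n = pl S i d ++ (pl S (i + d) k ++ pl S (i + d + k) d') := by
    rw [hd', pl_append, pl_append]
  rw [e] at hred ⊢
  have h3 : IsReduced (pl S (i + d) k ++ pl S (i + d + k) d') := isRed_sub hred ⟨pl S i d, [], by simp⟩
  rw [L.μ_append _ _ hred, L.μ_append _ _ h3, ← mul_assoc]
  exact rk_le rfl

theorem descent {A : Type*} [DecidableEq A] [Finite A] {N : Type*} [Monoid N] [Finite N]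
    (L : Lab A N) (B : ℕ) : ∀ (t K : ℕ), ∃ N1 : ℕ, ∀ (S : Sys A) (z0 : ℤ) (n : ℕ), 0 ≤ z0 →
      z0 + n ≤ S.M → (∀ s, z0 ≤ s → s + 1 < z0 + n → S.inner s) → S.Bd.card ≤ B → N1 ≤ n →
      S.M ≤ K * n → Nat.card N ≤ rk (L.μ (pl S z0 n)) + t →
      ∃ x0, z0 ≤ x0 ∧ x0 < z0 + n ∧ ∀ e, PumpResult S L x0 e := by
  intro t
  induction t with
  | zero =>
    intro K
    obtain ⟨c, hc1, hc⟩ := region_pump L B K
    refine ⟨2 * c, ?_⟩
    intro S z0 n h0 hM hin hB hN hMK hrk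
    have hred : IsReduced (pl S z0 n) := pl_isReduced z0 n hin
    refine hc S z0 (z0 + n) 1 (rk (L.μ (pl S z0 n))) ⟨le_rfl, h0, hM, hin, ?_⟩ hB ?_ ?_
    · intro i k h1 h2 _
      have h3 := rk_sub L S hred h1 h2
      have h4 := rk_le_card (L.μ (pl S i k))
      omega
    · push_cast; omega
    · rw [show z0 + (n : ℤ) - z0 = n by ring]; exact hMK
  | succ t ih =>
    intro K
    obtain ⟨c, hc1, hc⟩ := region_pump L B K
    obtain ⟨N1, hN1⟩ := ih (K * (4 * c))
    refine ⟨2 * c * (N1 + 1), ?_⟩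
    intro S z0 n h0 hM hin hB hN hMK hrk
    have hred : IsReduced (pl S z0 n) := pl_isReduced z0 n hin
    set m0 := n / (2 * c) with hm0
    have hm1 : N1 + 1 ≤ m0 := by
      rw [hm0, Nat.le_div_iff_mul_le (by omega)]
      linarith [mul_comm (N1 + 1) (2 * c)]
    have hm2 : m0 * (2 * c) ≤ n := Nat.div_mul_le_self _ _
    have hm3 : n ≤ 4 * c * m0 := by
      have := Nat.lt_div_mul_add (a := n) (b := 2 * c) (by omega)
      rw [← hm0] at this
      nlinarith
    by_cases hA : ∃ i : ℤ, z0 ≤ i ∧ i + m0 ≤ z0 + n ∧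
        rk (L.μ (pl S z0 n)) < rk (L.μ (pl S i m0))
    · obtain ⟨i, hi1, hi2, hi3⟩ := hA
      obtain ⟨x0, hx1, hx2, hx3⟩ := hN1 S i m0 (by omega) (by omega)
        (fun s h1 h2 => hin s (by omega) (by omega)) hB (by omega)
        (by
          refine hMK.trans ?_
          push_cast
          have : (n : ℤ) ≤ 4 * c * m0 := by exact_mod_cast hm3
          calc (K : ℤ) * n ≤ K * (4 * c * m0) := mul_le_mul_of_nonneg_left this (by positivity)
            _ = K * (4 * c) * m0 := by ring) (by omega)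
      exact ⟨x0, by omega, by omega, hx3⟩
    · push Not at hA
      refine hc S z0 (z0 + n) m0 (rk (L.μ (pl S z0 n))) ⟨by omega, h0, hM, hin, ?_⟩ hB ?_ ?_
      · intro i k h1 h2 h3
        have h4 := rk_sub L S hred h1 h2
        have h5 := rk_sub L S (i := i) (j := i) (n := k) (k := m0)
          (pl_isReduced i k (fun s h1 h2 => hin s (by omega) (by omega))) le_rfl (by omega)
        have h6 := hA i h1 (by omega)
        omega
      · have : c * (m0 + 1) ≤ n := by nlinarith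
        have : ((c * (m0 + 1) : ℕ) : ℤ) ≤ n := by exact_mod_cast this
        push_cast at this
        linarith
      · rw [show z0 + (n : ℤ) - z0 = n by ring]; exact hMK

/-- Every system with a long factor can be pumped there. -/
theorem factor_pump {A : Type*} [DecidableEq A] [Finite A] {N : Type*} [Monoid N] [Finite N]
    (L : Lab A N) (B K : ℕ) : ∃ N1 : ℕ, ∀ (S : Sys A) (i : ℤ) (len : ℕ), MF S i len →
      S.Bd.card ≤ B → N1 ≤ len → S.M ≤ K * (len + 1) →
      ∃ x0, i ≤ x0 ∧ x0 ≤ i + len ∧ ∀ e, PumpResult S L x0 e := by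
  obtain ⟨N1, hN1⟩ := descent L B (Nat.card N) K
  refine ⟨N1, ?_⟩
  intro S i len hF hB hN hMK
  obtain ⟨x0, h1, h2, h3⟩ := hN1 S i (len + 1) hF.i0 (by have := hF.i1; push_cast; omega)
    (fun s h1 h2 => hF.inn s h1 (by push_cast at h2; omega)) hB (by omega)
    (by push_cast; exact hMK) (by omega)
  exact ⟨x0, h1, by push_cast at h2; omega, h3⟩

end Sys

end Pool.H43.Quad
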