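import Pool.Agent.H43.Quad.BuildAssemble
import Pool.Agent.H43.Quad.RegionMain
import Pool.Agent.H43.Quad.Rat

/-!
# Pumping a single free variable, and membership by labels
-/

namespace Pool.H43.Quad

open FreeGroup

section

variable {A : Type*} [DecidableEq A]

omit [DecidableEq A] in
theorem isRed_join {t s : List (A × Bool)} {q : A × Bool} (h1 : IsReduced (t ++ [q]))
    (h2 : IsReduced s) (hs : s.head? = some q) : IsReduced (t ++ s) := by
  cases s with
  | nil => simp at hs
  | cons a s =>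
    simp only [List.head?_cons, Option.some.injEq] at hs
    subst hs
    have := IsReduced.append_overlap h1 (by simpa using h2 : IsReduced ([a] ++ s)) (by simp)
    simpa using this

theorem pump_word [Finite A] {N : Type*} [Monoid N] [Finite N] (L : Lab A N) :
    ∃ D0 : ℕ, ∀ u : List (A × Bool), IsReduced u → D0 ≤ u.length → ∀ e : ℕ,
      ∃ v, IsReduced v ∧ L.μ v = L.μ u ∧ ∃ p, p ≠ [] ∧ rep e p <:+: v := by
  refine ⟨Nat.card (N × (A × Bool)) + 2, ?_⟩
  intro u hu hlen e
  set K := Nat.card (N × (A × Bool)) with hK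
  have hlt : ∀ i : Fin (K + 1), (i : ℕ) < u.length := fun i => by have := i.2; omega
  let cls : Fin (K + 1) → N × (A × Bool) := fun i => (L.μ (u.drop i), u[(i : ℕ)]'(hlt i))
  have hni : ¬ Function.Injective cls := by
    intro hinj
    have := Nat.card_le_card_of_injective cls hinj
    rw [Nat.card_fin] at this
    omega
  obtain ⟨i, j, hij', hi, hj, q1, q2⟩ : ∃ (i j : ℕ), i < j ∧ ∃ (hi : i < u.length)
      (hj : j < u.length), L.μ (u.drop i) = L.μ (u.drop j) ∧ u[i] = u[j] := by
    simp only [Function.Injective, not_forall] at hni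
    obtain ⟨i, j, h1, h2⟩ := hni
    simp only [cls, Prod.mk.injEq] at h1
    rcases lt_or_gt_of_ne h2 with h3 | h3
    · exact ⟨i, j, h3, hlt i, hlt j, h1.1, h1.2⟩
    · exact ⟨j, i, h3, hlt j, hlt i, h1.1.symm, h1.2.symm⟩
  set r := (u.drop i).take (j - i) with hr
  set c := u.drop j with hc
  have hrc : r ++ c = u.drop i := by
    rw [hr, hc]
    have : u.drop j = (u.drop i).drop (j - i) := by rw [List.drop_drop]; congr 1; omega
    rw [this, List.take_append_drop]
  have hu3 : u = u.take i ++ (r ++ c) := by rw [hrc, List.take_append_drop]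
  have hdi : u.drop i = u[i] :: u.drop (i + 1) := (List.getElem_cons_drop (h := hi)).symm
  have hdj : c = u[j] :: u.drop (j + 1) := (List.getElem_cons_drop (h := hj)).symm
  have hrh : r = u[i] :: (u.drop (i + 1)).take (j - i - 1) := by
    rw [hr, hdi]
    obtain ⟨d, hd⟩ : ∃ d, j - i = d + 1 := ⟨j - i - 1, by omega⟩
    rw [hd, List.take_succ_cons, Nat.add_sub_cancel]
  have hrne : r ≠ [] := by rw [hrh]; simp
  have hrcred : IsReduced (r ++ c) := by
    rw [hrc]
    exact isRed_sub hu ⟨u.take i, [], by simp⟩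
  have hrq : IsReduced (r ++ [u[j]]) := by
    rw [hdj] at hrcred
    exact isRed_sub hrcred ⟨[], u.drop (j + 1), by simp⟩
  have hrr : IsReduced (r ++ r) := by
    refine isRed_join hrq (isRed_sub hrcred ⟨[], c, by simp⟩) ?_
    rw [hrh, ← q2]; rfl
  have hh : r.head? = c.head? := by
    rw [hrh, hdj, ← q2]; rfl
  have hμ : L.μ (r ++ c) = L.μ c := by rw [hrc, q1]
  obtain ⟨⟨g1, g2, g3⟩, g4⟩ := per_gd L hrne hrr hrcred hμ hh e
  rw [toWord_mk_of_isReduced g4] at g1 g2 g3
  have htq : IsReduced (u.take i ++ [u[i]]) := by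
    rw [hu3, hrh] at hu
    exact isRed_sub hu ⟨[], (u.drop (i + 1)).take (j - i - 1) ++ c, by
      rw [List.nil_append, List.append_assoc, List.singleton_append, List.cons_append]⟩
  have hv : IsReduced (u.take i ++ (rep e r ++ c)) := by
    refine isRed_join htq g1 ?_
    rw [g3, hdj, q2]; rfl
  refine ⟨u.take i ++ (rep e r ++ c), hv, ?_, r, hrne, ⟨u.take i, c, by simp⟩⟩
  rw [L.μ_append _ _ hv, g2]
  conv_rhs => rw [hu3]
  rw [L.μ_append _ _ (by rw [← hu3]; exact hu), hμ]

omit [DecidableEq A] in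
/-- Membership in a rational set is determined by the label. -/
theorem mem_of_label {Ω : Type*} {Q : Ω → Type*} (D : ∀ X, DFA (A × Bool) (Q X))
    {u v : List (A × Bool)} (h : (autLab D).μ u = (autLab D).μ v) (X : Ω)
    (hv : ∃ w ∈ (D X).accepts, mk w = mk v) : ∃ w ∈ (D X).accepts, mk w = mk u := by
  obtain ⟨w, hw, hwv⟩ := hv
  have h1 : rel (D X) (mk u) = rel (D X) (mk v) := congrFun (congrArg Prod.fst h) X
  have h2 : rel (D X) (mk v) (D X).start ((D X).evalFrom (D X).start w) := ⟨w, hwv, rfl⟩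
  rw [← h1] at h2
  obtain ⟨w', hw', he⟩ := h2
  refine ⟨w', ?_, hw'⟩
  rw [DFA.mem_accepts, DFA.eval, he]
  rw [DFA.mem_accepts, DFA.eval] at hw
  exact hw

end

end Pool.H43.Quad
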