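import Pool.Agent.H43.Quad.Prod
import Pool.Agent.H43.Quad.Mon

/-!
# Reading factors with insertions: reducedness and labels
-/

namespace Pool.H43.Quad

open FreeGroup

namespace Sys

variable {A : Type*} {S : Sys A}

/-- Plain reading of `n` letters from position `i`. -/
def pl (S : Sys A) (i : ℤ) (n : ℕ) : List (A × Bool) :=
  (List.range n).map fun k : ℕ => S.a (i + (k : ℤ))

@[simp] theorem pl_zero (i : ℤ) : pl S i 0 = [] := rfl

theorem pl_length (i : ℤ) (n : ℕ) : (pl S i n).length = n := by simp [pl]

theorem pl_succ (i : ℤ) (n : ℕ) : pl S i (n + 1) = S.a i :: pl S (i + 1) n := by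
  simp only [pl, List.range_succ_eq_map, List.map_cons, List.map_map]
  congr 1
  · simp
  · apply List.map_congr_left
    intro k _
    simp only [Function.comp]
    congr 1; push_cast; ring

theorem pl_append (i : ℤ) (n m : ℕ) : pl S i (n + m) = pl S i n ++ pl S (i + n) m := by
  induction n generalizing i with
  | zero => simp
  | succ n ih =>
    rw [show n + 1 + m = (n + m) + 1 by ring, pl_succ, ih, pl_succ]
    simp only [List.cons_append]
    congr 3
    push_cast; ring

theorem isReduced_cons_of_head {p : A × Bool} {L : List (A × Bool)} (hL : IsReduced L)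
    (h : ∀ q, L.head? = some q → q ≠ inv p) : IsReduced (p :: L) := by
  cases L with
  | nil => exact IsReduced.singleton
  | cons q L =>
    rw [isReduced_cons_cons]
    refine ⟨?_, hL⟩
    intro h1
    have h2 := h q rfl
    by_contra h3
    apply h2
    rcases p with ⟨p1, p2⟩
    rcases q with ⟨q1, q2⟩
    simp only at h1 h3
    subst h1
    simp only [inv, Prod.mk.injEq, true_and]
    cases p2 <;> cases q2 <;> simp_all

theorem pl_isReduced (i : ℤ) (n : ℕ) (h : ∀ t, i ≤ t → t + 1 < i + n → S.inner t) :
    IsReduced (pl S i n) := by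
  induction n generalizing i with
  | zero => exact IsReduced.nil
  | succ n ih =>
    rw [pl_succ]
    refine isReduced_cons_of_head (ih (i + 1) ?_) ?_
    · intro t h1 h2
      exact h t (by omega) (by push_cast; omega)
    · intro q hq
      cases n with
      | zero => simp at hq
      | succ n =>
        rw [pl_succ] at hq
        simp only [List.head?_cons, Option.some.injEq] at hq
        obtain ⟨a1, a2, a3⟩ := h i le_rfl (by push_cast; omega)
        rw [← hq]
        exact S.red i a1 a2 a3

variable [DecidableEq A]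

/-- Reading of `n + 1` letters from `i` with insertions in between. -/
def lw (S : Sys A) (E : ℤ → ℤ → FreeGroup A) : ℤ → ℕ → List (A × Bool)
  | i, 0 => [S.a i]
  | i, n + 1 => S.a i :: ((E i (i + 1)).toWord ++ lw S E (i + 1) n)

theorem mk_lw (E : ℤ → ℤ → FreeGroup A) (i : ℤ) (n : ℕ) :
    FreeGroup.mk (lw S E i n) = W S E i n := by
  induction n generalizing i with
  | zero => simp [lw, W, Q]
  | succ n ih =>
    rw [W_succ', lw, ← ih]
    rw [show S.a i :: ((E i (i + 1)).toWord ++ lw S E (i + 1) n) =
      [S.a i] ++ ((E i (i + 1)).toWord ++ lw S E (i + 1) n) by simp]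
    rw [← mul_mk, ← mul_mk, mk_toWord, mul_assoc]

theorem lw_head (E : ℤ → ℤ → FreeGroup A) (i : ℤ) (n : ℕ) :
    (lw S E i n).head? = some (S.a i) := by
  cases n <;> simp [lw]

theorem lw_prefix (E : ℤ → ℤ → FreeGroup A) (m0 : ℕ) : ∀ (n : ℕ) (t : ℤ), 1 ≤ m0 → m0 ≤ n + 1 →
    (∀ s, t < s → s < t + m0 → E (s - 1) s = 1) → ∃ R, lw S E t n = pl S t m0 ++ R := by
  induction m0 with
  | zero => intro n t h; omega
  | succ m0 ih =>
    intro n t _ hmn hs
    rcases Nat.eq_zero_or_pos m0 with rfl | hpos
    · cases n with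
      | zero => exact ⟨[], by simp [lw, pl]⟩
      | succ n => exact ⟨(E t (t + 1)).toWord ++ lw S E (t + 1) n, by simp [lw, pl]⟩
    · cases n with
      | zero => omega
      | succ n =>
        obtain ⟨R, hR⟩ := ih n (t + 1) hpos (by omega)
          (fun s h1 h2 => hs s (by omega) (by push_cast; omega))
        refine ⟨R, ?_⟩
        have h1 : E t (t + 1) = 1 := by
          have := hs (t + 1) (by omega) (by push_cast; omega)
          rwa [show t + 1 - 1 = t by ring] at this
        rw [lw, h1, hR, pl_succ]
        simp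

theorem lw_infix (E : ℤ → ℤ → FreeGroup A) (n : ℕ) : ∀ (i t : ℤ), i < t → t ≤ i + n →
    (E (t - 1) t).toWord <:+: lw S E i n := by
  induction n with
  | zero => intro i t h1 h2; push_cast at h2; omega
  | succ n ih =>
    intro i t h1 h2
    rw [lw]
    rcases eq_or_lt_of_le (show i + 1 ≤ t by omega) with h | h
    · subst h
      rw [show i + 1 - 1 = i by ring]
      exact ⟨[S.a i], lw S E (i + 1) n, by simp⟩
    · obtain ⟨s1, s2, hs⟩ := ih (i + 1) t h (by push_cast at h2; omega)
      refine ⟨S.a i :: ((E i (i + 1)).toWord ++ s1), s2, ?_⟩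
      rw [← hs]
      simp

/-- Good insertions: reducedness and label are unchanged. -/
theorem lw_good {N : Type*} [Monoid N] (L : Lab A N) (E : ℤ → ℤ → FreeGroup A) (m0 : ℕ)
    (hm0 : 1 ≤ m0) : ∀ (n : ℕ) (i : ℤ), (∀ t, i ≤ t → t < i + n → S.inner t) →
    (∀ t, i < t → t ≤ i + n → E (t - 1) t ≠ 1 → t + m0 ≤ i + n + 1 ∧
      (∀ s, t < s → s < t + m0 → E (s - 1) s = 1) ∧
      IsReduced ((E (t - 1) t).toWord ++ pl S t m0) ∧
      L.μ ((E (t - 1) t).toWord ++ pl S t m0) = L.μ (pl S t m0) ∧
      ((E (t - 1) t).toWord ++ pl S t m0).head? = some (S.a t)) →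
    IsReduced (lw S E i n) ∧ L.μ (lw S E i n) = L.μ (pl S i (n + 1)) := by
  intro n
  induction n with
  | zero =>
    intro i _ _
    exact ⟨IsReduced.singleton, by simp [lw, pl]⟩
  | succ n ih =>
    intro i hin hev
    obtain ⟨hR, hμR⟩ := ih (i + 1) (fun t h1 h2 => hin t (by omega) (by push_cast; omega))
      (fun t h1 h2 h3 => by
        obtain ⟨c1, c2⟩ := hev t (by omega) (by push_cast; omega) h3
        exact ⟨by push_cast at c1 ⊢; omega, c2⟩)
    have hplred : IsReduced (pl S i (n + 1 + 1)) := by
      apply pl_isReduced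
      intro t h1 h2
      exact hin t h1 (by push_cast at h2 ⊢; omega)
    have hadj : S.a (i + 1) ≠ inv (S.a i) := by
      obtain ⟨a1, a2, a3⟩ := hin i le_rfl (by push_cast; omega)
      exact S.red i a1 a2 a3
    have hμpl : L.μ (pl S i (n + 1 + 1)) = L.μ [S.a i] * L.μ (pl S (i + 1) (n + 1)) := by
      rw [pl_succ] at hplred ⊢
      exact L.μ_append [S.a i] _ hplred
    have key : IsReduced ((E i (i + 1)).toWord ++ lw S E (i + 1) n) ∧
        L.μ ((E i (i + 1)).toWord ++ lw S E (i + 1) n) = L.μ (pl S (i + 1) (n + 1)) ∧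
        ((E i (i + 1)).toWord ++ lw S E (i + 1) n).head? = some (S.a (i + 1)) := by
      by_cases hE : E i (i + 1) = 1
      · rw [hE]
        simp only [toWord_one, List.nil_append]
        exact ⟨hR, hμR, lw_head E (i + 1) n⟩
      · obtain ⟨c1, c2, c3, c4, c5⟩ := hev (i + 1) (by omega) (by push_cast; omega)
          (by rwa [show i + 1 - 1 = i by ring])
        rw [show i + 1 - 1 = i by ring] at c3 c4 c5
        obtain ⟨R', hR'⟩ := lw_prefix (S := S) E m0 n (i + 1) hm0 (by push_cast at c1; omega) c2
        have hβ : pl S (i + 1) m0 ≠ [] := by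
          intro h
          have := congrArg List.length h
          rw [pl_length] at this
          simp at this; omega
        rw [hR', ← List.append_assoc]
        have hov : IsReduced ((E i (i + 1)).toWord ++ pl S (i + 1) m0 ++ R') :=
          IsReduced.append_overlap c3 (hR' ▸ hR) hβ
        refine ⟨hov, ?_, ?_⟩
        · rw [L.μ_append _ _ hov, c4, ← L.μ_append _ _ (hR' ▸ hR), ← hR', hμR]
        · rw [List.head?_append, c5]; rfl
    obtain ⟨k1, k2, k3⟩ := key
    have hred : IsReduced (lw S E i (n + 1)) := by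
      rw [lw]
      refine isReduced_cons_of_head k1 ?_
      intro q hq
      rw [k3] at hq
      rw [← Option.some.inj hq]
      exact hadj
    refine ⟨hred, ?_⟩
    rw [lw] at hred ⊢
    have := L.μ_append [S.a i] ((E i (i + 1)).toWord ++ lw S E (i + 1) n) hred
    rw [List.singleton_append] at this
    rw [this, k2, hμpl]

end Sys

end Pool.H43.Quad
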