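import Mathlib

/-!
# A quantitative recurrence lemma for permutations of finite sets of integers
-/

namespace Pool.H43.Quad

theorem count_gap (I : Finset ℕ) (Φ : ℕ → ℤ) (g lo hi : ℤ) (hg : 0 < g)
    (h : ∀ t ∈ I, ∀ t' ∈ I, t < t' → Φ t + g ≤ Φ t')
    (hr : ∀ t ∈ I, lo ≤ Φ t ∧ Φ t ≤ hi) (hlh : lo ≤ hi) :
    (I.card : ℤ) * g ≤ hi - lo + g := by
  have hinj : Set.InjOn (fun t => ((Φ t - lo) / g).toNat) (I : Set ℕ) := by
    intro a ha b hb hab
    by_contra hne
    wlog hlt : a < b generalizing a b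
    · exact this hb ha hab.symm (fun e => hne e.symm) (by omega)
    have h1 := h a ha b hb hlt
    have h2 := hr a ha
    have h3 := hr b hb
    have h4 : (Φ a - lo) / g + 1 ≤ (Φ b - lo) / g := by
      have : (Φ a - lo) / g + 1 = (Φ a - lo + g) / g := by
        rw [Int.add_ediv_of_dvd_right (dvd_refl g), Int.ediv_self hg.ne']
      rw [this]
      exact Int.ediv_le_ediv hg (by omega)
    have h5 : 0 ≤ (Φ a - lo) / g := Int.ediv_nonneg (by omega) hg.le
    simp only at hab
    omega
  have hmap : ∀ t ∈ I, ((Φ t - lo) / g).toNat ∈ Finset.range (((hi - lo) / g).toNat + 1) := by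
    intro t ht
    have h2 := hr t ht
    rw [Finset.mem_range]
    have : (Φ t - lo) / g ≤ (hi - lo) / g := Int.ediv_le_ediv hg (by omega)
    omega
  have hcard := Finset.card_le_card_of_injOn _ hmap hinj
  rw [Finset.card_range] at hcard
  have h0 : 0 ≤ (hi - lo) / g := Int.ediv_nonneg (by omega) hg.le
  have h1 : (I.card : ℤ) ≤ (hi - lo) / g + 1 := by omega
  calc (I.card : ℤ) * g ≤ ((hi - lo) / g + 1) * g := by
        exact mul_le_mul_of_nonneg_right h1 hg.le
    _ = (hi - lo) / g * g + g := by ring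
    _ ≤ hi - lo + g := by
        have := Int.ediv_mul_le (hi - lo) hg.ne'
        omega

section

variable {T : ℤ → ℤ} (hT : Function.Injective T) {D : Finset ℤ} (hD : ∀ x ∈ D, T x ∈ D)

include hD in
theorem iter_mem (k : ℕ) : ∀ x ∈ D, T^[k] x ∈ D := by
  induction k with
  | zero => intro x hx; simpa using hx
  | succ k ih =>
    intro x hx
    rw [Function.iterate_succ_apply']
    exact hD _ (ih x hx)

include hT hD in
theorem card_preimage (k : ℕ) (F : Finset ℤ) (hF : F ⊆ D) :
    (D.filter (fun y => T^[k] y ∈ F)).card = F.card := by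
  have hinj : Function.Injective (T^[k]) := hT.iterate k
  have hsurj : ∀ z ∈ D, ∃ y ∈ D, T^[k] y = z := by
    have := Finset.surjOn_of_injOn_of_card_le (s := D) (t := D) (T^[k])
      (fun x hx => iter_mem hD k x hx) (hinj.injOn) le_rfl
    intro z hz
    obtain ⟨y, hy, h⟩ := this hz
    exact ⟨y, hy, h⟩
  have himg : (D.filter (fun y => T^[k] y ∈ F)).image (T^[k]) = F := by
    ext z
    simp only [Finset.mem_image, Finset.mem_filter]
    constructor
    · rintro ⟨y, ⟨_, h⟩, rfl⟩; exact h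
    · intro hz
      obtain ⟨y, hy, rfl⟩ := hsurj z (hF hz)
      exact ⟨y, ⟨hy, hz⟩, rfl⟩
  rw [← Finset.card_image_of_injective _ hinj, himg]

include hT hD in
/-- Finite recurrence lemma: if all returns to `F` within `n` steps move to the right and no return
within `n0` steps moves by at most `κ`, then `F` is small. -/
theorem rec_count (F : Finset ℤ) (hF : F ⊆ D) (u Δ : ℤ) (n n0 κ : ℕ) (hΔ : 0 ≤ Δ)
    (hκ : 0 < κ) (hn0 : 0 < n0)
    (hwin : ∀ x ∈ F, u ≤ x ∧ x < u + Δ)
    (hmono : ∀ x ∈ F, ∀ k, 1 ≤ k → k < n → T^[k] x ∈ F → x ≤ T^[k] x)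
    (hiso : ∀ x ∈ F, ∀ k, 1 ≤ k → k ≤ n0 → T^[k] x ∈ F → x + κ ≤ T^[k] x) :
    (n * F.card : ℤ) * (κ * n0) ≤ D.card * (κ * n + n0 * Δ + κ * n0) := by
  classical
  let I : ℤ → Finset ℕ := fun y => (Finset.range n).filter (fun t => T^[t] y ∈ F)
  have hI : ∀ y ∈ D, ((I y).card : ℤ) * (κ * n0) ≤ κ * n + n0 * Δ + κ * n0 := by
    intro y _
    have := count_gap (I y) (fun t => κ * t + n0 * T^[t] y) (κ * n0) (n0 * u)
      (κ * n + n0 * (u + Δ)) (by positivity) ?_ ?_ ?_
    · linarith
    · intro t ht t' ht' htt'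
      simp only [I, Finset.mem_filter, Finset.mem_range] at ht ht'
      have he : T^[t'] y = T^[t' - t] (T^[t] y) := by
        rw [← Function.iterate_add_apply]; congr 2; omega
      have hk1 : 1 ≤ t' - t := by omega
      have hk2 : t' - t < n := by omega
      have h1 := hmono _ ht.2 (t' - t) hk1 hk2 (by rw [← he]; exact ht'.2)
      rw [← he] at h1
      by_cases hc : t' - t ≤ n0
      · have h2 := hiso _ ht.2 (t' - t) hk1 hc (by rw [← he]; exact ht'.2)
        rw [← he] at h2
        have h3 : (κ : ℤ) * t ≤ κ * t' := by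
          apply mul_le_mul_of_nonneg_left _ (by positivity)
          exact_mod_cast htt'.le
        have h4 : (n0 : ℤ) * (T^[t] y + κ) ≤ n0 * T^[t'] y :=
          mul_le_mul_of_nonneg_left h2 (by positivity)
        nlinarith
      · have h3 : (n0 : ℤ) ≤ t' - t := by omega
        have h4 : (κ : ℤ) * n0 ≤ κ * (t' - t) := mul_le_mul_of_nonneg_left h3 (by positivity)
        have h5 : (n0 : ℤ) * T^[t] y ≤ n0 * T^[t'] y :=
          mul_le_mul_of_nonneg_left h1 (by positivity)
        linarith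
    · intro t ht
      simp only [I, Finset.mem_filter, Finset.mem_range] at ht
      obtain ⟨h1, h2⟩ := hwin _ ht.2
      constructor
      · have h3 : (n0 : ℤ) * u ≤ n0 * T^[t] y := mul_le_mul_of_nonneg_left h1 (by positivity)
        have h4 : (0 : ℤ) ≤ κ * t := by positivity
        linarith
      · have h3 : (n0 : ℤ) * T^[t] y ≤ n0 * (u + Δ) :=
          mul_le_mul_of_nonneg_left h2.le (by positivity)
        have h4 : (κ : ℤ) * t ≤ κ * n := by
          apply mul_le_mul_of_nonneg_left _ (by positivity)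
          exact_mod_cast ht.1.le
        linarith
    · have : (0 : ℤ) ≤ κ * n := by positivity
      have h2 : (0 : ℤ) ≤ n0 * Δ := by positivity
      linarith
  have hsum : ∑ y ∈ D, ((I y).card : ℤ) = n * F.card := by
    have h1 : ∀ y, ((I y).card : ℤ) = ∑ t ∈ Finset.range n, if T^[t] y ∈ F then 1 else 0 := by
      intro y
      rw [Finset.sum_boole]
    simp_rw [h1]
    rw [Finset.sum_comm]
    have h2 : ∀ t ∈ Finset.range n, (∑ y ∈ D, if T^[t] y ∈ F then (1 : ℤ) else 0) = F.card := by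
      intro t _
      rw [Finset.sum_boole, card_preimage hT hD t F hF]
    rw [Finset.sum_congr rfl h2]
    simp
  calc (n * F.card : ℤ) * (κ * n0) = ∑ y ∈ D, ((I y).card : ℤ) * (κ * n0) := by
        rw [← hsum, Finset.sum_mul]
    _ ≤ ∑ y ∈ D, (κ * n + n0 * Δ + κ * n0 : ℤ) := Finset.sum_le_sum hI
    _ = D.card * (κ * n + n0 * Δ + κ * n0) := by
        rw [Finset.sum_const, nsmul_eq_mul]

end

end Pool.H43.Quad
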