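import Pool.Agent.H43.Quad.Pump

/-!
# Hits of the orbit, and product identities on factors
-/

namespace Pool.H43.Quad

open FreeGroup

namespace Sys

variable {A : Type*} {S : Sys A}

theorem f_add : ∀ (d : ℕ) (y : ℤ), 0 ≤ y → (∀ t, y ≤ t → t < y + d → S.inner t) →
    S.f (y + d) = S.f y + S.δ y * d ∧ S.δ (y + d) = S.δ y ∧
      (∀ t, min (S.f y) (S.f (y + d)) ≤ t → t < max (S.f y) (S.f (y + d)) → S.inner t) := by
  intro d
  induction d with
  | zero =>
    intro y _ _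
    refine ⟨by simp, by simp, ?_⟩
    intro t h1 h2
    simp at h1 h2
    omega
  | succ d ih =>
    intro y hy h
    obtain ⟨e1, e2, e3⟩ := ih y hy (fun t h1 h2 => h t h1 (by push_cast; omega))
    obtain ⟨a1, a2, a3⟩ := h (y + d) (by omega) (by push_cast; omega)
    obtain ⟨b1, b2, b3⟩ := S.f_inner _ a1 a2 a3
    push_cast
    rw [← add_assoc, b1, b2, e2]
    refine ⟨by rw [e1]; ring, rfl, ?_⟩
    rw [b1] at b3
    rw [e2] at b3
    intro t h1 h2
    rw [e1] at e3 b3 h1 h2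
    rcases S.δ_pm y with hs | hs <;> rw [hs] at e3 b3 h1 h2
    · by_cases hc : t < S.f y + 1 * d
      · exact e3 t (by omega) (by omega)
      · have ht : t = S.f y + 1 * d := by omega
        rw [min_eq_left (by omega)] at b3
        rw [ht]; exact b3
    · by_cases hc : S.f y + -1 * d ≤ t
      · exact e3 t (by omega) (by omega)
      · have ht : t = S.f y + -1 * d - 1 := by omega
        rw [min_eq_right (by omega)] at b3
        rw [ht]; exact b3

theorem same.symm {y z : ℤ} (h : S.same y z) : S.same z y := by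
  intro t h1 h2
  exact h t (by rwa [min_comm]) (by rwa [max_comm])

theorem same.inner {y z : ℤ} (h : S.same y z) (hy : 0 ≤ y) (hz : z < S.M) {t : ℤ} (h1 : y ≤ t)
    (h2 : t < z) : S.inner t :=
  ⟨by omega, by omega, h (t + 1) (by omega) (by omega)⟩

theorem same.f_eq {y z : ℤ} (h : S.same y z) (hy : 0 ≤ y) (hy' : y < S.M) (hz : 0 ≤ z)
    (hz' : z < S.M) : S.f z = S.f y + S.δ y * (z - y) ∧ S.δ z = S.δ y ∧ S.same (S.f y) (S.f z) := by
  rcases le_total y z with hyz | hyz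
  · obtain ⟨d, rfl⟩ : ∃ d : ℕ, z = y + d := ⟨(z - y).toNat, by omega⟩
    obtain ⟨e1, e2, e3⟩ := f_add (S := S) d y hy (fun t h1 h2 => h.inner hy hz' h1 h2)
    refine ⟨by rw [e1]; ring, e2, ?_⟩
    intro t h1 h2
    have := (e3 (t - 1) (by omega) (by omega)).2.2
    rwa [show t - 1 + 1 = t by ring] at this
  · obtain ⟨d, rfl⟩ : ∃ d : ℕ, y = z + d := ⟨(y - z).toNat, by omega⟩
    obtain ⟨e1, e2, e3⟩ := f_add (S := S) d z hz (fun t h1 h2 => h.symm.inner hz hy' h1 h2)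
    refine ⟨by rw [e1, e2]; ring, e2.symm, ?_⟩
    intro t h1 h2
    have := (e3 (t - 1) (by omega) (by omega)).2.2
    rwa [show t - 1 + 1 = t by ring] at this

theorem MF.mem_of_same {i : ℤ} {len : ℕ} (hF : MF S i len) {y z : ℤ} (h : S.same y z)
    (hy : i ≤ y ∧ y ≤ i + len) (hz : 0 ≤ z) (hz' : z < S.M) : i ≤ z ∧ z ≤ i + len := by
  constructor
  · by_contra hc
    push Not at hc
    apply hF.lo
    exact h.symm.inner hz (by have := hF.i1; omega) (by omega) (by omega)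
  · by_contra hc
    push Not at hc
    apply hF.hi
    exact h.inner (by have := hF.i0; omega) hz' (by omega) (by omega)

theorem MF.same_of_mem {i : ℤ} {len : ℕ} (hF : MF S i len) {y z : ℤ}
    (hy : i ≤ y ∧ y ≤ i + len) (hz : i ≤ z ∧ z ≤ i + len) : S.same y z := by
  intro t h1 h2
  have := (hF.inn (t - 1) (by omega) (by omega)).2.2
  rwa [show t - 1 + 1 = t by ring] at this

/-- Position of the hit of time `k` on side `v`. -/
def yy (S : Sys A) (x : ℤ) (k : ℕ) (v : Bool) : ℤ := cond v (S.f (S.T^[k] x)) (S.T^[k] x)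

/-- Orientation of the hit of time `k` on side `v`. -/
def oo (S : Sys A) (x : ℤ) (k : ℕ) (v : Bool) : ℤ :=
  cond v (S.δ (S.T^[k] x) * S.sgn k x) (S.sgn k x)

theorem oo_pm (x : ℤ) (k : ℕ) (v : Bool) : S.oo x k v = 1 ∨ S.oo x k v = -1 := by
  rcases S.sgn_pm k x with h | h <;> rcases S.δ_pm (S.T^[k] x) with h' | h' <;> cases v <;>
    simp [oo, h, h']

/-- Position of the gap (its right letter) of the hit. -/
def gp (S : Sys A) (x : ℤ) (k : ℕ) (v : Bool) : ℤ :=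
  S.yy x k v + (if S.oo x k v = 1 then 0 else 1)

theorem f_yy (x : ℤ) (k : ℕ) (v : Bool) : S.f (S.yy x k v) = S.yy x k (!v) := by
  cases v
  · rfl
  · simp [yy, S.f_inv]

variable {x : ℤ} {m n : ℕ}

theorem Strip.yy_add (h : S.Strip x m n) (hn : 1 ≤ n) (h0 : 0 ≤ x) (h1 : x < S.M) {k : ℕ}
    (hk : k ≤ n) (v : Bool) (j : ℤ)
    (hj1 : -m ≤ j) (hj2 : j ≤ m) (h2 : 0 ≤ x + j) (h3 : x + j < S.M) :
    S.yy (x + j) k v = S.yy x k v + S.oo x k v * j := by
  obtain ⟨e1, e2⟩ := h.T_add hk j hj1 hj2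
  cases v
  · exact e1
  · simp only [yy, oo, cond_true]
    rw [e1]
    have hb : -(m : ℤ) ≤ S.sgn k x * j ∧ S.sgn k x * j ≤ m := by
      rcases S.sgn_pm k x with hs | hs <;> rw [hs] <;> constructor <;> linarith
    have hs : S.same (S.T^[k] x) (S.T^[k] x + S.sgn k x * j) :=
      same_of_iw (h.iw hn hk) (by constructor <;> linarith) (by constructor <;> linarith)
    obtain ⟨a1, a2⟩ := S.iter_T_mem k h0 h1
    obtain ⟨b1, b2⟩ := S.iter_T_mem k h2 h3
    rw [e1] at b1 b2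
    obtain ⟨c1, _, _⟩ := hs.f_eq a1 a2 b1 b2
    rw [c1]; ring

theorem Orb.yy_add (h : Orb S x m n) {k : ℕ} (hk : k ≤ n) (v : Bool) (j : ℤ)
    (h1 : -m ≤ j) (h2 : j ≤ m) : S.yy (x + j) k v = S.yy x k v + S.oo x k v * j := by
  obtain ⟨b1, b2⟩ := h.mem_window j h1 h2
  exact h.strip.yy_add h.n_pos h.x0 h.x1 hk v j h1 h2 b1 b2

theorem Strip.yy_letter (h : S.Strip x m n) (h0 : 0 ≤ x) (h1 : x < S.M) {k : ℕ} (hn : 1 ≤ n)
    (hk : k ≤ n) (v : Bool) (j : ℤ)
    (hj1 : -m ≤ j) (hj2 : j ≤ m) (h2 : 0 ≤ x + j) (h3 : x + j < S.M) :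
    S.a (S.yy x k v + S.oo x k v * j) = lp (S.oo x k v) (S.a (x + j)) := by
  rw [← h.yy_add hn h0 h1 hk v j hj1 hj2 h2 h3]
  obtain ⟨e1, e2⟩ := h.T_add hk j hj1 hj2
  obtain ⟨b1, b2⟩ := S.iter_T_mem k h2 h3
  have e3 := a_iter k h2 h3
  rw [e2] at e3
  cases v
  · exact e3
  · simp only [yy, oo, cond_true]
    rw [S.a_f _ b1 b2, e3, lp_mul (S.δ_pm _) (S.sgn_pm _ _)]
    have hb : -(m : ℤ) ≤ S.sgn k x * j ∧ S.sgn k x * j ≤ m := by
      rcases S.sgn_pm k x with hs | hs <;> rw [hs] <;> constructor <;> linarith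
    have hs : S.same (S.T^[k] x) (S.T^[k] x + S.sgn k x * j) :=
      same_of_iw (h.iw hn hk) (by constructor <;> linarith) (by constructor <;> linarith)
    obtain ⟨a1, a2⟩ := S.iter_T_mem k h0 h1
    rw [e1] at b1 b2 ⊢
    obtain ⟨_, c1, _⟩ := hs.f_eq a1 a2 b1 b2
    rw [c1]

theorem Orb.yy_letter (h : Orb S x m n) {k : ℕ} (hk : k ≤ n) (v : Bool) (j : ℤ)
    (h1 : -m ≤ j) (h2 : j ≤ m) :
    S.a (S.yy x k v + S.oo x k v * j) = lp (S.oo x k v) (S.a (x + j)) := by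
  obtain ⟨b1, b2⟩ := h.mem_window j h1 h2
  exact h.strip.yy_letter h.x0 h.x1 h.n_pos hk v j h1 h2 b1 b2

theorem Orb.yl_eq (h : Orb S x m n) {k : ℕ} (hk : k ≤ n) (v : Bool) :
    S.yy (x - 1) k v = S.yy x k v - S.oo x k v := by
  have hm := h.m_pos
  have := h.yy_add hk v (-1) (by omega) (by omega)
  rw [show x + -1 = x - 1 by ring] at this
  rw [this]; ring

variable {u : ℕ → FreeGroup A}

/-- Value of the insertion at the hit `(k, v)` (read along the orbit). -/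
def eV (n : ℕ) (u : ℕ → FreeGroup A) (k : ℕ) (v : Bool) : FreeGroup A :=
  cond v (Vv u k) (Uv n u k)

/-- Apply a sign to a group element. -/
def gpow (o : ℤ) (g : FreeGroup A) : FreeGroup A := if o = 1 then g else g⁻¹

theorem Orb.EE_hit (h : Orb S x m n) (hne : S.T^[n] x ≠ x) {k : ℕ} (hk : k ≤ n) (v : Bool) :
    EE S x n u (S.gp x k v - 1) (S.gp x k v) = gpow (S.oo x k v) (eV n u k v) ∧
    EE S x n u (S.f (S.gp x k v - 1)) (S.f (S.gp x k v)) =
      gpow (S.oo x k v) (eV n u k (!v)) := by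
  obtain ⟨s1, s2⟩ := h.EE_spec (u := u) hne hk
  have hl := h.yl_eq hk v
  have key : ∀ v, EE S x n u (S.yy (x - 1) k v) (S.yy x k v) = eV n u k v := by
    intro v
    cases v
    · exact s1
    · exact s2
  have hf1 : S.f (S.yy (x - 1) k v) = S.yy (x - 1) k (!v) := f_yy _ _ _
  have hf2 : S.f (S.yy x k v) = S.yy x k (!v) := f_yy _ _ _
  rcases S.oo_pm x k v with ho | ho
  · have h1 : S.gp x k v = S.yy x k v := by simp [gp, ho]
    have h2 : S.gp x k v - 1 = S.yy (x - 1) k v := by rw [h1, hl, ho]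
    rw [h2, h1, hf1, hf2, key, key, ho]
    simp [gpow]
  · have h1 : S.gp x k v = S.yy (x - 1) k v := by simp [gp, hl, ho]
    have h2 : S.gp x k v - 1 = S.yy x k v := by rw [h1, hl, ho]; ring
    rw [h2, h1, hf1, hf2, h.EE_rev, key, h.EE_rev, key, ho]
    simp [gpow]

/-- A nontrivial insertion (or its image under the swap) sits at the gap of a hit. -/
theorem Orb.hit_of_ne (h : Orb S x m n) {t : ℤ}
    (hne : EE S x n u (t - 1) t ≠ 1 ∨ EE S x n u (S.f (t - 1)) (S.f t) ≠ 1) :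
    ∃ k ≤ n, ∃ v, S.gp x k v = t := by
  have hform : ∀ l r : ℤ, ∀ k < n, ∀ s, S.IsEv x k s l r →
      ∃ k ≤ n, ∃ v, l = S.yy (x - 1) k v ∧ r = S.yy x k v := by
    rintro l r k hk s ⟨h1, h2⟩
    cases s
    · exact ⟨k, hk.le, false, h1, h2⟩
    · refine ⟨k + 1, hk, true, ?_, ?_⟩
      · rw [h1]; simp only [yy, cond_true]; rw [Function.iterate_succ_apply', f_T]; rfl
      · rw [h2]; simp only [yy, cond_true]; rw [Function.iterate_succ_apply', f_T]; rfl
  have hfin : ∀ l r : ℤ, (l = t - 1 ∧ r = t) ∨ (l = t ∧ r = t - 1) →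
      (∃ k ≤ n, ∃ v, l = S.yy (x - 1) k v ∧ r = S.yy x k v) → ∃ k ≤ n, ∃ v, S.gp x k v = t := by
    rintro l r hlr ⟨k, hk, v, h1, h2⟩
    refine ⟨k, hk, v, ?_⟩
    rw [h.yl_eq hk v] at h1
    rcases S.oo_pm x k v with ho | ho <;> rw [ho] at h1 <;> simp only [gp, ho]
    · simp; omega
    · norm_num; omega
  have hff : ∀ l r : ℤ, (∃ k ≤ n, ∃ v, S.f l = S.yy (x - 1) k v ∧ S.f r = S.yy x k v) →
      ∃ k ≤ n, ∃ v, l = S.yy (x - 1) k v ∧ r = S.yy x k v := by
    rintro l r ⟨k, hk, v, h1, h2⟩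
    refine ⟨k, hk, !v, ?_, ?_⟩
    · rw [← f_yy, ← h1, S.f_inv]
    · rw [← f_yy, ← h2, S.f_inv]
  rcases hne with hne | hne
  · rcases h.EE_cases (u := u) (t - 1) t with ⟨k, hk, s, hev, he⟩ | ⟨k, hk, s, hev, he⟩ |
      ⟨h1, h2, he⟩
    · exact hfin _ _ (Or.inl ⟨rfl, rfl⟩) (hform _ _ k hk s hev)
    · exact hfin _ _ (Or.inr ⟨rfl, rfl⟩) (hform _ _ k hk s hev)
    · exact absurd he hne
  · rcases h.EE_cases (u := u) (S.f (t - 1)) (S.f t) with ⟨k, hk, s, hev, he⟩ |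
      ⟨k, hk, s, hev, he⟩ | ⟨h1, h2, he⟩
    · exact hfin _ _ (Or.inl ⟨rfl, rfl⟩) (hff _ _ (hform _ _ k hk s hev))
    · exact hfin _ _ (Or.inr ⟨rfl, rfl⟩) (hff _ _ (hform _ _ k hk s hev))
    · exact absurd he hne

/-! ### Products -/

theorem Q_congr {E G : ℤ → ℤ → FreeGroup A} (i : ℤ) (n : ℕ)
    (h : ∀ t, i ≤ t → t < i + n → E (t - 1) t = G (t - 1) t) : Q S E i n = Q S G i n := by
  induction n with
  | zero => rfl
  | succ n ih =>
    simp only [Q]
    rw [ih (fun t h1 h2 => h t h1 (by push_cast; omega))]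
    congr 1
    simp only [bl]
    rw [h (i + n) (by omega) (by push_cast; omega)]

theorem W_congr {E G : ℤ → ℤ → FreeGroup A} (i : ℤ) (n : ℕ)
    (h : ∀ t, i < t → t ≤ i + n → E (t - 1) t = G (t - 1) t) : W S E i n = W S G i n := by
  simp only [W]
  rw [Q_congr (i + 1) n (fun t h1 h2 => h t (by omega) (by omega))]

/-- Product over an interval. -/
def Qz (S : Sys A) (E : ℤ → ℤ → FreeGroup A) (a b : ℤ) : FreeGroup A := Q S E a (b - a).toNat

/-- Plain product over an interval. -/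
def Zw (S : Sys A) (a b : ℤ) : FreeGroup A := FreeGroup.mk (pl S a (b - a).toNat)

theorem Qz_mul (E : ℤ → ℤ → FreeGroup A) {a b c : ℤ} (h1 : a ≤ b) (h2 : b ≤ c) :
    Qz S E a b * Qz S E b c = Qz S E a c := by
  simp only [Qz]
  rw [show (c - a).toNat = (b - a).toNat + (c - b).toNat by omega, Q_add]
  congr 2
  omega

theorem Zw_mul {a b c : ℤ} (h1 : a ≤ b) (h2 : b ≤ c) : Zw S a b * Zw S b c = Zw S a c := by
  simp only [Zw]
  rw [show (c - a).toNat = (b - a).toNat + (c - b).toNat by omega, pl_append, ← mul_mk]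
  congr 3
  omega

theorem Q_plain {E : ℤ → ℤ → FreeGroup A} (n : ℕ) (i : ℤ)
    (h : ∀ t, i < t → t < i + (n + 1) → E (t - 1) t = 1) :
    Q S E i (n + 1) = E (i - 1) i * FreeGroup.mk (pl S i (n + 1)) := by
  induction n with
  | zero => simp [Q, bl, pl]
  | succ n ih =>
    change Q S E i (n + 1) * _ = _
    rw [ih (fun t h1 h2 => h t h1 (by push_cast at h2 ⊢; omega)), pl_succ' i (n + 1), ← mul_mk]
    simp only [bl]
    rw [h (i + (n + 1 : ℕ)) (by push_cast; omega) (by push_cast; omega), one_mul, mul_assoc]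

theorem Qz_plain {E : ℤ → ℤ → FreeGroup A} {a b : ℤ} (hab : a < b)
    (h : ∀ t, a < t → t < b → E (t - 1) t = 1) : Qz S E a b = E (a - 1) a * Zw S a b := by
  obtain ⟨d, rfl⟩ : ∃ d : ℕ, b = a + (d + 1) := ⟨(b - a - 1).toNat, by omega⟩
  simp only [Qz, Zw]
  rw [show (a + ((d : ℤ) + 1) - a).toNat = d + 1 by omega]
  exact Q_plain d a h

/-- Replace the middle part of a factor. -/
theorem W_mid {E G : ℤ → ℤ → FreeGroup A} {i : ℤ} {len : ℕ} {L R : ℤ} (h1 : i < L) (h2 : L ≤ R)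
    (h3 : R ≤ i + len + 1)
    (hout : ∀ t, i < t → t ≤ i + len → (t < L ∨ R ≤ t) → E (t - 1) t = G (t - 1) t)
    (hmid : Qz S E L R = Qz S G L R) : W S E i len = W S G i len := by
  have key : ∀ E : ℤ → ℤ → FreeGroup A, W S E i len =
      FreeGroup.mk [S.a i] * (Qz S E (i + 1) L * (Qz S E L R * Qz S E R (i + len + 1))) := by
    intro E
    rw [Qz_mul E h2 h3, Qz_mul E (by omega) (by omega)]
    simp only [W, Qz]
    congr 2
    omega
  rw [key E, key G, hmid]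
  congr 2
  · exact Q_congr _ _ (fun t h4 h5 => hout t (by omega) (by omega) (by omega))
  · congr 1
    exact Q_congr _ _ (fun t h4 h5 => hout t (by omega) (by omega) (by omega))

end Sys

end Pool.H43.Quad
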