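import Pool.Agent.H43.Quad.Count
import Pool.Agent.H43.Quad.Rec

/-!
# Recurrence stages
-/

namespace Pool.H43.Quad

theorem recL {T : ℤ → ℤ} (hT : Function.Injective T) {D : Finset ℤ} (hD : ∀ x ∈ D, T x ∈ D)
    (G : Finset ℤ) (hG : G ⊆ D) (a Δ : ℤ) (W n n0 κ : ℕ) (hΔ : 0 < Δ) (hκ : 0 < κ)
    (hn0 : 0 < n0) (hn : n0 < n) (hwin : ∀ x ∈ G, a ≤ x ∧ x < a + W * Δ)
    (hleft : ∀ x ∈ G, ∀ k, 1 ≤ k → k < n → ¬ (x - Δ < T^[k] x ∧ T^[k] x < x))
    (hfar : ∀ x ∈ G, ∀ k, 1 ≤ k → k ≤ n0 → (κ : ℤ) < |T^[k] x - x|) :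
    (n * G.card : ℤ) * (κ * n0) ≤ W * (D.card * (κ * n + n0 * Δ + κ * n0)) := by
  classical
  let F : ℕ → Finset ℤ := fun w => G.filter (fun x => a + w * Δ ≤ x ∧ x < a + w * Δ + Δ)
  have hF : ∀ w, (n * (F w).card : ℤ) * (κ * n0) ≤ D.card * (κ * n + n0 * Δ + κ * n0) := by
    intro w
    refine rec_count hT hD (F w) ((Finset.filter_subset _ _).trans hG) (a + w * Δ) Δ n n0 κ
      hΔ.le hκ hn0 ?_ ?_ ?_
    · intro x hx
      exact (Finset.mem_filter.mp hx).2
    · intro x hx k hk1 hk2 hk3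
      obtain ⟨hxG, hx1, hx2⟩ := Finset.mem_filter.mp hx
      obtain ⟨_, hy1, hy2⟩ := Finset.mem_filter.mp hk3
      by_contra hc
      push Not at hc
      exact hleft x hxG k hk1 hk2 ⟨by linarith, hc⟩
    · intro x hx k hk1 hk2 hk3
      obtain ⟨hxG, hx1, hx2⟩ := Finset.mem_filter.mp hx
      obtain ⟨_, hy1, hy2⟩ := Finset.mem_filter.mp hk3
      have h1 := hleft x hxG k hk1 (by omega)
      have h2 := hfar x hxG k hk1 hk2
      have h3 : x ≤ T^[k] x := by
        by_contra hc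
        push Not at hc
        exact h1 ⟨by linarith, hc⟩
      rw [abs_of_nonneg (by linarith)] at h2
      linarith
  have hcov : G ⊆ (Finset.range W).biUnion F := by
    intro x hx
    obtain ⟨h1, h2⟩ := hwin x hx
    rw [Finset.mem_biUnion]
    have h3 : 0 ≤ (x - a) / Δ := Int.ediv_nonneg (by linarith) hΔ.le
    have h4 : (x - a) / Δ * Δ ≤ x - a := Int.ediv_mul_le _ hΔ.ne'
    have h5 : x - a < ((x - a) / Δ + 1) * Δ := Int.lt_ediv_add_one_mul_self _ hΔ
    refine ⟨((x - a) / Δ).toNat, ?_, ?_⟩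
    · rw [Finset.mem_range]
      have h6 : (x - a) / Δ < W := by
        apply Int.ediv_lt_of_lt_mul hΔ
        linarith
      omega
    · rw [Finset.mem_filter, Int.toNat_of_nonneg h3]
      exact ⟨hx, by linarith, by linarith⟩
  have hcard : (G.card : ℤ) ≤ ∑ w ∈ Finset.range W, ((F w).card : ℤ) := by
    exact_mod_cast (Finset.card_le_card hcov).trans Finset.card_biUnion_le
  calc (n * G.card : ℤ) * (κ * n0)
      ≤ (n * ∑ w ∈ Finset.range W, ((F w).card : ℤ)) * (κ * n0) := by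
        apply mul_le_mul_of_nonneg_right _ (by positivity)
        exact mul_le_mul_of_nonneg_left hcard (by positivity)
    _ = ∑ w ∈ Finset.range W, (n * (F w).card : ℤ) * (κ * n0) := by
        rw [Finset.mul_sum, Finset.sum_mul]
    _ ≤ ∑ w ∈ Finset.range W, (D.card * (κ * n + n0 * Δ + κ * n0) : ℤ) :=
        Finset.sum_le_sum (fun w _ => hF w)
    _ = W * (D.card * (κ * n + n0 * Δ + κ * n0)) := by
        rw [Finset.sum_const, Finset.card_range, nsmul_eq_mul]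

theorem recR {T : ℤ → ℤ} (hT : Function.Injective T) {D : Finset ℤ} (hD : ∀ x ∈ D, T x ∈ D)
    (G : Finset ℤ) (hG : G ⊆ D) (a Δ : ℤ) (W n n0 κ : ℕ) (hΔ : 0 < Δ) (hκ : 0 < κ)
    (hn0 : 0 < n0) (hn : n0 < n) (hwin : ∀ x ∈ G, a ≤ x ∧ x < a + W * Δ)
    (hright : ∀ x ∈ G, ∀ k, 1 ≤ k → k < n → ¬ (x < T^[k] x ∧ T^[k] x < x + Δ))
    (hfar : ∀ x ∈ G, ∀ k, 1 ≤ k → k ≤ n0 → (κ : ℤ) < |T^[k] x - x|) :
    (n * G.card : ℤ) * (κ * n0) ≤ W * (D.card * (κ * n + n0 * Δ + κ * n0)) := by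
  classical
  let T' : ℤ → ℤ := fun y => -T (-y)
  have hT' : Function.Injective T' := by
    intro x y h
    have h1 : T (-x) = T (-y) := neg_injective h
    exact neg_injective (hT h1)
  have hit : ∀ k x, T'^[k] x = -T^[k] (-x) := by
    intro k
    induction k with
    | zero => intro x; simp
    | succ k ih =>
      intro x
      rw [Function.iterate_succ_apply', ih, Function.iterate_succ_apply']
      simp only [T', neg_neg]
  have hD' : ∀ x ∈ D.image (fun y => -y), T' x ∈ D.image (fun y => -y) := by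
    intro x hx
    rw [Finset.mem_image] at hx ⊢
    obtain ⟨y, hy, rfl⟩ := hx
    refine ⟨T y, hD y hy, ?_⟩
    simp [T']
  have hc1 : (D.image (fun y => -y)).card = D.card :=
    Finset.card_image_of_injective _ neg_injective
  have hc2 : (G.image (fun y => -y)).card = G.card :=
    Finset.card_image_of_injective _ neg_injective
  have := recL hT' hD' (G.image (fun y => -y)) (Finset.image_subset_image hG)
    (-(a + W * Δ) + 1) Δ W n n0 κ hΔ hκ hn0 hn ?_ ?_ ?_
  · rwa [hc1, hc2] at this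
  · intro x hx
    rw [Finset.mem_image] at hx
    obtain ⟨y, hy, rfl⟩ := hx
    obtain ⟨h1, h2⟩ := hwin y hy
    constructor <;> linarith
  · intro x hx k hk1 hk2 hk3
    rw [Finset.mem_image] at hx
    obtain ⟨y, hy, rfl⟩ := hx
    rw [hit, neg_neg] at hk3
    exact hright y hy k hk1 hk2 ⟨by linarith [hk3.2], by linarith [hk3.1]⟩
  · intro x hx k hk1 hk2
    rw [Finset.mem_image] at hx
    obtain ⟨y, hy, rfl⟩ := hx
    have := hfar y hy k hk1 hk2
    rw [hit, neg_neg, show -T^[k] y - -y = -(T^[k] y - y) by ring, abs_neg]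
    exact this

namespace Sys

variable {A : Type*}

/-- Stage property of a base. -/
def StageGood (S : Sys A) (x : ℤ) (n : ℕ) (Δ : ℤ) (Δ' : ℕ) : Prop :=
  S.Strip x Δ' n ∧ (∃ k, 1 ≤ k ∧ k < n ∧ x - Δ < S.T^[k] x ∧ S.T^[k] x < x) ∧
    (∃ k, 1 ≤ k ∧ k < n ∧ x < S.T^[k] x ∧ S.T^[k] x < x + Δ)

/-- No close return at radius at least `μ0` and at most `κmax`. -/
def NoCR (S : Sys A) (a b : ℤ) (μ0 κmax : ℕ) : Prop :=
  ∀ x, a ≤ x → x < b → ∀ k, 1 ≤ k → ∀ mu : ℕ, μ0 ≤ mu → mu ≤ κmax → S.Strip x mu k →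
    (mu : ℤ) < |S.T^[k] x - x|

/-- The constants of a stage: `n0`, `d`, `n`, `P'`. -/
def sn0 (K P : ℕ) : ℕ := 4 * (64 * P * K)
def sd (C K P : ℕ) : ℕ := 2 * sn0 K P * C * 64
def sn (C K P : ℕ) : ℕ := sn0 K P * (sd C K P + 1)
def sP (C K P : ℕ) : ℕ := 2 * sn C K P * C * 64

open Classical in
theorem stage (S : Sys A) (C K P : ℕ) (hC1 : 1 ≤ C) (hK : 1 ≤ K) (hP : 1 ≤ P)
    (hC : ((Finset.Ico (-1) S.M).filter (fun y => ¬ S.NS y)).card ≤ C)
    (N : ℕ) (hM : S.M ≤ K * N) (a b : ℤ) (ha : 0 ≤ a) (hb : b ≤ S.M) (hab : b ≤ a + N)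
    (μ0 : ℕ) (hμ : 1 ≤ μ0) (hN1 : sd C K P * (μ0 + 8) ≤ N)
    (hN2 : sP C K P ≤ N)
    (hcr : S.NoCR a b μ0 (N / 8)) (Δ : ℕ) (hΔ1 : N ≤ P * Δ) (hΔ2 : Δ ≤ N) :
    16 * ((Finset.Ico a b).filter
      (fun x => ¬ S.StageGood x (sn C K P) Δ (N / sP C K P))).card ≤ N := by
  set n0 := sn0 K P with hn0
  set d := sd C K P with hd
  set n := sn C K P with hn
  set P' := sP C K P with hP'
  have hY : 1 ≤ 64 * P * K := Nat.mul_pos (by omega) hK
  have hn0p : 1 ≤ n0 := by rw [hn0, sn0]; omega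
  have hdp : 1 ≤ d := by
    rw [hd, sd, ← hn0]
    have : 1 ≤ 2 * n0 * C := Nat.mul_pos (by omega) hC1
    omega
  have hnn : n = n0 * (d + 1) := by rw [hn, sn]
  have hnp : n0 < n := by rw [hnn]; nlinarith
  have hP'e : P' = 2 * n * C * 64 := by rw [hP', sP]
  have hP'p : 1 ≤ P' := by
    rw [hP'e]
    have : 1 ≤ 2 * n * C := Nat.mul_pos (by omega) hC1
    omega
  set κ := N / d with hκ
  set Δ' := N / P' with hΔ'
  have hκ1 : κ * d ≤ N := Nat.div_mul_le_self N d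
  have hκ2 : N < (κ + 1) * d := by
    rw [hκ]
    have := Nat.lt_div_mul_add (a := N) (b := d) hdp
    nlinarith
  have hκμ : μ0 + 8 ≤ κ := by
    rw [hκ, Nat.le_div_iff_mul_le (by omega)]
    linarith [mul_comm (μ0 + 8) d]
  have hκN : κ ≤ N / 8 := by
    have hd8 : 8 ≤ d := by
      rw [hd, sd, ← hn0]
      have : 1 ≤ 2 * n0 * C := Nat.mul_pos (by omega) hC1
      omega
    exact Nat.div_le_div_left hd8 (by omega)
  have hNpos : 1 ≤ N := by
    have : 1 ≤ d * (μ0 + 8) := Nat.mul_pos hdp (by omega)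
    omega
  have hΔp : 1 ≤ Δ := by
    by_contra hc
    have : Δ = 0 := by omega
    rw [this, mul_zero] at hΔ1
    omega
  have hΔ'1 : Δ' * P' ≤ N := Nat.div_mul_le_self N P'
  -- bad sets
  set B1 := (Finset.Ico 0 S.M).filter (fun x => ¬ S.Strip x κ n0) with hB1
  set B2 := (Finset.Ico 0 S.M).filter (fun x => ¬ S.Strip x Δ' n) with hB2
  obtain ⟨pL, hpL⟩ : ∃ pL : ℤ → Prop, ∀ x, pL x ↔ (S.Strip x κ n0 ∧
    ∀ k, 1 ≤ k → k < n → ¬ (x - (Δ : ℤ) < S.T^[k] x ∧ S.T^[k] x < x)) := ⟨_, fun _ => Iff.rfl⟩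
  obtain ⟨pR, hpR⟩ : ∃ pR : ℤ → Prop, ∀ x, pR x ↔ (S.Strip x κ n0 ∧
    ∀ k, 1 ≤ k → k < n → ¬ (x < S.T^[k] x ∧ S.T^[k] x < x + (Δ : ℤ))) := ⟨_, fun _ => Iff.rfl⟩
  set XL := (Finset.Ico a b).filter pL with hXL
  set XR := (Finset.Ico a b).filter pR with hXR
  have hsub : (Finset.Ico a b).filter (fun x => ¬ S.StageGood x n Δ Δ') ⊆
      B1 ∪ (B2 ∪ (XL ∪ XR)) := by
    intro x hx
    rw [Finset.mem_filter, Finset.mem_Ico] at hx
    obtain ⟨⟨hx1, hx2⟩, hx3⟩ := hx
    simp only [Finset.mem_union]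
    have hxM : x ∈ Finset.Ico 0 S.M := Finset.mem_Ico.mpr ⟨by omega, by omega⟩
    by_cases c1 : S.Strip x κ n0
    · right
      by_cases c2 : S.Strip x Δ' n
      · right
        by_contra hcon
        push Not at hcon
        obtain ⟨e1, e2⟩ := hcon
        apply hx3
        refine ⟨c2, ?_, ?_⟩
        · by_contra h1
          push Not at h1
          apply e1
          rw [hXL, Finset.mem_filter, Finset.mem_Ico, hpL]
          refine ⟨⟨hx1, hx2⟩, c1, ?_⟩
          rintro k k1 k2 ⟨k3, k4⟩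
          have := h1 k k1 k2 k3
          omega
        · by_contra h1
          push Not at h1
          apply e2
          rw [hXR, Finset.mem_filter, Finset.mem_Ico, hpR]
          refine ⟨⟨hx1, hx2⟩, c1, ?_⟩
          rintro k k1 k2 ⟨k3, k4⟩
          have := h1 k k1 k2 k3
          omega
      · left
        rw [hB2, Finset.mem_filter]
        exact ⟨hxM, c2⟩
    · left
      rw [hB1, Finset.mem_filter]
      exact ⟨hxM, c1⟩
  have hB1c : 64 * B1.card ≤ N := by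
    have := S.badstrip_card κ n0 C hC
    calc 64 * B1.card ≤ 64 * (n0 * (2 * κ) * C) := Nat.mul_le_mul_left _ this
      _ = κ * d := by rw [hd, sd, ← hn0]; ring
      _ ≤ N := hκ1
  have hB2c : 64 * B2.card ≤ N := by
    have := S.badstrip_card Δ' n C hC
    calc 64 * B2.card ≤ 64 * (n * (2 * Δ') * C) := Nat.mul_le_mul_left _ this
      _ = Δ' * P' := by rw [hP'e]; ring
      _ ≤ N := hΔ'1
  have hDc : ((Finset.Ico 0 S.M).card : ℤ) ≤ K * N := by
    rw [Int.card_Ico]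
    have h0 : (0 : ℤ) ≤ K * N := by positivity
    omega
  have hTD : ∀ x ∈ Finset.Ico 0 S.M, S.T x ∈ Finset.Ico 0 S.M := by
    intro x hx
    rw [Finset.mem_Ico] at hx ⊢
    exact S.T_mem hx.1 hx.2
  have hfar : ∀ x, a ≤ x → x < b → S.Strip x κ n0 → ∀ k, 1 ≤ k → k ≤ n0 →
      (κ : ℤ) < |S.T^[k] x - x| := by
    intro x h1 h2 h3 k hk1 hk2
    exact hcr x h1 h2 k hk1 κ (by omega) hκN (h3.mono le_rfl hk2)
  -- arithmetic
  have harith : ∀ g : ℕ, (n * g : ℤ) * (κ * n0) ≤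
      P * ((Finset.Ico 0 S.M).card * (κ * n + n0 * Δ + κ * n0)) → 64 * g ≤ N := by
    intro g hg
    have h1 : (n * g : ℤ) * (κ * n0) ≤ P * ((K * N) * (κ * n + n0 * Δ + κ * n0)) := by
      refine hg.trans ?_
      apply mul_le_mul_of_nonneg_left _ (by positivity)
      exact mul_le_mul_of_nonneg_right hDc (by positivity)
    have h2 : n * g * (κ * n0) ≤ P * ((K * N) * (κ * n + n0 * Δ + κ * n0)) := by
      exact_mod_cast h1
    -- 64 P K (κ n + n0 Δ + κ n0) ≤ n κ n0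
    have hn0Y : n0 = 4 * (64 * P * K) := by rw [hn0, sn0]
    have hΔκ : Δ ≤ 2 * d * κ := by
      have : Δ ≤ N := hΔ2
      have : (κ + 1) * d ≤ 2 * d * κ := by nlinarith
      omega
    set Y := 64 * P * K with hYdef
    have h3 : Y * (κ * n + n0 * Δ + κ * n0) ≤ n * (κ * n0) := by
      have a1 : 4 * (Y * (κ * n)) = n * (κ * n0) := by rw [hn0Y]; ring
      have a2 : 4 * (Y * (κ * n0)) ≤ n * (κ * n0) := by
        have : 4 * (Y * (κ * n0)) = n0 * (κ * n0) := by
          nth_rewrite 3 [hn0Y]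
          ring
        rw [this]
        exact Nat.mul_le_mul_right _ hnp.le
      have a3 : 2 * (Y * (n0 * Δ)) ≤ n * (κ * n0) := by
        calc 2 * (Y * (n0 * Δ)) ≤ 2 * (Y * (n0 * (2 * d * κ))) := by
              apply Nat.mul_le_mul_left
              apply Nat.mul_le_mul_left
              exact Nat.mul_le_mul_left _ hΔκ
          _ = (4 * Y) * d * (κ * n0) := by ring
          _ = n0 * d * (κ * n0) := by rw [← hn0Y]
          _ ≤ n * (κ * n0) := by
              apply Nat.mul_le_mul_right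
              rw [hnn]
              exact Nat.mul_le_mul_left _ (by omega)
      nlinarith
    have h4 : (n * (κ * n0)) * (64 * g) ≤ (n * (κ * n0)) * N := by
      calc (n * (κ * n0)) * (64 * g) = 64 * (n * g * (κ * n0)) := by ring
        _ ≤ 64 * (P * ((K * N) * (κ * n + n0 * Δ + κ * n0))) := Nat.mul_le_mul_left _ h2
        _ = (Y * (κ * n + n0 * Δ + κ * n0)) * N := by rw [hYdef]; ring
        _ ≤ (n * (κ * n0)) * N := Nat.mul_le_mul_right _ h3
    have h5 : 0 < n * (κ * n0) := by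
      apply Nat.mul_pos (by omega)
      exact Nat.mul_pos (by omega) (by omega)
    exact Nat.le_of_mul_le_mul_left h4 h5
  have hbd : ∀ x, x < b → x < a + (P : ℤ) * (Δ : ℤ) := by
    intro x hx
    have : (N : ℤ) ≤ P * Δ := by exact_mod_cast hΔ1
    linarith
  have hXLc : 64 * XL.card ≤ N := by
    apply harith
    refine recL S.T_injective hTD XL ?_ a Δ P n n0 κ (by exact_mod_cast hΔp) (by omega)
      (by omega) hnp ?_ ?_ ?_
    · intro x hx
      rw [hXL, Finset.mem_filter, Finset.mem_Ico, hpL] at hx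
      exact Finset.mem_Ico.mpr ⟨by omega, by omega⟩
    · intro x hx
      rw [hXL, Finset.mem_filter, Finset.mem_Ico, hpL] at hx
      exact ⟨hx.1.1, hbd x hx.1.2⟩
    · intro x hx
      rw [hXL, Finset.mem_filter, hpL] at hx
      exact hx.2.2
    · intro x hx
      rw [hXL, Finset.mem_filter, Finset.mem_Ico, hpL] at hx
      exact hfar x hx.1.1 hx.1.2 hx.2.1
  have hXRc : 64 * XR.card ≤ N := by
    apply harith
    refine recR S.T_injective hTD XR ?_ a Δ P n n0 κ (by exact_mod_cast hΔp) (by omega)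
      (by omega) hnp ?_ ?_ ?_
    · intro x hx
      rw [hXR, Finset.mem_filter, Finset.mem_Ico, hpR] at hx
      exact Finset.mem_Ico.mpr ⟨by omega, by omega⟩
    · intro x hx
      rw [hXR, Finset.mem_filter, Finset.mem_Ico, hpR] at hx
      exact ⟨hx.1.1, hbd x hx.1.2⟩
    · intro x hx
      rw [hXR, Finset.mem_filter, hpR] at hx
      exact hx.2.2
    · intro x hx
      rw [hXR, Finset.mem_filter, Finset.mem_Ico, hpR] at hx
      exact hfar x hx.1.1 hx.1.2 hx.2.1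
  have hcard := Finset.card_le_card hsub
  have hu1 := Finset.card_union_le B1 (B2 ∪ (XL ∪ XR))
  have hu2 := Finset.card_union_le B2 (XL ∪ XR)
  have hu3 := Finset.card_union_le XL XR
  omega

end Sys

end Pool.H43.Quad
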