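import Pool.Agent.H43.Quad.Periodic
import Pool.Agent.H43.Quad.Stage
import Pool.Agent.H43.Quad.Chain

/-!
# Every large region of constant rank can be pumped
-/

namespace Pool.H43.Quad

open FreeGroup

namespace Sys

variable {A : Type*} [DecidableEq A] {S : Sys A} {N : Type*} [Monoid N] [Finite N] {L : Lab A N}
  {z0 z1 : ℤ} {m0 ρ : ℕ} {x : ℤ}

theorem close_return [Finite A] (hR : Reg S L z0 z1 m0 ρ) {mu k K0 : ℕ}
    (hK0 : Nat.card (N × N × (A × Bool) × (A × Bool)) ≤ K0) (hmu : m0 + 1 ≤ mu)
    (hmu2 : 10 * K0 + 20 ≤ mu) (hx1 : z0 + mu + m0 + 1 ≤ x) (hx2 : x + mu + m0 + 1 ≤ z1)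
    (hk : 1 ≤ k) (hs : S.Strip x mu k) (hclose : |S.T^[k] x - x| ≤ mu) :
    ∃ x0, z0 ≤ x0 ∧ x0 < z1 ∧ ∀ e, PumpResult S L x0 e := by
  classical
  have h0 : 0 ≤ x := by have := hR.nonneg; omega
  have h1 : x < S.M := by have := hR.le_M; omega
  have hP : ∃ k, 1 ≤ k ∧ |S.T^[k] x - x| ≤ mu := ⟨k, hk, hclose⟩
  set n := Nat.find hP with hn
  obtain ⟨hn1, hn2⟩ := Nat.find_spec hP
  rw [← hn] at hn1 hn2
  have hmin : ∀ k, 1 ≤ k → k < n → (mu : ℤ) < |S.T^[k] x - x| := by
    intro k' h1 h2
    by_contra hc
    push Not at hc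
    exact Nat.find_min hP h2 ⟨h1, hc⟩
  have hnk : n ≤ k := Nat.find_min' hP ⟨hk, hclose⟩
  have hs' : S.Strip x mu n := hs.mono le_rfl hnk
  have hOrb : Orb S x mu n := ⟨by omega, hn1, h0, h1, hs', sep_of_min hs' hmin⟩
  by_cases hper : S.T^[n] x = x
  · obtain ⟨i, hi, hres⟩ := pump_periodic (L := L) K0 hK0 hOrb hmu2 hper
    exact ⟨x + i, by omega, by omega, hres⟩
  · have hsgn := hs'.close hn1 h0 h1 (S.T^[n] x - x) (abs_le.mp hn2) (by ring)
    rw [abs_le] at hn2
    have g0 : S.gp x 0 false = x := by simp [gp, yy, oo, sgn]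
    have gn : S.gp x n false = S.T^[n] x := by simp [gp, yy, oo, hsgn]
    refine ⟨x, by omega, by omega, ?_⟩
    intro e
    refine pump_TB hR hOrb hmu hper (by omega) (s := 0) (by omega) false ?_ ?_ ?_ ?_ ?_ e
    · simp [oo, hsgn, sgn]
    · rw [g0]; omega
    · rw [gn]; omega
    · rw [g0, gn]; exact fun h => hper h.symm
    · rintro k' hk1 hk2 v' ⟨hlo, hhi⟩
      rw [g0, gn] at hlo hhi
      have hyy : -(mu : ℤ) ≤ S.yy x k' v' - x ∧ S.yy x k' v' - x ≤ mu := by
        simp only [gp] at hlo hhi
        split_ifs at hlo hhi <;> omega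
      cases v'
      · have := hmin k' (by omega) hk2
        have h3 := abs_le.mpr hyy
        simp only [yy, cond_false] at h3
        omega
      · refine hs'.sep hn1 h0 h1 (S.yy x k' true - x) hyy 0 k' (by omega) hk2.le ?_
        simp only [Function.iterate_zero, id_eq, yy, cond_true]
        ring

omit [DecidableEq A] in
/-- All hits up to time `n` are far from the base. -/
theorem far_of_noCR {a b : ℤ} {μ0 κmax mu n : ℕ} (hcr : S.NoCR a b μ0 κmax) (hx : a ≤ x ∧ x < b)
    (h0 : 0 ≤ x) (h1 : x < S.M) (hmu1 : μ0 ≤ mu) (hmu2 : mu ≤ κmax) (hs : S.Strip x mu n)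
    (k : ℕ) (hk1 : 1 ≤ k) (hk2 : k ≤ n) (v : Bool) : (mu : ℤ) < |S.yy x k v - x| := by
  cases v
  · exact hcr x hx.1 hx.2 k hk1 mu hmu1 hmu2 (hs.mono le_rfl hk2)
  · by_contra hc
    push Not at hc
    rw [abs_le] at hc
    refine hs.sep (by omega) h0 h1 (S.yy x k true - x) hc 0 k (by omega) hk2 ?_
    simp only [Function.iterate_zero, id_eq, yy, cond_true]
    ring

section Types

variable {n ω : ℕ}

/-- The common hypotheses for the analysis of the types. -/
structure Base (S : Sys A) (L : Lab A N) (z0 z1 : ℤ) (m0 ρ : ℕ) (x : ℤ) (n ω : ℕ) : Prop where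
  reg : Reg S L z0 z1 m0 ρ
  x1 : z0 + ω + m0 + 1 ≤ x
  x2 : x + ω + m0 + 1 ≤ z1
  strip : S.Strip x (m0 + 1) n
  far : ∀ k, 1 ≤ k → k ≤ n → ∀ v, ((m0 + 1 : ℕ) : ℤ) < |S.yy x k v - x|
  nop : ¬ ∀ e, PumpResult S L x e

omit [Finite N] in
theorem Base.orb (hB : Base S L z0 z1 m0 ρ x n ω) {t : ℕ} (ht1 : 1 ≤ t) (ht2 : t ≤ n) :
    Orb S x (m0 + 1) t := by
  have := hB.reg.nonneg
  have := hB.reg.le_M
  have := hB.x1
  have := hB.x2
  have hs := hB.strip.mono le_rfl ht2
  refine ⟨by omega, ht1, by omega, by omega, hs, sep_of_min hs ?_⟩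
  intro k hk1 hk2
  exact hB.far k hk1 (by omega) false

omit [Finite N] in
theorem Base.ne (hB : Base S L z0 z1 m0 ρ x n ω) {t : ℕ} (ht1 : 1 ≤ t) (ht2 : t ≤ n) :
    S.T^[t] x ≠ x := by
  intro h
  have := hB.far t ht1 ht2 false
  simp only [yy, cond_false, h, sub_self, abs_zero] at this
  omega

/-- Two hits of the same type with nothing in between are impossible. -/
theorem Base.tb (hB : Base S L z0 z1 m0 ρ x n ω) {s t : ℕ} (hst : s < t) (ht : t ≤ n) (v : Bool)
    (ho : S.oo x s v = S.oo x t v) (g1 : |S.gp x s v - x| ≤ ω) (g2 : |S.gp x t v - x| ≤ ω)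
    (hne : S.gp x s v ≠ S.gp x t v)
    (hno : ∀ k, s < k → k < t → ∀ v', ¬ (min (S.gp x s v) (S.gp x t v) < S.gp x k v' ∧
      S.gp x k v' < max (S.gp x s v) (S.gp x t v))) : False := by
  apply hB.nop
  intro e
  rw [abs_le] at g1 g2
  have h1 := hB.x1
  have h2 := hB.x2
  exact pump_TB hB.reg (hB.orb (by omega) ht) le_rfl (hB.ne (by omega) ht) (by omega) hst v ho
    (by omega) (by omega) hne hno e

/-- Restriction on the types of the two neighbours in a replacement event. -/
theorem Base.types (hB : Base S L z0 z1 m0 ρ x n ω) {σ : ℤ} (hσ : σ = 1 ∨ σ = -1)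
    {i : ℕ} {vi : Bool} {j : ℕ} {vj : Bool} {k : ℕ} {vk : Bool}
    (hE : Evt (fun k v => S.gp x k v - x) σ i vi j vj k vk) (hk : k ≤ n)
    (wi : |S.gp x i vi - x| ≤ ω) (wj : |S.gp x j vj - x| ≤ ω) :
    vi = true ∧ ¬ (vi = vj ∧ S.oo x i vi = S.oo x j vj) ∧
      ¬ (S.oo x i vi = -1 ∧ vj = true ∧ S.oo x j vj = 1) := by
  obtain ⟨i1, ij, jk, h1, h2, h3, hno⟩ := hE
  have g0 : S.gp x 0 false = x := by simp [gp, yy, oo, sgn]
  have o0 : S.oo x 0 false = 1 := by simp [oo, sgn]
  have wk : |S.gp x k vk - x| ≤ ω := by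
    rw [abs_le] at wi wj ⊢
    rcases hσ with rfl | rfl <;> constructor <;> linarith
  have w0 : |S.gp x 0 false - x| ≤ ω := by rw [g0]; simp
  -- distinct types
  have d0i : ¬ (vi = false ∧ S.oo x i vi = 1) := by
    rintro ⟨rfl, ho⟩
    refine hB.tb (s := 0) (t := i) (by omega) (by omega) false (by rw [o0, ho]) w0 wi ?_ ?_
    · rw [g0]; intro h; rw [← h] at h1; simp at h1; linarith
    · rintro k' k1 k2 v' ⟨k3, k4⟩
      rw [g0] at k3 k4
      apply hno k' v' (by omega) (by omega)
      rcases hσ with rfl | rfl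
      · rw [min_eq_right (by linarith)] at k3
        rw [max_eq_left (by linarith)] at k4
        constructor <;> linarith
      · rw [min_eq_left (by linarith)] at k3
        rw [max_eq_right (by linarith)] at k4
        constructor <;> linarith
  have d0j : ¬ (vj = false ∧ S.oo x j vj = 1) := by
    rintro ⟨rfl, ho⟩
    refine hB.tb (s := 0) (t := j) (by omega) (by omega) false (by rw [o0, ho]) w0 wj ?_ ?_
    · rw [g0]; intro h; rw [← h] at h3; simp at h3
    · rintro k' k1 k2 v' ⟨k3, k4⟩
      rw [g0] at k3 k4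
      apply hno k' v' (by omega) (by omega)
      rcases hσ with rfl | rfl
      · rw [min_eq_left (by linarith)] at k3
        rw [max_eq_right (by linarith)] at k4
        constructor <;> linarith
      · rw [min_eq_right (by linarith)] at k3
        rw [max_eq_left (by linarith)] at k4
        constructor <;> linarith
  have d0k : ¬ (vk = false ∧ S.oo x k vk = 1) := by
    rintro ⟨rfl, ho⟩
    refine hB.tb (s := 0) (t := k) (by omega) (by omega) false (by rw [o0, ho]) w0 wk ?_ ?_
    · rw [g0]; intro h; rw [← h] at h2; simp at h2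
    · rintro k' k1 k2 v' ⟨k3, k4⟩
      rw [g0] at k3 k4
      apply hno k' v' (by omega) (by omega)
      rcases hσ with rfl | rfl
      · rw [min_eq_right (by linarith)] at k3
        rw [max_eq_left (by linarith)] at k4
        constructor <;> linarith
      · rw [min_eq_left (by linarith)] at k3
        rw [max_eq_right (by linarith)] at k4
        constructor <;> linarith
  have dij : ¬ (vi = vj ∧ S.oo x i vi = S.oo x j vj) := by
    rintro ⟨rfl, ho⟩
    refine hB.tb (s := i) (t := j) (by omega) (by omega) vi ho wi wj ?_ ?_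
    · intro h; rw [h] at h1; rcases hσ with rfl | rfl <;> linarith
    · rintro k' k1 k2 v' ⟨k3, k4⟩
      apply hno k' v' (by omega) (by omega)
      rcases hσ with rfl | rfl
      · rw [min_eq_left (by linarith)] at k3
        rw [max_eq_right (by linarith)] at k4
        constructor <;> linarith
      · rw [min_eq_right (by linarith)] at k3
        rw [max_eq_left (by linarith)] at k4
        constructor <;> linarith
  have dik : ¬ (vi = vk ∧ S.oo x i vi = S.oo x k vk) := by
    rintro ⟨rfl, ho⟩
    refine hB.tb (s := i) (t := k) (by omega) (by omega) vi ho wi wk ?_ ?_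
    · intro h; rw [h] at h1; linarith
    · rintro k' k1 k2 v' ⟨k3, k4⟩
      apply hno k' v' (by omega) (by omega)
      rcases hσ with rfl | rfl
      · rw [min_eq_left (by linarith)] at k3
        rw [max_eq_right (by linarith)] at k4
        constructor <;> linarith
      · rw [min_eq_right (by linarith)] at k3
        rw [max_eq_left (by linarith)] at k4
        constructor <;> linarith
  have djk : ¬ (vj = vk ∧ S.oo x j vj = S.oo x k vk) := by
    rintro ⟨rfl, ho⟩
    refine hB.tb (s := j) (t := k) (by omega) (by omega) vj ho wj wk ?_ ?_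
    · intro h; rw [h] at h3; linarith
    · rintro k' k1 k2 v' ⟨k3, k4⟩
      apply hno k' v' (by omega) (by omega)
      rcases hσ with rfl | rfl
      · rw [min_eq_right (by linarith)] at k3
        rw [max_eq_left (by linarith)] at k4
        constructor <;> linarith
      · rw [min_eq_left (by linarith)] at k3
        rw [max_eq_right (by linarith)] at k4
        constructor <;> linarith
  have oi := S.oo_pm x i vi
  have oj := S.oo_pm x j vj
  have ok := S.oo_pm x k vk
  -- the two-strand pattern
  have key : ∀ (hb : S.oo x i vi = -1) (hj : vj = true) (hk' : vk = !vi)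
      (hc : S.oo x j vj = - S.oo x k vk), False := by
    intro hb hj hk' hc
    subst hj
    subst hk'
    apply hB.nop
    intro e
    have x1 := hB.x1
    have x2 := hB.x2
    rw [abs_le] at wi wj
    rcases hσ with rfl | rfl
    · refine pump_P2 hB.reg (hB.orb (show 1 ≤ k by omega) hk) le_rfl (hB.ne (by omega) hk)
        (show 0 < i by omega) ij jk vi hb hc (l := S.gp x i vi) (w := S.gp x k (!vi)) (p := x)
        (r := S.gp x j true) (by linarith) (by linarith) (by linarith) (by omega) (by omega)
        (Or.inl ⟨rfl, rfl, rfl, rfl⟩) ?_ e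
      rintro k' k1 k2 v' ⟨k3, k4⟩
      exact hno k' v' (by omega) (by omega) ⟨by linarith, by linarith⟩
    · refine pump_P2 hB.reg (hB.orb (show 1 ≤ k by omega) hk) le_rfl (hB.ne (by omega) hk)
        (show 0 < i by omega) ij jk vi hb hc (l := S.gp x j true) (w := x)
        (p := S.gp x k (!vi)) (r := S.gp x i vi) (by linarith) (by linarith) (by linarith)
        (by omega) (by omega) (Or.inr ⟨rfl, rfl, rfl, rfl⟩) ?_ e
      rintro k' k1 k2 v' ⟨k3, k4⟩
      exact hno k' v' (by omega) (by omega) ⟨by linarith, by linarith⟩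
  refine ⟨?_, dij, ?_⟩
  · by_contra hvi
    have hvi' : vi = false := by cases vi <;> simp_all
    subst hvi'
    have oi' : S.oo x i false = -1 := by
      rcases oi with h | h
      · exact absurd ⟨rfl, h⟩ d0i
      · exact h
    have hvj : vj = true := by
      by_contra hc
      have : vj = false := by cases vj <;> simp_all
      subst this
      rcases oj with h | h
      · exact d0j ⟨rfl, h⟩
      · exact dij ⟨rfl, by rw [oi', h]⟩
    have hvk : vk = true := by
      by_contra hc
      have : vk = false := by cases vk <;> simp_all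
      subst this
      rcases ok with h | h
      · exact d0k ⟨rfl, h⟩
      · exact dik ⟨rfl, by rw [oi', h]⟩
    refine key oi' hvj (by rw [hvk]; rfl) ?_
    subst hvj; subst hvk
    rcases oj with h | h <;> rcases ok with h' | h'
    · exact absurd ⟨rfl, by rw [h, h']⟩ djk
    · rw [h, h']; norm_num
    · rw [h, h']
    · exact absurd ⟨rfl, by rw [h, h']⟩ djk
  · rintro ⟨hi, hvj, hoj⟩
    by_cases hvi : vi = true
    · subst hvi
      have hvk : vk = false := by
        by_contra hc
        have hvk' : vk = true := by cases vk <;> simp_all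
        subst hvk'
        rcases ok with h | h
        · exact djk ⟨hvj, by rw [hoj, h]⟩
        · exact dik ⟨rfl, by rw [hi, h]⟩
      subst hvk
      have hok : S.oo x k false = -1 := by
        rcases ok with h | h
        · exact absurd ⟨rfl, h⟩ d0k
        · exact h
      exact key hi hvj rfl (by rw [hoj, hok]; norm_num)
    · have hvi' : vi = false := by cases vi <;> simp_all
      subst hvi'
      have hvk : vk = true := by
        by_contra hc
        have : vk = false := by cases vk <;> simp_all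
        subst this
        rcases ok with h | h
        · exact d0k ⟨rfl, h⟩
        · exact dik ⟨rfl, by rw [hi, h]⟩
      subst hvk
      refine key hi hvj rfl ?_
      rcases ok with h | h
      · exact absurd ⟨hvj, by rw [hoj, h]⟩ djk
      · rw [hoj, h]; norm_num

end Types

end Sys

end Pool.H43.Quad
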