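import Mathlib

/-!
# Cancellation systems of quadratic equations
-/

namespace Pool.H43.Quad

open FreeGroup

/-- The inverse letter. -/
def inv {A : Type*} (p : A × Bool) : A × Bool := (p.1, !p.2)

@[simp] theorem inv_inv' {A : Type*} (p : A × Bool) : inv (inv p) = p := by simp [inv]

theorem inv_ne {A : Type*} (p : A × Bool) : inv p ≠ p := by
  intro h
  have := congrArg Prod.snd h
  simp [inv] at this

/-- Apply a sign to a letter. -/
def lp {A : Type*} (s : ℤ) (p : A × Bool) : A × Bool := if s = 1 then p else inv p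

@[simp] theorem lp_one {A : Type*} (p : A × Bool) : lp 1 p = p := by simp [lp]

@[simp] theorem lp_neg_one {A : Type*} (p : A × Bool) : lp (-1) p = inv p := by simp [lp]

theorem lp_mul {A : Type*} {s t : ℤ} (hs : s = 1 ∨ s = -1) (ht : t = 1 ∨ t = -1) (p : A × Bool) :
    lp (s * t) p = lp s (lp t p) := by
  rcases hs with rfl | rfl <;> rcases ht with rfl | rfl <;> simp

/-- A cancellation system: letters `a t` for `0 ≤ t < M`, the cancellation matching `π`, the
occurrence swap `f` with its sign `δ`, and the set `Bd` of positions at which a factor starts. -/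
structure Sys (A : Type*) where
  M : ℤ
  a : ℤ → A × Bool
  π : ℤ → ℤ
  f : ℤ → ℤ
  δ : ℤ → ℤ
  Bd : Finset ℤ
  π_inv : ∀ x, π (π x) = x
  f_inv : ∀ x, f (f x) = x
  π_mem : ∀ x, 0 ≤ x → x < M → 0 ≤ π x ∧ π x < M
  f_mem : ∀ x, 0 ≤ x → x < M → 0 ≤ f x ∧ f x < M
  π_ne : ∀ x, 0 ≤ x → x < M → π x ≠ x
  nc : ∀ x y, 0 ≤ x → x < y → y < π x → π x < M → x < π y ∧ π y < π x
  a_π : ∀ x, 0 ≤ x → x < M → a (π x) = inv (a x)
  δ_pm : ∀ x, δ x = 1 ∨ δ x = -1
  δ_f : ∀ x, 0 ≤ x → x < M → δ (f x) = δ x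
  a_f : ∀ x, 0 ≤ x → x < M → a (f x) = lp (δ x) (a x)
  f_inner : ∀ x, 0 ≤ x → x + 1 < M → x + 1 ∉ Bd →
    f (x + 1) = f x + δ x ∧ δ (x + 1) = δ x ∧
      (0 ≤ min (f x) (f (x + 1)) ∧ min (f x) (f (x + 1)) + 1 < M ∧
        min (f x) (f (x + 1)) + 1 ∉ Bd)
  red : ∀ x, 0 ≤ x → x + 1 < M → x + 1 ∉ Bd → a (x + 1) ≠ inv (a x)
  f_sep : ∀ x, 0 ≤ x → x < M → ¬ ∀ t, min x (f x) < t → t ≤ max x (f x) → t ∉ Bd

namespace Sys

variable {A : Type*} (S : Sys A)

/-- The positions `x` and `x + 1` are adjacent letters of one factor. -/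
def inner (x : ℤ) : Prop := 0 ≤ x ∧ x + 1 < S.M ∧ x + 1 ∉ S.Bd

/-- The positions `x`, `y` belong to the same factor. -/
def same (x y : ℤ) : Prop := ∀ t, min x y < t → t ≤ max x y → t ∉ S.Bd

/-- Non-singular adjacency. -/
def NS (x : ℤ) : Prop := S.inner x ∧ S.π (x + 1) = S.π x - 1 ∧ S.inner (S.π x - 1)

/-- The transition map. -/
def T (x : ℤ) : ℤ := S.f (S.π x)

/-- The orientation sign of `T` at `x`. -/
def sg (x : ℤ) : ℤ := - S.δ (S.π x)

/-- Windows of radius `m` of non-singular adjacencies. -/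
def GW (y : ℤ) (m : ℕ) : Prop := ∀ j : ℤ, -m ≤ j → j < m → S.NS (y + j)

/-- Windows of radius `m` inside one factor. -/
def IW (y : ℤ) (m : ℕ) : Prop := ∀ j : ℤ, -m ≤ j → j < m → S.inner (y + j)

/-- The strip of radius `m` around `x` survives `n` steps. -/
def Strip (x : ℤ) (m n : ℕ) : Prop := ∀ k < n, S.GW (S.T^[k] x) m

/-- Accumulated orientation sign. -/
def sgn : ℕ → ℤ → ℤ
  | 0, _ => 1
  | k + 1, x => S.sg (S.T^[k] x) * sgn k x

variable {S}

theorem π_injective : Function.Injective S.π := fun x y h => by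
  have := congrArg S.π h
  rwa [S.π_inv, S.π_inv] at this

theorem f_injective : Function.Injective S.f := fun x y h => by
  have := congrArg S.f h
  rwa [S.f_inv, S.f_inv] at this

theorem T_injective : Function.Injective S.T := S.f_injective.comp S.π_injective

theorem f_T (x : ℤ) : S.f (S.T x) = S.π x := S.f_inv _

theorem T_mem {x : ℤ} (h0 : 0 ≤ x) (h1 : x < S.M) : 0 ≤ S.T x ∧ S.T x < S.M := by
  obtain ⟨h2, h3⟩ := S.π_mem x h0 h1
  exact S.f_mem _ h2 h3

theorem iter_T_mem (k : ℕ) {x : ℤ} (h0 : 0 ≤ x) (h1 : x < S.M) :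
    0 ≤ S.T^[k] x ∧ S.T^[k] x < S.M := by
  induction k with
  | zero => simpa using ⟨h0, h1⟩
  | succ k ih =>
    rw [Function.iterate_succ_apply']
    exact T_mem ih.1 ih.2

theorem sg_pm (x : ℤ) : S.sg x = 1 ∨ S.sg x = -1 := by
  rcases S.δ_pm (S.π x) with h | h
  · right; simp [sg, h]
  · left; simp [sg, h]

theorem sgn_pm (k : ℕ) (x : ℤ) : S.sgn k x = 1 ∨ S.sgn k x = -1 := by
  induction k with
  | zero => left; rfl
  | succ k ih =>
    change S.sg _ * S.sgn k x = 1 ∨ S.sg _ * S.sgn k x = -1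
    rcases S.sg_pm (S.T^[k] x) with h | h <;> rcases ih with h' | h' <;> simp [h, h']

theorem a_T {x : ℤ} (h0 : 0 ≤ x) (h1 : x < S.M) : S.a (S.T x) = lp (S.sg x) (S.a x) := by
  obtain ⟨h2, h3⟩ := S.π_mem x h0 h1
  rw [T, S.a_f _ h2 h3, S.a_π x h0 h1, sg]
  rcases S.δ_pm (S.π x) with h | h <;> simp [h]

theorem a_iter (k : ℕ) {x : ℤ} (h0 : 0 ≤ x) (h1 : x < S.M) :
    S.a (S.T^[k] x) = lp (S.sgn k x) (S.a x) := by
  induction k with
  | zero => simp [sgn]
  | succ k ih =>
    obtain ⟨h2, h3⟩ := S.iter_T_mem k h0 h1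
    rw [Function.iterate_succ_apply', a_T h2 h3, ih]
    change _ = lp (S.sg _ * S.sgn k x) _
    rw [lp_mul (S.sg_pm _) (S.sgn_pm _ _)]

theorem NS.T_succ {x : ℤ} (h : S.NS x) :
    S.T (x + 1) = S.T x + S.sg x ∧ S.sg (x + 1) = S.sg x ∧ S.inner (min (S.T x) (S.T (x + 1))) := by
  obtain ⟨_, h2, h3, h4, h5⟩ := h
  obtain ⟨e1, e2, e3⟩ := S.f_inner _ h3 h4 h5
  rw [show S.π x - 1 + 1 = S.π x by ring] at e1 e2 e3
  refine ⟨?_, ?_, ?_⟩
  · simp only [T, sg]
    rw [h2, e1, e2]; ring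
  · simp only [sg]; rw [h2, e2]
  · simp only [T]
    rw [h2, min_comm]
    exact e3

theorem GW.mono {y : ℤ} {m m' : ℕ} (h : S.GW y m) (hm : m' ≤ m) : S.GW y m' :=
  fun j h1 h2 => h j (by omega) (by omega)

theorem IW.mono {y : ℤ} {m m' : ℕ} (h : S.IW y m) (hm : m' ≤ m) : S.IW y m' :=
  fun j h1 h2 => h j (by omega) (by omega)

theorem Strip.mono {y : ℤ} {m m' n n' : ℕ} (h : S.Strip y m n) (hm : m' ≤ m) (hn : n' ≤ n) :
    S.Strip y m' n' :=
  fun k hk => (h k (by omega)).mono hm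

theorem GW.iw {y : ℤ} {m : ℕ} (h : S.GW y m) : S.IW y m := fun j h1 h2 => (h j h1 h2).1

theorem GW.T_add {y : ℤ} {m : ℕ} (h : S.GW y m) (j : ℤ) (h1 : -m ≤ j) (h2 : j ≤ m) :
    S.T (y + j) = S.T y + S.sg y * j ∧ S.sg (y + j) = S.sg y := by
  obtain ⟨n, hn⟩ := Int.eq_nat_or_neg j
  rcases hn with rfl | rfl
  · induction n with
    | zero => simp
    | succ n ih =>
      obtain ⟨e1, e2⟩ := ih (by omega) (by omega)
      obtain ⟨e3, e4, _⟩ := (h n (by omega) (by omega)).T_succ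
      rw [add_assoc] at e3 e4
      push_cast
      refine ⟨?_, ?_⟩
      · rw [e3, e1, e2]; ring
      · rw [e4, e2]
  · induction n with
    | zero => simp
    | succ n ih =>
      obtain ⟨e1, e2⟩ := ih (by omega) (by omega)
      obtain ⟨e3, e4, _⟩ := (h (-((n + 1 : ℕ) : ℤ)) (by omega) (by omega)).T_succ
      have : y + -((n + 1 : ℕ) : ℤ) + 1 = y + -(n : ℤ) := by push_cast; ring
      rw [this] at e3 e4
      rw [e2] at e4
      refine ⟨?_, e4.symm⟩
      rw [← e4] at e3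
      rw [e1] at e3
      push_cast at e3 ⊢
      linarith

theorem GW.iw_T {y : ℤ} {m : ℕ} (h : S.GW y m) : S.IW (S.T y) m := by
  intro j h1 h2
  rcases S.sg_pm y with hs | hs
  · obtain ⟨e1, _⟩ := h.T_add j h1 h2.le
    obtain ⟨e2, _⟩ := h.T_add (j + 1) (by omega) (by omega)
    obtain ⟨_, _, e3⟩ := (h j h1 h2).T_succ
    rw [add_assoc] at e3
    rw [e1, e2, hs] at e3
    convert e3 using 1
    rw [min_eq_left (by linarith)]; ring
  · obtain ⟨e1, _⟩ := h.T_add (-j - 1) (by omega) (by omega)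
    obtain ⟨e2, _⟩ := h.T_add (-j) (by omega) (by omega)
    obtain ⟨_, _, e3⟩ := (h (-j - 1) (by omega) (by omega)).T_succ
    rw [show y + (-j - 1) + 1 = y + -j by ring] at e3
    rw [e1, e2, hs] at e3
    convert e3 using 1
    rw [min_eq_right (by linarith)]; ring

theorem Strip.iw {x : ℤ} {m n : ℕ} (h : S.Strip x m n) (hn : 1 ≤ n) {k : ℕ} (hk : k ≤ n) :
    S.IW (S.T^[k] x) m := by
  rcases Nat.eq_zero_or_pos k with rfl | h0
  · exact (h 0 (by omega)).iw
  · obtain ⟨k, rfl⟩ : ∃ k', k = k' + 1 := ⟨k - 1, by omega⟩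
    rw [Function.iterate_succ_apply']
    exact (h k (by omega)).iw_T

theorem Strip.T_add {x : ℤ} {m n : ℕ} (h : S.Strip x m n) {k : ℕ} (hk : k ≤ n) (j : ℤ)
    (h1 : -m ≤ j) (h2 : j ≤ m) :
    S.T^[k] (x + j) = S.T^[k] x + S.sgn k x * j ∧ S.sgn k (x + j) = S.sgn k x := by
  induction k with
  | zero => simp [sgn]
  | succ k ih =>
    obtain ⟨e1, e2⟩ := ih (by omega)
    rw [Function.iterate_succ_apply', Function.iterate_succ_apply']
    change _ ∧ S.sg (S.T^[k] (x + j)) * S.sgn k (x + j) = S.sg (S.T^[k] x) * S.sgn k x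
    have hb : -(m : ℤ) ≤ S.sgn k x * j ∧ S.sgn k x * j ≤ m := by
      rcases S.sgn_pm k x with hs | hs <;> rw [hs] <;> constructor <;> linarith
    obtain ⟨e3, e4⟩ := (h k (by omega)).T_add _ hb.1 hb.2
    rw [e1, e2, e3, e4]
    refine ⟨?_, rfl⟩
    change _ = _ + (S.sg (S.T^[k] x) * S.sgn k x) * j
    ring

theorem same_of_iw {y z w : ℤ} {m : ℕ} (h : S.IW y m) (hz : -m ≤ z - y ∧ z - y ≤ m)
    (hw : -m ≤ w - y ∧ w - y ≤ m) : S.same z w := by
  intro t h1 h2
  have := (h (t - 1 - y) (by omega) (by omega)).2.2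
  rwa [show y + (t - 1 - y) + 1 = t by ring] at this

theorem π_sep {x : ℤ} (h0 : 0 ≤ x) (h1 : x < S.M) : ¬ S.same x (S.π x) := by
  intro hs
  wlog hlt : x < S.π x generalizing x
  · obtain ⟨h2, h3⟩ := S.π_mem x h0 h1
    have hne := S.π_ne x h0 h1
    refine this h2 h3 ?_ ?_
    · rw [S.π_inv]
      intro t ht1 ht2
      exact hs t (by omega) (by omega)
    · rw [S.π_inv]; omega
  obtain ⟨h2, h3⟩ := S.π_mem x h0 h1
  -- strong induction on the distance
  have key : ∀ d : ℕ, ∀ x : ℤ, 0 ≤ x → x < S.M → x < S.π x → (S.π x - x).toNat ≤ d →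
      S.same x (S.π x) → False := by
    intro d
    induction d with
    | zero => intro x _ _ h _ _; omega
    | succ d ih =>
      intro x h0 h1 hlt hd hs
      obtain ⟨h2, h3⟩ := S.π_mem x h0 h1
      by_cases hc : S.π x = x + 1
      · have hin : x + 1 ∉ S.Bd := hs (x + 1) (by omega) (by omega)
        have := S.red x h0 (by omega) hin
        rw [← hc, S.a_π x h0 h1] at this
        exact this rfl
      · obtain ⟨e1, e2⟩ := S.nc x (x + 1) h0 (by omega) (by omega) h3
        have hne := S.π_ne (x + 1) (by omega) (by omega)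
        refine ih (x + 1) (by omega) (by omega) (by omega) (by omega) ?_
        intro t ht1 ht2
        exact hs t (by omega) (by omega)
  exact key _ x h0 h1 hlt le_rfl hs

/-- Leaving and arrival letters of a strip never come close to each other. -/
theorem Strip.sep {x : ℤ} {m n : ℕ} (h : S.Strip x m n) (hn : 1 ≤ n) (h0 : 0 ≤ x) (h1 : x < S.M)
    (e : ℤ) (he : -m ≤ e ∧ e ≤ m) (i j : ℕ) (hi : i ≤ n) (hj : j ≤ n) :
    S.T^[i] (x + e) ≠ S.f (S.T^[j] x) := by
  have key : ∀ d : ℕ, ∀ i j : ℕ, i ≤ n → j ≤ n → (i - j) + (j - i) ≤ d →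
      S.T^[i] (x + e) ≠ S.f (S.T^[j] x) := by
    have hb : ∀ k, -(m : ℤ) ≤ S.sgn k x * e ∧ S.sgn k x * e ≤ m := by
      intro k
      rcases S.sgn_pm k x with hs | hs <;> rw [hs] <;> constructor <;> linarith
    have base0 : ∀ i ≤ n, S.T^[i] (x + e) ≠ S.f (S.T^[i] x) := by
      intro i hi heq
      obtain ⟨e1, _⟩ := h.T_add hi e he.1 he.2
      have hiw := h.iw hn hi
      obtain ⟨h2, h3⟩ := S.iter_T_mem i h0 h1
      apply S.f_sep _ h2 h3
      rw [← heq, e1]
      exact same_of_iw hiw (by constructor <;> linarith) (by have := hb i; constructor <;> linarith)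
    have base1 : ∀ i, i + 1 ≤ n → S.T^[i + 1] (x + e) ≠ S.f (S.T^[i] x) := by
      intro i hi heq
      rw [Function.iterate_succ_apply'] at heq
      have h4 := f_injective heq
      obtain ⟨e1, _⟩ := h.T_add (show i ≤ n by omega) e he.1 he.2
      have hiw := h.iw hn (show i ≤ n by omega)
      obtain ⟨h2, h3⟩ := S.iter_T_mem i h0 h1
      have h5 := hiw
      have h6 : S.T^[i] (x + e) = S.π (S.T^[i] x) := by rw [← h4, S.π_inv]
      apply S.π_sep h2 h3
      rw [← h6, e1]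
      exact same_of_iw hiw (by constructor <;> linarith) (by have := hb i; constructor <;> linarith)
    have base2 : ∀ i, i + 1 ≤ n → S.T^[i] (x + e) ≠ S.f (S.T^[i + 1] x) := by
      intro i hi heq
      rw [Function.iterate_succ_apply', f_T] at heq
      obtain ⟨e1, _⟩ := h.T_add (show i ≤ n by omega) e he.1 he.2
      have hiw := h.iw hn (show i ≤ n by omega)
      obtain ⟨h2, h3⟩ := S.iter_T_mem i h0 h1
      apply S.π_sep h2 h3
      rw [← heq, e1]
      exact same_of_iw hiw (by constructor <;> linarith) (by have := hb i; constructor <;> linarith)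
    intro d
    induction d with
    | zero =>
      intro i j hi _ hd
      obtain rfl : i = j := by omega
      exact base0 i hi
    | succ d ih =>
      intro i j hi hj hd heq
      rcases lt_trichotomy i j with hij | rfl | hij
      · obtain ⟨j, rfl⟩ : ∃ j', j = j' + 1 := ⟨j - 1, by omega⟩
        rcases Nat.eq_or_lt_of_le (show i ≤ j by omega) with rfl | hlt
        · exact base2 i hj heq
        · rw [Function.iterate_succ_apply', f_T] at heq
          refine ih (i + 1) j (by omega) (by omega) (by omega) ?_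
          rw [Function.iterate_succ_apply', T, heq, S.π_inv]
      · exact base0 i hi heq
      · obtain ⟨i, rfl⟩ : ∃ i', i = i' + 1 := ⟨i - 1, by omega⟩
        rcases Nat.eq_or_lt_of_le (show j ≤ i by omega) with rfl | hlt
        · exact base1 j hi heq
        · rw [Function.iterate_succ_apply'] at heq
          have h4 := f_injective heq
          refine ih i (j + 1) (by omega) (by omega) (by omega) ?_
          rw [Function.iterate_succ_apply', f_T, ← h4, S.π_inv]
  exact key _ i j hi hj le_rfl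

/-- A close return preserves the orientation. -/
theorem Strip.close {x : ℤ} {m k : ℕ} (h : S.Strip x m k) (hk : 1 ≤ k) (h0 : 0 ≤ x) (h1 : x < S.M)
    (e : ℤ) (he : -m ≤ e ∧ e ≤ m) (hT : S.T^[k] x = x + e) : S.sgn k x = 1 := by
  rcases S.sgn_pm k x with hs | hs
  · exact hs
  exfalso
  have hiw := h.iw hk (Nat.zero_le k)
  simp only [Function.iterate_zero, id_eq] at hiw
  have hlet : ∀ j : ℤ, -m ≤ j → j ≤ m → 0 ≤ x + j → x + j < S.M →
      S.a (x + e - j) = inv (S.a (x + j)) := by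
    intro j hj1 hj2 h2 h3
    obtain ⟨e1, e2⟩ := h.T_add le_rfl j hj1 hj2
    have := a_iter k h2 h3
    rw [e2, e1, hs, hT] at this
    simp only [lp_neg_one] at this
    rw [← this]; congr 1; ring
  have hmem : ∀ j : ℤ, -m ≤ j → j ≤ m → 0 ≤ x + j ∧ x + j < S.M := by
    intro j hj1 hj2
    rcases lt_or_ge j m with hlt | hge
    · obtain ⟨a1, a2, _⟩ := hiw j hj1 hlt
      exact ⟨a1, by omega⟩
    · rcases Nat.eq_zero_or_pos m with hm | hm
      · subst hm
        have : j = 0 := by push_cast at hj1 hj2; omega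
        subst this; simpa using ⟨h0, h1⟩
      · obtain ⟨a1, a2, _⟩ := hiw (j - 1) (by omega) (by omega)
        exact ⟨by omega, by omega⟩
  obtain ⟨c, hc⟩ : ∃ c, e = 2 * c ∨ e = 2 * c + 1 := ⟨e / 2, by omega⟩
  have hc1 : -(m : ℤ) ≤ c := by omega
  have hc2 : c ≤ m := by omega
  obtain ⟨g1, g2⟩ := hmem c hc1 hc2
  have hl := hlet c hc1 hc2 g1 g2
  rcases hc with rfl | rfl
  · rw [show x + 2 * c - c = x + c by ring] at hl
    exact inv_ne _ hl.symm
  · rw [show x + (2 * c + 1) - c = x + c + 1 by ring] at hl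
    obtain ⟨i1, i2, i3⟩ := hiw c hc1 (by omega)
    exact S.red _ i1 i2 i3 hl

end Sys

end Pool.H43.Quad
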