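import Pool.Agent.H43.Quad.BuildSys
import Pool.Agent.H43.Quad.Pump
import Pool.Agent.H43.Quad.Mon

/-!
# Reading concatenations of words
-/

namespace Pool.H43.Quad

open FreeGroup

section

variable {A : Type*}

theorem rd_getD_mid (u v t : List (A × Bool)) (a0 : A × Bool) :
    rd (fun x : ℤ => (u ++ v ++ t).getD x.toNat a0) u.length v.length = v := by
  apply List.ext_getElem
  · rw [rd_length]
  · intro j h1 h2
    simp only [rd, List.getElem_map, List.getElem_range]
    have h3 : ((u.length : ℤ) + (j : ℤ)).toNat = u.length + j := by omega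
    rw [h3, List.append_assoc, List.getD_append_right _ _ _ _ (by omega),
      Nat.add_sub_cancel_left, List.getD_append _ _ _ _ h2, List.getD_eq_getElem _ _ h2]

theorem rd_get {a : ℤ → A × Bool} {i : ℤ} {n : ℕ} {u : List (A × Bool)} (h : rd a i n = u)
    (a0 : A × Bool) {j : ℤ} (h0 : 0 ≤ j) (h1 : j < n) : a (i + j) = u.getD j.toNat a0 := by
  subst h
  have h2 : j.toNat < (rd a i n).length := by rw [rd_length]; omega
  rw [List.getD_eq_getElem _ _ h2]
  simp only [rd, List.getElem_map, List.getElem_range]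
  congr 2; omega

theorem rd_red {a : ℤ → A × Bool} {i : ℤ} {n : ℕ} (h : IsReduced (rd a i n)) {j : ℤ}
    (h0 : 0 ≤ j) (h1 : j + 1 < n) : a (i + j + 1) ≠ inv (a (i + j)) := by
  obtain ⟨d, rfl⟩ : ∃ d : ℕ, j = d := ⟨j.toNat, by omega⟩
  obtain ⟨e, rfl⟩ : ∃ e : ℕ, n = d + (e + 2) := ⟨n - d - 2, by omega⟩
  rw [rd_append, rd_succ, rd_succ] at h
  have h2 : IsReduced [a (i + d), a (i + d + 1)] :=
    isRed_sub h ⟨rd a i d, rd a (i + d + 1 + 1) e, by simp⟩
  rw [isReduced_cons_cons] at h2
  intro h3
  have h4 := h2.1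
  rw [h3] at h4
  have h5 := h4 rfl
  simp [inv] at h5

theorem invRev_getD (u : List (A × Bool)) (a0 : A × Bool) {j : ℕ} (hj : j < u.length) :
    (invRev u).getD (u.length - 1 - j) a0 = inv (u.getD j a0) := by
  have h1 : u.length - 1 - j < (invRev u).length := by rw [invRev_length]; omega
  rw [List.getD_eq_getElem _ _ h1, List.getD_eq_getElem _ _ hj]
  have e : invRev u = (u.map inv).reverse := rfl
  simp only [e, List.getElem_reverse, List.getElem_map]
  congr 1
  apply getElem_congr_idx
  rw [List.length_map]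
  omega

variable {C : Type*} (g : C → List (A × Bool))

theorem off_len (Ls : List C) (c0 : C) (k : ℕ) (hk : k ≤ Ls.length) :
    ∑ j ∈ Finset.range k, ((g (Ls.getD j c0)).length : ℤ) =
      ((((Ls.take k).map g).flatten.length : ℕ) : ℤ) := by
  induction k with
  | zero => simp
  | succ k ih =>
    rw [Finset.sum_range_succ, ih (by omega), List.take_add_one, List.map_append,
      List.flatten_append, List.length_append]
    have h1 : Ls[k]? = some Ls[k] := List.getElem?_eq_getElem (by omega)
    rw [h1, List.getD_eq_getElem _ _ (by omega)]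
    simp

theorem read_flat (Ls : List C) (c0 : C) (a0 : A × Bool) (k : ℕ) (hk : k < Ls.length) :
    rd (fun x : ℤ => ((Ls.map g).flatten).getD x.toNat a0)
      (∑ j ∈ Finset.range k, ((g (Ls.getD j c0)).length : ℤ)) (g (Ls.getD k c0)).length =
      g (Ls.getD k c0) := by
  rw [off_len g Ls c0 k hk.le]
  have h1 : Ls = Ls.take k ++ (Ls[k] :: Ls.drop (k + 1)) := by
    rw [List.getElem_cons_drop, List.take_append_drop]
  have h2 : (Ls.map g).flatten = ((Ls.take k).map g).flatten ++ g Ls[k] ++
      ((Ls.drop (k + 1)).map g).flatten := by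
    conv_lhs => rw [h1]
    rw [List.map_append, List.map_cons, List.flatten_append, List.flatten_cons, List.append_assoc]
  rw [List.getD_eq_getElem _ _ hk, h2]
  exact rd_getD_mid _ _ _ _

/-- Joining matchings of adjacent intervals. -/
theorem Matching.join {a : ℤ → A × Bool} {π1 π2 : ℤ → ℤ} {i j k : ℤ} (h1 : Matching a π1 i j)
    (h2 : Matching a π2 j k) (hij : i ≤ j) (hjk : j ≤ k) :
    ∃ π, Matching a π i k ∧ ∀ x, i ≤ x → x < j → i ≤ π x ∧ π x < j := by
  let π : ℤ → ℤ := fun x => if x < j then π1 x else π2 x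
  have p1 : ∀ x, x < j → π x = π1 x := fun x hx => by simp only [π]; rw [if_pos hx]
  have p2 : ∀ x, j ≤ x → π x = π2 x := fun x hx => by simp only [π]; rw [if_neg (by omega)]
  have lo : ∀ x, x < i → π x = x := fun x hx => by
    rw [p1 x (by omega)]; exact h1.out x (by omega)
  have hi : ∀ x, k ≤ x → π x = x := fun x hx => by
    rw [p2 x (by omega)]; exact h2.out x (by omega)
  refine ⟨π, ⟨?_, ?_, ?_, ?_, ?_, ?_⟩, ?_⟩
  · intro x
    by_cases c1 : x < i
    · rw [lo x c1, lo x c1]
    by_cases c2 : k ≤ x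
    · rw [hi x c2, hi x c2]
    by_cases c3 : x < j
    · obtain ⟨d1, d2⟩ := h1.mem x (by omega) c3
      rw [p1 x c3, p1 _ d2, h1.inv']
    · obtain ⟨d1, d2⟩ := h2.mem x (by omega) (by omega)
      rw [p2 x (by omega), p2 _ d1, h2.inv']
  · intro x hx
    by_cases c1 : x < i
    · exact lo x c1
    · exact hi x (by omega)
  · intro x hx1 hx2
    by_cases c3 : x < j
    · obtain ⟨d1, d2⟩ := h1.mem x (by omega) c3
      rw [p1 x c3]; omega
    · obtain ⟨d1, d2⟩ := h2.mem x (by omega) (by omega)
      rw [p2 x (by omega)]; omega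
  · intro x hx1 hx2
    by_cases c3 : x < j
    · rw [p1 x c3]; exact h1.ne x hx1 c3
    · rw [p2 x (by omega)]; exact h2.ne x (by omega) hx2
  · intro x y hx1 hxy hy hπ
    by_cases c3 : x < j
    · obtain ⟨d1, d2⟩ := h1.mem x (by omega) c3
      rw [p1 x c3] at hy hπ ⊢
      rw [p1 y (by omega)]
      exact h1.nc x y hx1 hxy hy d2
    · rw [p2 x (by omega)] at hy hπ ⊢
      rw [p2 y (by omega)]
      exact h2.nc x y (by omega) hxy hy hπ
  · intro x hx1 hx2
    by_cases c3 : x < j
    · rw [p1 x c3]; exact h1.let' x hx1 c3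
    · rw [p2 x (by omega)]; exact h2.let' x (by omega) hx2
  · intro x hx1 hx2
    rw [p1 x hx2]; exact h1.mem x hx1 hx2

theorem countP_three {D : Type*} (l : List D) (p : D → Bool) (d0 : D) {i j k : ℕ} (hij : i < j)
    (hjk : j < k) (hk : k < l.length) (h1 : p (l.getD i d0) = true) (h2 : p (l.getD j d0) = true)
    (h3 : p (l.getD k d0) = true) : 3 ≤ l.countP p := by
  rw [List.getD_eq_getElem _ _ (by omega)] at h1 h2 h3
  have e1 : l = l.take j ++ (l[j] :: l.drop (j + 1)) := by
    rw [List.getElem_cons_drop, List.take_append_drop]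
  have c1 : 0 < (l.take j).countP p := by
    rw [List.countP_pos_iff]
    refine ⟨l[i], ?_, h1⟩
    rw [List.mem_take_iff_getElem]
    exact ⟨i, by omega, rfl⟩
  have c2 : 0 < (l.drop (j + 1)).countP p := by
    rw [List.countP_pos_iff]
    refine ⟨l[k], ?_, h3⟩
    rw [List.mem_drop_iff_getElem]
    exact ⟨k - (j + 1), by omega, by congr 1; omega⟩
  rw [e1, List.countP_append, List.countP_cons, if_pos h2]
  omega

end

end Pool.H43.Quad
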